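import Pool.Agent.H628R3.RO.BaseE
import Pool.Agent.H628R3.RO.D1
import Pool.Agent.H628R3.RO.M2
import Pool.Agent.H628R3.RO.M4

/-! Task D3: facts about the two-sided blocks. -/

namespace Pool.Agent.H628R3.RO

open MeasureTheory Pool.Agent.NPC

theorem card_halfN (i : Bool) (n : ℕ) : (halfN i n).card = 2 ^ n := by
  unfold halfN
  rw [card_cands, Finset.card_singleton, one_mul]

theorem card_halfC (i : Bool) (n s : ℕ) : (halfC i n s).card = lvC s * 2 ^ n := by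
  unfold halfC
  rw [card_cands, Nat.card_Ico, add_mul, one_mul, Nat.add_sub_cancel_left]

theorem disjoint_halfN (n : ℕ) : Disjoint (halfN false n) (halfN true n) := by
  rw [Finset.disjoint_left]
  intro κ h1 h2
  unfold halfN at h1 h2
  rw [mem_cands, Finset.mem_singleton] at h1 h2
  have h3 : (false : Bool).toNat = 0 := rfl
  have h4 : (true : Bool).toNat = 1 := rfl
  omega

theorem disjoint_halfC (n s : ℕ) : Disjoint (halfC false n s) (halfC true n s) := by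
  rw [Finset.disjoint_left]
  intro κ h1 h2
  unfold halfC at h1 h2
  rw [mem_cands, Finset.mem_Ico] at h1 h2
  have h3 : (false : Bool).toNat = 0 := rfl
  have h4 : (true : Bool).toNat = 1 := rfl
  rw [h3] at h1
  rw [h4] at h2
  omega

theorem size_le_self (s : ℕ) : s.size ≤ s := Nat.size_le.2 Nat.lt_two_pow_self

theorem mem_spotsN {n s : ℕ} {x : List Bool} :
    x ∈ spotsN n s ↔ ∃ c ≤ 1, ∃ i < n + s.size, ∃ w : List Bool, w.length = n ∧ x = pos c i w := by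
  unfold spotsN
  rw [mem_allSpots]
  constructor
  · rintro ⟨κ, hκ, i, hi, rfl⟩
    rw [Finset.mem_union] at hκ
    unfold halfN at hκ
    rw [mem_cands, mem_cands, Finset.mem_singleton, Finset.mem_singleton] at hκ
    have h3 : (false : Bool).toNat = 0 := rfl
    have h4 : (true : Bool).toNat = 1 := rfl
    refine ⟨κ.1, ?_, i, hi, κ.2, ?_, rfl⟩
    · rcases hκ with h | h <;> omega
    · rcases hκ with h | h
      · exact h.2
      · exact h.2
  · rintro ⟨c, hc, i, hi, w, hw, rfl⟩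
    refine ⟨(c, w), ?_, i, hi, rfl⟩
    rw [Finset.mem_union]
    unfold halfN
    rw [mem_cands, mem_cands, Finset.mem_singleton, Finset.mem_singleton]
    have h3 : (false : Bool).toNat = 0 := rfl
    have h4 : (true : Bool).toNat = 1 := rfl
    rcases Nat.le_one_iff_eq_zero_or_eq_one.1 hc with h | h
    · exact Or.inl ⟨h, hw⟩
    · exact Or.inr ⟨h, hw⟩

theorem mem_spotsC {n s : ℕ} {x : List Bool} :
    x ∈ spotsC n s ↔ ∃ c < 2 * lvC s, ∃ i < n, ∃ w : List Bool, w.length = n ∧ x = pos c i w := by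
  unfold spotsC
  rw [mem_allSpots]
  have h3 : (false : Bool).toNat = 0 := rfl
  have h4 : (true : Bool).toNat = 1 := rfl
  constructor
  · rintro ⟨κ, hκ, i, hi, rfl⟩
    rw [Finset.mem_union] at hκ
    unfold halfC at hκ
    rw [mem_cands, mem_cands, Finset.mem_Ico, Finset.mem_Ico, h3, h4] at hκ
    refine ⟨κ.1, ?_, i, hi, κ.2, ?_, rfl⟩
    · rcases hκ with h | h <;> omega
    · rcases hκ with h | h
      · exact h.2
      · exact h.2
  · rintro ⟨c, hc, i, hi, w, hw, rfl⟩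
    refine ⟨(c, w), ?_, i, hi, rfl⟩
    rw [Finset.mem_union]
    unfold halfC
    rw [mem_cands, mem_cands, Finset.mem_Ico, Finset.mem_Ico, h3, h4]
    rcases lt_or_ge c (lvC s) with h | h
    · exact Or.inl ⟨⟨by simp, by simpa using h⟩, hw⟩
    · exact Or.inr ⟨⟨by simpa using h, by omega⟩, hw⟩

theorem lt_length_spotsN {n s : ℕ} : ∀ x ∈ spotsN n s, n < x.length := by
  intro x hx
  obtain ⟨c, hc, i, hi, w, hw, rfl⟩ := mem_spotsN.1 hx
  rw [length_pos]
  omega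

theorem lt_length_spotsC {n s : ℕ} : ∀ x ∈ spotsC n s, n < x.length := by
  intro x hx
  obtain ⟨c, hc, i, hi, w, hw, rfl⟩ := mem_spotsC.1 hx
  rw [length_pos]
  omega

theorem length_le_spotsN {n s : ℕ} (hs : s ≤ n) : ∀ x ∈ spotsN n s, x.length ≤ 4 * n + 4 := by
  intro x hx
  obtain ⟨c, hc, i, hi, w, hw, rfl⟩ := mem_spotsN.1 hx
  rw [length_pos]
  have := size_le_self s
  omega

theorem length_le_spotsC {n s : ℕ} (hs : s ≤ n) : ∀ x ∈ spotsC n s, x.length ≤ 5 * n + 5 := by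
  intro x hx
  obtain ⟨c, hc, i, hi, w, hw, rfl⟩ := mem_spotsC.1 hx
  rw [length_pos]
  have := size_le_self s
  unfold lvC at hc
  omega

theorem disjoint_spotsN (n n' s s' : ℕ) (h : n ≠ n') : Disjoint (spotsN n s) (spotsN n' s') := by
  rw [Finset.disjoint_left]
  intro x hx hx'
  obtain ⟨c, hc, i, hi, w, hw, rfl⟩ := mem_spotsN.1 hx
  obtain ⟨c', hc', i', hi', w', hw', h2⟩ := mem_spotsN.1 hx'
  obtain ⟨-, -, h3⟩ := pos_inj h2
  apply h
  rw [← hw, ← hw', h3]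

theorem disjoint_spotsC (n n' s s' : ℕ) (h : n ≠ n') : Disjoint (spotsC n s) (spotsC n' s') := by
  rw [Finset.disjoint_left]
  intro x hx hx'
  obtain ⟨c, hc, i, hi, w, hw, rfl⟩ := mem_spotsC.1 hx
  obtain ⟨c', hc', i', hi', w', hw', h2⟩ := mem_spotsC.1 hx'
  obtain ⟨-, -, h3⟩ := pos_inj h2
  apply h
  rw [← hw, ← hw', h3]

theorem halfN_subset (i : Bool) (n : ℕ) : halfN i n ⊆ halfN false n ∪ halfN true n := by
  cases i
  · exact Finset.subset_union_left
  · exact Finset.subset_union_right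

theorem halfC_subset (i : Bool) (n s : ℕ) : halfC i n s ⊆ halfC false n s ∪ halfC true n s := by
  cases i
  · exact Finset.subset_union_left
  · exact Finset.subset_union_right

theorem loc_HitN (i : Bool) (n s : ℕ) : Loc (spotsN n s) (HitN i n s) := by
  unfold HitN
  apply M2.Loc.compl
  apply M2.loc_noHit
  intro κ hκ l hl
  exact Finset.mem_coe.2 (mem_allSpots.2 ⟨κ, halfN_subset i n hκ, l, hl, rfl⟩)

theorem loc_HitC (i : Bool) (n s : ℕ) : Loc (spotsC n s) (HitC i n s) := by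
  unfold HitC
  apply M2.Loc.compl
  apply M2.loc_noHit
  intro κ hκ l hl
  exact Finset.mem_coe.2 (mem_allSpots.2 ⟨κ, halfC_subset i n s hκ, l, hl, rfl⟩)

theorem loc_BadN (n s : ℕ) : Loc (spotsN n s) (BadN n s) :=
  M2.Loc.inter (loc_HitN _ _ _) (loc_HitN _ _ _)

theorem loc_BadC (n s : ℕ) : Loc (spotsC n s) (BadC n s) :=
  M2.Loc.inter (M2.Loc.compl (loc_HitC _ _ _)) (M2.Loc.compl (loc_HitC _ _ _))

theorem loc_TwoN (n s : ℕ) : Loc (spotsN n s) (TwoN n s) := by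
  intro A A' h
  have hh : ∀ κ ∈ halfN false n ∪ halfN true n, (Hit (bitsN n s) κ A ↔ Hit (bitsN n s) κ A') := by
    intro κ hκ
    unfold Hit
    refine forall₂_congr fun l hl => ?_
    rw [h _ (Finset.mem_coe.2 (mem_allSpots.2 ⟨κ, hκ, l, hl, rfl⟩))]
  unfold TwoN
  simp only [Set.mem_ofPred_eq]
  refine exists_congr fun κ => and_congr_right fun hκ => ?_
  refine exists_congr fun κ' => and_congr_right fun hκ' => ?_
  rw [hh κ hκ, hh κ' hκ']

theorem BadC_eq (n s : ℕ) : BadC n s = NoHit n (halfC false n s ∪ halfC true n s) := by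
  unfold BadC HitC
  rw [compl_compl, compl_compl]
  ext A
  unfold NoHit
  simp only [Set.mem_inter_iff, Set.mem_ofPred_eq, Finset.mem_union]
  constructor
  · rintro ⟨h1, h2⟩ κ (hκ | hκ)
    · exact h1 κ hκ
    · exact h2 κ hκ
  · intro h
    exact ⟨fun κ hκ => h κ (Or.inl hκ), fun κ hκ => h κ (Or.inr hκ)⟩

theorem prob_compl_noHit (m : ℕ) (W : Finset Cand) :
    prob (NoHit m W)ᶜ = 1 - (1 - (1 / 2 : ℝ) ^ m) ^ W.card := by
  have h1 := M2.prob_inter_add_compl Set.univ (M2.measurableSet_noHit m W)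
  rw [Set.univ_inter, Set.univ_inter, prob_univ', prob_noHit] at h1
  linarith

theorem prob_BadN (n s : ℕ) :
    prob (BadN n s) = (1 - (1 - (1 / 2 : ℝ) ^ (bitsN n s)) ^ (2 ^ n)) ^ 2 := by
  have hloc : ∀ i, Loc (allSpots (bitsN n s) (halfN i n) : Set (List Bool)) (HitN i n s) := by
    intro i
    unfold HitN
    apply M2.Loc.compl
    apply M2.loc_noHit
    intro κ hκ l hl
    exact Finset.mem_coe.2 (mem_allSpots.2 ⟨κ, hκ, l, hl, rfl⟩)
  have hdis : Disjoint (allSpots (bitsN n s) (halfN false n) : Set (List Bool))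
      (allSpots (bitsN n s) (halfN true n) : Set (List Bool)) := by
    rw [Set.disjoint_left]
    intro x hx hx'
    obtain ⟨κ, hκ, l, _, h1⟩ := mem_allSpots.1 (Finset.mem_coe.1 hx)
    obtain ⟨κ', hκ', l', _, h2⟩ := mem_allSpots.1 (Finset.mem_coe.1 hx')
    rw [h1] at h2
    obtain ⟨h3, -, h4⟩ := pos_inj h2
    have h5 : κ = κ' := Prod.ext h3 h4
    subst h5
    exact Finset.disjoint_left.1 (disjoint_halfN n) hκ hκ'
  unfold BadN
  rw [prob_inter_of_disjoint (Finset.finite_toSet _) (Finset.finite_toSet _) hdis (hloc false)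
    (hloc true)]
  unfold HitN
  rw [prob_compl_noHit, prob_compl_noHit, card_halfN, card_halfN, sq]

theorem prob_BadC (n s : ℕ) :
    prob (BadC n s) = ((1 - (1 / 2 : ℝ) ^ n) ^ (lvC s * 2 ^ n)) ^ 2 := by
  rw [BadC_eq, prob_noHit, Finset.card_union_of_disjoint (disjoint_halfC n s), card_halfC,
    card_halfC, ← pow_mul]
  congr 1
  ring

theorem prob_BadN_le (n s : ℕ) : prob (BadN n s) ≤ (1 / 4) ^ (lvN s) := by
  rw [prob_BadN]
  have h1 := taut_le n (lvN s)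
  have h2 := taut_ge n (lvN s)
  have h3 : (0 : ℝ) ≤ 1 - (1 - (1 / 2 : ℝ) ^ (bitsN n s)) ^ (2 ^ n) :=
    le_trans (by positivity) h2
  calc (1 - (1 - (1 / 2 : ℝ) ^ (bitsN n s)) ^ (2 ^ n)) ^ 2 ≤ ((1 / 2 : ℝ) ^ (lvN s)) ^ 2 :=
        pow_le_pow_left₀ h3 h1 2
    _ = (1 / 4) ^ (lvN s) := by
        rw [← pow_mul, mul_comm, pow_mul]
        norm_num

theorem satC_le_aux (n j : ℕ) : (1 - (1 / 2 : ℝ) ^ n) ^ (j * 2 ^ n) ≤ (2 / 5) ^ j := by
  rw [mul_comm, pow_mul]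
  apply pow_le_pow_left₀ (pow_nonneg (by linarith [half_pow_le_one n]) _)
  refine (sub_pow_le_exp _ (half_pow_le_one n) _).trans ?_
  rw [half_pow_mul, Real.exp_neg]
  rw [inv_le_comm₀ (Real.exp_pos 1) (by norm_num)]
  have := Real.exp_one_gt_d9
  norm_num
  linarith

theorem prob_BadC_le (n s : ℕ) : prob (BadC n s) ≤ (4 / 25) ^ (lvC s) := by
  rw [prob_BadC]
  have h1 := satC_le_aux n (lvC s)
  have h3 : (0 : ℝ) ≤ (1 - (1 / 2 : ℝ) ^ n) ^ (lvC s * 2 ^ n) :=
    pow_nonneg (by linarith [half_pow_le_one n]) _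
  calc ((1 - (1 / 2 : ℝ) ^ n) ^ (lvC s * 2 ^ n)) ^ 2 ≤ ((2 / 5 : ℝ) ^ (lvC s)) ^ 2 :=
        pow_le_pow_left₀ h3 h1 2
    _ = (4 / 25) ^ (lvC s) := by
        rw [← pow_mul, mul_comm, pow_mul]
        norm_num

theorem prob_BadN_ge' (n s : ℕ) : (1 / 4 : ℝ) ^ (lvN s + 1) ≤ prob (BadN n s) := by
  rw [prob_BadN]
  have h2 := taut_ge n (lvN s)
  calc (1 / 4 : ℝ) ^ (lvN s + 1) = ((1 / 2 : ℝ) ^ (lvN s + 1)) ^ 2 := by
        rw [← pow_mul, mul_comm _ 2, pow_mul]
        norm_num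
    _ ≤ _ := pow_le_pow_left₀ (by positivity) h2 2

theorem prob_BadN_ge (s : ℕ) : ∃ c > 0, ∀ n ≥ 1, c ≤ prob (BadN n s) :=
  ⟨(1 / 4 : ℝ) ^ (lvN s + 1), by positivity, fun n _ => prob_BadN_ge' n s⟩

theorem prob_BadC_ge (s : ℕ) : ∃ c > 0, ∀ n ≥ 1, c ≤ prob (BadC n s) := by
  refine ⟨((1 / 4 : ℝ) ^ (lvC s)) ^ 2, by positivity, fun n hn => ?_⟩
  rw [prob_BadC]
  exact pow_le_pow_left₀ (by positivity) (sat_ge hn (lvC s)) 2

theorem prob_hit (m : ℕ) (κ : Cand) : prob {A | Hit m κ A} = (1 / 2) ^ m := by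
  have h := M2.prob_hit_inter (S := Set.univ) MeasurableSet.univ m κ (fun A => by simp)
  rw [Set.univ_inter, prob_univ', mul_one] at h
  exact h

theorem prob_two_hits (m : ℕ) {κ κ' : Cand} (h : κ ≠ κ') :
    prob ({A | Hit m κ' A} ∩ {A | Hit m κ A}) = (1 / 4) ^ m := by
  rw [M2.prob_hit_inter (M2.measurableSet_hit m κ') m κ, prob_hit, ← mul_pow]
  · norm_num
  · intro A
    have h1 := M2.hit_plant (m := m) (κ := κ') (h := {κ})
      (by rw [Finset.mem_singleton]; exact Ne.symm h) A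
    rw [M2.allSpots_singleton] at h1
    exact h1

theorem prob_TwoN_le (n s : ℕ) : prob (TwoN n s) ≤ 16 * prob (BadN n s) := by
  classical
  have h1 : TwoN n s ⊆ ⋃ κ ∈ halfN false n ∪ halfN true n, ⋃ κ' ∈
      (halfN false n ∪ halfN true n).filter (fun κ' => κ ≠ κ'),
      {A | Hit (bitsN n s) κ' A} ∩ {A | Hit (bitsN n s) κ A} := by
    rintro A ⟨κ, hκ, κ', hκ', hne, h1, h2⟩
    simp only [Set.mem_iUnion]
    exact ⟨κ, hκ, κ', Finset.mem_filter.2 ⟨hκ', hne⟩, h2, h1⟩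
  have hcard : (halfN false n ∪ halfN true n).card = 2 * 2 ^ n := by
    rw [Finset.card_union_of_disjoint (disjoint_halfN n), card_halfN, card_halfN]
    ring
  have h2 : prob (TwoN n s) ≤ ∑ κ ∈ halfN false n ∪ halfN true n,
      ∑ κ' ∈ (halfN false n ∪ halfN true n).filter (fun κ' => κ ≠ κ'), (1 / 4 : ℝ) ^ (bitsN n s) := by
    refine (M2.prob_mono h1).trans ((M2.prob_biUnion_le _ _).trans ?_)
    apply Finset.sum_le_sum
    intro κ _
    refine (M2.prob_biUnion_le _ _).trans ?_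
    apply Finset.sum_le_sum
    intro κ' hκ'
    rw [Finset.mem_filter] at hκ'
    exact (prob_two_hits _ hκ'.2).le
  have h3 : ∑ κ ∈ halfN false n ∪ halfN true n,
      ∑ κ' ∈ (halfN false n ∪ halfN true n).filter (fun κ' => κ ≠ κ'),
        (1 / 4 : ℝ) ^ (bitsN n s) ≤
      ∑ κ ∈ halfN false n ∪ halfN true n, ((2 * 2 ^ n : ℕ) : ℝ) * (1 / 4 : ℝ) ^ (bitsN n s) := by
    apply Finset.sum_le_sum
    intro κ _
    rw [Finset.sum_const, nsmul_eq_mul]
    apply mul_le_mul_of_nonneg_right _ (by positivity)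
    have := Finset.card_filter_le (halfN false n ∪ halfN true n) (fun κ' => κ ≠ κ')
    rw [hcard] at this
    exact_mod_cast this
  rw [Finset.sum_const, nsmul_eq_mul, hcard] at h3
  have h4 : ((2 * 2 ^ n : ℕ) : ℝ) * (((2 * 2 ^ n : ℕ) : ℝ) * (1 / 4 : ℝ) ^ (bitsN n s)) =
      16 * (1 / 4 : ℝ) ^ (lvN s + 1) := by
    unfold bitsN
    push_cast
    have e1 : (1 / 4 : ℝ) ^ (n + lvN s) = ((1 / 2 : ℝ) ^ n) ^ 2 * (1 / 4) ^ (lvN s) := by
      rw [pow_add, ← pow_mul, mul_comm n 2, pow_mul]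
      norm_num
    have e2 : (2 : ℝ) ^ n * (1 / 2 : ℝ) ^ n = 1 := by
      rw [← mul_pow]
      norm_num
    rw [e1, pow_succ]
    calc 2 * 2 ^ n * (2 * 2 ^ n * (((1 / 2 : ℝ) ^ n) ^ 2 * (1 / 4) ^ (lvN s)))
        = 4 * (2 ^ n * (1 / 2 : ℝ) ^ n) ^ 2 * (1 / 4) ^ (lvN s) := by ring
      _ = _ := by rw [e2]; ring
  have h5 := prob_BadN_ge' n s
  linarith

end Pool.Agent.H628R3.RO
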