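import Pool.Agent.H628R3.RO.BaseE
import Pool.Agent.H628R3.RO.D2
import Pool.Agent.H628R3.RO.D3

/-! Task D4: the two-sided events are local. -/

namespace Pool.Agent.H628R3.RO

open MeasureTheory Pool.Agent.NPC

/-- the runs on the pairs `(x, y)` with `y` short depend only on short strings -/
theorem out_pair_congr (V : Alg) (p : Polynomial ℕ) : ∃ b : Polynomial ℕ,
    ∀ (A A' : Oracle) (x y : List Bool) (N : ℕ), x.length ≤ N → y.length ≤ p.eval x.length →
      (∀ z : List Bool, z.length ≤ b.eval N → A z = A' z) →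
      V.out A (pairBits x y) = V.out A' (pairBits x y) := by
  obtain ⟨qb, hq⟩ := V.out_congr
  refine ⟨qb.comp (Polynomial.C 2 * Polynomial.X + Polynomial.C 1 + p),
    fun A A' x y N hx hy h => ?_⟩
  apply hq A A' _ ((Polynomial.C 2 * Polynomial.X + Polynomial.C 1 + p).eval N)
  · rw [length_pairBits]
    have h3 := eval_mono p hx
    simp only [Polynomial.eval_add, Polynomial.eval_mul, Polynomial.eval_C, Polynomial.eval_X]
    omega
  · intro z hz
    apply h z
    rw [Polynomial.eval_comp]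
    exact hz

theorem wit_congr (V : Alg) (p : Polynomial ℕ) : ∃ b : Polynomial ℕ,
    ∀ (A A' : Oracle) (x : List Bool) (N : ℕ), x.length ≤ N →
      (∀ z : List Bool, z.length ≤ b.eval N → A z = A' z) → Wit V p x A → Wit V p x A' := by
  obtain ⟨b, hb⟩ := out_pair_congr V p
  refine ⟨b, fun A A' x N hx h => ?_⟩
  rintro ⟨y, hy, h1⟩
  exact ⟨y, hy, by rw [← hb A A' x y N hx hy h, h1]⟩

theorem loc_ErrN (V : Bool → Alg) (p : Bool → Polynomial ℕ) : ∃ b : Polynomial ℕ, ∀ n,
    Loc {x | x.length ≤ b.eval (2 ^ n)} (ErrN V p n) := by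
  choose b hb using fun i => wit_congr (V i) (p i)
  refine ⟨b false + b true, fun n => loc_of_imp fun A A' h => ?_⟩
  rintro ⟨x, hx, h1⟩
  refine ⟨x, hx, fun i => hb i A A' x (2 ^ n) hx (fun z hz => h z ?_) (h1 i)⟩
  change z.length ≤ _
  rw [Polynomial.eval_add]
  cases i <;> omega

theorem loc_ErrC (V : Bool → Alg) (p : Bool → Polynomial ℕ) : ∃ b : Polynomial ℕ, ∀ n,
    Loc {x | x.length ≤ b.eval (2 ^ n)} (ErrC V p n) := by
  choose b hb using fun i => wit_congr (V i) (p i)
  refine ⟨b false + b true, fun n => loc_of_imp fun A A' h => ?_⟩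
  rintro ⟨x, hx, h1⟩
  refine ⟨x, hx, fun i hw => h1 i (hb i A' A x (2 ^ n) hx (fun z hz => (h z ?_).symm) hw)⟩
  change z.length ≤ _
  rw [Polynomial.eval_add]
  cases i <;> omega

theorem loc_ErrU (V : Alg) (p : Polynomial ℕ) : ∃ b : Polynomial ℕ, ∀ n,
    Loc {x | x.length ≤ b.eval (2 ^ n)} (ErrU V p n) := by
  obtain ⟨b, hb⟩ := out_pair_congr V p
  refine ⟨b, fun n => loc_of_imp fun A A' h => ?_⟩
  rintro ⟨x, hx, y, y', hne, hy, hy', h1, h2⟩
  refine ⟨x, hx, y, y', hne, hy, hy', ?_, ?_⟩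
  · rw [← hb A A' x y (2 ^ n) hx hy h, h1]
  · rw [← hb A A' x y' (2 ^ n) hx hy' h, h2]

/-- common part of the three lemmas on reductions -/
theorem red_congr (r : Alg) : ∃ b q : Polynomial ℕ, ∀ (A A' : Oracle) (n : ℕ),
    (∀ z : List Bool, z.length ≤ q.eval (2 ^ n) → A z = A' z) →
      r.out A (List.replicate n true) = r.out A' (List.replicate n true) ∧
      ∀ x, r.out A (List.replicate n true) = some x → x.length ≤ b.eval (2 ^ n) := by
  obtain ⟨qr, hqr⟩ := r.out_congr
  obtain ⟨br, hbr⟩ := r.out_length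
  refine ⟨br, qr, fun A A' n h => ⟨?_, fun x hx => ?_⟩⟩
  · apply hqr A A' _ (2 ^ n) _ h
    rw [List.length_replicate]
    exact Nat.lt_two_pow_self.le
  · have h3 := hbr A _ x hx
    rw [List.length_replicate] at h3
    exact h3.trans (eval_mono br Nat.lt_two_pow_self.le)

theorem loc_GoodN (V : Bool → Alg) (p : Bool → Polynomial ℕ) (r : Alg) : ∃ b : Polynomial ℕ,
    ∀ n s, s ≤ n → Loc {x | x.length ≤ b.eval (2 ^ n)} (GoodN V p r n s) := by
  choose bw hbw using fun i => wit_congr (V i) (p i)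
  obtain ⟨br, qr, hr⟩ := red_congr r
  refine ⟨qr + (bw false).comp br + (bw true).comp br +
    (Polynomial.C 4 * Polynomial.X + Polynomial.C 4), fun n s hs => loc_of_imp fun A A' h => ?_⟩
  have h' : ∀ z : List Bool, z.length ≤ qr.eval (2 ^ n) + (bw false).eval (br.eval (2 ^ n)) +
      (bw true).eval (br.eval (2 ^ n)) + (4 * 2 ^ n + 4) → A z = A' z := by
    intro z hz
    apply h z
    change z.length ≤ _
    simpa only [Polynomial.eval_add, Polynomial.eval_comp, Polynomial.eval_mul,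
      Polynomial.eval_C, Polynomial.eval_X] using hz
  rintro ⟨x, hx, h1⟩
  obtain ⟨e1, hl⟩ := hr A A' n fun z hz => h' z (by omega)
  have hxl := hl x hx
  refine ⟨x, by rw [← e1, hx], fun i hi => ?_⟩
  have hi' : A ∈ HitN i n s := by
    refine (loc_HitN i n s A A' fun z hz => h' z ?_).mpr hi
    have h2 := length_le_spotsN hs z hz
    have h3 := (Nat.lt_two_pow_self (n := n)).le
    omega
  refine hbw i A A' x (br.eval (2 ^ n)) hxl (fun z hz => h' z ?_) (h1 i hi')
  cases i <;> omega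

theorem loc_GoodC (V : Bool → Alg) (p : Bool → Polynomial ℕ) (r : Alg) : ∃ b : Polynomial ℕ,
    ∀ n s, s ≤ n → Loc {x | x.length ≤ b.eval (2 ^ n)} (GoodC V p r n s) := by
  choose bw hbw using fun i => wit_congr (V i) (p i)
  obtain ⟨br, qr, hr⟩ := red_congr r
  refine ⟨qr + (bw false).comp br + (bw true).comp br +
    (Polynomial.C 5 * Polynomial.X + Polynomial.C 5), fun n s hs => loc_of_imp fun A A' h => ?_⟩
  have h' : ∀ z : List Bool, z.length ≤ qr.eval (2 ^ n) + (bw false).eval (br.eval (2 ^ n)) +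
      (bw true).eval (br.eval (2 ^ n)) + (5 * 2 ^ n + 5) → A z = A' z := by
    intro z hz
    apply h z
    change z.length ≤ _
    simpa only [Polynomial.eval_add, Polynomial.eval_comp, Polynomial.eval_mul,
      Polynomial.eval_C, Polynomial.eval_X] using hz
  rintro ⟨x, hx, h1⟩
  obtain ⟨e1, hl⟩ := hr A A' n fun z hz => h' z (by omega)
  have hxl := hl x hx
  refine ⟨x, by rw [← e1, hx], fun i hi hw => ?_⟩
  have hi' : A ∉ HitC i n s := by
    intro hA
    refine hi ((loc_HitC i n s A A' fun z hz => h' z ?_).mp hA)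
    have h2 := length_le_spotsC hs z hz
    have h3 := (Nat.lt_two_pow_self (n := n)).le
    omega
  refine h1 i hi' (hbw i A' A x (br.eval (2 ^ n)) hxl (fun z hz => (h' z ?_).symm) hw)
  cases i <;> omega

theorem loc_GoodU (V : Alg) (p : Polynomial ℕ) (r : Alg) : ∃ b : Polynomial ℕ,
    ∀ n s, s ≤ n → Loc {x | x.length ≤ b.eval (2 ^ n)} (GoodU V p r n s) := by
  obtain ⟨bw, hbw⟩ := wit_congr V p
  obtain ⟨br, qr, hr⟩ := red_congr r
  refine ⟨qr + bw.comp br + (Polynomial.C 4 * Polynomial.X + Polynomial.C 4),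
    fun n s hs => loc_of_imp fun A A' h => ?_⟩
  have h' : ∀ z : List Bool, z.length ≤ qr.eval (2 ^ n) + bw.eval (br.eval (2 ^ n)) +
      (4 * 2 ^ n + 4) → A z = A' z := by
    intro z hz
    apply h z
    change z.length ≤ _
    simpa only [Polynomial.eval_add, Polynomial.eval_comp, Polynomial.eval_mul,
      Polynomial.eval_C, Polynomial.eval_X] using hz
  rintro ⟨x, hx, h1⟩
  obtain ⟨e1, hl⟩ := hr A A' n fun z hz => h' z (by omega)
  have hxl := hl x hx
  have hi : ∀ i, A ∈ HitN i n s ↔ A' ∈ HitN i n s := by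
    intro i
    refine loc_HitN i n s A A' fun z hz => h' z ?_
    have h2 := length_le_spotsN hs z hz
    have h3 := (Nat.lt_two_pow_self (n := n)).le
    omega
  have hw : Wit V p x A ↔ Wit V p x A' :=
    ⟨hbw A A' x (br.eval (2 ^ n)) hxl (fun z hz => h' z (by omega)),
      hbw A' A x (br.eval (2 ^ n)) hxl (fun z hz => (h' z (by omega)).symm)⟩
  refine ⟨x, by rw [← e1, hx], ?_⟩
  rw [← hw, ← h1]
  exact exists_congr fun i => (hi i).symm

end Pool.Agent.H628R3.RO
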