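import Pool.Agent.H628R3.RO.Base
import Pool.Agent.H622R2.CoNP
import Pool.Agent.H628R2.FPTW

/-!
The output of an oracle algorithm with a finite oracle given as a list is computable in polynomial
time. Conditionals with branches defined on subtypes.
-/

namespace Pool.Agent.NPC

theorem Poly.dcond {α β : Type} [TEnc α] [TEnc β] {b : α → Bool} {f : {a // b a = true} → β}
    {g : {a // b a = false} → β} (hb : Poly b) (hf : Poly f) (hg : Poly g) :
    Poly (fun a => if h : b a = true then f ⟨a, h⟩ else g ⟨a, by simpa using h⟩) := by
  have e1 : ∀ a, toT (b a) ≠ T.nil ↔ b a = true := by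
    intro a; cases b a <;> simp
  have e2 : ∀ a, toT (b a) = T.nil ↔ b a = false := by
    intro a; cases b a <;> simp
  have hf' : PC (fun a : {a : α // toT (b a) ≠ T.nil} => bits a.1) (bits : β → List Bool)
      (fun a => f ⟨a.1, (e1 a.1).1 a.2⟩) := by
    obtain ⟨c, q, h⟩ := hf
    exact ⟨c, q, fun a => h ⟨a.1, (e1 a.1).1 a.2⟩⟩
  have hg' : PC (fun a : {a : α // toT (b a) = T.nil} => bits a.1) (bits : β → List Bool)
      (fun a => g ⟨a.1, (e2 a.1).1 a.2⟩) := by
    obtain ⟨c, q, h⟩ := hg
    exact ⟨c, q, fun a => h ⟨a.1, (e2 a.1).1 a.2⟩⟩
  have h3 := PC.dite (f := fun a => toT (b a)) hb hg' hf'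
  refine PC.congr h3 fun a => ?_
  by_cases h : b a = true
  · rw [dif_neg ((e1 a).2 h), dif_pos h]
  · rw [dif_pos ((e2 a).2 (by simpa using h)), dif_neg h]

end Pool.Agent.NPC

namespace Pool.Agent.H628R3.RO

open Pool.Agent.NPC

theorem p_ofL {α : Type} [TEnc α] {S : α → List (List Bool)} {x : α → List Bool}
    (hS : Poly S) (hx : Poly x) : Poly (fun a => ofL (S a) (x a)) :=
  (Poly.decide_mem hx hS).congr fun a => by
    rw [ofL]; exact decide_eq_decide.2 Iff.rfl

/-- one round of an algorithm, for an oracle given as a list -/
def rnd (M : Alg) (S : List (List Bool)) (x : List Bool) (s : List Bool × Option (List Bool)) :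
    List Bool × Option (List Bool) :=
  match s.2 with
  | some _ => s
  | none =>
    match M.D (pairBits x s.1) with
    | [] => (s.1, some [])
    | b :: q => bif b then (s.1, some q) else (s.1 ++ [ofL S q], none)

theorem rnd_some (M : Alg) (S : List (List Bool)) (x a z : List Bool) (n : ℕ) :
    (rnd M S x)^[n] (a, some z) = (a, some z) := by
  induction n with
  | zero => rfl
  | succ n ih =>
    rw [Function.iterate_succ_apply]
    exact ih

theorem run_eq_rnd (M : Alg) (S : List (List Bool)) (x : List Bool) : ∀ (n : ℕ) (a : List Bool),
    M.run (ofL S) x n a = ((rnd M S x)^[n] (a, none)).2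
  | 0, _ => rfl
  | n + 1, a => by
    rw [Alg.run, Function.iterate_succ_apply]
    cases h : M.D (pairBits x a) with
    | nil =>
      have : rnd M S x (a, none) = (a, some []) := by simp [rnd, h]
      rw [this, rnd_some]
    | cons b q =>
      cases b with
      | true =>
        have : rnd M S x (a, none) = (a, some q) := by simp [rnd, h]
        rw [this, rnd_some]
      | false =>
        have : rnd M S x (a, none) = (a ++ [ofL S q], none) := by simp [rnd, h]
        rw [this]
        exact run_eq_rnd M S x n _

theorem foldl_replicate_unit {σ : Type} (f : σ → σ) (n : ℕ) (s : σ) :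
    (List.replicate n ()).foldl (fun s _ => f s) s = f^[n] s := by
  induction n generalizing s with
  | zero => rfl
  | succ n ih => rw [List.replicate_succ, List.foldl_cons, ih, Function.iterate_succ_apply]

/-- The output with a finite oracle is computed in polynomial time. -/
theorem p_out (M : Alg) {α : Type} [TEnc α] {S : α → List (List Bool)} {x : α → List Bool}
    (hS : Poly S) (hx : Poly x) : Poly (fun a => M.out (ofL (S a)) (x a)) := by
  have hD := H622R2.poly_of_polyTime M.poly
  obtain ⟨q, hq⟩ := hD.sz_le
  obtain ⟨r, hr⟩ := hx.sz_le
  have hstep : Poly (fun p : α × (List Bool × Option (List Bool)) × Unit =>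
      rnd M (S p.1) (x p.1) p.2.1) := by
    have h0 : Poly (fun p : α × (List Bool × Option (List Bool)) × Unit => p.1) :=
      Poly.fst Poly.id
    have h1 : Poly (fun p : α × (List Bool × Option (List Bool)) × Unit => p.2.1) :=
      Poly.fst (Poly.snd Poly.id)
    have h2 : Poly (fun p : α × (List Bool × Option (List Bool)) × Unit => p.2.1.1) :=
      Poly.fst h1
    have h3 : Poly (fun p : α × (List Bool × Option (List Bool)) × Unit =>
        M.D (pairBits (x p.1) p.2.1.1)) :=
      hD.comp (H622R2.poly_pairBits (hx.comp h0) h2)
    have h4 : Poly (fun p : (α × (List Bool × Option (List Bool)) × Unit) × Bool × List Bool =>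
        bif p.2.1 then (p.1.2.1.1, some p.2.2) else (p.1.2.1.1 ++ [ofL (S p.1.1) p.2.2], none)) := by
      refine Poly.cond (Poly.fst (Poly.snd Poly.id)) ?_ ?_
      · exact Poly.pair (h2.comp (Poly.fst Poly.id)) (Poly.some (Poly.snd (Poly.snd Poly.id)))
      · refine Poly.pair (Poly.append (h2.comp (Poly.fst Poly.id)) (Poly.cons ?_
          (NPC.Poly.const []))) (NPC.Poly.const none)
        have h6 : Poly (fun p : (α × (List Bool × Option (List Bool)) × Unit) × Bool ×
            List Bool => p.2.2) := Poly.snd (Poly.snd Poly.id)
        exact p_ofL (hS.comp (h0.comp (Poly.fst Poly.id))) h6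
    have h5 := Poly.listCases (β := Bool) (g := fun p : α × (List Bool × Option (List Bool)) × Unit =>
          ((p.2.1.1, some []) : List Bool × Option (List Bool)))
        (h := fun (p : α × (List Bool × Option (List Bool)) × Unit) (b : Bool) (q : List Bool) =>
          bif b then ((p.2.1.1, some q) : List Bool × Option (List Bool)) else
          (p.2.1.1 ++ [ofL (S p.1) q], none)) h3
        (Poly.pair h2 (NPC.Poly.const (some []))) h4
    refine (Poly.optCases (o := fun p : α × (List Bool × Option (List Bool)) × Unit => p.2.1.2)
      (h := fun p _ => p.2.1) (Poly.snd h1) h5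
      (h1.comp (Poly.fst Poly.id))).congr ?_
    rintro ⟨a, ⟨s, o⟩, u⟩
    cases o with
    | none =>
      simp only [rnd]
      cases M.D (pairBits (x a) s) <;> rfl
    | some z => rfl
  have hn : UPoly (fun a => M.p.eval (x a).length) := UPoly.eval (UPoly.length hx) _
  have hfold : Poly (fun a => (List.replicate (M.p.eval (x a).length) ()).foldl
      (fun s _ => rnd M (S a) (x a) s) (([], none) : List Bool × Option (List Bool))) := by
    refine Poly.foldl (F := fun a s _ => rnd M (S a) (x a) s) hn (NPC.Poly.const _) hstep
      (Polynomial.C 8 * M.p.comp r + q.comp (Polynomial.C 8 * r + Polynomial.C 8 * M.p.comp r +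
        Polynomial.C 8) + Polynomial.C 8) ?_
    intro a k hk
    rw [List.length_replicate] at hk
    rw [List.take_replicate, Nat.min_eq_left hk, foldl_replicate_unit]
    have hxl : (x a).length ≤ r.eval (sz a) := (length_lt_sz (x a)).le.trans (hr a)
    have hpe : M.p.eval (x a).length ≤ M.p.eval (r.eval (sz a)) := eval_mono _ hxl
    have key : ∀ k, ((rnd M (S a) (x a))^[k] ([], none)).1.length ≤ k ∧
        ∀ z, ((rnd M (S a) (x a))^[k] ([], none)).2 = some z →
          sz z ≤ q.eval (8 * (x a).length + 8 * k + 8) := by
      intro k
      induction k with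
      | zero => exact ⟨le_rfl, fun z hz => by simp at hz⟩
      | succ k ih =>
        rw [Function.iterate_succ_apply']
        revert ih
        generalize (rnd M (S a) (x a))^[k] ([], none) = st
        obtain ⟨s, o⟩ := st
        rintro ⟨ih1, ih2⟩
        dsimp only at ih1 ih2
        cases o with
        | some z =>
          refine ⟨ih1.trans (Nat.le_succ k), fun z' hz' => ?_⟩
          exact (ih2 z' hz').trans (eval_mono _ (by omega))
        | none =>
          have e1 : sz (M.D (pairBits (x a) s)) ≤ q.eval (8 * (x a).length + 8 * (k + 1) + 8) := by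
            refine (hq _).trans (eval_mono _ ?_)
            refine (sz_listBool_le _).trans ?_
            have : (pairBits (x a) s).length = 2 * (x a).length + 1 + s.length := by
              simp [pairBits, List.length_flatMap]
              omega
            omega
          cases h : M.D (pairBits (x a) s) with
          | nil =>
            rw [h] at e1
            have : rnd M (S a) (x a) (s, none) = (s, some []) := by simp [rnd, h]
            rw [this]
            refine ⟨ih1.trans (Nat.le_succ k), fun z hz => ?_⟩
            simp only [Option.some.injEq] at hz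
            rw [← hz]; exact e1
          | cons b w =>
            rw [h] at e1
            have e2 : sz w ≤ sz (b :: w) := by simp; omega
            cases b with
            | true =>
              have : rnd M (S a) (x a) (s, none) = (s, some w) := by simp [rnd, h]
              rw [this]
              refine ⟨ih1.trans (Nat.le_succ k), fun z hz => ?_⟩
              simp only [Option.some.injEq] at hz
              rw [← hz]; exact e2.trans e1
            | false =>
              have : rnd M (S a) (x a) (s, none) = (s ++ [ofL (S a) w], none) := by
                simp [rnd, h]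
              rw [this]
              refine ⟨by simpa using ih1, fun z hz => by simp at hz⟩
    obtain ⟨k1, k2⟩ := key k
    rcases hst : (rnd M (S a) (x a))^[k] ([], none) with ⟨s, o⟩
    rw [hst] at k1 k2
    simp only at k1 k2
    have e1 : sz s ≤ 4 * k + 1 := (sz_listBool_le s).trans (by omega)
    have e2 : sz o ≤ q.eval (8 * (x a).length + 8 * k + 8) + 2 := by
      cases o with
      | none => simp
      | some z => rw [sz_some]; have := k2 z rfl; omega
    have e3 : q.eval (8 * (x a).length + 8 * k + 8) ≤
        q.eval (8 * r.eval (sz a) + 8 * M.p.eval (r.eval (sz a)) + 8) :=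
      eval_mono _ (by omega)
    simp only [sz_pair, Polynomial.eval_add, Polynomial.eval_mul, Polynomial.eval_C,
      Polynomial.eval_comp]
    omega
  refine (Poly.snd hfold).congr fun a => ?_
  rw [foldl_replicate_unit, Alg.out, run_eq_rnd]

end Pool.Agent.H628R3.RO
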