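import Pool.Agent.H628R3.RO.Base

/-!
# Counting oracles
-/

namespace Pool.Agent.H628R3.RO

open MeasureTheory

/-- all strings of length `n` -/
def strsEq : ℕ → List (List Bool)
  | 0 => [[]]
  | n + 1 => (strsEq n).flatMap (fun w => [false :: w, true :: w])

/-- all strings of length at most `n` -/
def strs : ℕ → List (List Bool)
  | 0 => [[]]
  | n + 1 => strs n ++ strsEq (n + 1)

theorem mem_strsEq {n : ℕ} {x : List Bool} : x ∈ strsEq n ↔ x.length = n := by
  induction n generalizing x with
  | zero => simp [strsEq]
  | succ n ih =>
    simp only [strsEq, List.mem_flatMap, List.mem_cons, List.not_mem_nil, or_false]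
    constructor
    · rintro ⟨w, hw, rfl | rfl⟩ <;> simpa using ih.1 hw
    · intro h
      cases x with
      | nil => simp at h
      | cons b w =>
        refine ⟨w, ih.2 (by simpa using h), ?_⟩
        cases b <;> simp

theorem length_strsEq (n : ℕ) : (strsEq n).length = 2 ^ n := by
  induction n with
  | zero => rfl
  | succ n ih =>
    have h : ∀ l : List (List Bool),
        (l.flatMap (fun w => [false :: w, true :: w])).length = 2 * l.length := by
      intro l
      induction l with
      | nil => rfl
      | cons a l ih =>
        simp only [List.flatMap_cons, List.length_append, ih, List.length_cons, List.length_nil]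
        ring
    rw [strsEq, h, ih]
    ring

theorem nodup_strsEq (n : ℕ) : (strsEq n).Nodup := by
  induction n with
  | zero => simp [strsEq]
  | succ n ih =>
    rw [strsEq, List.nodup_flatMap]
    refine ⟨fun w _ => by simp, ?_⟩
    refine List.Pairwise.imp ?_ ih
    intro a b hab
    simp only [Function.onFun, List.disjoint_cons_left, List.disjoint_nil_left,
      List.mem_cons, List.not_mem_nil, or_false, List.cons.injEq, and_true]
    simp [hab]

theorem mem_strs {n : ℕ} {x : List Bool} : x ∈ strs n ↔ x.length ≤ n := by
  induction n with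
  | zero => simp [strs]
  | succ n ih =>
    rw [strs, List.mem_append, ih, mem_strsEq]
    omega

theorem length_strs (n : ℕ) : (strs n).length + 1 = 2 ^ (n + 1) := by
  induction n with
  | zero => rfl
  | succ n ih =>
    rw [strs, List.length_append, length_strsEq, pow_succ 2 (n + 1)]
    omega

theorem nodup_strs (n : ℕ) : (strs n).Nodup := by
  induction n with
  | zero => simp [strs]
  | succ n ih =>
    rw [strs, List.nodup_append]
    refine ⟨ih, nodup_strsEq _, ?_⟩
    intro a ha b hb hab
    subst hab
    rw [mem_strs] at ha
    rw [mem_strsEq] at hb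
    omega

theorem filter_sublist {K l : List (List Bool)} (h : l.Sublist K) (hK : K.Nodup) :
    K.filter (fun x => decide (x ∈ l)) = l := by
  induction h with
  | slnil => rfl
  | @cons l K a h ih =>
    rw [List.nodup_cons] at hK
    have ha : a ∉ l := fun h' => hK.1 (h.subset h')
    rw [List.filter_cons_of_neg (by simpa using ha)]
    exact ih hK.2
  | @cons_cons l K a h ih =>
    rw [List.nodup_cons] at hK
    rw [List.filter_cons_of_pos (by simp)]
    congr 1
    rw [← ih hK.2]
    apply List.filter_congr
    intro x hx
    have hxa : x ≠ a := fun h' => hK.1 (h' ▸ hx)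
    rw [ih hK.2]
    simp [hxa]

theorem ofL_filter (A : Oracle) {K : List (List Bool)} {x : List Bool} (hx : x ∈ K) :
    ofL (K.filter A) x = A x := by
  unfold ofL
  have h1 : x ∈ K.filter A ↔ A x = true := by simp [List.mem_filter, hx]
  cases h : A x
  · rw [decide_eq_false_iff_not, h1, h]
    simp
  · rw [decide_eq_true_eq, h1, h]

theorem coin_singleton (b : Bool) : coin {b} = 2⁻¹ := by
  cases b <;> simp [coin]

theorem prob_agree (K : List (List Bool)) (hK : K.Nodup) (B : Oracle) :
    prob {A | ∀ x ∈ K, A x = B x} = (1 / 2) ^ K.length := by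
  classical
  have h1 : {A : Oracle | ∀ x ∈ K, A x = B x} = Set.pi (K.toFinset : Set (List Bool)) fun x => {B x} := by
    ext A
    simp [Set.mem_pi]
  rw [prob, h1, Measure.real, randomOracle, Measure.infinitePi_pi _ (fun _ _ => MeasurableSet.singleton _)]
  simp only [coin_singleton, Finset.prod_const, List.toFinset_card_of_nodup hK]
  rw [ENNReal.toReal_pow]
  simp

theorem measurable_agree (K : List (List Bool)) (B : Oracle) :
    MeasurableSet {A : Oracle | ∀ x ∈ K, A x = B x} := by
  have h : {A : Oracle | ∀ x ∈ K, A x = B x} = ⋂ x ∈ K, {A : Oracle | A x = B x} := by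
    ext A; simp
  rw [h]
  refine MeasurableSet.biInter K.finite_toSet.countable fun x _ => ?_
  exact measurableSet_eq_fun (measurable_pi_apply x) measurable_const

open Classical in
theorem prob_eq_count {n : ℕ} {S : Set Oracle} (h : Loc {x | x.length ≤ n} S) :
    prob S * 2 ^ (strs n).length =
      ((strs n).sublists.filter (fun l => decide (ofL l ∈ S))).length := by
  set K := strs n with hKdef
  have hK : K.Nodup := nodup_strs n
  set F := K.sublists.filter (fun l => decide (ofL l ∈ S)) with hF
  have hFn : F.Nodup := (List.nodup_sublists.2 hK).filter _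
  have hloc : ∀ A B : Oracle, (∀ x ∈ K, A x = B x) → (A ∈ S ↔ B ∈ S) := by
    intro A B hAB
    exact h A B fun x hx => hAB x (mem_strs.2 hx)
  have hS : S = ⋃ l ∈ F.toFinset, {A : Oracle | ∀ x ∈ K, A x = ofL l x} := by
    ext A
    simp only [Set.mem_iUnion, List.mem_toFinset, hF, List.mem_filter, List.mem_sublists,
      decide_eq_true_eq, Set.mem_ofPred_eq, exists_prop]
    constructor
    · intro hA
      have h1 : ∀ x ∈ K, A x = ofL (K.filter A) x := fun x hx => (ofL_filter A hx).symm
      exact ⟨K.filter A, ⟨List.filter_sublist, (hloc _ _ h1).1 hA⟩, h1⟩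
    · rintro ⟨l, ⟨_, hl⟩, hA⟩
      exact (hloc _ _ hA).2 hl
  have hprob : prob S = ∑ l ∈ F.toFinset, prob {A : Oracle | ∀ x ∈ K, A x = ofL l x} := by
    conv_lhs => rw [hS]
    unfold prob
    apply measureReal_biUnion_finset
    · intro l hl l' hl' hne
      rw [Function.onFun, Set.disjoint_left]
      intro A hA hA'
      apply hne
      simp only [Finset.mem_coe, List.mem_toFinset, hF, List.mem_filter, List.mem_sublists] at hl hl'
      rw [← filter_sublist hl.1 hK, ← filter_sublist hl'.1 hK]
      apply List.filter_congr
      intro x hx
      have h1 := hA x hx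
      have h2 := hA' x hx
      rw [h1] at h2
      exact h2
    · intro l _
      exact measurable_agree K _
    · intro l _
      have : IsProbabilityMeasure randomOracle :=
        inferInstanceAs (IsProbabilityMeasure (Measure.infinitePi (fun _ : List Bool => coin)))
      exact measure_ne_top _ _
  rw [hprob]
  simp only [prob_agree K hK, Finset.sum_const, List.toFinset_card_of_nodup hFn, nsmul_eq_mul]
  rw [mul_assoc, ← mul_pow]
  norm_num

end Pool.Agent.H628R3.RO
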