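import Pool.Agent.H628R3.RO.P1
import Pool.Agent.H628R3.RO.N1

/-!
Enumerations of strings and of finite oracles, in time polynomial in a pad.
-/

namespace Pool.Agent.H628R3.RO

open Pool.Agent.NPC

/-- both extensions of all the strings -/
def ext (s : List (List Bool)) : List (List Bool) := s.flatMap (fun w => [false :: w, true :: w])

theorem p_ext {α : Type} [TEnc α] {s : α → List (List Bool)} (hs : Poly s) :
    Poly (fun a => ext (s a)) := by
  refine Poly.flatMap (F := fun (_ : α) (w : List Bool) => [false :: w, true :: w]) hs ?_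
  have h : Poly (fun p : α × List Bool => p.2) := Poly.snd Poly.id
  exact Poly.cons (Poly.cons (NPC.Poly.const false) h) (Poly.cons (Poly.cons
    (NPC.Poly.const true) h) (NPC.Poly.const []))

theorem strsEq_succ (n : ℕ) : strsEq (n + 1) = ext (strsEq n) := rfl

theorem strs_iterate (n : ℕ) :
    (fun s : List (List Bool) × List (List Bool) => (s.1 ++ ext s.2, ext s.2))^[n]
      ([[]], [[]]) = (strs n, strsEq n) := by
  induction n with
  | zero => rfl
  | succ n ih => rw [Function.iterate_succ_apply', ih]; rfl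

theorem length_of_mem_strsEq {n : ℕ} : ∀ {w : List Bool}, w ∈ strsEq n → w.length = n := by
  induction n with
  | zero => intro w hw; simp [strsEq] at hw; simp [hw]
  | succ n ih =>
    intro w hw
    rw [strsEq_succ, ext, List.mem_flatMap] at hw
    obtain ⟨v, hv, hw⟩ := hw
    simp at hw
    rcases hw with rfl | rfl <;> simp [ih hv]

theorem sz_strsEq_le (n : ℕ) : sz (strsEq n) ≤ 2 ^ n * (4 * n + 2) + 1 := by
  have h := sz_le_length_mul (strsEq n) (4 * n + 1) fun w hw => by
    have := sz_listBool_le w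
    rw [length_of_mem_strsEq hw] at this
    exact this
  rw [length_strsEq] at h
  exact h.trans (by ring_nf; omega)

theorem sz_strs_le (n : ℕ) : sz (strs n) ≤ 2 * (2 ^ n * (4 * n + 2)) + 1 := by
  induction n with
  | zero => simp [strs]
  | succ n ih =>
    have h1 := sz_append (strs n) (strsEq (n + 1))
    have h2 := sz_strsEq_le (n + 1)
    have h3 : 2 * (2 ^ n * (4 * n + 2)) ≤ 2 ^ (n + 1) * (4 * (n + 1) + 2) := by
      rw [pow_succ]
      have : 2 ^ n * (4 * n + 2) ≤ 2 ^ n * (4 * (n + 1) + 2) := Nat.mul_le_mul_left _ (by omega)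
      calc 2 * (2 ^ n * (4 * n + 2)) ≤ 2 * (2 ^ n * (4 * (n + 1) + 2)) := by omega
        _ = 2 ^ n * 2 * (4 * (n + 1) + 2) := by ring
    have h4 : strs (n + 1) = strs n ++ strsEq (n + 1) := rfl
    rw [h4]
    omega

theorem uPoly_le {α : Type} [TEnc α] {N : α → ℕ} (hN : UPoly N) :
    ∃ r : Polynomial ℕ, ∀ a, N a ≤ r.eval (sz a) := by
  obtain ⟨r, hr⟩ := Poly.sz_le hN
  refine ⟨r, fun a => ?_⟩
  have := hr a
  rw [sz_replicate_unit] at this
  omega

theorem p_strs_pair {α : Type} [TEnc α] {l N : α → ℕ} (hl : UPoly l) (hN : UPoly N)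
    (h : ∀ a, 2 ^ (l a) ≤ N a) : Poly (fun a => (strs (l a), strsEq (l a))) := by
  obtain ⟨r, hr⟩ := uPoly_le hN
  obtain ⟨r', hr'⟩ := uPoly_le hl
  have hstep : Poly (fun p : α × (List (List Bool) × List (List Bool)) =>
      (p.2.1 ++ ext p.2.2, ext p.2.2)) := by
    have h1 : Poly (fun p : α × (List (List Bool) × List (List Bool)) => ext p.2.2) :=
      p_ext (Poly.snd (Poly.snd Poly.id))
    exact Poly.pair (Poly.append (Poly.fst (Poly.snd Poly.id)) h1) h1
  refine (Poly.iterLen (l := fun a => List.replicate (l a) ())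
    (s := fun _ => (([[]], [[]]) : List (List Bool) × List (List Bool)))
    (F := fun (_ : α) (s : List (List Bool) × List (List Bool)) => (s.1 ++ ext s.2, ext s.2))
    hl (NPC.Poly.const _) hstep
    (Polynomial.C 3 * (r * (Polynomial.C 4 * r' + Polynomial.C 2)) + Polynomial.C 3)
    ?_).congr fun a => ?_
  · intro a k hk
    rw [List.length_replicate] at hk
    rw [strs_iterate, sz_pair]
    have e1 := sz_strs_le k
    have e2 := sz_strsEq_le k
    have e3 : 2 ^ k * (4 * k + 2) ≤ r.eval (sz a) * (4 * r'.eval (sz a) + 2) :=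
      Nat.mul_le_mul (((Nat.pow_le_pow_right (by norm_num) hk).trans (h a)).trans (hr a))
        (by have := hr' a; omega)
    simp only [Polynomial.eval_add, Polynomial.eval_mul, Polynomial.eval_C]
    omega
  · rw [List.length_replicate, strs_iterate]

theorem p_strs {α : Type} [TEnc α] {l N : α → ℕ} (hl : UPoly l) (hN : UPoly N)
    (h : ∀ a, 2 ^ (l a) ≤ N a) : Poly (fun a => strs (l a)) :=
  Poly.fst (p_strs_pair hl hN h)

theorem p_strsEq {α : Type} [TEnc α] {l N : α → ℕ} (hl : UPoly l) (hN : UPoly N)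
    (h : ∀ a, 2 ^ (l a) ≤ N a) : Poly (fun a => strsEq (l a)) :=
  Poly.snd (p_strs_pair hl hN h)

theorem sz_le_of_sublist {β : Type} [TEnc β] {l l' : List β} (h : l.Sublist l') :
    sz l ≤ sz l' := by
  induction h with
  | slnil => exact le_rfl
  | cons a _ ih => rw [sz_list_cons]; omega
  | cons_cons a _ ih => rw [sz_list_cons, sz_list_cons]; omega

theorem sublists_eq {β : Type} (l : List β) :
    l.sublists = l.foldr (fun a r => r.flatMap (fun s => [s, a :: s])) [[]] := rfl

theorem p_sublists {α β : Type} [TEnc α] [TEnc β] {L : α → List β} {N : α → ℕ} (hL : Poly L)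
    (hN : UPoly N) (h : ∀ a, 2 ^ (L a).length ≤ N a) : Poly (fun a => (L a).sublists) := by
  obtain ⟨r, hr⟩ := uPoly_le hN
  obtain ⟨r', hr'⟩ := hL.sz_le
  have hstep : Poly (fun p : α × β × List (List β) =>
      p.2.2.flatMap (fun s => [s, p.2.1 :: s])) := by
    refine Poly.flatMap (F := fun (p : α × β × List (List β)) (s : List β) => [s, p.2.1 :: s])
      (Poly.snd (Poly.snd Poly.id)) ?_
    have h1 : Poly (fun q : (α × β × List (List β)) × List β => q.2) := Poly.snd Poly.id
    have h2 : Poly (fun q : (α × β × List (List β)) × List β => q.1.2.1) :=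
      Poly.fst (Poly.snd (Poly.fst Poly.id))
    exact Poly.cons h1 (Poly.cons (Poly.cons h2 h1) (NPC.Poly.const []))
  refine (Poly.foldr (l := L) (s := fun _ => ([[]] : List (List β)))
    (F := fun (_ : α) (b : β) (s : List (List β)) => s.flatMap (fun s => [s, b :: s]))
    hL (NPC.Poly.const _) hstep (r * (r' + Polynomial.C 1) + Polynomial.C 1) ?_).congr fun a => ?_
  · intro a k hk
    have e0 : ((L a).drop k).foldr (fun b s => s.flatMap (fun s => [s, b :: s])) [[]] =
        ((L a).drop k).sublists := rfl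
    rw [e0]
    have e1 := sz_le_length_mul (((L a).drop k).sublists) (r'.eval (sz a)) fun s hs => by
      rw [List.mem_sublists] at hs
      exact ((sz_le_of_sublist (hs.trans (List.drop_sublist k _)))).trans (hr' a)
    rw [List.length_sublists, List.length_drop] at e1
    have e2 : 2 ^ ((L a).length - k) ≤ r.eval (sz a) :=
      ((Nat.pow_le_pow_right (by norm_num) (Nat.sub_le _ _)).trans (h a)).trans (hr a)
    simp only [Polynomial.eval_add, Polynomial.eval_mul, Polynomial.eval_C]
    refine e1.trans ?_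
    have := Nat.mul_le_mul_right (r'.eval (sz a) + 1) e2
    omega
  · exact (sublists_eq _).symm

/-- powers of two in unary, below a pad -/
theorem u_pow {α : Type} [TEnc α] {l N : α → ℕ} (hl : UPoly l) (hN : UPoly N)
    (h : ∀ a, 2 ^ (l a) ≤ N a) : UPoly (fun a => 2 ^ (l a)) := by
  refine (UPoly.length (p_strsEq hl hN h)).congr fun a => ?_
  change List.replicate (strsEq (l a)).length () = _
  rw [length_strsEq]

end Pool.Agent.H628R3.RO
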