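import Pool.Agent.H628R3.RO.Base

/-!
The check and the levels.
-/

namespace Pool.Agent.H628R3.RO

section

variable (Bad Err : ℕ → ℕ → Set Oracle) (t : ℕ) (L : List (List Bool))

open Classical in
/-- the check at stage `n` with level `j`: given the bad event, the candidate is wrong with
probability less than `1 / 4` -/
noncomputable def chk (n j : ℕ) : Bool :=
  decide (4 * prob (cyl t L ∩ (Bad n j ∩ Err n j)) < prob (cyl t L ∩ Bad n j))

/-- the levels: go to the next level if the check was successful -/
noncomputable def lev (T : ℕ → ℕ) : ℕ → ℕ
  | 0 => 4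
  | i + 1 => lev T i + (chk Bad Err t L (T i) (lev T i)).toNat

end

end Pool.Agent.H628R3.RO
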