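import Pool.Agent.H628R3.RO.P2
import Pool.Agent.H628R3.RO.Lev
import Pool.Agent.H628R3.RO.BaseD
import Pool.Agent.H628R3.RO.M1

/-!
The check is computable in polynomial time, given a pad.
-/

namespace Pool.Agent.H628R3.RO

open Pool.Agent.NPC

/-- The data of a check that can be carried out in a known time. -/
structure Check (Bad Err : ℕ → ℕ → Set Oracle) (b : Polynomial ℕ) : Prop where
  le_eval : ∀ m, m ≤ b.eval m
  locErr : ∀ n j, Loc {x | x.length ≤ b.eval (2 ^ n)} (Err n j)
  locBad : ∀ n j, j ≤ n → Loc {x | x.length ≤ b.eval (2 ^ n)} (Bad n j)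
  pErr : ∃ f : List (List Bool) → ℕ → ℕ → Bool, (∀ S n j, f S n j = true ↔ ofL S ∈ Err n j) ∧
    ∀ {α : Type} [TEnc α] {S : α → List (List Bool)} {n j N : α → ℕ}, Poly S → UPoly n →
      UPoly j → UPoly N → (∀ a, 2 ^ (b.eval (2 ^ (n a))) ≤ N a) →
      Poly (fun a => f (S a) (n a) (j a))
  pBad : ∃ f : List (List Bool) → ℕ → ℕ → Bool, (∀ S n j, f S n j = true ↔ ofL S ∈ Bad n j) ∧
    ∀ {α : Type} [TEnc α] {S : α → List (List Bool)} {n j N : α → ℕ}, Poly S → UPoly n →
      UPoly j → UPoly N → (∀ a, 2 ^ (b.eval (2 ^ (n a))) ≤ N a) →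
      Poly (fun a => f (S a) (n a) (j a))

theorem loc_cyl' (t : ℕ) (L : List (List Bool)) {m : ℕ} (h : t ≤ m) :
    Loc {x | x.length ≤ m} (cyl t L) := by
  intro A A' hA
  constructor
  · intro h1 x hx
    rw [← hA x (hx.trans h)]
    exact h1 x hx
  · intro h1 x hx
    rw [hA x (hx.trans h)]
    exact h1 x hx

theorem Loc.inter {K : Set (List Bool)} {S S' : Set Oracle} (h : Loc K S) (h' : Loc K S') :
    Loc K (S ∩ S') := fun A A' hA => and_congr (h A A' hA) (h' A A' hA)

/-- membership in a cylinder, for finite oracles -/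
def inCyl (t : ℕ) (L S : List (List Bool)) : Bool := (strs t).all (fun x => ofL S x == ofL L x)

theorem inCyl_iff (t : ℕ) (L S : List (List Bool)) : inCyl t L S = true ↔ ofL S ∈ cyl t L := by
  simp only [inCyl, List.all_eq_true, beq_iff_eq, cyl, Set.mem_ofPred_eq, mem_strs]

theorem p_inCyl (t : ℕ) (L : List (List Bool)) {α : Type} [TEnc α] {S : α → List (List Bool)}
    (hS : Poly S) : Poly (fun a => inCyl t L (S a)) := by
  have h1 : Poly (fun p : α × List Bool => p.2) := Poly.snd Poly.id
  have h2 : Poly (fun p : α × List Bool => ofL (S p.1) p.2) := p_ofL (hS.comp (Poly.fst Poly.id)) h1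
  have h3 : Poly (fun p : α × List Bool => ofL L p.2) := p_ofL (NPC.Poly.const L) h1
  have h4 : Poly (fun p : α × List Bool => decide (ofL (S p.1) p.2 = ofL L p.2)) :=
    Poly.decide_eq h2 h3
  exact (Poly.all (l := fun _ : α => strs t) (p := fun a x => decide (ofL (S a) x = ofL L x))
    (NPC.Poly.const _) h4).congr fun a => rfl

/-- the check, by counting -/
def chkC (fB fE : List (List Bool) → Bool) (t : ℕ) (L : List (List Bool)) (m : ℕ) : Bool :=
  decide (4 * ((strs m).sublists.filter (fun S => inCyl t L S && (fB S && fE S))).length <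
    ((strs m).sublists.filter (fun S => inCyl t L S && fB S)).length)

theorem chk_eq {Bad Err : ℕ → ℕ → Set Oracle} {t n j m : ℕ} {L : List (List Bool)} (ht : t ≤ m)
    (hE : Loc {x | x.length ≤ m} (Err n j)) (hB : Loc {x | x.length ≤ m} (Bad n j))
    {fB fE : List (List Bool) → Bool} (hfB : ∀ S, fB S = true ↔ ofL S ∈ Bad n j)
    (hfE : ∀ S, fE S = true ↔ ofL S ∈ Err n j) :
    chk Bad Err t L n j = chkC fB fE t L m := by
  have h1 : prob (cyl t L ∩ (Bad n j ∩ Err n j)) * 2 ^ (strs m).length =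
      ((strs m).sublists.filter (fun S => inCyl t L S && (fB S && fE S))).length := by
    rw [prob_eq_count ((loc_cyl' t L ht).inter (hB.inter hE))]
    congr 2
    apply List.filter_congr
    intro S _
    rw [Bool.eq_iff_iff]
    simp only [decide_eq_true_eq, Set.mem_inter_iff, Bool.and_eq_true, inCyl_iff, hfB, hfE]
  have h2 : prob (cyl t L ∩ Bad n j) * 2 ^ (strs m).length =
      ((strs m).sublists.filter (fun S => inCyl t L S && fB S)).length := by
    rw [prob_eq_count ((loc_cyl' t L ht).inter hB)]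
    congr 2
    apply List.filter_congr
    intro S _
    rw [Bool.eq_iff_iff]
    simp only [decide_eq_true_eq, Set.mem_inter_iff, Bool.and_eq_true, inCyl_iff, hfB]
  rw [chk, chkC]
  apply decide_eq_decide.2
  have h3 : (0 : ℝ) < 2 ^ (strs m).length := by positivity
  rw [← mul_lt_mul_iff_left₀ h3, mul_assoc, h1, h2]
  exact_mod_cast Iff.rfl

theorem p_chkC (t : ℕ) (L : List (List Bool)) {α : Type} [TEnc α]
    {fB fE : α → List (List Bool) → Bool} {m N : α → ℕ} (hm : UPoly m) (hN : UPoly N)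
    (hmN : ∀ a, 2 ^ (2 ^ (m a + 1)) ≤ N a)
    (hB : Poly (fun p : α × List (List Bool) => fB p.1 p.2))
    (hE : Poly (fun p : α × List (List Bool) => fE p.1 p.2)) :
    Poly (fun a => chkC (fB a) (fE a) t L (m a)) := by
  have h1 : Poly (fun a => strs (m a)) := p_strs hm hN fun a => by
    refine le_trans ?_ (hmN a)
    refine Nat.pow_le_pow_right (by norm_num) ?_
    exact (Nat.lt_two_pow_self (n := m a)).le.trans (Nat.pow_le_pow_right (by norm_num)
      (Nat.le_succ _))
  have h2 : Poly (fun a => (strs (m a)).sublists) := p_sublists h1 hN fun a => by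
    refine le_trans (Nat.pow_le_pow_right (by norm_num) ?_) (hmN a)
    have := length_strs (m a)
    omega
  have h0 : Poly (fun p : α × List (List Bool) => inCyl t L p.2) :=
    p_inCyl t L (Poly.snd Poly.id)
  have h3 : Poly (fun a => (strs (m a)).sublists.filter
      (fun S => inCyl t L S && (fB a S && fE a S))) :=
    Poly.filter (p := fun a S => inCyl t L S && (fB a S && fE a S)) h2
      (Poly.and h0 (Poly.and hB hE))
  have h4 : Poly (fun a => (strs (m a)).sublists.filter (fun S => inCyl t L S && fB a S)) :=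
    Poly.filter (p := fun a S => inCyl t L S && fB a S) h2 (Poly.and h0 hB)
  exact Poly.decide_lt (Poly.mul (NPC.Poly.const 4) (Poly.length h3)) (Poly.length h4)

/-- The check is computable in polynomial time, given a pad. -/
theorem p_chk {Bad Err : ℕ → ℕ → Set Oracle} {b : Polynomial ℕ} (hc : Check Bad Err b) (t : ℕ)
    (L : List (List Bool)) {α : Type} [TEnc α] {n j N : α → ℕ} (hn : UPoly n) (hj : UPoly j)
    (hN : UPoly N) (ht : ∀ a, t < n a) (hjn : ∀ a, j a ≤ n a)
    (hp : ∀ a, 2 ^ (2 ^ (b.eval (2 ^ (n a)) + 1)) ≤ N a) :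
    Poly (fun a => chk Bad Err t L (n a) (j a)) := by
  obtain ⟨fE, hfE, pE⟩ := hc.pErr
  obtain ⟨fB, hfB, pB⟩ := hc.pBad
  have e0 : ∀ x : ℕ, x ≤ 2 ^ x := fun x => Nat.lt_two_pow_self.le
  have hN1 : ∀ a, 2 ^ (b.eval (2 ^ (n a))) ≤ N a := fun a => by
    refine le_trans (Nat.pow_le_pow_right (by norm_num) ?_) (hp a)
    exact (Nat.le_succ _).trans (e0 _)
  have hN0 : ∀ a, 2 ^ (n a) ≤ N a := fun a =>
    ((hc.le_eval _).trans (e0 _)).trans (hN1 a)
  have hm : UPoly (fun a => b.eval (2 ^ (n a))) := UPoly.eval (u_pow hn hN hN0) b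
  have hfst : Poly (fun p : α × List (List Bool) => p.1) := Poly.fst Poly.id
  have hsnd : Poly (fun p : α × List (List Bool) => p.2) := Poly.snd Poly.id
  have h1 := p_chkC t L (fB := fun a S => fB S (n a) (j a)) (fE := fun a S => fE S (n a) (j a))
    hm hN hp
    (pB (S := fun p : α × List (List Bool) => p.2) (n := fun p => n p.1) (j := fun p => j p.1)
      (N := fun p => N p.1) hsnd (hn.comp hfst) (hj.comp hfst) (hN.comp hfst) fun p => hN1 p.1)
    (pE (S := fun p : α × List (List Bool) => p.2) (n := fun p => n p.1) (j := fun p => j p.1)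
      (N := fun p => N p.1) hsnd (hn.comp hfst) (hj.comp hfst) (hN.comp hfst) fun p => hN1 p.1)
  refine h1.congr fun a => (chk_eq ?_ (hc.locErr _ _) (hc.locBad _ _ (hjn a))
    (fun S => hfB S _ _) (fun S => hfE S _ _)).symm
  exact ((ht a).le.trans (e0 _)).trans (hc.le_eval _)

end Pool.Agent.H628R3.RO
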