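import Pool.Agent.H628R3.RO.BaseD
import Pool.Agent.H628R3.RO.P1
import Pool.Agent.H628R3.RO.P2
import Pool.Agent.H628R3.RO.P3
import Pool.Agent.H628R3.RO.D2

/-!
The concrete checks can be carried out in time polynomial in a pad.
-/

namespace Pool.Agent.H628R3.RO

open MeasureTheory Pool.Agent.NPC

theorem Loc.monoE {K K' : Set (List Bool)} {S : Set Oracle} (h : Loc K S) (hK : K ⊆ K') :
    Loc K' S := fun A A' hA => h A A' fun x hx => hA x (hK hx)

theorem p_replicate {α : Type} [TEnc α] {n : α → ℕ} (hn : UPoly n) (b : Bool) :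
    Poly (fun a => List.replicate (n a) b) :=
  (NPC.Poly.map (F := fun (_ : α) (_ : Unit) => b) hn (NPC.Poly.const b)).congr fun a => by simp

theorem p_code {α : Type} [TEnc α] {n j : α → ℕ} (hn : UPoly n) (hj : UPoly j) :
    Poly (fun a => code (n a) (j a)) :=
  Poly.append (p_replicate hj true) (Poly.cons (NPC.Poly.const false) (p_replicate hn false))

theorem p_pos {α : Type} [TEnc α] {c i : α → ℕ} {w : α → List Bool} (hc : UPoly c) (hi : UPoly i)
    (hw : Poly w) : Poly (fun a => pos (c a) (i a) (w a)) :=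
  Poly.append (p_replicate hc true) (Poly.cons (NPC.Poly.const false)
    (Poly.append (p_replicate hi true) (Poly.cons (NPC.Poly.const false) hw)))

/-- a hit, as a boolean -/
def hitB (S : List (List Bool)) (m c : ℕ) (w : List Bool) : Bool :=
  (List.range m).all (fun i => ofL S (pos c (min i m) w))

theorem hitB_iff {S : List (List Bool)} {m c : ℕ} {w : List Bool} :
    hitB S m c w = true ↔ Hit m (c, w) (ofL S) := by
  rw [hitB, List.all_eq_true]
  constructor
  · intro h i hi
    have := h i (List.mem_range.2 hi)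
    rwa [min_eq_left hi.le] at this
  · intro h i hi
    rw [List.mem_range] at hi
    rw [min_eq_left hi.le]
    exact h i hi

theorem p_hitB {α : Type} [TEnc α] {S : α → List (List Bool)} {m c : α → ℕ} {w : α → List Bool}
    (hS : Poly S) (hm : UPoly m) (hc : UPoly c) (hw : Poly w) :
    Poly (fun a => hitB (S a) (m a) (c a) (w a)) := by
  refine Poly.all (p := fun a i => ofL (S a) (pos (c a) (min i (m a)) (w a))) hm.range ?_
  have h1 : Poly (fun p : α × ℕ => p.1) := Poly.fst Poly.id
  have h2 : Poly (fun p : α × ℕ => p.2) := Poly.snd Poly.id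
  refine p_ofL (hS.comp h1) (p_pos (hc.comp h1) ?_ (hw.comp h1))
  exact UPoly.of_le (Poly.min h2 ((hm.comp h1).toPoly)) (hm.comp h1) fun p => min_le_right _ _

/-! ### the error events -/

open Classical in
theorem pErr_P (M : Alg) (b : Polynomial ℕ) (hb : ∀ m, m ≤ b.eval m) :
    ∃ f : List (List Bool) → ℕ → ℕ → Bool, (∀ S n j, f S n j = true ↔ ofL S ∈ ErrP M n j) ∧
    ∀ {α : Type} [TEnc α] {S : α → List (List Bool)} {n j N : α → ℕ}, Poly S → UPoly n →
      UPoly j → UPoly N → (∀ a, 2 ^ (b.eval (2 ^ (n a))) ≤ N a) →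
      Poly (fun a => f (S a) (n a) (j a)) := by
  refine ⟨fun S n j => (strs (2 ^ n)).any
    (fun u => decide (M.out (ofL S) u = some (code n j))), fun S n j => ?_, ?_⟩
  · rw [List.any_eq_true]
    constructor
    · rintro ⟨u, hu, h⟩
      exact ⟨u, mem_strs.1 hu, by simpa using h⟩
    · rintro ⟨u, hu, h⟩
      exact ⟨u, mem_strs.2 hu, by simpa using h⟩
  · intro α _ S n j N hS hn hj hN h
    have hp : ∀ a, 2 ^ (2 ^ (n a)) ≤ N a := fun a =>
      (Nat.pow_le_pow_right (by norm_num) (hb _)).trans (h a)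
    have hn' : UPoly (fun a => 2 ^ (n a)) :=
      u_pow hn hN fun a => (Nat.pow_le_pow_right (by norm_num) Nat.lt_two_pow_self.le).trans (hp a)
    refine Poly.any (p := fun a u => decide (M.out (ofL (S a)) u = some (code (n a) (j a))))
      (p_strs hn' hN hp) ?_
    have h1 : Poly (fun p : α × List Bool => p.1) := Poly.fst Poly.id
    have h2 : Poly (fun p : α × List Bool => p.2) := Poly.snd Poly.id
    refine (Poly.decide_eq (p_out M (hS.comp h1) h2)
      (Poly.some (p_code (hn.comp h1) (hj.comp h1)))).congr fun a => ?_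
    exact decide_eq_decide.2 Iff.rfl

open Classical in
theorem pErr_F (V : Alg) (p b : Polynomial ℕ) (hb : ∀ m, m ≤ b.eval m)
    (hp : ∀ m, p.eval m ≤ b.eval m) :
    ∃ f : List (List Bool) → ℕ → ℕ → Bool, (∀ S n j, f S n j = true ↔ ofL S ∈ ErrF V p n) ∧
    ∀ {α : Type} [TEnc α] {S : α → List (List Bool)} {n j N : α → ℕ}, Poly S → UPoly n →
      UPoly j → UPoly N → (∀ a, 2 ^ (b.eval (2 ^ (n a))) ≤ N a) →
      Poly (fun a => f (S a) (n a) (j a)) := by
  refine ⟨fun S n _ => (strs (2 ^ n)).any (fun x => (strs (p.eval (2 ^ n))).all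
    (fun y => !(decide (y.length ≤ p.eval x.length)) ||
      !(decide (V.out (ofL S) (pairBits x y) = some [true])))), fun S n j => ?_, ?_⟩
  · rw [List.any_eq_true]
    constructor
    · rintro ⟨x, hx, h⟩
      rw [List.all_eq_true] at h
      have hxl := mem_strs.1 hx
      refine ⟨x, hxl, fun y hy => ?_⟩
      have h3 := h y (mem_strs.2 (hy.trans (eval_mono _ hxl)))
      simpa [hy] using h3
    · rintro ⟨x, hx, h⟩
      refine ⟨x, mem_strs.2 hx, ?_⟩
      rw [List.all_eq_true]
      intro y _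
      by_cases hy : y.length ≤ p.eval x.length
      · simpa [hy] using h y hy
      · simp [hy]
  · intro α _ S n j N hS hn hj hN h
    have hp1 : ∀ a, 2 ^ (2 ^ (n a)) ≤ N a := fun a =>
      (Nat.pow_le_pow_right (by norm_num) (hb _)).trans (h a)
    have hn' : UPoly (fun a => 2 ^ (n a)) :=
      u_pow hn hN fun a => (Nat.pow_le_pow_right (by norm_num) Nat.lt_two_pow_self.le).trans (hp1 a)
    have hp2 : ∀ a, 2 ^ (p.eval (2 ^ (n a))) ≤ N a := fun a =>
      (Nat.pow_le_pow_right (by norm_num) (hp _)).trans (h a)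
    refine Poly.any (p := fun a x => (strs (p.eval (2 ^ (n a)))).all
      (fun y => !(decide (y.length ≤ p.eval x.length)) ||
      !(decide (V.out (ofL (S a)) (pairBits x y) = some [true])))) (p_strs hn' hN hp1) ?_
    have h1 : Poly (fun q : α × List Bool => q.1) := Poly.fst Poly.id
    refine Poly.all (p := fun (q : α × List Bool) y => !(decide (y.length ≤ p.eval q.2.length)) ||
      !(decide (V.out (ofL (S q.1)) (pairBits q.2 y) = some [true])))
      (p_strs (l := fun q : α × List Bool => p.eval (2 ^ (n q.1))) ((hn'.eval p).comp h1)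
        (hN.comp h1) fun q => hp2 q.1) ?_
    have k1 : Poly (fun q : (α × List Bool) × List Bool => q.1.1) := Poly.fst (Poly.fst Poly.id)
    have k2 : Poly (fun q : (α × List Bool) × List Bool => q.1.2) := Poly.snd (Poly.fst Poly.id)
    have k3 : Poly (fun q : (α × List Bool) × List Bool => q.2) := Poly.snd Poly.id
    refine Poly.or (Poly.not ?_) (Poly.not ?_)
    · exact (Poly.decide_le (UPoly.toPoly (UPoly.length k3))
        (UPoly.toPoly ((UPoly.length k2).eval p))).congr fun q => decide_eq_decide.2 Iff.rfl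
    · exact (Poly.decide_eq (p_out V (hS.comp k1) (H622R2.poly_pairBits k2 k3))
        (NPC.Poly.const (some [true]))).congr fun q => decide_eq_decide.2 Iff.rfl

/-! ### the bad events -/

theorem pBad_T (b : Polynomial ℕ) (hb : ∀ m, m ≤ b.eval m) :
    ∃ f : List (List Bool) → ℕ → ℕ → Bool, (∀ S n j, f S n j = true ↔ ofL S ∈ BadT n j) ∧
    ∀ {α : Type} [TEnc α] {S : α → List (List Bool)} {n j N : α → ℕ}, Poly S → UPoly n →
      UPoly j → UPoly N → (∀ a, 2 ^ (b.eval (2 ^ (n a))) ≤ N a) →
      Poly (fun a => f (S a) (n a) (j a)) := by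
  refine ⟨fun S n j => (strsEq n).any (fun w => hitB S (n + j) 0 w), fun S n j => ?_, ?_⟩
  · rw [List.any_eq_true]
    have : ofL S ∈ BadT n j ↔ ∃ κ ∈ blkT n, Hit (n + j) κ (ofL S) := by
      simp [BadT, NoHit]
    rw [this]
    constructor
    · rintro ⟨w, hw, h⟩
      exact ⟨(0, w), mem_cands.2 ⟨by simp, mem_strsEq.1 hw⟩, hitB_iff.1 h⟩
    · rintro ⟨⟨c, w⟩, hκ, h⟩
      obtain ⟨h1, h2⟩ := mem_cands.1 hκ
      have h1' : c = 0 := by simpa using h1
      subst h1'
      exact ⟨w, mem_strsEq.2 h2, hitB_iff.2 h⟩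
  · intro α _ S n j N hS hn hj hN h
    have hp1 : ∀ a, 2 ^ (n a) ≤ N a := fun a =>
      (Nat.pow_le_pow_right (by norm_num) (Nat.lt_two_pow_self.le.trans (hb _))).trans (h a)
    refine Poly.any (p := fun a w => hitB (S a) (n a + j a) 0 w) (p_strsEq hn hN hp1) ?_
    have h1 : Poly (fun p : α × List Bool => p.1) := Poly.fst Poly.id
    have h2 : Poly (fun p : α × List Bool => p.2) := Poly.snd Poly.id
    exact p_hitB (hS.comp h1) ((hn.add hj).comp h1) (UPoly.const 0) h2

theorem pBad_S (b : Polynomial ℕ) (hb : ∀ m, m ≤ b.eval m) :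
    ∃ f : List (List Bool) → ℕ → ℕ → Bool, (∀ S n j, f S n j = true ↔ ofL S ∈ BadS n j) ∧
    ∀ {α : Type} [TEnc α] {S : α → List (List Bool)} {n j N : α → ℕ}, Poly S → UPoly n →
      UPoly j → UPoly N → (∀ a, 2 ^ (b.eval (2 ^ (n a))) ≤ N a) →
      Poly (fun a => f (S a) (n a) (j a)) := by
  refine ⟨fun S n j => (List.range j).all (fun c => (strsEq n).all
    (fun w => !(hitB S n (min c j) w))), fun S n j => ?_, ?_⟩
  · rw [List.all_eq_true]
    constructor
    · rintro h ⟨c, w⟩ hκ hh
      obtain ⟨h1, h2⟩ := mem_cands.1 hκ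
      have h1' : c < j := by simpa using h1
      have h3 := h c (List.mem_range.2 h1')
      rw [List.all_eq_true] at h3
      have h4 := h3 w (mem_strsEq.2 h2)
      rw [min_eq_left h1'.le, hitB_iff.2 hh] at h4
      simp at h4
    · intro h c hc
      rw [List.mem_range] at hc
      rw [List.all_eq_true]
      intro w hw
      rw [min_eq_left hc.le]
      have h5 : ¬ Hit n (c, w) (ofL S) :=
        h (c, w) (mem_cands.2 ⟨by simpa using hc, mem_strsEq.1 hw⟩)
      rw [← hitB_iff] at h5
      simpa using h5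
  · intro α _ S n j N hS hn hj hN h
    have hp1 : ∀ a, 2 ^ (n a) ≤ N a := fun a =>
      (Nat.pow_le_pow_right (by norm_num) (Nat.lt_two_pow_self.le.trans (hb _))).trans (h a)
    refine Poly.all (p := fun a c => (strsEq (n a)).all
      (fun w => !(hitB (S a) (n a) (min c (j a)) w))) hj.range ?_
    have h1 : Poly (fun p : α × ℕ => p.1) := Poly.fst Poly.id
    refine Poly.all (p := fun (q : α × ℕ) w => !(hitB (S q.1) (n q.1) (min q.2 (j q.1)) w))
      (p_strsEq (l := fun q : α × ℕ => n q.1) (hn.comp h1) (hN.comp h1) fun q => hp1 q.1) ?_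
    have k1 : Poly (fun q : (α × ℕ) × List Bool => q.1.1) := Poly.fst (Poly.fst Poly.id)
    have k2 : Poly (fun q : (α × ℕ) × List Bool => q.1.2) := Poly.snd (Poly.fst Poly.id)
    have k3 : Poly (fun q : (α × ℕ) × List Bool => q.2) := Poly.snd Poly.id
    exact Poly.not (p_hitB (hS.comp k1) (hn.comp k1)
      (UPoly.of_le (Poly.min k2 ((hj.comp k1).toPoly)) (hj.comp k1) fun p => min_le_right _ _) k3)

/-! ### the checks -/

theorem spots_bound {n m : ℕ} (h : m ≤ 3 * n + 2) (c : Polynomial ℕ) :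
    m ≤ (c + Polynomial.C 3 * Polynomial.X + Polynomial.C 2).eval (2 ^ n) := by
  have : n ≤ 2 ^ n := Nat.lt_two_pow_self.le
  simp only [Polynomial.eval_add, Polynomial.eval_mul, Polynomial.eval_C, Polynomial.eval_X]
  omega

theorem check_T (M : Alg) : ∃ b, Check BadT (ErrP M) b := by
  obtain ⟨b0, hb0⟩ := loc_ErrP M
  refine ⟨b0 + Polynomial.C 3 * Polynomial.X + Polynomial.C 2, ?_⟩
  have hle : ∀ m, m ≤ (b0 + Polynomial.C 3 * Polynomial.X + Polynomial.C 2).eval m := by
    intro m
    simp only [Polynomial.eval_add, Polynomial.eval_mul, Polynomial.eval_C, Polynomial.eval_X]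
    omega
  refine ⟨hle, fun n j => (hb0 n j).monoE fun x hx => ?_, fun n j hj => (loc_BadT n j).monoE
    fun x hx => spots_bound (length_le_spotsT hj x hx) b0, pErr_P M _ hle, pBad_T _ hle⟩
  simp only [Set.mem_ofPred_eq, Polynomial.eval_add] at hx ⊢
  omega

theorem check_S (M : Alg) : ∃ b, Check BadS (ErrP M) b := by
  obtain ⟨b0, hb0⟩ := loc_ErrP M
  refine ⟨b0 + Polynomial.C 3 * Polynomial.X + Polynomial.C 2, ?_⟩
  have hle : ∀ m, m ≤ (b0 + Polynomial.C 3 * Polynomial.X + Polynomial.C 2).eval m := by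
    intro m
    simp only [Polynomial.eval_add, Polynomial.eval_mul, Polynomial.eval_C, Polynomial.eval_X]
    omega
  refine ⟨hle, fun n j => (hb0 n j).monoE fun x hx => ?_, fun n j hj => (loc_BadS n j).monoE
    fun x hx => spots_bound (length_le_spotsS hj x hx) b0, pErr_P M _ hle, pBad_S _ hle⟩
  simp only [Set.mem_ofPred_eq, Polynomial.eval_add] at hx ⊢
  omega

theorem check_F (V : Alg) (p : Polynomial ℕ) : ∃ b, Check BadS (fun n _ => ErrF V p n) b := by
  obtain ⟨b0, hb0⟩ := loc_ErrF V p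
  refine ⟨(b0 + p) + Polynomial.C 3 * Polynomial.X + Polynomial.C 2, ?_⟩
  have hle : ∀ m, m ≤ ((b0 + p) + Polynomial.C 3 * Polynomial.X + Polynomial.C 2).eval m := by
    intro m
    simp only [Polynomial.eval_add, Polynomial.eval_mul, Polynomial.eval_C, Polynomial.eval_X]
    omega
  have hle' : ∀ m, p.eval m ≤
      ((b0 + p) + Polynomial.C 3 * Polynomial.X + Polynomial.C 2).eval m := by
    intro m
    simp only [Polynomial.eval_add]
    omega
  refine ⟨hle, fun n j => (hb0 n).monoE fun x hx => ?_, fun n j hj => (loc_BadS n j).monoE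
    fun x hx => spots_bound (length_le_spotsS hj x hx) (b0 + p), pErr_F V p _ hle hle',
    pBad_S _ hle⟩
  simp only [Set.mem_ofPred_eq, Polynomial.eval_add] at hx ⊢
  omega

end Pool.Agent.H628R3.RO
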