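import Pool.Agent.H628R3.RO.BaseE
import Pool.Agent.H628R3.RO.P3
import Pool.Agent.H628R3.RO.E1
import Pool.Agent.H628R3.RO.D3
import Pool.Agent.H628R3.RO.D4

/-!
The checks of the two-sided versions can be carried out in time polynomial in a pad.
-/

namespace Pool.Agent.H628R3.RO

open MeasureTheory Pool.Agent.NPC

/-- the verifier accepts `y` for `x` -/
noncomputable def accE (V : Alg) (p : Polynomial ℕ) (S : List (List Bool)) (x y : List Bool) : Bool :=
  decide (y.length ≤ p.eval x.length) &&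
    @decide (V.out (ofL S) (pairBits x y) = some [true]) (Classical.propDecidable _)

theorem accE_iff {V : Alg} {p : Polynomial ℕ} {S : List (List Bool)} {x y : List Bool} :
    accE V p S x y = true ↔
      y.length ≤ p.eval x.length ∧ V.out (ofL S) (pairBits x y) = some [true] := by
  simp [accE]

theorem p_accE (V : Alg) (p : Polynomial ℕ) {α : Type} [TEnc α] {S : α → List (List Bool)}
    {x y : α → List Bool} (hS : Poly S) (hx : Poly x) (hy : Poly y) :
    Poly (fun a => accE V p (S a) (x a) (y a)) := by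
  classical
  refine Poly.and ?_ ?_
  · exact (Poly.decide_le (UPoly.toPoly (UPoly.length hy))
      (UPoly.toPoly ((UPoly.length hx).eval p))).congr fun q => decide_eq_decide.2 Iff.rfl
  · exact (Poly.decide_eq (p_out V hS (H622R2.poly_pairBits hx hy))
      (NPC.Poly.const (some [true]))).congr fun q => decide_eq_decide.2 Iff.rfl

/-- there is a witness for `x`, for `x` of length at most `2 ^ n` -/
noncomputable def witE (V : Alg) (p : Polynomial ℕ) (S : List (List Bool)) (n : ℕ)
    (x : List Bool) : Bool := (strs (p.eval (2 ^ n))).any (fun y => accE V p S x y)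

theorem witE_iff {V : Alg} {p : Polynomial ℕ} {S : List (List Bool)} {n : ℕ} {x : List Bool}
    (hx : x.length ≤ 2 ^ n) : witE V p S n x = true ↔ Wit V p x (ofL S) := by
  rw [witE, List.any_eq_true]
  constructor
  · rintro ⟨y, _, h⟩
    exact ⟨y, accE_iff.1 h⟩
  · rintro ⟨y, h1, h2⟩
    exact ⟨y, mem_strs.2 (h1.trans (eval_mono _ hx)), accE_iff.2 ⟨h1, h2⟩⟩

theorem p_witE (V : Alg) (p b : Polynomial ℕ) (hb : ∀ m, m ≤ b.eval m)
    (hp : ∀ m, p.eval m ≤ b.eval m) {α : Type} [TEnc α] {S : α → List (List Bool)}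
    {n N : α → ℕ} {x : α → List Bool} (hS : Poly S) (hn : UPoly n) (hx : Poly x) (hN : UPoly N)
    (h : ∀ a, 2 ^ (b.eval (2 ^ (n a))) ≤ N a) :
    Poly (fun a => witE V p (S a) (n a) (x a)) := by
  have hp1 : ∀ a, 2 ^ (2 ^ (n a)) ≤ N a := fun a =>
    (Nat.pow_le_pow_right (by norm_num) (hb _)).trans (h a)
  have hn' : UPoly (fun a => 2 ^ (n a)) :=
    u_pow hn hN fun a => (Nat.pow_le_pow_right (by norm_num) Nat.lt_two_pow_self.le).trans (hp1 a)
  have hp2 : ∀ a, 2 ^ (p.eval (2 ^ (n a))) ≤ N a := fun a =>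
    (Nat.pow_le_pow_right (by norm_num) (hp _)).trans (h a)
  refine Poly.any (p := fun a y => accE V p (S a) (x a) y) (p_strs (hn'.eval p) hN hp2) ?_
  have h1 : Poly (fun q : α × List Bool => q.1) := Poly.fst Poly.id
  have h2 : Poly (fun q : α × List Bool => q.2) := Poly.snd Poly.id
  exact p_accE V p (hS.comp h1) (hx.comp h1) h2

/-! ### the error events -/

theorem pErr_N (V : Bool → Alg) (p : Bool → Polynomial ℕ) (b : Polynomial ℕ)
    (hb : ∀ m, m ≤ b.eval m) (hp : ∀ i m, (p i).eval m ≤ b.eval m) :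
    ∃ f : List (List Bool) → ℕ → ℕ → Bool, (∀ S n j, f S n j = true ↔ ofL S ∈ ErrN V p n) ∧
    ∀ {α : Type} [TEnc α] {S : α → List (List Bool)} {n j N : α → ℕ}, Poly S → UPoly n →
      UPoly j → UPoly N → (∀ a, 2 ^ (b.eval (2 ^ (n a))) ≤ N a) →
      Poly (fun a => f (S a) (n a) (j a)) := by
  refine ⟨fun S n _ => (strs (2 ^ n)).any (fun x => witE (V false) (p false) S n x &&
    witE (V true) (p true) S n x), fun S n j => ?_, ?_⟩
  · rw [List.any_eq_true]
    constructor
    · rintro ⟨x, hx, h⟩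
      have hxl := mem_strs.1 hx
      rw [Bool.and_eq_true, witE_iff hxl, witE_iff hxl] at h
      refine ⟨x, hxl, fun i => ?_⟩
      cases i
      exacts [h.1, h.2]
    · rintro ⟨x, hx, h⟩
      refine ⟨x, mem_strs.2 hx, ?_⟩
      rw [Bool.and_eq_true, witE_iff hx, witE_iff hx]
      exact ⟨h false, h true⟩
  · intro α _ S n j N hS hn hj hN h
    have hp1 : ∀ a, 2 ^ (2 ^ (n a)) ≤ N a := fun a =>
      (Nat.pow_le_pow_right (by norm_num) (hb _)).trans (h a)
    have hn' : UPoly (fun a => 2 ^ (n a)) :=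
      u_pow hn hN fun a => (Nat.pow_le_pow_right (by norm_num) Nat.lt_two_pow_self.le).trans (hp1 a)
    refine Poly.any (p := fun a x => witE (V false) (p false) (S a) (n a) x &&
      witE (V true) (p true) (S a) (n a) x) (p_strs hn' hN hp1) ?_
    have h1 : Poly (fun q : α × List Bool => q.1) := Poly.fst Poly.id
    have h2 : Poly (fun q : α × List Bool => q.2) := Poly.snd Poly.id
    exact Poly.and
      (p_witE _ _ b hb (hp false) (hS.comp h1) (hn.comp h1) h2 (hN.comp h1) fun q => h q.1)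
      (p_witE _ _ b hb (hp true) (hS.comp h1) (hn.comp h1) h2 (hN.comp h1) fun q => h q.1)

theorem pErr_C (V : Bool → Alg) (p : Bool → Polynomial ℕ) (b : Polynomial ℕ)
    (hb : ∀ m, m ≤ b.eval m) (hp : ∀ i m, (p i).eval m ≤ b.eval m) :
    ∃ f : List (List Bool) → ℕ → ℕ → Bool, (∀ S n j, f S n j = true ↔ ofL S ∈ ErrC V p n) ∧
    ∀ {α : Type} [TEnc α] {S : α → List (List Bool)} {n j N : α → ℕ}, Poly S → UPoly n →
      UPoly j → UPoly N → (∀ a, 2 ^ (b.eval (2 ^ (n a))) ≤ N a) →
      Poly (fun a => f (S a) (n a) (j a)) := by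
  refine ⟨fun S n _ => (strs (2 ^ n)).any (fun x => !(witE (V false) (p false) S n x) &&
    !(witE (V true) (p true) S n x)), fun S n j => ?_, ?_⟩
  · rw [List.any_eq_true]
    constructor
    · rintro ⟨x, hx, h⟩
      have hxl := mem_strs.1 hx
      rw [Bool.and_eq_true, Bool.not_eq_true', Bool.not_eq_true', ← Bool.not_eq_true,
        ← Bool.not_eq_true, witE_iff hxl, witE_iff hxl] at h
      refine ⟨x, hxl, fun i => ?_⟩
      cases i
      exacts [h.1, h.2]
    · rintro ⟨x, hx, h⟩
      refine ⟨x, mem_strs.2 hx, ?_⟩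
      rw [Bool.and_eq_true, Bool.not_eq_true', Bool.not_eq_true', ← Bool.not_eq_true,
        ← Bool.not_eq_true, witE_iff hx, witE_iff hx]
      exact ⟨h false, h true⟩
  · intro α _ S n j N hS hn hj hN h
    have hp1 : ∀ a, 2 ^ (2 ^ (n a)) ≤ N a := fun a =>
      (Nat.pow_le_pow_right (by norm_num) (hb _)).trans (h a)
    have hn' : UPoly (fun a => 2 ^ (n a)) :=
      u_pow hn hN fun a => (Nat.pow_le_pow_right (by norm_num) Nat.lt_two_pow_self.le).trans (hp1 a)
    refine Poly.any (p := fun a x => !(witE (V false) (p false) (S a) (n a) x) &&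
      !(witE (V true) (p true) (S a) (n a) x)) (p_strs hn' hN hp1) ?_
    have h1 : Poly (fun q : α × List Bool => q.1) := Poly.fst Poly.id
    have h2 : Poly (fun q : α × List Bool => q.2) := Poly.snd Poly.id
    exact Poly.and
      (Poly.not (p_witE _ _ b hb (hp false) (hS.comp h1) (hn.comp h1) h2 (hN.comp h1)
        fun q => h q.1))
      (Poly.not (p_witE _ _ b hb (hp true) (hS.comp h1) (hn.comp h1) h2 (hN.comp h1)
        fun q => h q.1))

theorem pErr_U (V : Alg) (p b : Polynomial ℕ) (hb : ∀ m, m ≤ b.eval m)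
    (hp : ∀ m, p.eval m ≤ b.eval m) :
    ∃ f : List (List Bool) → ℕ → ℕ → Bool, (∀ S n j, f S n j = true ↔ ofL S ∈ ErrU V p n) ∧
    ∀ {α : Type} [TEnc α] {S : α → List (List Bool)} {n j N : α → ℕ}, Poly S → UPoly n →
      UPoly j → UPoly N → (∀ a, 2 ^ (b.eval (2 ^ (n a))) ≤ N a) →
      Poly (fun a => f (S a) (n a) (j a)) := by
  refine ⟨fun S n _ => (strs (2 ^ n)).any (fun x => (strs (p.eval (2 ^ n))).any
    (fun y => (strs (p.eval (2 ^ n))).any (fun y' => !(decide (y = y')) &&
      (accE V p S x y && accE V p S x y')))), fun S n j => ?_, ?_⟩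
  · rw [List.any_eq_true]
    constructor
    · rintro ⟨x, hx, h⟩
      rw [List.any_eq_true] at h
      obtain ⟨y, _, h⟩ := h
      rw [List.any_eq_true] at h
      obtain ⟨y', _, h⟩ := h
      rw [Bool.and_eq_true, Bool.and_eq_true, accE_iff, accE_iff, Bool.not_eq_true',
        decide_eq_false_iff_not] at h
      exact ⟨x, mem_strs.1 hx, y, y', h.1, h.2.1.1, h.2.2.1, h.2.1.2, h.2.2.2⟩
    · rintro ⟨x, hx, y, y', h1, h2, h3, h4, h5⟩
      refine ⟨x, mem_strs.2 hx, ?_⟩
      rw [List.any_eq_true]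
      refine ⟨y, mem_strs.2 (h2.trans (eval_mono _ hx)), ?_⟩
      rw [List.any_eq_true]
      refine ⟨y', mem_strs.2 (h3.trans (eval_mono _ hx)), ?_⟩
      rw [Bool.and_eq_true, Bool.and_eq_true, accE_iff, accE_iff, Bool.not_eq_true',
        decide_eq_false_iff_not]
      exact ⟨h1, ⟨h2, h4⟩, h3, h5⟩
  · intro α _ S n j N hS hn hj hN h
    have hp1 : ∀ a, 2 ^ (2 ^ (n a)) ≤ N a := fun a =>
      (Nat.pow_le_pow_right (by norm_num) (hb _)).trans (h a)
    have hn' : UPoly (fun a => 2 ^ (n a)) :=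
      u_pow hn hN fun a => (Nat.pow_le_pow_right (by norm_num) Nat.lt_two_pow_self.le).trans (hp1 a)
    have hp2 : ∀ a, 2 ^ (p.eval (2 ^ (n a))) ≤ N a := fun a =>
      (Nat.pow_le_pow_right (by norm_num) (hp _)).trans (h a)
    refine Poly.any (p := fun a x => (strs (p.eval (2 ^ (n a)))).any
      (fun y => (strs (p.eval (2 ^ (n a)))).any (fun y' => !(decide (y = y')) &&
      (accE V p (S a) x y && accE V p (S a) x y')))) (p_strs hn' hN hp1) ?_
    have h1 : Poly (fun q : α × List Bool => q.1) := Poly.fst Poly.id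
    refine Poly.any (p := fun (q : α × List Bool) y => (strs (p.eval (2 ^ (n q.1)))).any
      (fun y' => !(decide (y = y')) && (accE V p (S q.1) q.2 y && accE V p (S q.1) q.2 y')))
      (p_strs (l := fun q : α × List Bool => p.eval (2 ^ (n q.1))) ((hn'.eval p).comp h1)
        (hN.comp h1) fun q => hp2 q.1) ?_
    have k1 : Poly (fun q : (α × List Bool) × List Bool => q.1.1) := Poly.fst (Poly.fst Poly.id)
    refine Poly.any (p := fun (q : (α × List Bool) × List Bool) y' => !(decide (q.2 = y')) &&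
      (accE V p (S q.1.1) q.1.2 q.2 && accE V p (S q.1.1) q.1.2 y'))
      (p_strs (l := fun q : (α × List Bool) × List Bool => p.eval (2 ^ (n q.1.1)))
        ((hn'.eval p).comp k1) (hN.comp k1) fun q => hp2 q.1.1) ?_
    have l1 : Poly (fun q : ((α × List Bool) × List Bool) × List Bool => q.1.1.1) :=
      Poly.fst (Poly.fst (Poly.fst Poly.id))
    have l2 : Poly (fun q : ((α × List Bool) × List Bool) × List Bool => q.1.1.2) :=
      Poly.snd (Poly.fst (Poly.fst Poly.id))
    have l3 : Poly (fun q : ((α × List Bool) × List Bool) × List Bool => q.1.2) :=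
      Poly.snd (Poly.fst Poly.id)
    have l4 : Poly (fun q : ((α × List Bool) × List Bool) × List Bool => q.2) := Poly.snd Poly.id
    exact Poly.and (Poly.not (Poly.decide_eq l3 l4))
      (Poly.and (p_accE V p (hS.comp l1) l2 l3) (p_accE V p (hS.comp l1) l2 l4))

/-! ### the bad events -/

theorem u_size_E2 {α : Type} [TEnc α] {s : α → ℕ} (hs : UPoly s) : UPoly (fun a => (s a).size) := by
  have h1 : UPoly (fun a => (s a).bits.length) := UPoly.length (Poly.natBits hs.toPoly)
  have e : (fun a => (s a).size) = fun a => (s a).bits.length := by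
    funext a
    rw [Nat.size_eq_bits_len]
  rw [e]
  exact h1

theorem u_lvC_E2 {α : Type} [TEnc α] {s : α → ℕ} (hs : UPoly s) :
    UPoly (fun a => 2 * lvC (s a)) := by
  have h0 := u_size_E2 hs
  have h1 : Poly (fun a => 2 * lvC (s a)) := by
    unfold lvC
    exact Poly.mul (NPC.Poly.const 2)
      (Poly.div (UPoly.toPoly (h0.add (UPoly.const 1))) (NPC.Poly.const 2))
  refine UPoly.of_le h1 (h0.add (UPoly.const 1)) fun a => ?_
  simp only [lvC]
  omega

theorem memHitN_E2 {i : Bool} {n s : ℕ} {A : Oracle} :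
    A ∈ HitN i n s ↔ ∃ w : List Bool, w.length = n ∧ Hit (n + s.size) (i.toNat, w) A := by
  have : A ∈ HitN i n s ↔ ∃ κ ∈ halfN i n, Hit (n + s.size) κ A := by
    simp [HitN, NoHit, bitsN, lvN]
  rw [this]
  constructor
  · rintro ⟨⟨c, w⟩, hκ, h⟩
    obtain ⟨h1, h2⟩ := mem_cands.1 hκ
    have h1' : c = i.toNat := by simpa using h1
    subst h1'
    exact ⟨w, h2, h⟩
  · rintro ⟨w, hw, h⟩
    exact ⟨(i.toNat, w), mem_cands.2 ⟨by simp, hw⟩, h⟩

theorem memBadC_E2 {n s : ℕ} {A : Oracle} :
    A ∈ BadC n s ↔ ∀ c < 2 * lvC s, ∀ w : List Bool, w.length = n → ¬ Hit n (c, w) A := by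
  have h0 : ∀ i, A ∈ (HitC i n s)ᶜ ↔ ∀ c w, i.toNat * lvC s ≤ c → c < (i.toNat + 1) * lvC s →
      w.length = n → ¬ Hit n (c, w) A := by
    intro i
    simp only [HitC, compl_compl, NoHit, Set.mem_ofPred_eq]
    constructor
    · intro h c w h1 h2 h3
      exact h (c, w) (mem_cands.2 ⟨Finset.mem_Ico.2 ⟨h1, h2⟩, h3⟩)
    · rintro h ⟨c, w⟩ hκ
      obtain ⟨h1, h2⟩ := mem_cands.1 hκ
      obtain ⟨h3, h4⟩ := Finset.mem_Ico.1 h1
      exact h c w h3 h4 h2
  rw [BadC, Set.mem_inter_iff, h0, h0]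
  simp only [Bool.toNat_false, Bool.toNat_true]
  constructor
  · rintro ⟨h1, h2⟩ c hc w hw
    rcases Nat.lt_or_ge c (lvC s) with h | h
    · exact h1 c w (by omega) (by omega) hw
    · exact h2 c w (by omega) (by omega) hw
  · intro h
    exact ⟨fun c w _ h2 h3 => h c (by omega) w h3, fun c w _ h2 h3 => h c (by omega) w h3⟩

theorem pBad_N (b : Polynomial ℕ) (hb : ∀ m, m ≤ b.eval m) :
    ∃ f : List (List Bool) → ℕ → ℕ → Bool, (∀ S n j, f S n j = true ↔ ofL S ∈ BadN n j) ∧
    ∀ {α : Type} [TEnc α] {S : α → List (List Bool)} {n j N : α → ℕ}, Poly S → UPoly n →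
      UPoly j → UPoly N → (∀ a, 2 ^ (b.eval (2 ^ (n a))) ≤ N a) →
      Poly (fun a => f (S a) (n a) (j a)) := by
  refine ⟨fun S n j => (strsEq n).any (fun w => hitB S (n + j.size) 0 w) &&
    (strsEq n).any (fun w => hitB S (n + j.size) 1 w), fun S n j => ?_, ?_⟩
  · rw [Bool.and_eq_true, List.any_eq_true, List.any_eq_true, BadN, Set.mem_inter_iff, memHitN_E2,
      memHitN_E2]
    simp only [Bool.toNat_false, Bool.toNat_true]
    refine and_congr ?_ ?_
    · exact exists_congr fun w => and_congr mem_strsEq hitB_iff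
    · exact exists_congr fun w => and_congr mem_strsEq hitB_iff
  · intro α _ S n j N hS hn hj hN h
    have hp1 : ∀ a, 2 ^ (n a) ≤ N a := fun a =>
      (Nat.pow_le_pow_right (by norm_num) (Nat.lt_two_pow_self.le.trans (hb _))).trans (h a)
    have h1 : Poly (fun p : α × List Bool => p.1) := Poly.fst Poly.id
    have h2 : Poly (fun p : α × List Bool => p.2) := Poly.snd Poly.id
    have h3 := u_size_E2 hj
    refine Poly.and
      (Poly.any (p := fun a w => hitB (S a) (n a + (j a).size) 0 w) (p_strsEq hn hN hp1) ?_)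
      (Poly.any (p := fun a w => hitB (S a) (n a + (j a).size) 1 w) (p_strsEq hn hN hp1) ?_)
    · exact p_hitB (hS.comp h1) ((hn.add h3).comp h1) (UPoly.const 0) h2
    · exact p_hitB (hS.comp h1) ((hn.add h3).comp h1) (UPoly.const 1) h2

theorem pBad_C (b : Polynomial ℕ) (hb : ∀ m, m ≤ b.eval m) :
    ∃ f : List (List Bool) → ℕ → ℕ → Bool, (∀ S n j, f S n j = true ↔ ofL S ∈ BadC n j) ∧
    ∀ {α : Type} [TEnc α] {S : α → List (List Bool)} {n j N : α → ℕ}, Poly S → UPoly n →
      UPoly j → UPoly N → (∀ a, 2 ^ (b.eval (2 ^ (n a))) ≤ N a) →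
      Poly (fun a => f (S a) (n a) (j a)) := by
  refine ⟨fun S n j => (List.range (2 * lvC j)).all (fun c => (strsEq n).all
    (fun w => !(hitB S n (min c (2 * lvC j)) w))), fun S n j => ?_, ?_⟩
  · rw [List.all_eq_true, memBadC_E2]
    constructor
    · intro h c hc w hw hh
      have h3 := h c (List.mem_range.2 hc)
      rw [List.all_eq_true] at h3
      have h4 := h3 w (mem_strsEq.2 hw)
      rw [min_eq_left hc.le, hitB_iff.2 hh] at h4
      simp at h4
    · intro h c hc
      rw [List.mem_range] at hc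
      rw [List.all_eq_true]
      intro w hw
      rw [min_eq_left hc.le]
      have h5 : ¬ Hit n (c, w) (ofL S) := h c hc w (mem_strsEq.1 hw)
      rw [← hitB_iff] at h5
      simpa using h5
  · intro α _ S n j N hS hn hj hN h
    have hp1 : ∀ a, 2 ^ (n a) ≤ N a := fun a =>
      (Nat.pow_le_pow_right (by norm_num) (Nat.lt_two_pow_self.le.trans (hb _))).trans (h a)
    have hj' := u_lvC_E2 hj
    refine Poly.all (p := fun a c => (strsEq (n a)).all
      (fun w => !(hitB (S a) (n a) (min c (2 * lvC (j a))) w))) hj'.range ?_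
    have h1 : Poly (fun p : α × ℕ => p.1) := Poly.fst Poly.id
    refine Poly.all (p := fun (q : α × ℕ) w =>
      !(hitB (S q.1) (n q.1) (min q.2 (2 * lvC (j q.1))) w))
      (p_strsEq (l := fun q : α × ℕ => n q.1) (hn.comp h1) (hN.comp h1) fun q => hp1 q.1) ?_
    have k1 : Poly (fun q : (α × ℕ) × List Bool => q.1.1) := Poly.fst (Poly.fst Poly.id)
    have k2 : Poly (fun q : (α × ℕ) × List Bool => q.1.2) := Poly.snd (Poly.fst Poly.id)
    have k3 : Poly (fun q : (α × ℕ) × List Bool => q.2) := Poly.snd Poly.id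
    exact Poly.not (p_hitB (hS.comp k1) (hn.comp k1)
      (UPoly.of_le (Poly.min k2 ((hj'.comp k1).toPoly)) (hj'.comp k1)
        fun p => min_le_right _ _) k3)

/-! ### the checks -/

theorem spots_bound5 {n m : ℕ} (h : m ≤ 5 * n + 5) (c : Polynomial ℕ) :
    m ≤ (c + Polynomial.C 5 * Polynomial.X + Polynomial.C 5).eval (2 ^ n) := by
  have : n ≤ 2 ^ n := Nat.lt_two_pow_self.le
  simp only [Polynomial.eval_add, Polynomial.eval_mul, Polynomial.eval_C, Polynomial.eval_X]
  omega

theorem check_N (V : Bool → Alg) (p : Bool → Polynomial ℕ) :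
    ∃ b, Check BadN (fun n _ => ErrN V p n) b := by
  obtain ⟨b0, hb0⟩ := loc_ErrN V p
  refine ⟨(b0 + p false + p true) + Polynomial.C 5 * Polynomial.X + Polynomial.C 5, ?_⟩
  have hle : ∀ m, m ≤
      ((b0 + p false + p true) + Polynomial.C 5 * Polynomial.X + Polynomial.C 5).eval m := by
    intro m
    simp only [Polynomial.eval_add, Polynomial.eval_mul, Polynomial.eval_C, Polynomial.eval_X]
    omega
  have hle' : ∀ i m, (p i).eval m ≤
      ((b0 + p false + p true) + Polynomial.C 5 * Polynomial.X + Polynomial.C 5).eval m := by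
    intro i m
    simp only [Polynomial.eval_add]
    cases i <;> omega
  refine ⟨hle, fun n j => (hb0 n).monoE fun x hx => ?_, fun n j hj => (loc_BadN n j).monoE
    fun x hx => spots_bound5 (by have := length_le_spotsN hj x hx; omega) _,
    pErr_N V p _ hle hle', pBad_N _ hle⟩
  simp only [Set.mem_ofPred_eq, Polynomial.eval_add] at hx ⊢
  omega

theorem check_C (V : Bool → Alg) (p : Bool → Polynomial ℕ) :
    ∃ b, Check BadC (fun n _ => ErrC V p n) b := by
  obtain ⟨b0, hb0⟩ := loc_ErrC V p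
  refine ⟨(b0 + p false + p true) + Polynomial.C 5 * Polynomial.X + Polynomial.C 5, ?_⟩
  have hle : ∀ m, m ≤
      ((b0 + p false + p true) + Polynomial.C 5 * Polynomial.X + Polynomial.C 5).eval m := by
    intro m
    simp only [Polynomial.eval_add, Polynomial.eval_mul, Polynomial.eval_C, Polynomial.eval_X]
    omega
  have hle' : ∀ i m, (p i).eval m ≤
      ((b0 + p false + p true) + Polynomial.C 5 * Polynomial.X + Polynomial.C 5).eval m := by
    intro i m
    simp only [Polynomial.eval_add]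
    cases i <;> omega
  refine ⟨hle, fun n j => (hb0 n).monoE fun x hx => ?_, fun n j hj => (loc_BadC n j).monoE
    fun x hx => spots_bound5 (length_le_spotsC hj x hx) _,
    pErr_C V p _ hle hle', pBad_C _ hle⟩
  simp only [Set.mem_ofPred_eq, Polynomial.eval_add] at hx ⊢
  omega

theorem check_U (V : Alg) (p : Polynomial ℕ) :
    ∃ b, Check BadN (fun n _ => ErrU V p n) b := by
  obtain ⟨b0, hb0⟩ := loc_ErrU V p
  refine ⟨(b0 + p) + Polynomial.C 5 * Polynomial.X + Polynomial.C 5, ?_⟩
  have hle : ∀ m, m ≤ ((b0 + p) + Polynomial.C 5 * Polynomial.X + Polynomial.C 5).eval m := by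
    intro m
    simp only [Polynomial.eval_add, Polynomial.eval_mul, Polynomial.eval_C, Polynomial.eval_X]
    omega
  have hle' : ∀ m, p.eval m ≤
      ((b0 + p) + Polynomial.C 5 * Polynomial.X + Polynomial.C 5).eval m := by
    intro m
    simp only [Polynomial.eval_add]
    omega
  refine ⟨hle, fun n j => (hb0 n).monoE fun x hx => ?_, fun n j hj => (loc_BadN n j).monoE
    fun x hx => spots_bound5 (by have := length_le_spotsN hj x hx; omega) _,
    pErr_U V p _ hle hle', pBad_N _ hle⟩
  simp only [Set.mem_ofPred_eq, Polynomial.eval_add] at hx ⊢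
  omega

end Pool.Agent.H628R3.RO
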