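import Pool.Agent.H628R3.RO.BaseD
import Pool.Agent.H628R3.RO.M2
import Pool.Agent.H628R3.RO.A1
import Pool.Agent.H628R3.RO.D1
import Pool.Agent.H628R3.RO.D2

/-!
# The key inequality for `p`-optimality (task K2)

Together with the tools which are also used for the total search problems (task K3).
-/

namespace Pool.Agent.H628R3.RO

open MeasureTheory Pool.Agent.NPC

theorem mul_poly_le_two_pow (P : Polynomial ℕ) :
    ∀ C : ℕ, ∃ n0, ∀ n ≥ n0, C * P.eval n ≤ 2 ^ n := by
  induction P using Polynomial.induction_on' with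
  | add p q hp hq =>
    intro C
    obtain ⟨a, ha⟩ := hp (2 * C)
    obtain ⟨b, hb⟩ := hq (2 * C)
    refine ⟨max a b, fun n hn => ?_⟩
    have h1 := ha n (le_trans (le_max_left _ _) hn)
    have h2 := hb n (le_trans (le_max_right _ _) hn)
    rw [Polynomial.eval_add]
    nlinarith
  | monomial k a =>
    intro C
    have h := tendsto_pow_const_div_const_pow_of_one_lt k (show (1 : ℝ) < 2 by norm_num)
    have h2 : ∀ᶠ n : ℕ in Filter.atTop, (n : ℝ) ^ k / 2 ^ n < 1 / ((C : ℝ) * a + 1) :=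
      h.eventually (gt_mem_nhds (by positivity))
    obtain ⟨n0, hn0⟩ := Filter.eventually_atTop.mp h2
    refine ⟨n0, fun n hn => ?_⟩
    have h3 := hn0 n hn
    rw [div_lt_div_iff₀ (by positivity) (by positivity)] at h3
    rw [Polynomial.eval_monomial]
    have h4 : ((C * (a * n ^ k) : ℕ) : ℝ) ≤ ((2 ^ n : ℕ) : ℝ) := by
      push_cast
      have : (0 : ℝ) ≤ (n : ℝ) ^ k := by positivity
      nlinarith
    exact_mod_cast h4

theorem poly_le_two_pow (P : Polynomial ℕ) : ∃ n0, ∀ n ≥ n0, P.eval n ≤ 2 ^ n := by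
  obtain ⟨n0, h⟩ := mul_poly_le_two_pow P 1
  exact ⟨n0, fun n hn => by simpa using h n hn⟩

/-- Few candidates are touched by few questions. -/
theorem touch (W : Finset Cand) (m : ℕ) (Q : Finset (List Bool)) : ∃ T : Finset Cand,
    T.card ≤ Q.card ∧ ∀ h ⊆ W, Disjoint h T → ∀ (B : Oracle), ∀ q ∈ Q,
      plant (allSpots m h) B q = B q := by
  classical
  refine ⟨W.filter (fun κ => ∃ i < m, pos κ.1 i κ.2 ∈ Q), ?_, ?_⟩
  · have h1 : ∀ κ ∈ W.filter (fun κ => ∃ i < m, pos κ.1 i κ.2 ∈ Q),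
        ∃ i, i < m ∧ pos κ.1 i κ.2 ∈ Q := by
      intro κ hκ
      exact (Finset.mem_filter.mp hκ).2
    choose! i hi using h1
    refine Finset.card_le_card_of_injOn (fun κ => pos κ.1 (i κ) κ.2)
      (fun κ hκ => (hi κ hκ).2) ?_
    intro κ _ κ' _ he
    obtain ⟨h1, -, h3⟩ := pos_inj he
    exact Prod.ext h1 h3
  · intro h hW hd B q hq
    unfold plant
    rw [if_neg]
    intro hmem
    obtain ⟨κ, hκ, i, hi, rfl⟩ := mem_allSpots.mp hmem
    exact Finset.disjoint_left.mp hd hκ (Finset.mem_filter.mpr ⟨hW hκ, i, hi, hq⟩)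

theorem keyS_core {n j t : ℕ} (hn : 1 ≤ n) (ht : t < n) (L : List (List Bool))
    {K : Set (List Bool)} (hK : K.Finite) {Z E : Set Oracle} (hZ : Loc K Z) (hE : Loc K E)
    (hKt : {x : List Bool | x.length ≤ t} ⊆ K)
    (hW : ∀ κ ∈ blkS n j, ∀ i < n, pos κ.1 i κ.2 ∈ K)
    (t0 : ℕ) (ht0 : 16 * t0 ≤ 2 ^ n)
    (hkey : ∀ B ∈ NoHit n (blkS n j), B ∉ E → ∃ T : Finset Cand, T.card ≤ t0 ∧
      ∀ h ⊆ blkS n j, Disjoint h T → plant (allSpots n h) B ∉ Z)
    (hs : 4 * prob (cyl t L ∩ (BadS n j ∩ E)) < prob (cyl t L ∩ BadS n j)) :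
    prob (cyl t L ∩ Z) ≤ (1 / 2) * prob (cyl t L) := by
  have hcyl : Loc {x : List Bool | x.length ≤ t} (cyl t L) := loc_cyl t L
  have hτ : Loc K (cyl t L) := fun A A' h => hcyl A A' fun x hx => h x (hKt hx)
  have hlong : ∀ κ ∈ blkS n j, ∀ i < n, ¬ (pos κ.1 i κ.2).length ≤ t := by
    intro κ hκ i _
    rw [length_pos]
    have := (mem_cands.mp hκ).2
    omega
  have hτ' : ∀ (B : Oracle) (h : Finset Cand), h ⊆ blkS n j →
      (plant (allSpots n h) B ∈ cyl t L ↔ B ∈ cyl t L) := by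
    intro B h hh
    refine hcyl _ _ fun x hx => ?_
    unfold plant
    rw [if_neg]
    intro hmem
    obtain ⟨κ, hκ, i, hi, rfl⟩ := mem_allSpots.mp hmem
    exact hlong κ (hh hκ) i hi hx
  have h1 := key_sat hK hZ hE hτ (blkS n j) hn t0 hW hτ' hkey
  have h2 := prob_noHit_inter (finite_length_le t) hcyl n (blkS n j)
    (fun κ hκ i hi => hlong κ hκ i hi)
  have e1 : E ∩ cyl t L ∩ NoHit n (blkS n j) = cyl t L ∩ (BadS n j ∩ E) := by
    ext A; simp only [Set.mem_inter_iff, BadS]; tauto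
  rw [e1, h2] at h1
  have hs' : 4 * prob (cyl t L ∩ (BadS n j ∩ E)) <
      prob (cyl t L) * (1 - (1 / 2) ^ n) ^ (blkS n j).card := by
    rw [← h2]; exact hs
  set P := (1 - (1 / 2 : ℝ) ^ n) ^ (blkS n j).card with hP
  have hhalf : (1 / 2 : ℝ) ^ n < 1 := pow_lt_one₀ (by norm_num) (by norm_num) (by omega)
  have hP0 : 0 < P := pow_pos (by linarith) _
  have hpc : 0 ≤ prob (cyl t L) := measureReal_nonneg
  have ht1 : (t0 : ℝ) * (1 / 2) ^ n ≤ 1 / 16 := by
    have h3 : (16 * t0 : ℝ) ≤ 2 ^ n := by exact_mod_cast ht0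
    have h4 : (1 / 2 : ℝ) ^ n * 2 ^ n = 1 := by
      rw [← mul_pow]; norm_num
    have h5 : (0 : ℝ) ≤ (1 / 2) ^ n := by positivity
    nlinarith
  have h6 : (t0 : ℝ) * (1 / 2) ^ n * (prob (cyl t L) * P) ≤ 1 / 16 * (prob (cyl t L) * P) :=
    mul_le_mul_of_nonneg_right ht1 (by positivity)
  have h7 : prob (Z ∩ cyl t L) * P ≤ (5 / 16 * prob (cyl t L)) * P := by nlinarith
  have h8 := le_of_mul_le_mul_right h7 hP0
  rw [Set.inter_comm]
  linarith

/-- The strings up to a given length contain everything. -/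
theorem pos_mem_blkS {n j : ℕ} {b : ℕ} (hj : j ≤ n) (hb : 3 * n + 2 ≤ b) :
    ∀ κ ∈ blkS n j, ∀ i < n, pos κ.1 i κ.2 ∈ {x : List Bool | x.length ≤ b} := by
  intro κ hκ i hi
  have h1 := mem_cands.mp hκ
  have h2 := Finset.mem_range.mp h1.1
  rw [Set.mem_ofPred_eq, length_pos]
  omega

theorem Loc.mono {K K' : Set (List Bool)} (h : K ⊆ K') {S : Set Oracle} (hS : Loc K S) :
    Loc K' S := fun A A' hA => hS A A' fun x hx => hA x (h hx)

theorem key_S (M : Alg) (R' : Finset Alg) : ∃ n0, ∀ n ≥ n0, ∀ j, 4 ≤ j → j ≤ n → ∀ t < n,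
    ∀ L : List (List Bool),
    4 * prob (cyl t L ∩ (BadS n j ∩ ErrP M n j)) < prob (cyl t L ∩ BadS n j) →
    prob (cyl t L ∩ {A | ∃ h ∈ R', A ∈ GoodS M h n j}) ≤ (1 / 2) * prob (cyl t L) := by
  classical
  obtain ⟨bE, hbE⟩ := loc_ErrP M
  choose bG hbG using fun h : Alg => loc_GoodS M h
  choose bl hbl using fun h : Alg => h.out_length
  obtain ⟨qM, hqM⟩ := M.out_local
  choose qh hqh using fun h : Alg => h.out_local
  obtain ⟨n1, hn1⟩ := poly_le_two_pow (∑ r ∈ R', (bl r).comp (Polynomial.X + 1))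
  obtain ⟨n2, hn2⟩ := mul_poly_le_two_pow
    (∑ r ∈ R', (r.p.comp (Polynomial.X + 1) + M.p.comp ((bl r).comp (Polynomial.X + 1)))) 16
  refine ⟨max (max n1 n2) 1, fun n hn j _ hjn t ht L hs => ?_⟩
  have hn1' := hn1 n (le_trans (le_trans (le_max_left _ _) (le_max_left _ _)) hn)
  have hn2' := hn2 n (le_trans (le_trans (le_max_right _ _) (le_max_left _ _)) hn)
  have hn' : 1 ≤ n := le_trans (le_max_right _ _) hn
  simp only [Polynomial.eval_finsetSum, Polynomial.eval_comp, Polynomial.eval_add,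
    Polynomial.eval_X, Polynomial.eval_one] at hn1' hn2'
  set b : ℕ := bE.eval (2 ^ n) + ∑ r ∈ R', (bG r).eval n + (3 * n + 2) with hb
  have hbE' : bE.eval (2 ^ n) ≤ b := by omega
  have hbG' : ∀ r ∈ R', (bG r).eval n ≤ b := by
    intro r hr
    have : (bG r).eval n ≤ ∑ r ∈ R', (bG r).eval n :=
      Finset.single_le_sum (f := fun r => (bG r).eval n) (fun _ _ => Nat.zero_le _) hr
    omega
  refine keyS_core hn' ht L (finite_length_le b) (Z := {A | ∃ h ∈ R', A ∈ GoodS M h n j})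
    (E := ErrP M n j) ?_ ?_ ?_ (pos_mem_blkS hjn (by omega)) _ hn2' ?_ hs
  · intro A A' hA
    simp only [Set.mem_ofPred_eq]
    refine exists_congr fun r => and_congr_right fun hr => ?_
    exact hbG r n j A A' fun x hx => hA x (le_trans hx (hbG' r hr))
  · exact (hbE n j).mono fun x hx => le_trans hx hbE'
  · intro x hx
    simp only [Set.mem_ofPred_eq] at hx ⊢
    omega
  · intro B _ hBE
    choose Q hQ using fun r : Alg => hqh r B (true :: List.replicate n true)
    have hlen : (true :: List.replicate n true).length = n + 1 := by simp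
    choose Q' hQ' using fun u : List Bool => hqM B u
    let u : Alg → List Bool := fun r =>
      (r.out B (true :: List.replicate n true)).getD []
    have hu : ∀ r, (u r).length ≤ (bl r).eval (n + 1) := by
      intro r
      change ((r.out B (true :: List.replicate n true)).getD []).length ≤ _
      cases h : r.out B (true :: List.replicate n true) with
      | none => simp
      | some z => simpa using hbl r B _ z h
    obtain ⟨T, hT, hT'⟩ := touch (blkS n j) n (R'.biUnion fun r => Q r ∪ Q' (u r))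
    refine ⟨T, hT.trans ?_, ?_⟩
    · refine Finset.card_biUnion_le.trans (Finset.sum_le_sum fun r hr => ?_)
      refine (Finset.card_union_le _ _).trans ?_
      have h1 := (hQ r).1
      have h2 := (hQ' (u r)).1
      rw [hlen] at h1
      exact Nat.add_le_add h1 (h2.trans (eval_mono _ (hu r)))
    · intro h hh hd hZ
      obtain ⟨r, hr, v, hv1, hv2⟩ := hZ
      have hsame := hT' h hh hd B
      have e1 : r.out (plant (allSpots n h) B) (true :: List.replicate n true) =
          r.out B (true :: List.replicate n true) :=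
        (hQ r).2.2 _ fun q hq => hsame q
          (Finset.mem_biUnion.mpr ⟨r, hr, Finset.mem_union_left _ hq⟩)
      rw [e1] at hv1
      have hur : u r = v := by simp [u, hv1]
      have e2 : M.out (plant (allSpots n h) B) v = M.out B v :=
        (hQ' v).2.2 _ fun q hq => hsame q
          (Finset.mem_biUnion.mpr ⟨r, hr, Finset.mem_union_right _ (by rw [hur]; exact hq)⟩)
      rw [e2] at hv2
      refine hBE ⟨v, ?_, hv2⟩
      have h3 := hu r
      rw [hur] at h3
      refine h3.trans (le_trans ?_ hn1')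
      exact Finset.single_le_sum (f := fun r => (bl r).eval (n + 1)) (fun _ _ => Nat.zero_le _) hr

end Pool.Agent.H628R3.RO
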