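import Pool.Agent.H628R3.RO.M2

/-!
# Random oracles: the two key inequalities for two-sided blocks
-/

namespace Pool.Agent.H628R3.RO

open MeasureTheory M2

namespace M5

theorem sum_powerset_union {W₀ W₁ : Finset Cand} (hd : Disjoint W₀ W₁) (f : Finset Cand → ℝ) :
    ∑ h ∈ (W₀ ∪ W₁).powerset, f h =
      ∑ h₀ ∈ W₀.powerset, ∑ h₁ ∈ W₁.powerset, f (h₀ ∪ h₁) := by
  classical
  rw [← Finset.sum_product']
  symm
  refine Finset.sum_bij' (fun p _ => p.1 ∪ p.2) (fun h _ => (h ∩ W₀, h ∩ W₁)) ?_ ?_ ?_ ?_ ?_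
  · rintro ⟨a, b⟩ hab
    rw [Finset.mem_product, Finset.mem_powerset, Finset.mem_powerset] at hab
    rw [Finset.mem_powerset]
    exact Finset.union_subset_union hab.1 hab.2
  · intro h _
    rw [Finset.mem_product, Finset.mem_powerset, Finset.mem_powerset]
    exact ⟨Finset.inter_subset_right, Finset.inter_subset_right⟩
  · rintro ⟨a, b⟩ hab
    rw [Finset.mem_product, Finset.mem_powerset, Finset.mem_powerset] at hab
    obtain ⟨ha, hb⟩ := hab
    simp only at ha hb ⊢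
    have h1 : ∀ x, x ∈ W₀ → x ∉ W₁ := fun x hx hx' => Finset.disjoint_left.1 hd hx hx'
    rw [Prod.mk.injEq]
    constructor
    · ext x
      simp only [Finset.mem_inter, Finset.mem_union]
      constructor
      · rintro ⟨h2 | h2, h3⟩
        · exact h2
        · exact absurd (hb h2) (h1 x h3)
      · intro h2
        exact ⟨Or.inl h2, ha h2⟩
    · ext x
      simp only [Finset.mem_inter, Finset.mem_union]
      constructor
      · rintro ⟨h2 | h2, h3⟩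
        · exact absurd h3 (h1 x (ha h2))
        · exact h2
      · intro h2
        exact ⟨Or.inr h2, hb h2⟩
  · intro h hh
    rw [Finset.mem_powerset] at hh
    simp only
    ext x
    simp only [Finset.mem_inter, Finset.mem_union]
    constructor
    · rintro (h2 | h2) <;> exact h2.1
    · intro h2
      have := hh h2
      rw [Finset.mem_union] at this
      tauto
  · rintro ⟨a, b⟩ _
    rfl

theorem wt_nonneg {q : ℝ} (hq0 : 0 ≤ q) (hq1 : q ≤ 1) (W h : Finset Cand) : 0 ≤ wt q W h := by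
  unfold wt
  have : 0 ≤ 1 - q := by linarith
  positivity

theorem wt_union {q : ℝ} {W₀ W₁ h₀ h₁ : Finset Cand} (hd : Disjoint W₀ W₁) (h0 : h₀ ⊆ W₀)
    (h1 : h₁ ⊆ W₁) : wt q (W₀ ∪ W₁) (h₀ ∪ h₁) = wt q W₀ h₀ * wt q W₁ h₁ := by
  have hd' : Disjoint h₀ h₁ := Finset.disjoint_of_subset_left h0 (Finset.disjoint_of_subset_right h1 hd)
  unfold wt
  rw [Finset.card_union_of_disjoint hd, Finset.card_union_of_disjoint hd']
  have e0 := Finset.card_le_card h0
  have e1 := Finset.card_le_card h1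
  have e2 : W₀.card + W₁.card - (h₀.card + h₁.card) =
      (W₀.card - h₀.card) + (W₁.card - h₁.card) := by omega
  rw [e2, pow_add, pow_add]
  ring

theorem wt_empty (q : ℝ) (W : Finset Cand) : wt q W ∅ = (1 - q) ^ W.card := by simp [wt]

theorem sum_wt_erase (q : ℝ) (W : Finset Cand) :
    ∑ h ∈ W.powerset.erase ∅, wt q W h = 1 - (1 - q) ^ W.card := by
  classical
  have hmem : (∅ : Finset Cand) ∈ W.powerset := by simp
  have h1 := sum_wt q W
  rw [← Finset.add_sum_erase _ _ hmem, wt_empty] at h1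
  linarith

theorem sum_wt_sum_erase (q : ℝ) (W : Finset Cand) (p : Cand → ℝ) :
    ∑ h ∈ W.powerset.erase ∅, wt q W h * ∑ κ ∈ h, p κ = q * ∑ κ ∈ W, p κ := by
  classical
  have hmem : (∅ : Finset Cand) ∈ W.powerset := by simp
  have h1 := sum_wt_sum q W p
  rw [← Finset.add_sum_erase _ _ hmem] at h1
  simpa using h1

/-- the partition of the space by the sets of hits in the two halves -/
theorem prob_two {W₀ W₁ : Finset Cand} (hd : Disjoint W₀ W₁) (m : ℕ) {S : Set Oracle}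
    (hS : MeasurableSet S) :
    prob S * ((1 - (1 / 2 : ℝ) ^ m) ^ W₀.card * (1 - (1 / 2 : ℝ) ^ m) ^ W₁.card) =
      ∑ h₀ ∈ W₀.powerset, ∑ h₁ ∈ W₁.powerset,
        wt ((1 / 2 : ℝ) ^ m) W₀ h₀ * wt ((1 / 2 : ℝ) ^ m) W₁ h₁ *
          prob (plant (allSpots m (h₀ ∪ h₁)) ⁻¹' S ∩ NoHit m (W₀ ∪ W₁)) := by
  classical
  set q : ℝ := (1 / 2) ^ m with hq
  rw [prob_eq_sum hS m (W₀ ∪ W₁), Finset.sum_mul, sum_powerset_union hd]
  refine Finset.sum_congr rfl fun h₀ hh₀ => Finset.sum_congr rfl fun h₁ hh₁ => ?_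
  rw [Finset.mem_powerset] at hh₀ hh₁
  have hsub : h₀ ∪ h₁ ⊆ W₀ ∪ W₁ := Finset.union_subset_union hh₀ hh₁
  have h1 := prob_hitSet hS m hsub
  rw [← hq] at h1
  rw [← wt_union hd hh₀ hh₁, ← pow_add, ← Finset.card_union_of_disjoint hd]
  have h2 : (1 - q) ^ (W₀ ∪ W₁).card =
      (1 - q) ^ (h₀ ∪ h₁).card * (1 - q) ^ ((W₀ ∪ W₁).card - (h₀ ∪ h₁).card) := by
    rw [← pow_add]
    congr 1
    have := Finset.card_le_card hsub
    omega
  unfold wt
  rw [h2, ← mul_assoc, h1]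
  ring

/-- dropping terms: one half empty -/
theorem sum_ge_one {W₀ W₁ : Finset Cand} (G : Finset Cand → Finset Cand → ℝ)
    (hG : ∀ a b, 0 ≤ G a b) :
    G ∅ ∅ + ∑ h ∈ W₀.powerset.erase ∅, G h ∅ + ∑ h ∈ W₁.powerset.erase ∅, G ∅ h ≤
      ∑ h₀ ∈ W₀.powerset, ∑ h₁ ∈ W₁.powerset, G h₀ h₁ := by
  classical
  have hm0 : (∅ : Finset Cand) ∈ W₀.powerset := by simp
  have hm1 : (∅ : Finset Cand) ∈ W₁.powerset := by simp
  rw [← Finset.add_sum_erase _ _ hm0, ← Finset.add_sum_erase (W₁.powerset) (fun b => G ∅ b) hm1]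
  have h1 : ∑ h ∈ W₀.powerset.erase ∅, G h ∅ ≤
      ∑ h₀ ∈ W₀.powerset.erase ∅, ∑ h₁ ∈ W₁.powerset, G h₀ h₁ :=
    Finset.sum_le_sum fun h _ => Finset.single_le_sum (f := fun b => G h b)
      (fun b _ => hG h b) hm1
  linarith

/-- dropping terms: both halves nonempty -/
theorem sum_ge_two {W₀ W₁ : Finset Cand} (G : Finset Cand → Finset Cand → ℝ)
    (hG : ∀ a b, 0 ≤ G a b) :
    ∑ h₀ ∈ W₀.powerset.erase ∅, ∑ h₁ ∈ W₁.powerset.erase ∅, G h₀ h₁ ≤
      ∑ h₀ ∈ W₀.powerset, ∑ h₁ ∈ W₁.powerset, G h₀ h₁ := by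
  classical
  refine le_trans (Finset.sum_le_sum fun h _ => ?_)
    (Finset.sum_le_sum_of_subset_of_nonneg (Finset.erase_subset _ _)
      fun h _ _ => Finset.sum_nonneg fun b _ => hG h b)
  exact Finset.sum_le_sum_of_subset_of_nonneg (Finset.erase_subset _ _) fun b _ _ => hG h b

theorem noHit_union (m : ℕ) (W₀ W₁ : Finset Cand) :
    NoHit m (W₀ ∪ W₁) = NoHit m W₀ ∩ NoHit m W₁ := by
  ext A
  simp only [NoHit, Set.mem_inter_iff, Set.mem_ofPred_eq, Finset.mem_union]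
  constructor
  · intro h
    exact ⟨fun κ hκ => h κ (Or.inl hκ), fun κ hκ => h κ (Or.inr hκ)⟩
  · rintro ⟨h0, h1⟩ κ (hκ | hκ)
    · exact h0 κ hκ
    · exact h1 κ hκ

end M5

open M5

/-- worlds with hits in at least one half are typical, worlds without hits are bad -/
theorem key_twoC {K : Set (List Bool)} (hK : K.Finite) {Z E η : Set Oracle} (hZ : Loc K Z)
    (hE : Loc K E) (hη : Loc K η) (W : Bool → Finset Cand) (hd : Disjoint (W false) (W true))
    {m w : ℕ} (hm : 1 ≤ m) (hw : ∀ i, (W i).card = w) (t : ℕ)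
    (hW : ∀ i, ∀ κ ∈ W i, ∀ l < m, pos κ.1 l κ.2 ∈ K)
    (hη' : ∀ (B : Oracle) (h : Finset Cand), h ⊆ W false ∪ W true →
      (plant (allSpots m h) B ∈ η ↔ B ∈ η))
    (hkey : ∀ B ∈ NoHit m (W false ∪ W true), B ∉ E → ∃ T : Finset Cand, T.card ≤ t ∧
      ∃ i, ∀ h ⊆ W i, h.Nonempty → Disjoint h T → plant (allSpots m h) B ∉ Z) :
    (1 - (1 - (1 / 2 : ℝ) ^ m) ^ w) *
      (((1 - (1 / 2 : ℝ) ^ m) ^ w) ^ 2 * prob η - prob (η ∩ (NoHit m (W false ∪ W true) ∩ E))) -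
        t * (1 / 2) ^ m * ((1 - (1 / 2 : ℝ) ^ m) ^ w) ^ 2 * prob η ≤
      (1 - (1 / 2 : ℝ) ^ m) ^ w * prob (η ∩ Zᶜ) := by
  classical
  set q : ℝ := (1 / 2) ^ m with hq
  have hq0 : 0 < q := by positivity
  have hq1 : q ≤ 1 / 2 := by
    rw [hq]
    calc (1 / 2 : ℝ) ^ m ≤ (1 / 2) ^ 1 := pow_le_pow_of_le_one (by norm_num) (by norm_num) hm
      _ = 1 / 2 := by norm_num
  set N := NoHit m (W false ∪ W true) with hNdef
  set P : ℝ := (1 - q) ^ w with hP
  have hP0 : 0 < P := by rw [hP]; apply pow_pos; linarith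
  have hP1 : P ≤ 1 := by rw [hP]; apply pow_le_one₀ <;> linarith
  have hWK : ∀ κ ∈ W false ∪ W true, ∀ l < m, pos κ.1 l κ.2 ∈ K := by
    intro κ hκ
    rw [Finset.mem_union] at hκ
    rcases hκ with hκ | hκ
    · exact hW false κ hκ
    · exact hW true κ hκ
  have hN : Loc K N := loc_noHit hWK
  have hZm := measurableSet_of_loc hK hZ
  have hEm := measurableSet_of_loc hK hE
  have hηm := measurableSet_of_loc hK hη
  have hNm : MeasurableSet N := measurableSet_noHit m _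
  -- the choice of `T` and of the half
  have hch : ∀ B : Oracle, ∃ (T : Finset Cand) (i : Bool), T.card ≤ t ∧ (B ∈ N → B ∉ E →
      ∀ h ⊆ W i, h.Nonempty → Disjoint h T → plant (allSpots m h) B ∉ Z) := by
    intro B
    by_cases h1 : B ∈ N ∧ B ∉ E
    · obtain ⟨T, hT, i, hi⟩ := hkey B h1.1 h1.2
      exact ⟨T, i, hT, fun _ _ => hi⟩
    · exact ⟨∅, false, by simp, fun h2 h3 => absurd ⟨h2, h3⟩ h1⟩
  choose T I hT1 hT2 using hch
  have hmask : ∀ B : Oracle, ∀ x ∈ K, mask K B x = B x := fun B x hx => mask_eq hx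
  set Ak : Cand → Set Oracle := fun κ => {B | κ ∈ T (mask K B)} with hAk
  have hAl : ∀ κ, Loc K (Ak κ) := by
    intro κ A A' h
    simp only [hAk, Set.mem_ofPred_eq, mask_congr h]
  have hAm : ∀ κ, MeasurableSet (Ak κ) := fun κ => measurableSet_of_loc hK (hAl κ)
  set Ih : Bool → Set Oracle := fun i => {B | I (mask K B) = i} with hIh
  have hIl : ∀ i, Loc K (Ih i) := by
    intro i A A' h
    simp only [hIh, Set.mem_ofPred_eq, mask_congr h]
  have hIm : ∀ i, MeasurableSet (Ih i) := fun i => measurableSet_of_loc hK (hIl i)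
  set D : Bool → Set Oracle := fun i => (η ∩ N ∩ Eᶜ) ∩ Ih i with hD
  have hDm : ∀ i, MeasurableSet (D i) := fun i =>
    ((hηm.inter hNm).inter hEm.compl).inter (hIm i)
  -- the bound for one set of hits
  have hone : ∀ i, ∀ h ∈ (W i).powerset.erase ∅, prob (D i) - ∑ κ ∈ h, prob (D i ∩ Ak κ) ≤
      prob (plant (allSpots m h) ⁻¹' (η ∩ Zᶜ) ∩ N) := by
    intro i h hh
    rw [Finset.mem_erase, Finset.mem_powerset] at hh
    obtain ⟨hne, hsub⟩ := hh
    have hsub' : h ⊆ W false ∪ W true := by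
      cases i
      · exact hsub.trans Finset.subset_union_left
      · exact hsub.trans Finset.subset_union_right
    have h1 : D i ⊆ (plant (allSpots m h) ⁻¹' (η ∩ Zᶜ) ∩ N) ∪ ⋃ κ ∈ h, D i ∩ Ak κ := by
      rintro B hBD
      obtain ⟨⟨⟨hBη, hBN⟩, hBE⟩, hBI⟩ := hBD
      by_cases h5 : Disjoint h (T (mask K B))
      · left
        have h2 : mask K B ∈ N := (hN _ _ (hmask B)).2 hBN
        have h3 : mask K B ∉ E := fun h4 => hBE ((hE _ _ (hmask B)).1 h4)
        have hBI' : I (mask K B) = i := hBI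
        have h4 := hT2 (mask K B) h2 h3 h (by rw [hBI']; exact hsub)
          (Finset.nonempty_iff_ne_empty.2 hne) h5
        refine ⟨⟨(hη' B h hsub').2 hBη, fun h6 => h4 ?_⟩, hBN⟩
        exact (loc_plant hZ (allSpots m h) _ _ (hmask B)).2 h6
      · right
        rw [Finset.not_disjoint_iff] at h5
        obtain ⟨κ, hκ, hκ'⟩ := h5
        simp only [Set.mem_iUnion]
        exact ⟨κ, hκ, ⟨⟨⟨hBη, hBN⟩, hBE⟩, hBI⟩, hκ'⟩
    have h2 : prob (D i) ≤ prob (plant (allSpots m h) ⁻¹' (η ∩ Zᶜ) ∩ N) +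
        ∑ κ ∈ h, prob (D i ∩ Ak κ) := by
      calc prob (D i) ≤ prob ((plant (allSpots m h) ⁻¹' (η ∩ Zᶜ) ∩ N) ∪
            ⋃ κ ∈ h, D i ∩ Ak κ) := prob_mono h1
        _ ≤ prob (plant (allSpots m h) ⁻¹' (η ∩ Zᶜ) ∩ N) + prob (⋃ κ ∈ h, D i ∩ Ak κ) :=
            prob_union_le _ _
        _ ≤ _ := by
            have := prob_biUnion_le h (fun κ => D i ∩ Ak κ)
            linarith
    linarith
  have hcount : ∀ i, ∑ κ ∈ W i, prob (D i ∩ Ak κ) ≤ t * prob (D i) := by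
    intro i
    apply sum_prob_le (hDm i) (W i) Ak hAm t
    intro B _
    exact ⟨T (mask K B), hT1 _, fun κ _ hκ => hκ⟩
  have hhalf : ∀ i, (1 - P - q * t) * prob (D i) ≤
      ∑ h ∈ (W i).powerset.erase ∅, wt q (W i) h *
        prob (plant (allSpots m h) ⁻¹' (η ∩ Zᶜ) ∩ N) := by
    intro i
    have h1 : ∑ h ∈ (W i).powerset.erase ∅, wt q (W i) h *
        (prob (D i) - ∑ κ ∈ h, prob (D i ∩ Ak κ)) ≤
        ∑ h ∈ (W i).powerset.erase ∅, wt q (W i) h *
        prob (plant (allSpots m h) ⁻¹' (η ∩ Zᶜ) ∩ N) :=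
      Finset.sum_le_sum fun h hh => mul_le_mul_of_nonneg_left (hone i h hh)
        (wt_nonneg hq0.le (by linarith) _ _)
    refine le_trans ?_ h1
    have h2 : ∑ h ∈ (W i).powerset.erase ∅, wt q (W i) h *
        (prob (D i) - ∑ κ ∈ h, prob (D i ∩ Ak κ)) =
        (1 - P) * prob (D i) - q * ∑ κ ∈ W i, prob (D i ∩ Ak κ) := by
      simp_rw [mul_sub]
      rw [Finset.sum_sub_distrib, sum_wt_sum_erase, ← Finset.sum_mul, sum_wt_erase, hw i]
    rw [h2]
    have h3 := mul_le_mul_of_nonneg_left (hcount i) hq0.le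
    linarith
  -- the partition
  have hpart := prob_two hd m (hηm.inter hZm.compl)
  rw [← hq, hw false, hw true, ← hP] at hpart
  have hge := sum_ge_one (W₀ := W false) (W₁ := W true)
    (fun h₀ h₁ => wt q (W false) h₀ * wt q (W true) h₁ *
          prob (plant (allSpots m (h₀ ∪ h₁)) ⁻¹' (η ∩ Zᶜ) ∩ NoHit m (W false ∪ W true)))
    (fun a b => mul_nonneg (mul_nonneg (wt_nonneg hq0.le (by linarith) _ _)
      (wt_nonneg hq0.le (by linarith) _ _)) (prob_nonneg _))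
  rw [← hpart] at hge
  simp only [Finset.union_empty, Finset.empty_union, wt_empty, hw] at hge
  rw [← hP, ← hNdef] at hge
  have e1 : ∑ h ∈ (W false).powerset.erase ∅, wt q (W false) h * P *
      prob (plant (allSpots m h) ⁻¹' (η ∩ Zᶜ) ∩ N) =
      P * ∑ h ∈ (W false).powerset.erase ∅, wt q (W false) h *
      prob (plant (allSpots m h) ⁻¹' (η ∩ Zᶜ) ∩ N) := by
    rw [Finset.mul_sum]
    exact Finset.sum_congr rfl fun h _ => by ring
  have e2 : ∑ h ∈ (W true).powerset.erase ∅, P * wt q (W true) h *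
      prob (plant (allSpots m h) ⁻¹' (η ∩ Zᶜ) ∩ N) =
      P * ∑ h ∈ (W true).powerset.erase ∅, wt q (W true) h *
      prob (plant (allSpots m h) ⁻¹' (η ∩ Zᶜ) ∩ N) := by
    rw [Finset.mul_sum]
    exact Finset.sum_congr rfl fun h _ => by ring
  rw [e1, e2] at hge
  have hf := hhalf false
  have ht := hhalf true
  have hz : 0 ≤ P * P * prob (plant (allSpots m ∅) ⁻¹' (η ∩ Zᶜ) ∩ N) :=
    mul_nonneg (by positivity) (prob_nonneg _)
  -- the two halves cover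
  have hDD : prob (D false) + prob (D true) = prob (η ∩ N ∩ Eᶜ) := by
    have h1 := prob_inter_add_compl (η ∩ N ∩ Eᶜ) (hIm false)
    have h2 : (Ih false)ᶜ = Ih true := by
      ext B
      simp only [hIh, Set.mem_compl_iff, Set.mem_ofPred_eq, Bool.not_eq_false]
    rw [h2] at h1
    exact h1
  have hEN : prob (η ∩ N ∩ Eᶜ) = prob (η ∩ N) - prob (η ∩ (N ∩ E)) := by
    have h1 := prob_inter_add_compl (η ∩ N) hEm
    have h2 : η ∩ N ∩ E = η ∩ (N ∩ E) := Set.inter_assoc _ _ _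
    rw [h2] at h1
    linarith
  have hηN : prob (η ∩ N) = prob η * P ^ 2 := by
    have h1 : prob (η ∩ N) = prob η * (1 - q) ^ (W false ∪ W true).card := by
      apply prob_noHit_aux hηm
      intro κ hκ A
      rw [← allSpots_singleton]
      exact hη' A {κ} (Finset.singleton_subset_iff.2 hκ)
    rw [h1, Finset.card_union_of_disjoint hd, hw, hw, pow_add, ← hP]
    ring
  have hmain : P * ((1 - P - q * t) * prob (η ∩ N ∩ Eᶜ)) ≤ P * (P * prob (η ∩ Zᶜ)) := by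
    rw [← hDD]
    have h1 := mul_le_mul_of_nonneg_left (add_le_add hf ht) hP0.le
    linarith
  have hmain' := le_of_mul_le_mul_left hmain hP0
  have hle : prob (η ∩ N ∩ Eᶜ) ≤ P ^ 2 * prob η := by
    rw [hEN, hηN]
    have := prob_nonneg (η ∩ (N ∩ E))
    linarith
  have hqt : 0 ≤ q * t := by positivity
  have h5 : (q * t) * prob (η ∩ N ∩ Eᶜ) ≤ (q * t) * (P ^ 2 * prob η) :=
    mul_le_mul_of_nonneg_left hle hqt
  have h6 : P ^ 2 * prob η - prob (η ∩ (N ∩ E)) = prob (η ∩ N ∩ Eᶜ) := by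
    rw [hEN, hηN]; ring
  rw [h6]
  linarith

/-- worlds with hits in one half only are typical, worlds with hits in both are bad -/
theorem key_twoN {K : Set (List Bool)} (hK : K.Finite) {Z E η : Set Oracle} (hZ : Loc K Z)
    (hE : Loc K E) (hη : Loc K η) (W : Bool → Finset Cand) (hd : Disjoint (W false) (W true))
    {m w : ℕ} (hm : 1 ≤ m) (hw : ∀ i, (W i).card = w) (t : ℕ)
    (hW : ∀ i, ∀ κ ∈ W i, ∀ l < m, pos κ.1 l κ.2 ∈ K)
    (hη' : ∀ (B : Oracle) (h : Finset Cand), h ⊆ W false ∪ W true →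
      (plant (allSpots m h) B ∈ η ↔ B ∈ η))
    (hS : 1 ≤ 2 * (1 - (1 / 2 : ℝ) ^ m) ^ w)
    (hkey : ∀ B ∈ NoHit m (W false ∪ W true), ∃ (T : Finset Cand)
      (T' : Bool → Finset Cand → Finset Cand), T.card ≤ t ∧ (∀ i h, (T' i h).card ≤ t) ∧
      ∀ h : Bool → Finset Cand, (∀ i, h i ⊆ W i) → (∀ i, (h i).Nonempty) →
        (∀ i, Disjoint (h i) T) → (∀ i, Disjoint (h (!i)) (T' i (h i))) → B ∈ Z →
        (∀ i, plant (allSpots m (h i)) B ∈ Z) →
        plant (allSpots m (h false ∪ h true)) B ∈ E) :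
    (1 - (1 / 2 : ℝ) ^ m) ^ w *
      ((1 - (1 - (1 / 2 : ℝ) ^ m) ^ w) ^ 2 * prob η -
        4 * t * (1 / 2) ^ m * (1 - (1 - (1 / 2 : ℝ) ^ m) ^ w) * prob η -
        prob (η ∩ ((NoHit m (W false))ᶜ ∩ (NoHit m (W true))ᶜ ∩ E))) ≤
      (1 - (1 - (1 / 2 : ℝ) ^ m) ^ w) * prob (η ∩ Zᶜ) := by
  classical
  set q : ℝ := (1 / 2) ^ m with hq
  have hq0 : 0 < q := by positivity
  have hq1 : q ≤ 1 / 2 := by
    rw [hq]
    calc (1 / 2 : ℝ) ^ m ≤ (1 / 2) ^ 1 := pow_le_pow_of_le_one (by norm_num) (by norm_num) hm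
      _ = 1 / 2 := by norm_num
  set N := NoHit m (W false ∪ W true) with hNdef
  set P : ℝ := (1 - q) ^ w with hP
  have hP0 : 0 < P := by rw [hP]; apply pow_pos; linarith
  have hP1 : P ≤ 1 := by rw [hP]; apply pow_le_one₀ <;> linarith
  set π : ℝ := 1 - P with hπ
  have hπ0 : 0 ≤ π := by linarith
  have hπP : π ≤ P := by linarith
  have hWK : ∀ κ ∈ W false ∪ W true, ∀ l < m, pos κ.1 l κ.2 ∈ K := by
    intro κ hκ
    rw [Finset.mem_union] at hκ
    rcases hκ with hκ | hκ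
    · exact hW false κ hκ
    · exact hW true κ hκ
  have hN : Loc K N := loc_noHit hWK
  have hZm := measurableSet_of_loc hK hZ
  have hEm := measurableSet_of_loc hK hE
  have hηm := measurableSet_of_loc hK hη
  have hNm : MeasurableSet N := measurableSet_noHit m _
  have hN0m : MeasurableSet (NoHit m (W false)) := measurableSet_noHit m _
  have hN1m : MeasurableSet (NoHit m (W true)) := measurableSet_noHit m _
  -- the choice of `T` and `T'`
  have hch : ∀ B : Oracle, ∃ (T : Finset Cand) (T' : Bool → Finset Cand → Finset Cand),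
      T.card ≤ t ∧ (∀ i h, (T' i h).card ≤ t) ∧ (B ∈ N →
      ∀ h : Bool → Finset Cand, (∀ i, h i ⊆ W i) → (∀ i, (h i).Nonempty) →
        (∀ i, Disjoint (h i) T) → (∀ i, Disjoint (h (!i)) (T' i (h i))) → B ∈ Z →
        (∀ i, plant (allSpots m (h i)) B ∈ Z) →
        plant (allSpots m (h false ∪ h true)) B ∈ E) := by
    intro B
    by_cases h1 : B ∈ N
    · obtain ⟨T, T', hT, hT', hT2⟩ := hkey B h1
      exact ⟨T, T', hT, hT', fun _ => hT2⟩
    · exact ⟨∅, fun _ _ => ∅, by simp, by simp, fun h2 => absurd h2 h1⟩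
  choose T T' hT1 hT1' hT2 using hch
  have hmask : ∀ B : Oracle, ∀ x ∈ K, mask K B x = B x := fun B x hx => mask_eq hx
  set Ak : Cand → Set Oracle := fun κ => {B | κ ∈ T (mask K B)} with hAk
  have hAl : ∀ κ, Loc K (Ak κ) := by
    intro κ A A' h
    simp only [hAk, Set.mem_ofPred_eq, mask_congr h]
  have hAm : ∀ κ, MeasurableSet (Ak κ) := fun κ => measurableSet_of_loc hK (hAl κ)
  set Ak' : Bool → Finset Cand → Cand → Set Oracle :=
    fun i h κ => {B | κ ∈ T' (mask K B) i h} with hAk'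
  have hAl' : ∀ i h κ, Loc K (Ak' i h κ) := by
    intro i h κ A A' hA
    simp only [hAk', Set.mem_ofPred_eq, mask_congr hA]
  have hAm' : ∀ i h κ, MeasurableSet (Ak' i h κ) :=
    fun i h κ => measurableSet_of_loc hK (hAl' i h κ)
  -- notation
  have hηN : prob (η ∩ N) = prob η * P ^ 2 := by
    have h1 : prob (η ∩ N) = prob η * (1 - q) ^ (W false ∪ W true).card := by
      apply prob_noHit_aux hηm
      intro κ hκ A
      rw [← allSpots_singleton]
      exact hη' A {κ} (Finset.singleton_subset_iff.2 hκ)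
    rw [h1, Finset.card_union_of_disjoint hd, hw, hw, pow_add, ← hP]
    ring
  set ν : ℝ := prob (η ∩ N) with hν
  have hν0 : 0 ≤ ν := prob_nonneg _
  set z : Finset Cand → ℝ := fun h => prob (plant (allSpots m h) ⁻¹' (η ∩ Zᶜ) ∩ N) with hz
  have hz0 : ∀ h, 0 ≤ z h := fun h => prob_nonneg _
  set p : Cand → ℝ := fun κ => prob (η ∩ N ∩ Ak κ) with hp
  set p' : Bool → Finset Cand → Cand → ℝ := fun i h κ => prob (η ∩ N ∩ Ak' i h κ) with hp'
  set BE : Set Oracle := η ∩ ((NoHit m (W false))ᶜ ∩ (NoHit m (W true))ᶜ ∩ E) with hBE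
  have hBEm : MeasurableSet BE := hηm.inter ((hN0m.compl.inter hN1m.compl).inter hEm)
  -- the bound for one pair of sets of hits
  have hone : ∀ h₀ ∈ (W false).powerset.erase ∅, ∀ h₁ ∈ (W true).powerset.erase ∅,
      ν - z ∅ - z h₀ - z h₁ - ∑ κ ∈ h₀, p κ - ∑ κ ∈ h₁, p κ - ∑ κ ∈ h₁, p' false h₀ κ -
        ∑ κ ∈ h₀, p' true h₁ κ ≤ prob (plant (allSpots m (h₀ ∪ h₁)) ⁻¹' BE ∩ N) := by
    intro h₀ hh₀ h₁ hh₁
    rw [Finset.mem_erase, Finset.mem_powerset] at hh₀ hh₁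
    obtain ⟨hne0, hsub0⟩ := hh₀
    obtain ⟨hne1, hsub1⟩ := hh₁
    have hne0' := Finset.nonempty_iff_ne_empty.2 hne0
    have hne1' := Finset.nonempty_iff_ne_empty.2 hne1
    have hs0 : h₀ ⊆ W false ∪ W true := hsub0.trans Finset.subset_union_left
    have hs1 : h₁ ⊆ W false ∪ W true := hsub1.trans Finset.subset_union_right
    have hs01 : h₀ ∪ h₁ ⊆ W false ∪ W true := Finset.union_subset hs0 hs1
    set G1 := plant (allSpots m (h₀ ∪ h₁)) ⁻¹' BE ∩ N with hG1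
    set G2 := plant (allSpots m ∅) ⁻¹' (η ∩ Zᶜ) ∩ N with hG2
    set G3 := plant (allSpots m h₀) ⁻¹' (η ∩ Zᶜ) ∩ N with hG3
    set G4 := plant (allSpots m h₁) ⁻¹' (η ∩ Zᶜ) ∩ N with hG4
    set G5 := ⋃ κ ∈ h₀, η ∩ N ∩ Ak κ with hG5
    set G6 := ⋃ κ ∈ h₁, η ∩ N ∩ Ak κ with hG6
    set G7 := ⋃ κ ∈ h₁, η ∩ N ∩ Ak' false h₀ κ with hG7
    set G8 := ⋃ κ ∈ h₀, η ∩ N ∩ Ak' true h₁ κ with hG8
    have h1 : η ∩ N ⊆ G1 ∪ (G2 ∪ (G3 ∪ (G4 ∪ (G5 ∪ (G6 ∪ (G7 ∪ G8)))))) := by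
      rintro B ⟨hBη, hBN⟩
      have hplant0 : plant (allSpots m ∅) B = B := by
        funext x
        simp [plant, allSpots_empty]
      by_cases c2 : B ∈ Z
      swap
      · refine Or.inr (Or.inl ⟨?_, hBN⟩)
        rw [Set.mem_preimage, hplant0]
        exact ⟨hBη, c2⟩
      by_cases c3 : plant (allSpots m h₀) B ∈ Z
      swap
      · exact Or.inr (Or.inr (Or.inl ⟨⟨(hη' B h₀ hs0).2 hBη, c3⟩, hBN⟩))
      by_cases c4 : plant (allSpots m h₁) B ∈ Z
      swap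
      · exact Or.inr (Or.inr (Or.inr (Or.inl ⟨⟨(hη' B h₁ hs1).2 hBη, c4⟩, hBN⟩)))
      by_cases c5 : Disjoint h₀ (T (mask K B))
      swap
      · rw [Finset.not_disjoint_iff] at c5
        obtain ⟨κ, hκ, hκ'⟩ := c5
        refine Or.inr (Or.inr (Or.inr (Or.inr (Or.inl ?_))))
        rw [hG5]
        simp only [Set.mem_iUnion]
        exact ⟨κ, hκ, ⟨hBη, hBN⟩, hκ'⟩
      by_cases c6 : Disjoint h₁ (T (mask K B))
      swap
      · rw [Finset.not_disjoint_iff] at c6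
        obtain ⟨κ, hκ, hκ'⟩ := c6
        refine Or.inr (Or.inr (Or.inr (Or.inr (Or.inr (Or.inl ?_)))))
        rw [hG6]
        simp only [Set.mem_iUnion]
        exact ⟨κ, hκ, ⟨hBη, hBN⟩, hκ'⟩
      by_cases c7 : Disjoint h₁ (T' (mask K B) false h₀)
      swap
      · rw [Finset.not_disjoint_iff] at c7
        obtain ⟨κ, hκ, hκ'⟩ := c7
        refine Or.inr (Or.inr (Or.inr (Or.inr (Or.inr (Or.inr (Or.inl ?_))))))
        rw [hG7]
        simp only [Set.mem_iUnion]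
        exact ⟨κ, hκ, ⟨hBη, hBN⟩, hκ'⟩
      by_cases c8 : Disjoint h₀ (T' (mask K B) true h₁)
      swap
      · rw [Finset.not_disjoint_iff] at c8
        obtain ⟨κ, hκ, hκ'⟩ := c8
        refine Or.inr (Or.inr (Or.inr (Or.inr (Or.inr (Or.inr (Or.inr ?_))))))
        rw [hG8]
        simp only [Set.mem_iUnion]
        exact ⟨κ, hκ, ⟨hBη, hBN⟩, hκ'⟩
      -- now the conclusion
      left
      have h2 : mask K B ∈ N := (hN _ _ (hmask B)).2 hBN
      have h3 : mask K B ∈ Z := (hZ _ _ (hmask B)).2 c2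
      have h4 := hT2 (mask K B) h2 (fun i => bif i then h₁ else h₀)
        (by rw [Bool.forall_bool]; exact ⟨hsub0, hsub1⟩)
        (by rw [Bool.forall_bool]; exact ⟨hne0', hne1'⟩)
        (by rw [Bool.forall_bool]; exact ⟨c5, c6⟩)
        (by rw [Bool.forall_bool]; exact ⟨c7, c8⟩) h3
        (by
          rw [Bool.forall_bool]
          exact ⟨(loc_plant hZ (allSpots m h₀) _ _ (hmask B)).2 c3,
            (loc_plant hZ (allSpots m h₁) _ _ (hmask B)).2 c4⟩)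
      have h5 : plant (allSpots m (h₀ ∪ h₁)) (mask K B) ∈ E := h4
      refine ⟨⟨(hη' B _ hs01).2 hBη, ⟨?_, ?_⟩,
        (loc_plant hE (allSpots m (h₀ ∪ h₁)) _ _ (hmask B)).1 h5⟩, hBN⟩
      · intro h6
        obtain ⟨κ, hκ⟩ := hne0'
        exact h6 κ (hsub0 hκ) (hit_plant_self (Finset.mem_union_left _ hκ) B)
      · intro h6
        obtain ⟨κ, hκ⟩ := hne1'
        exact h6 κ (hsub1 hκ) (hit_plant_self (Finset.mem_union_right _ hκ) B)
    have u0 := prob_mono h1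
    have u1 := prob_union_le G1 (G2 ∪ (G3 ∪ (G4 ∪ (G5 ∪ (G6 ∪ (G7 ∪ G8))))))
    have u2 := prob_union_le G2 (G3 ∪ (G4 ∪ (G5 ∪ (G6 ∪ (G7 ∪ G8)))))
    have u3 := prob_union_le G3 (G4 ∪ (G5 ∪ (G6 ∪ (G7 ∪ G8))))
    have u4 := prob_union_le G4 (G5 ∪ (G6 ∪ (G7 ∪ G8)))
    have u5 := prob_union_le G5 (G6 ∪ (G7 ∪ G8))
    have u6 := prob_union_le G6 (G7 ∪ G8)
    have u7 := prob_union_le G7 G8
    have v5 : prob G5 ≤ ∑ κ ∈ h₀, p κ := prob_biUnion_le h₀ (fun κ => η ∩ N ∩ Ak κ)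
    have v6 : prob G6 ≤ ∑ κ ∈ h₁, p κ := prob_biUnion_le h₁ (fun κ => η ∩ N ∩ Ak κ)
    have v7 : prob G7 ≤ ∑ κ ∈ h₁, p' false h₀ κ :=
      prob_biUnion_le h₁ (fun κ => η ∩ N ∩ Ak' false h₀ κ)
    have v8 : prob G8 ≤ ∑ κ ∈ h₀, p' true h₁ κ :=
      prob_biUnion_le h₀ (fun κ => η ∩ N ∩ Ak' true h₁ κ)
    have w2 : z ∅ = prob G2 := rfl
    have w3 : z h₀ = prob G3 := rfl
    have w4 : z h₁ = prob G4 := rfl
    rw [w2, w3, w4]
    linarith
  have hcount : ∀ i, ∑ κ ∈ W i, p κ ≤ t * ν := by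
    intro i
    apply sum_prob_le (hηm.inter hNm) (W i) Ak hAm t
    intro B _
    exact ⟨T (mask K B), hT1 _, fun κ _ hκ => hκ⟩
  have hcount' : ∀ i j h, ∑ κ ∈ W i, p' j h κ ≤ t * ν := by
    intro i j h
    apply sum_prob_le (hηm.inter hNm) (W i) (Ak' j h) (hAm' j h) t
    intro B _
    exact ⟨T' (mask K B) j h, hT1' _ _ _, fun κ _ hκ => hκ⟩
  have hwt0 : ∀ V h, 0 ≤ wt q V h := fun V h => wt_nonneg hq0.le (by linarith) V h
  have hsw : ∀ i, ∑ h ∈ (W i).powerset.erase ∅, wt q (W i) h = π := by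
    intro i
    rw [sum_wt_erase, hw i]
  -- sum over the pairs
  have hpart := prob_two hd m hBEm
  rw [← hq, hw false, hw true, ← hP] at hpart
  have hge := sum_ge_two (W₀ := W false) (W₁ := W true)
    (fun h₀ h₁ => wt q (W false) h₀ * wt q (W true) h₁ *
          prob (plant (allSpots m (h₀ ∪ h₁)) ⁻¹' BE ∩ NoHit m (W false ∪ W true)))
    (fun a b => mul_nonneg (mul_nonneg (hwt0 _ _) (hwt0 _ _)) (prob_nonneg _))
  rw [← hpart, ← hNdef] at hge
  -- lower bound of the inner sum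
  set a₁ : ℝ := ∑ h₁ ∈ (W true).powerset.erase ∅, wt q (W true) h₁ * z h₁ with ha₁
  set a₀ : ℝ := ∑ h₀ ∈ (W false).powerset.erase ∅, wt q (W false) h₀ * z h₀ with ha₀
  have hinner : ∀ h₀ ∈ (W false).powerset.erase ∅,
      π * (ν - z ∅ - z h₀ - ∑ κ ∈ h₀, p κ) - a₁ - 2 * (q * (t * ν)) -
        ∑ h₁ ∈ (W true).powerset.erase ∅, wt q (W true) h₁ * ∑ κ ∈ h₀, p' true h₁ κ ≤
      ∑ h₁ ∈ (W true).powerset.erase ∅, wt q (W true) h₁ *
        prob (plant (allSpots m (h₀ ∪ h₁)) ⁻¹' BE ∩ N) := by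
    intro h₀ hh₀
    have h1 : ∑ h₁ ∈ (W true).powerset.erase ∅, wt q (W true) h₁ *
        (ν - z ∅ - z h₀ - z h₁ - ∑ κ ∈ h₀, p κ - ∑ κ ∈ h₁, p κ - ∑ κ ∈ h₁, p' false h₀ κ -
        ∑ κ ∈ h₀, p' true h₁ κ) ≤ ∑ h₁ ∈ (W true).powerset.erase ∅, wt q (W true) h₁ *
        prob (plant (allSpots m (h₀ ∪ h₁)) ⁻¹' BE ∩ N) :=
      Finset.sum_le_sum fun h₁ hh₁ => mul_le_mul_of_nonneg_left (hone h₀ hh₀ h₁ hh₁) (hwt0 _ _)
    refine le_trans ?_ h1
    have h2 : ∑ h₁ ∈ (W true).powerset.erase ∅, wt q (W true) h₁ *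
        (ν - z ∅ - z h₀ - z h₁ - ∑ κ ∈ h₀, p κ - ∑ κ ∈ h₁, p κ - ∑ κ ∈ h₁, p' false h₀ κ -
        ∑ κ ∈ h₀, p' true h₁ κ) =
        π * (ν - z ∅ - z h₀ - ∑ κ ∈ h₀, p κ) - a₁ - q * ∑ κ ∈ W true, p κ -
        q * ∑ κ ∈ W true, p' false h₀ κ -
        ∑ h₁ ∈ (W true).powerset.erase ∅, wt q (W true) h₁ * ∑ κ ∈ h₀, p' true h₁ κ := by
      rw [← hsw true, ← sum_wt_sum_erase, ← sum_wt_sum_erase, Finset.sum_mul, ha₁,
        ← Finset.sum_sub_distrib, ← Finset.sum_sub_distrib, ← Finset.sum_sub_distrib,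
        ← Finset.sum_sub_distrib]
      exact Finset.sum_congr rfl fun h₁ _ => by ring
    rw [h2]
    have h3 := mul_le_mul_of_nonneg_left (hcount true) hq0.le
    have h4 := mul_le_mul_of_nonneg_left (hcount' true false h₀) hq0.le
    linarith
  have houter : π * (π * (ν - z ∅)) - π * a₀ - π * a₁ - 4 * (π * (q * (t * ν))) ≤
      ∑ h₀ ∈ (W false).powerset.erase ∅, ∑ h₁ ∈ (W true).powerset.erase ∅,
        wt q (W false) h₀ * wt q (W true) h₁ *
          prob (plant (allSpots m (h₀ ∪ h₁)) ⁻¹' BE ∩ N) := by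
    have h1 : ∑ h₀ ∈ (W false).powerset.erase ∅, wt q (W false) h₀ *
        (π * (ν - z ∅ - z h₀ - ∑ κ ∈ h₀, p κ) - a₁ - 2 * (q * (t * ν)) -
        ∑ h₁ ∈ (W true).powerset.erase ∅, wt q (W true) h₁ * ∑ κ ∈ h₀, p' true h₁ κ) ≤
        ∑ h₀ ∈ (W false).powerset.erase ∅, ∑ h₁ ∈ (W true).powerset.erase ∅,
        wt q (W false) h₀ * wt q (W true) h₁ *
          prob (plant (allSpots m (h₀ ∪ h₁)) ⁻¹' BE ∩ N) := by
      refine Finset.sum_le_sum fun h₀ hh₀ => ?_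
      refine (mul_le_mul_of_nonneg_left (hinner h₀ hh₀) (hwt0 _ _)).trans (le_of_eq ?_)
      rw [Finset.mul_sum]
      exact Finset.sum_congr rfl fun h₁ _ => by ring
    refine le_trans ?_ h1
    have h2 : ∑ h₀ ∈ (W false).powerset.erase ∅, wt q (W false) h₀ *
        (π * (ν - z ∅ - z h₀ - ∑ κ ∈ h₀, p κ) - a₁ - 2 * (q * (t * ν)) -
        ∑ h₁ ∈ (W true).powerset.erase ∅, wt q (W true) h₁ * ∑ κ ∈ h₀, p' true h₁ κ) =
        π * (π * (ν - z ∅)) - π * a₀ - π * (q * ∑ κ ∈ W false, p κ) - π * a₁ -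
        π * (2 * (q * (t * ν))) -
        ∑ h₁ ∈ (W true).powerset.erase ∅, wt q (W true) h₁ *
          (q * ∑ κ ∈ W false, p' true h₁ κ) := by
      have e1 : ∑ h₁ ∈ (W true).powerset.erase ∅, wt q (W true) h₁ *
          (q * ∑ κ ∈ W false, p' true h₁ κ) =
          ∑ h₀ ∈ (W false).powerset.erase ∅, wt q (W false) h₀ *
          ∑ h₁ ∈ (W true).powerset.erase ∅, wt q (W true) h₁ * ∑ κ ∈ h₀, p' true h₁ κ := by
        have e4 : ∀ h₀ ∈ (W false).powerset.erase ∅, wt q (W false) h₀ *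
            ∑ h₁ ∈ (W true).powerset.erase ∅, wt q (W true) h₁ * ∑ κ ∈ h₀, p' true h₁ κ =
            ∑ h₁ ∈ (W true).powerset.erase ∅, wt q (W true) h₁ *
              (wt q (W false) h₀ * ∑ κ ∈ h₀, p' true h₁ κ) := by
          intro h₀ _
          rw [Finset.mul_sum]
          exact Finset.sum_congr rfl fun h₁ _ => by ring
        rw [Finset.sum_congr rfl e4, Finset.sum_comm]
        refine Finset.sum_congr rfl fun h₁ _ => ?_
        rw [← Finset.mul_sum, sum_wt_sum_erase]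
      rw [e1, ← sum_wt_sum_erase q (W false) p, ha₀]
      conv_rhs => rw [show π * (π * (ν - z ∅)) =
        (∑ h ∈ (W false).powerset.erase ∅, wt q (W false) h) * (π * (ν - z ∅)) by rw [hsw false],
        show π * a₁ = (∑ h ∈ (W false).powerset.erase ∅, wt q (W false) h) * a₁ by rw [hsw false],
        show π * (2 * (q * (t * ν))) =
          (∑ h ∈ (W false).powerset.erase ∅, wt q (W false) h) * (2 * (q * (t * ν))) by
            rw [hsw false]]
      rw [Finset.sum_mul, Finset.sum_mul, Finset.sum_mul, Finset.mul_sum, Finset.mul_sum,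
        ← Finset.sum_sub_distrib, ← Finset.sum_sub_distrib, ← Finset.sum_sub_distrib,
        ← Finset.sum_sub_distrib, ← Finset.sum_sub_distrib]
      exact Finset.sum_congr rfl fun h₀ _ => by ring
    rw [h2]
    have h3 := mul_le_mul_of_nonneg_left (mul_le_mul_of_nonneg_left (hcount false) hq0.le) hπ0
    have h4 : ∑ h₁ ∈ (W true).powerset.erase ∅, wt q (W true) h₁ *
          (q * ∑ κ ∈ W false, p' true h₁ κ) ≤ π * (q * (t * ν)) := by
      rw [← hsw true, Finset.sum_mul]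
      exact Finset.sum_le_sum fun h₁ _ => mul_le_mul_of_nonneg_left
        (mul_le_mul_of_nonneg_left (hcount' false true h₁) hq0.le) (hwt0 _ _)
    linarith
  have hfin1 := houter.trans hge
  -- the worlds with hits in one half
  have hpartZ := prob_two hd m (hηm.inter hZm.compl)
  rw [← hq, hw false, hw true, ← hP] at hpartZ
  have hgeZ := sum_ge_one (W₀ := W false) (W₁ := W true)
    (fun h₀ h₁ => wt q (W false) h₀ * wt q (W true) h₁ *
          prob (plant (allSpots m (h₀ ∪ h₁)) ⁻¹' (η ∩ Zᶜ) ∩ NoHit m (W false ∪ W true)))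
    (fun a b => mul_nonneg (mul_nonneg (hwt0 _ _) (hwt0 _ _)) (prob_nonneg _))
  rw [← hpartZ] at hgeZ
  simp only [Finset.union_empty, Finset.empty_union, wt_empty, hw] at hgeZ
  rw [← hP, ← hNdef] at hgeZ
  have e1 : ∑ h ∈ (W false).powerset.erase ∅, wt q (W false) h * P *
      prob (plant (allSpots m h) ⁻¹' (η ∩ Zᶜ) ∩ N) = P * a₀ := by
    rw [ha₀, Finset.mul_sum]
    exact Finset.sum_congr rfl fun h _ => by rw [hz]; ring
  have e2 : ∑ h ∈ (W true).powerset.erase ∅, P * wt q (W true) h *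
      prob (plant (allSpots m h) ⁻¹' (η ∩ Zᶜ) ∩ N) = P * a₁ := by
    rw [ha₁, Finset.mul_sum]
    exact Finset.sum_congr rfl fun h _ => by rw [hz]; ring
  have e3 : prob (plant (allSpots m ∅) ⁻¹' (η ∩ Zᶜ) ∩ N) = z ∅ := rfl
  rw [e1, e2, e3] at hgeZ
  -- conclusion
  have hZ1 : P * z ∅ + a₀ + a₁ ≤ P * prob (η ∩ Zᶜ) := by
    have : P * (P * z ∅ + a₀ + a₁) ≤ P * (P * prob (η ∩ Zᶜ)) := by linarith
    exact le_of_mul_le_mul_left this hP0
  have hZ2 : π * (P * z ∅ + a₀ + a₁) ≤ π * (P * prob (η ∩ Zᶜ)) :=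
    mul_le_mul_of_nonneg_left hZ1 hπ0
  have hZ3 : π * (π * z ∅) ≤ π * (P * z ∅) :=
    mul_le_mul_of_nonneg_left (mul_le_mul_of_nonneg_right hπP (hz0 _)) hπ0
  have hfin2 : P * (P * (π ^ 2 * prob η - 4 * t * q * π * prob η - prob BE)) ≤
      P * (π * prob (η ∩ Zᶜ)) := by
    have h1 : ν = prob η * P ^ 2 := hηN
    rw [h1] at hfin1
    nlinarith
  exact le_of_mul_le_mul_left hfin2 hP0

end Pool.Agent.H628R3.RO
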