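import Pool.Agent.H628R3.RO.D3
import Pool.Agent.H628R3.RO.D4
import Pool.Agent.H628R3.RO.M5
import Pool.Agent.H628R3.RO.K2

/-!
# The key inequality for pairs of `NP` sets (task K4)

`keyN_core` is the common part of the key inequalities for pairs of `NP` sets and for `UP`.
-/

namespace Pool.Agent.H628R3.RO

open MeasureTheory Pool.Agent.NPC

/-- the numerical end -/
theorem keyN_num {P0 π q t0 a e z c : ℝ} (hP : 1 / 2 ≤ P0) (hπ0 : 0 < π) (hc0 : 0 ≤ c)
    (hc : 2 * c ≤ π) (htq : 4 * t0 * q ≤ π / 8) (ha : 0 ≤ a) (hz : 0 ≤ z)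
    (main : P0 * (π ^ 2 * a - 4 * t0 * q * π * a - e) ≤ π * z) :
    c * (7 / 8 * a - e / π ^ 2) ≤ z := by
  rcases le_or_gt (7 / 8 * a - e / π ^ 2) 0 with hneg | hpos
  · exact (mul_nonpos_of_nonneg_of_nonpos hc0 hneg).trans hz
  · have h1 : 4 * t0 * q * π * a ≤ π / 8 * (π * a) := by
      have h2 : 0 ≤ π * a := mul_nonneg hπ0.le ha
      calc 4 * t0 * q * π * a = 4 * t0 * q * (π * a) := by ring
        _ ≤ π / 8 * (π * a) := mul_le_mul_of_nonneg_right htq h2
    have h3 : P0 * (π ^ 2 * (7 / 8 * a - e / π ^ 2)) ≤ π * z := by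
      refine le_trans ?_ main
      apply mul_le_mul_of_nonneg_left _ (by linarith)
      have h4 : π ^ 2 * (7 / 8 * a - e / π ^ 2) = 7 / 8 * (π ^ 2 * a) - e := by
        field_simp
      rw [h4]
      nlinarith
    have h5 : π * (P0 * π * (7 / 8 * a - e / π ^ 2)) ≤ π * z := by
      calc π * (P0 * π * (7 / 8 * a - e / π ^ 2)) = P0 * (π ^ 2 * (7 / 8 * a - e / π ^ 2)) := by
            ring
        _ ≤ π * z := h3
    have h6 := le_of_mul_le_mul_left h5 hπ0
    refine le_trans ?_ h6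
    apply mul_le_mul_of_nonneg_right _ hpos.le
    nlinarith

theorem lvN_three {s : ℕ} (hs : 4 ≤ s) : 3 ≤ lvN s := by
  have h1 : (4 : ℕ).size = 3 := by decide
  have h2 := Nat.size_le_size hs
  unfold lvN
  omega

/-- common part of the key inequalities for pairs of `NP` sets and for `UP` -/
theorem keyN_core {n s t : ℕ} (hs4 : 4 ≤ s) (hsn : s ≤ n) (ht : t < n) {η : Set Oracle}
    (hη : Loc {x | x.length ≤ t} η) {Z E : Set Oracle} {b : ℕ}
    (hZ : Loc {x | x.length ≤ b} Z) (hE : Loc {x | x.length ≤ b} E) (t0 : ℕ)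
    (ht0 : 64 * t0 ≤ 2 ^ n)
    (hkey : ∀ B ∈ NoHit (bitsN n s) (halfN false n ∪ halfN true n), ∃ (T : Finset Cand)
      (T' : Bool → Finset Cand → Finset Cand), T.card ≤ t0 ∧ (∀ i h, (T' i h).card ≤ t0) ∧
      ∀ h : Bool → Finset Cand, (∀ i, h i ⊆ halfN i n) → (∀ i, (h i).Nonempty) →
        (∀ i, Disjoint (h i) T) → (∀ i, Disjoint (h (!i)) (T' i (h i))) → B ∈ Z →
        (∀ i, plant (allSpots (bitsN n s) (h i)) B ∈ Z) →
        plant (allSpots (bitsN n s) (h false ∪ h true)) B ∈ E) :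
    (1 / 2 : ℝ) ^ (lvN s + 2) * (7 / 8 * prob η -
      prob (η ∩ (BadN n s ∩ E)) / prob (BadN n s)) ≤ prob (η ∩ Zᶜ) := by
  classical
  have hj3 := lvN_three hs4
  set K : Set (List Bool) := {x | x.length ≤ b + t + (4 * n + 4)} with hKdef
  have hK : K.Finite := finite_length_le _
  have hZK : Loc K Z := Loc.mono (fun x hx => by
    simp only [Set.mem_ofPred_eq, hKdef] at hx ⊢; omega) hZ
  have hEK : Loc K E := Loc.mono (fun x hx => by
    simp only [Set.mem_ofPred_eq, hKdef] at hx ⊢; omega) hE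
  have hηK : Loc K η := Loc.mono (fun x hx => by
    simp only [Set.mem_ofPred_eq, hKdef] at hx ⊢; omega) hη
  have hmemW : ∀ i, halfN i n ⊆ halfN false n ∪ halfN true n := by
    intro i
    cases i
    · exact Finset.subset_union_left
    · exact Finset.subset_union_right
  have hW : ∀ i, ∀ κ ∈ halfN i n, ∀ l < bitsN n s, pos κ.1 l κ.2 ∈ K := by
    intro i κ hκ l hl
    have hx : pos κ.1 l κ.2 ∈ spotsN n s :=
      M2.mem_allSpots.2 ⟨κ, hmemW i hκ, M2.mem_spots.2 ⟨l, hl, rfl⟩⟩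
    have := length_le_spotsN hsn _ hx
    simp only [Set.mem_ofPred_eq, hKdef]
    omega
  have hη' : ∀ (B : Oracle) (h : Finset Cand), h ⊆ halfN false n ∪ halfN true n →
      (plant (allSpots (bitsN n s) h) B ∈ η ↔ B ∈ η) := by
    intro B h hh
    refine hη _ _ fun x hx => ?_
    unfold plant
    rw [if_neg]
    intro hmem
    obtain ⟨κ, hκ, hx2⟩ := M2.mem_allSpots.1 hmem
    have := lt_length_spotsN (n := n) (s := s) x (M2.mem_allSpots.2 ⟨κ, hh hκ, hx2⟩)
    simp only [Set.mem_ofPred_eq] at hx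
    omega
  set j := lvN s with hj
  have hbits : bitsN n s = n + j := rfl
  set P0 : ℝ := (1 - (1 / 2 : ℝ) ^ (n + j)) ^ (2 ^ n) with hP0
  have hle := taut_le n j
  have hge := taut_ge n j
  rw [← hP0] at hle hge
  have hj8 : (1 / 2 : ℝ) ^ j ≤ 1 / 8 := by
    calc (1 / 2 : ℝ) ^ j ≤ (1 / 2) ^ 3 := pow_le_pow_of_le_one (by norm_num) (by norm_num) hj3
      _ = 1 / 8 := by norm_num
  have hPhalf : 1 / 2 ≤ P0 := by linarith
  have main := key_twoN hK hZK hEK hηK (fun i => halfN i n) (disjoint_halfN n)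
    (m := bitsN n s) (w := 2 ^ n) (by rw [hbits]; omega) (fun i => card_halfN i n) t0 hW hη'
    (by
      rw [hbits, ← hP0]
      linarith) hkey
  have hbad : (NoHit (bitsN n s) (halfN false n))ᶜ ∩ (NoHit (bitsN n s) (halfN true n))ᶜ ∩ E =
      BadN n s ∩ E := rfl
  rw [hbad] at main
  have hprobBad : prob (BadN n s) = (1 - P0) ^ 2 := prob_BadN n s
  rw [hprobBad]
  have hj1 : (0 : ℝ) < (1 / 2) ^ (j + 1) := by positivity
  refine keyN_num (t0 := (t0 : ℝ)) (q := (1 / 2 : ℝ) ^ (n + j)) hPhalf (lt_of_lt_of_le hj1 hge)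
    (by positivity) ?_ ?_ measureReal_nonneg measureReal_nonneg main
  · have : 2 * (1 / 2 : ℝ) ^ (j + 2) = (1 / 2) ^ (j + 1) := by
      rw [pow_succ _ (j + 1)]
      ring
    rw [this]
    exact hge
  · have h1 : (64 * t0 : ℝ) ≤ 2 ^ n := by exact_mod_cast ht0
    have h2 : (2 : ℝ) ^ n * (1 / 2) ^ (n + j) = (1 / 2) ^ j := by
      rw [pow_add, ← mul_assoc, ← mul_pow]
      norm_num
    have h3 : (0 : ℝ) ≤ (1 / 2) ^ (n + j) := by positivity
    have h4 : 64 * ((t0 : ℝ) * (1 / 2) ^ (n + j)) ≤ (1 / 2) ^ j := by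
      rw [← h2]
      nlinarith
    have h5 : (1 / 2 : ℝ) ^ (j + 1) = (1 / 2) ^ j / 2 := by
      rw [pow_succ]
      ring
    rw [h5] at hge
    linarith

theorem plant_union (m : ℕ) (h h' : Finset Cand) (A : Oracle) :
    plant (allSpots m (h ∪ h')) A = plant (allSpots m h') (plant (allSpots m h) A) := by
  classical
  funext x
  unfold plant
  by_cases h1 : x ∈ allSpots m h'
  · rw [if_pos h1, if_pos]
    rw [M2.mem_allSpots] at h1 ⊢
    obtain ⟨κ, hκ, hx⟩ := h1
    exact ⟨κ, Finset.mem_union_right _ hκ, hx⟩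
  · rw [if_neg h1]
    by_cases h2 : x ∈ allSpots m h
    · rw [if_pos h2, if_pos]
      rw [M2.mem_allSpots] at h2 ⊢
      obtain ⟨κ, hκ, hx⟩ := h2
      exact ⟨κ, Finset.mem_union_left _ hκ, hx⟩
    · rw [if_neg h2, if_neg]
      intro h3
      rw [M2.mem_allSpots] at h1 h2 h3
      obtain ⟨κ, hκ, hx⟩ := h3
      rcases Finset.mem_union.1 hκ with h4 | h4
      · exact h2 ⟨κ, h4, hx⟩
      · exact h1 ⟨κ, h4, hx⟩

/-- after planting in half `i` this half has a hit -/
theorem plant_mem_HitN {i : Bool} {n s : ℕ} {h : Finset Cand} (hh : h ⊆ halfN i n)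
    (hne : h.Nonempty) (B : Oracle) : plant (allSpots (bitsN n s) h) B ∈ HitN i n s := by
  obtain ⟨κ, hκ⟩ := hne
  intro hno
  exact hno κ (hh hκ) (M2.hit_plant_self hκ B)

theorem key_N (V : Bool → Alg) (p : Bool → Polynomial ℕ) (r : Alg) : ∃ n0, ∀ n ≥ n0, ∀ s,
    4 ≤ s → s ≤ n → ∀ t < n, ∀ η : Set Oracle, Loc {x | x.length ≤ t} η →
    (1 / 2 : ℝ) ^ (lvN s + 2) * (7 / 8 * prob η -
      prob (η ∩ (BadN n s ∩ ErrN V p n)) / prob (BadN n s)) ≤
      prob (η ∩ (GoodN V p r n s)ᶜ) := by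
  classical
  obtain ⟨bE, hbE⟩ := loc_ErrN V p
  obtain ⟨bG, hbG⟩ := loc_GoodN V p r
  obtain ⟨bl, hbl⟩ := r.out_length
  obtain ⟨qr, hqr⟩ := r.out_local
  choose qV hqV using fun i => (V i).out_local
  obtain ⟨n1, hn1⟩ := poly_le_two_pow bl
  obtain ⟨n2, hn2⟩ := mul_poly_le_two_pow
    (r.p + ∑ i : Bool, (V i).p.comp (Polynomial.C 2 * bl + 1 + (p i).comp bl)) 64
  refine ⟨max n1 n2, fun n hn s hs4 hsn t ht η hη => ?_⟩
  have hn1' := hn1 n (le_trans (le_max_left _ _) hn)
  have hn2' := hn2 n (le_trans (le_max_right _ _) hn)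
  set t0 : ℕ := (r.p + ∑ i : Bool,
    (V i).p.comp (Polynomial.C 2 * bl + 1 + (p i).comp bl)).eval n with ht0
  have ht0r : r.p.eval n ≤ t0 := by
    rw [ht0, Polynomial.eval_add]
    exact Nat.le_add_right _ _
  have ht0V : ∀ i, (V i).p.eval (2 * bl.eval n + 1 + (p i).eval (bl.eval n)) ≤ t0 := by
    intro i
    rw [ht0, Polynomial.eval_add, Polynomial.eval_finsetSum]
    refine le_trans ?_ (Nat.le_add_left _ _)
    have h1 := Finset.single_le_sum (f := fun i : Bool =>
      ((V i).p.comp (Polynomial.C 2 * bl + 1 + (p i).comp bl)).eval n)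
      (fun _ _ => Nat.zero_le _) (Finset.mem_univ i)
    refine le_trans (le_of_eq ?_) h1
    simp only [Polynomial.eval_comp, Polynomial.eval_add, Polynomial.eval_mul, Polynomial.eval_C,
      Polynomial.eval_one]
  refine keyN_core hs4 hsn ht hη (b := bE.eval (2 ^ n) + bG.eval (2 ^ n))
    (Loc.mono (fun x hx => by simp only [Set.mem_ofPred_eq] at hx ⊢; omega) (hbG n s hsn))
    (Loc.mono (fun x hx => by simp only [Set.mem_ofPred_eq] at hx ⊢; omega) (hbE n)) t0 hn2' ?_
  intro B _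
  set m := bitsN n s with hm
  set W := halfN false n ∪ halfN true n with hWdef
  have hsub : ∀ i, halfN i n ⊆ W := by
    intro i
    cases i
    · exact Finset.subset_union_left
    · exact Finset.subset_union_right
  -- the instance
  set x0 : List Bool := (r.out B (List.replicate n true)).getD [] with hx0
  have hlenr : (List.replicate n true).length = n := by simp
  have hx0len : x0.length ≤ bl.eval n := by
    rw [hx0]
    cases h : r.out B (List.replicate n true) with
    | none => simp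
    | some z =>
      have := hbl B _ z h
      rw [hlenr] at this
      simpa using this
  obtain ⟨Q0, hQ0c, -, hQ0⟩ := hqr B (List.replicate n true)
  rw [hlenr] at hQ0c
  obtain ⟨T, hTc, hT⟩ := touch W m Q0
  -- the witnesses
  have hch : ∀ (i : Bool) (h : Finset Cand), ∃ y : List Bool,
      y.length ≤ (p i).eval x0.length ∧
      (Wit (V i) (p i) x0 (plant (allSpots m h) B) →
        (V i).out (plant (allSpots m h) B) (pairBits x0 y) = some [true]) := by
    intro i h
    by_cases hw : Wit (V i) (p i) x0 (plant (allSpots m h) B)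
    · obtain ⟨y, hy1, hy2⟩ := hw
      exact ⟨y, hy1, fun _ => hy2⟩
    · exact ⟨[], by simp, fun h' => absurd h' hw⟩
  choose yy hyy1 hyy2 using hch
  choose Q' hQ'c hQ'l hQ' using fun (i : Bool) (h : Finset Cand) =>
    hqV i (plant (allSpots m h) B) (pairBits x0 (yy i h))
  choose T' hT'c hT' using fun (i : Bool) (h : Finset Cand) => touch W m (Q' i h)
  refine ⟨T, T', hTc.trans (hQ0c.trans ht0r), fun i h => ?_, ?_⟩
  · refine (hT'c i h).trans ((hQ'c i h).trans (le_trans ?_ (ht0V i)))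
    apply eval_mono
    rw [length_pairBits]
    have h1 := hyy1 i h
    have h2 := eval_mono (p i) hx0len
    omega
  · intro h hhW hhne hdT hdT' hBZ hBiZ
    have hBx0 : r.out B (List.replicate n true) = some x0 := by
      obtain ⟨x, hx, -⟩ := hBZ
      rw [hx0, hx]
      rfl
    have hWit : ∀ i, Wit (V i) (p i) x0 (plant (allSpots m (h i)) B) := by
      intro i
      obtain ⟨x, hx, hx2⟩ := hBiZ i
      have h1 : r.out (plant (allSpots m (h i)) B) (List.replicate n true) =
          r.out B (List.replicate n true) :=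
        hQ0 _ fun q hq => hT (h i) ((hhW i).trans (hsub i)) (hdT i) B q hq
      rw [h1, hBx0] at hx
      obtain rfl := Option.some.inj hx
      exact hx2 i (plant_mem_HitN (hhW i) (hhne i) B)
    refine ⟨x0, hx0len.trans hn1', fun i => ⟨yy i (h i), hyy1 i (h i), ?_⟩⟩
    have h2 := hyy2 i (h i) (hWit i)
    rw [← h2]
    have h3 : plant (allSpots m (h false ∪ h true)) B =
        plant (allSpots m (h (!i))) (plant (allSpots m (h i)) B) := by
      cases i
      · exact plant_union m _ _ B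
      · rw [Finset.union_comm]
        exact plant_union m _ _ B
    rw [h3]
    exact hQ' i (h i) _ fun q hq =>
      hT' i (h i) (h (!i)) ((hhW (!i)).trans (hsub (!i))) (hdT' i) _ q hq

end Pool.Agent.H628R3.RO
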