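import Pool.Agent.H628R3.RO.P3

/-!
The schedule is computable in polynomial time.
-/

namespace Pool.Agent.H628R3.RO

open Pool.Agent.NPC

open Classical in
/-- the schedule: the level of block `n`, if it is in use -/
noncomputable def sch (Bad Err : ℕ → ℕ → Set Oracle) (b : Polynomial ℕ) (t : ℕ)
    (L : List (List Bool)) (n : ℕ) : Option ℕ :=
  if h : ∃ i, Tt b t i = n then some (lev Bad Err t L (Tt b t) h.choose) else none

theorem lt_Gt (b : Polynomial ℕ) (n : ℕ) : n < Gt b n := by
  rw [Gt]; have : 0 < 2 ^ (2 ^ (b.eval (2 ^ n) + 1)) := by positivity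
  omega

theorem strictMono_Tt (b : Polynomial ℕ) (t : ℕ) : StrictMono (Tt b t) :=
  strictMono_nat_of_lt_succ fun i => lt_Gt b _

theorem Tt_zero (b : Polynomial ℕ) (t : ℕ) : Tt b t 0 = t + 4 := rfl

theorem add_le_Tt (b : Polynomial ℕ) (t i : ℕ) : t + 4 + i ≤ Tt b t i := by
  induction i with
  | zero => exact le_rfl
  | succ i ih =>
    have := strictMono_Tt b t (Nat.lt_succ_self i)
    simp only [Nat.succ_eq_add_one] at this
    omega

theorem sch_Tt (Bad Err : ℕ → ℕ → Set Oracle) (b : Polynomial ℕ) (t : ℕ)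
    (L : List (List Bool)) (i : ℕ) :
    sch Bad Err b t L (Tt b t i) = some (lev Bad Err t L (Tt b t) i) := by
  have h : ∃ i', Tt b t i' = Tt b t i := ⟨i, rfl⟩
  rw [sch, dif_pos h]
  have := (strictMono_Tt b t).injective h.choose_spec
  rw [this]

theorem eq_of_sch {Bad Err : ℕ → ℕ → Set Oracle} {b : Polynomial ℕ} {t : ℕ}
    {L : List (List Bool)} {n j : ℕ} (h : sch Bad Err b t L n = some j) :
    ∃ i, n = Tt b t i ∧ j = lev Bad Err t L (Tt b t) i := by
  rw [sch] at h
  split_ifs at h with h1
  exact ⟨h1.choose, h1.choose_spec.symm, by simpa using h.symm⟩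

theorem lev_le_add (Bad Err : ℕ → ℕ → Set Oracle) (t : ℕ) (L : List (List Bool)) (T : ℕ → ℕ)
    (i : ℕ) : lev Bad Err t L T i ≤ i + 4 := by
  induction i with
  | zero => exact le_rfl
  | succ i ih =>
    rw [lev]
    have : (chk Bad Err t L (T i) (lev Bad Err t L T i)).toNat ≤ 1 := Bool.toNat_le _
    omega

theorem lev_le_Tt (Bad Err : ℕ → ℕ → Set Oracle) (b : Polynomial ℕ) (t : ℕ)
    (L : List (List Bool)) (i : ℕ) : lev Bad Err t L (Tt b t) i ≤ Tt b t i := by
  have h1 := lev_le_add Bad Err t L (Tt b t) i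
  have h2 := add_le_Tt b t i
  omega

/-! ### clipped powers -/

theorem p_pow_le {α : Type} [TEnc α] {x N : α → ℕ} (hx : UPoly x) (hN : UPoly N) :
    Poly (fun a => decide (2 ^ (x a) ≤ N a)) := by
  have h1 : Poly (fun a => (N a).bits.length) := Poly.length (Poly.natBits hN.toPoly)
  refine (Poly.decide_lt hx.toPoly h1).congr fun a => ?_
  apply decide_eq_decide.2
  rw [Nat.size_eq_bits_len, Nat.lt_size]

/-- a power of two, or one more than the bound if it is too large -/
def cpow (x N : ℕ) : ℕ := if 2 ^ x ≤ N then 2 ^ x else N + 1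

theorem u_cpow {α : Type} [TEnc α] {x N : α → ℕ} (hx : UPoly x) (hN : UPoly N) :
    UPoly (fun a => cpow (x a) (N a)) := by
  have h1 := p_pow_le hx hN
  have hf : Poly (fun a : {a : α // decide (2 ^ (x a) ≤ N a) = true} =>
      List.replicate (2 ^ (x a.1)) ()) := by
    have hv := Poly.val (fun a : α => decide (2 ^ (x a) ≤ N a) = true)
    exact u_pow (hx.comp hv) (hN.comp hv) fun a => by simpa using a.2
  have hg : Poly (fun a : {a : α // decide (2 ^ (x a) ≤ N a) = false} =>
      List.replicate (N a.1 + 1) ()) := by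
    have hv := Poly.val (fun a : α => decide (2 ^ (x a) ≤ N a) = false)
    exact UPoly.add (hN.comp hv) (UPoly.const 1)
  refine (Poly.dcond h1 hf hg).congr fun a => ?_
  by_cases h : 2 ^ (x a) ≤ N a
  · simp [cpow, h]
  · simp [cpow, h]

/-- the clipped version of `Gt` -/
def cGt (b : Polynomial ℕ) (n N : ℕ) : ℕ :=
  cpow (cpow (b.eval (cpow n N) + 1) N) N + n + 1

theorem u_cGt (b : Polynomial ℕ) {α : Type} [TEnc α] {n N : α → ℕ} (hn : UPoly n)
    (hN : UPoly N) : UPoly (fun a => cGt b (n a) (N a)) :=
  UPoly.add (UPoly.add (u_cpow (u_cpow (UPoly.add (UPoly.eval (u_cpow hn hN) b)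
    (UPoly.const 1)) hN) hN) hn) (UPoly.const 1)

theorem cGt_eq {b : Polynomial ℕ} (hb : ∀ m, m ≤ b.eval m) {n N : ℕ} (h : Gt b n ≤ N) :
    cGt b n N = Gt b n := by
  have e0 : ∀ x : ℕ, x ≤ 2 ^ x := fun x => Nat.lt_two_pow_self.le
  have h3 : 2 ^ (2 ^ (b.eval (2 ^ n) + 1)) ≤ N := by rw [Gt] at h; omega
  have h2 : 2 ^ (b.eval (2 ^ n) + 1) ≤ N := (e0 _).trans h3
  have h1 : 2 ^ n ≤ N := ((hb _).trans ((Nat.le_succ _).trans (e0 _))).trans h2
  rw [cGt, cpow, cpow, cpow, if_pos h1, if_pos h2, if_pos h3, Gt]

theorem cGt_le {b : Polynomial ℕ} (hb : ∀ m, m ≤ b.eval m) {n N : ℕ} (h : cGt b n N ≤ N) :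
    Gt b n ≤ N := by
  have e0 : ∀ x : ℕ, x ≤ 2 ^ x := fun x => Nat.lt_two_pow_self.le
  have hc : ∀ x, cpow x N ≤ N → 2 ^ x ≤ N := by
    intro x hx
    rw [cpow] at hx
    split_ifs at hx with h1
    · exact h1
    · omega
  have hc2 : ∀ x, N < x → N < cpow x N := by
    intro x hx
    by_contra h1
    have := hc x (by omega)
    have := e0 x
    omega
  rw [cGt] at h
  have h3 := hc _ (show cpow (cpow (b.eval (cpow n N) + 1) N) N ≤ N by omega)
  have h2' : cpow (b.eval (cpow n N) + 1) N ≤ N := by
    by_contra h1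
    have := hc2 _ (by omega : N < cpow (b.eval (cpow n N) + 1) N)
    omega
  have h2 := hc _ h2'
  have h1' : cpow n N ≤ N := by
    by_contra h1
    have h4 := hb (cpow n N)
    have := hc2 (b.eval (cpow n N) + 1) (by omega)
    omega
  have h1 := hc _ h1'
  have e1 : cpow n N = 2 ^ n := if_pos h1
  rw [e1] at h2 h3 h
  have e2 : cpow (b.eval (2 ^ n) + 1) N = 2 ^ (b.eval (2 ^ n) + 1) := if_pos h2
  rw [e2] at h3 h
  have e3 : cpow (2 ^ (b.eval (2 ^ n) + 1)) N = 2 ^ 2 ^ (b.eval (2 ^ n) + 1) := if_pos h3
  rw [e3] at h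
  rw [Gt]
  exact h

/-! ### the iteration -/

section

variable (Bad Err : ℕ → ℕ → Set Oracle) (b : Polynomial ℕ) (t : ℕ) (L : List (List Bool))

/-- whether the next step can be done within `N` -/
def goOn (N : ℕ) (s : List Unit × List Unit) : Bool :=
  (decide (t < s.1.length) && decide (s.2.length ≤ s.1.length)) &&
    decide (cGt b s.1.length N ≤ N)

/-- one step of the schedule -/
noncomputable def stp (N : ℕ) (s : List Unit × List Unit) : List Unit × List Unit :=
  if goOn b t N s = true then
    (List.replicate (Gt b s.1.length) (),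
      if chk Bad Err t L s.1.length s.2.length = true then () :: s.2 else s.2)
  else s

variable {Bad Err b}

theorem p_stp (hc : Check Bad Err b) {α : Type} [TEnc α] {N : α → ℕ}
    {s : α → List Unit × List Unit} (hN : UPoly N) (hs : Poly s) :
    Poly (fun a => stp Bad Err b t L (N a) (s a)) := by
  have h1 : UPoly (fun a => (s a).1.length) := UPoly.length (Poly.fst hs)
  have h2 : UPoly (fun a => (s a).2.length) := UPoly.length (Poly.snd hs)
  have h3 : Poly (fun a => goOn b t (N a) (s a)) :=
    Poly.and (Poly.and (Poly.decide_lt (NPC.Poly.const t) h1.toPoly)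
      (Poly.decide_le h2.toPoly h1.toPoly))
      (Poly.decide_le (u_cGt b h1 hN).toPoly hN.toPoly)
  have hf : Poly (fun a : {a : α // goOn b t (N a) (s a) = true} =>
      ((List.replicate (Gt b (s a.1).1.length) (),
        if chk Bad Err t L (s a.1).1.length (s a.1).2.length = true then () :: (s a.1).2
        else (s a.1).2) : List Unit × List Unit)) := by
    have hv := Poly.val (fun a : α => goOn b t (N a) (s a) = true)
    have hprop : ∀ a : {a : α // goOn b t (N a) (s a) = true},
        t < (s a.1).1.length ∧ (s a.1).2.length ≤ (s a.1).1.length ∧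
          Gt b (s a.1).1.length ≤ N a.1 := by
      intro a
      have := a.2
      simp only [goOn, Bool.and_eq_true, decide_eq_true_eq] at this
      exact ⟨this.1.1, this.1.2, cGt_le hc.le_eval this.2⟩
    have h4 : UPoly (fun a : {a : α // goOn b t (N a) (s a) = true} =>
        Gt b (s a.1).1.length) := by
      refine (u_cGt b (h1.comp hv) (hN.comp hv)).congr fun a => ?_
      simp only
      rw [cGt_eq hc.le_eval (hprop a).2.2]
    have h5 : Poly (fun a : {a : α // goOn b t (N a) (s a) = true} =>
        chk Bad Err t L (s a.1).1.length (s a.1).2.length) := by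
      refine p_chk hc t L (h1.comp hv) (h2.comp hv) (hN.comp hv) (fun a => (hprop a).1)
        (fun a => (hprop a).2.1) fun a => ?_
      have := (hprop a).2.2
      rw [Gt] at this
      omega
    exact Poly.pair h4 (Poly.ite (Poly.decide_bool h5)
      (Poly.cons (NPC.Poly.const ()) ((Poly.snd hs).comp hv)) ((Poly.snd hs).comp hv))
  have hg : Poly (fun a : {a : α // goOn b t (N a) (s a) = false} => s a.1) :=
    hs.comp (Poly.val _)
  refine (Poly.dcond h3 hf hg).congr fun a => ?_
  rw [stp]
  split_ifs <;> rfl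

theorem stp_iterate (hc : Check Bad Err b) (N k : ℕ) :
    ∃ i ≤ k, (stp Bad Err b t L N)^[k] (List.replicate (t + 4) (), List.replicate 4 ()) =
      (List.replicate (Tt b t i) (), List.replicate (lev Bad Err t L (Tt b t) i) ()) ∧
      (i = 0 ∨ Tt b t i ≤ N) ∧ (i = k ∨ N < Gt b (Tt b t i)) := by
  induction k with
  | zero => exact ⟨0, le_rfl, rfl, Or.inl rfl, Or.inl rfl⟩
  | succ k ih =>
    obtain ⟨i, hik, h1, h2, h3⟩ := ih
    rw [Function.iterate_succ_apply', h1]
    have ht : t < Tt b t i := by have := add_le_Tt b t i; omega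
    have hl := lev_le_Tt Bad Err b t L i
    by_cases hG : Gt b (Tt b t i) ≤ N
    · have hik' : i = k := by
        rcases h3 with h3 | h3
        · exact h3
        · omega
      subst hik'
      refine ⟨i + 1, le_rfl, ?_, Or.inr hG, Or.inl rfl⟩
      have hgo : goOn b t N (List.replicate (Tt b t i) (),
          List.replicate (lev Bad Err t L (Tt b t) i) ()) = true := by
        simp only [goOn, List.length_replicate, Bool.and_eq_true, decide_eq_true_eq]
        exact ⟨⟨ht, hl⟩, by rw [cGt_eq hc.le_eval hG]; exact hG⟩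
      rw [stp, if_pos hgo]
      simp only [List.length_replicate, lev, Tt]
      cases chk Bad Err t L (Tt b t i) (lev Bad Err t L (Tt b t) i) with
      | true => simp [List.replicate_succ]
      | false => simp
    · refine ⟨i, by omega, ?_, h2, Or.inr (by omega)⟩
      have hgo : ¬ goOn b t N (List.replicate (Tt b t i) (),
          List.replicate (lev Bad Err t L (Tt b t) i) ()) = true := by
        simp only [goOn, List.length_replicate, Bool.and_eq_true, decide_eq_true_eq]
        rintro ⟨-, h⟩
        exact hG (cGt_le hc.le_eval h)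
      rw [stp, if_neg hgo]

theorem p_sch (hc : Check Bad Err b) {α : Type} [TEnc α] {n : α → ℕ} (hn : UPoly n) :
    Poly (fun a => sch Bad Err b t L (n a)) := by
  obtain ⟨r, hr⟩ := uPoly_le hn
  have hit : Poly (fun a => (stp Bad Err b t L (n a))^[(List.replicate (n a + 1) ()).length]
      (List.replicate (t + 4) (), List.replicate 4 ())) := by
    refine Poly.iterLen (l := fun a => List.replicate (n a + 1) ())
      (s := fun _ => ((List.replicate (t + 4) (), List.replicate 4 ()) :
        List Unit × List Unit)) (F := fun a s => stp Bad Err b t L (n a) s)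
      (UPoly.add hn (UPoly.const 1)) (NPC.Poly.const _) ?_
      (Polynomial.C 4 * r + Polynomial.C (4 * t + 20)) ?_
    · exact p_stp t L hc (hn.comp (Poly.fst Poly.id)) (Poly.snd Poly.id)
    · intro a k _
      obtain ⟨i, -, h1, h2, -⟩ := stp_iterate t L hc (n a) k
      have h3 := lev_le_Tt Bad Err b t L i
      have h4 := hr a
      have h5 : Tt b t i ≤ n a + (t + 4) := by
        rcases h2 with rfl | h2
        · rw [Tt_zero]; omega
        · omega
      rw [h1, sz_pair, sz_replicate_unit, sz_replicate_unit]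
      simp only [Polynomial.eval_add, Polynomial.eval_mul, Polynomial.eval_C]
      omega
  have h6 : Poly (fun a => (((stp Bad Err b t L (n a))^[(List.replicate (n a + 1) ()).length]
      (List.replicate (t + 4) (), List.replicate 4 ())).1.length)) :=
    Poly.length (Poly.fst hit)
  have h7 : Poly (fun a => (((stp Bad Err b t L (n a))^[(List.replicate (n a + 1) ()).length]
      (List.replicate (t + 4) (), List.replicate 4 ())).2.length)) :=
    Poly.length (Poly.snd hit)
  refine (Poly.ite (Poly.decide_eq h6 hn.toPoly) (Poly.some h7)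
    (NPC.Poly.const (none : Option ℕ))).congr fun a => ?_
  obtain ⟨i, -, h1, h2, h3⟩ := stp_iterate t L hc (n a) (n a + 1)
  rw [List.length_replicate, h1]
  simp only [List.length_replicate]
  have hi : n a < Gt b (Tt b t i) := by
    rcases h3 with h3 | h3
    · exfalso
      rcases h2 with h2 | h2
      · omega
      · have := add_le_Tt b t i
        omega
    · exact h3
  by_cases h4 : Tt b t i = n a
  · rw [if_pos h4, ← h4, sch_Tt]
  · rw [if_neg h4, sch, dif_neg]
    rintro ⟨i', hi'⟩
    have h5 : i' < i + 1 := (strictMono_Tt b t).lt_iff_lt.1 (by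
      rw [hi']; exact hi)
    rcases h2 with rfl | h2
    · have : i' = 0 := by omega
      rw [this] at hi'
      exact h4 hi'
    · have h6 : i ≤ i' := (strictMono_Tt b t).le_iff_le.1 (by rw [hi']; exact h2)
      have : i' = i := by omega
      rw [this] at hi'
      exact h4 hi'

end

end Pool.Agent.H628R3.RO
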