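import Pool.Agent.H628R3.RO.A3
import Pool.Agent.H628R3.RO.D1
import Pool.Agent.H628R3.RO.E1
import Pool.Agent.H628R3.RO.BaseE
import Pool.Agent.H628R3.RO.P4

/-!
The two-sided languages are in `NP`, `UP` and `coNP`.
-/

namespace Pool.Agent.H628R3.RO

open Pool.Agent.NPC

namespace G2

/-- the verifier which makes a test and asks a list of questions -/
def ver (A : Oracle) (g : List Bool × List Bool → Bool)
    (q : List Bool × List Bool → List (List Bool)) (y : List Bool) : List Bool :=
  if (g (unpair y) && (q (unpair y)).all A) = true then [true] else []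

theorem ver_iff {A : Oracle} {g : List Bool × List Bool → Bool}
    {q : List Bool × List Bool → List (List Bool)} {x w : List Bool} :
    ver A g q (pairBits x w) = [true] ↔ g (x, w) = true ∧ ∀ z ∈ q (x, w), A z = true := by
  unfold ver
  rw [unpair_pairBits]
  by_cases h : (g (x, w) && (q (x, w)).all A) = true
  · rw [if_pos h]
    rw [Bool.and_eq_true, List.all_eq_true] at h
    exact ⟨fun _ => h, fun _ => rfl⟩
  · rw [if_neg h]
    rw [Bool.and_eq_true, List.all_eq_true] at h
    exact ⟨fun h' => by simp at h', fun h' => absurd h' h⟩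

theorem ver_isFP (A : Oracle) {g : List Bool × List Bool → Bool}
    {q : List Bool × List Bool → List (List Bool)} (hg : Poly g) (hq : Poly q) :
    IsFP A (ver A g q) := by
  have h := IsFP.tt (A := A) (Q := fun y => q (unpair y))
    (H := fun p => if (g (unpair p.1) && p.2.all id) = true then [true] else [])
    (hq.comp poly_unpair)
    (Poly.ite (Poly.decide_eq (Poly.and (hg.comp (poly_unpair.comp (Poly.fst Poly.id)))
      (Poly.all (p := fun _ b => b) (Poly.snd Poly.id) (Poly.snd Poly.id))) (NPC.Poly.const true))
      (NPC.Poly.const [true]) (NPC.Poly.const []))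
  obtain ⟨M, hM⟩ := h
  refine ⟨M, fun x => ?_⟩
  rw [hM x]
  unfold ver
  simp only [List.all_map, Function.id_comp]

/-- the strings asked for a candidate -/
theorem p_spots {α : Type} [TEnc α] {c m : α → ℕ} {w : α → List Bool} (hc : UPoly c)
    (hm : UPoly m) (hw : Poly w) :
    Poly (fun a => (List.range (m a)).map (fun l => pos (c a) (min l (m a)) (w a))) := by
  have h1 : Poly (fun p : α × ℕ => p.1) := Poly.fst Poly.id
  have h2 : Poly (fun p : α × ℕ => p.2) := Poly.snd Poly.id
  refine NPC.Poly.map (F := fun a l => pos (c a) (min l (m a)) (w a)) hm.range ?_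
  refine p_pos (hc.comp h1) ?_ (hw.comp h1)
  exact UPoly.of_le (Poly.min h2 ((hm.comp h1).toPoly)) (hm.comp h1) fun p => min_le_right _ _

theorem forall_spots {A : Oracle} {c m : ℕ} {w : List Bool} :
    (∀ z ∈ (List.range m).map (fun l => pos c (min l m) w), A z = true) ↔ Hit m (c, w) A := by
  constructor
  · intro h i hi
    have := h _ (List.mem_map.2 ⟨i, List.mem_range.2 hi, rfl⟩)
    rwa [min_eq_left hi.le] at this
  · intro h z hz
    obtain ⟨i, hi, rfl⟩ := List.mem_map.1 hz
    rw [List.mem_range] at hi
    rw [min_eq_left hi.le]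
    exact h i hi

theorem u_size {α : Type} [TEnc α] {s : α → ℕ} (hs : Poly s) : UPoly (fun a => lvN (s a)) :=
  (UPoly.length (Poly.natBits hs)).congr fun a => by
    simp only [lvN, Nat.size_eq_bits_len]

theorem u_lvC {α : Type} [TEnc α] {s : α → ℕ} (hs : Poly s) : UPoly (fun a => lvC (s a)) := by
  have h := UPoly.add (u_size hs) (UPoly.const 1)
  exact UPoly.of_le (Poly.div h.toPoly (NPC.Poly.const 2)) h fun a => Nat.div_le_self _ _

theorem mem_HitN {A : Oracle} {i : Bool} {n s : ℕ} :
    A ∈ HitN i n s ↔ ∃ w : List Bool, w.length = n ∧ Hit (bitsN n s) (i.toNat, w) A := by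
  unfold HitN NoHit halfN
  rw [Set.mem_compl_iff, Set.mem_ofPred_eq]
  push Not
  constructor
  · rintro ⟨κ, h1, h2⟩
    rw [mem_cands, Finset.mem_singleton] at h1
    refine ⟨κ.2, h1.2, ?_⟩
    rw [← h1.1]
    exact h2
  · rintro ⟨w, h1, h2⟩
    exact ⟨(i.toNat, w), mem_cands.2 ⟨Finset.mem_singleton_self _, h1⟩, h2⟩

theorem mem_HitC {A : Oracle} {i : Bool} {n s : ℕ} :
    A ∈ HitC i n s ↔ ∃ (c : ℕ) (w : List Bool), i.toNat * lvC s ≤ c ∧ c < (i.toNat + 1) * lvC s ∧
      w.length = n ∧ Hit n (c, w) A := by
  unfold HitC NoHit halfC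
  rw [Set.mem_compl_iff, Set.mem_ofPred_eq]
  push Not
  constructor
  · rintro ⟨κ, h1, h2⟩
    rw [mem_cands, Finset.mem_Ico] at h1
    exact ⟨κ.1, κ.2, h1.1.1, h1.1.2, h1.2, h2⟩
  · rintro ⟨c, w, h1, h2, h3, h4⟩
    exact ⟨(c, w), mem_cands.2 ⟨Finset.mem_Ico.2 ⟨h1, h2⟩, h3⟩, h4⟩

end G2

open G2

theorem isNP_N (A : Oracle) (f : ℕ → Option ℕ) (hf : Poly (fun x : List Bool => f x.length))
    (hfn : ∀ n s, f n = some s → s ≤ n) (i : Bool) :
    IsNP A {x | ∃ s, f x.length = some s ∧ A ∈ HitN i x.length s} := by
  refine ⟨ver A (fun p => (f p.1.length).isSome && decide (p.2.length = p.1.length))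
    (fun p => match f p.1.length with
      | none => []
      | some s => (List.range (p.1.length + lvN s)).map
          (fun l => pos i.toNat (min l (p.1.length + lvN s)) p.2)),
    Polynomial.X, ver_isFP A ?_ ?_, fun x => ?_⟩
  · have h1 : Poly (fun p : List Bool × List Bool => p.1) := Poly.fst Poly.id
    have h2 : Poly (fun p : List Bool × List Bool => p.2) := Poly.snd Poly.id
    exact Poly.and (Poly.isSome (hf.comp h1)) (Poly.decide_eq (Poly.length h2) (Poly.length h1))
  · have h1 : Poly (fun p : List Bool × List Bool => p.1) := Poly.fst Poly.id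
    refine (Poly.optCases (o := fun p : List Bool × List Bool => f p.1.length)
      (g := fun _ => []) (h := fun p s => (List.range (p.1.length + lvN s)).map
          (fun l => pos i.toNat (min l (p.1.length + lvN s)) p.2)) (hf.comp h1)
      (NPC.Poly.const []) ?_).congr fun p => by cases f p.1.length <;> rfl
    have h3 : Poly (fun p : (List Bool × List Bool) × ℕ => p.1.1) := Poly.fst (Poly.fst Poly.id)
    have h4 : Poly (fun p : (List Bool × List Bool) × ℕ => p.1.2) := Poly.snd (Poly.fst Poly.id)
    exact p_spots (UPoly.const _) (UPoly.add (UPoly.length h3) (u_size (Poly.snd Poly.id))) h4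
  · rw [Set.mem_ofPred_eq]
    constructor
    · rintro ⟨s, h1, h2⟩
      obtain ⟨w, h3, h4⟩ := mem_HitN.1 h2
      refine ⟨w, by simp [h3], ?_⟩
      rw [ver_iff]
      simp only [h1, h3, Option.isSome_some, decide_true, Bool.and_self, true_and]
      exact forall_spots.2 h4
    · rintro ⟨w, h1, h2⟩
      rw [ver_iff] at h2
      obtain ⟨h3, h4⟩ := h2
      simp only [Bool.and_eq_true, decide_eq_true_eq] at h3
      obtain ⟨s, hs⟩ := Option.isSome_iff_exists.1 h3.1
      refine ⟨s, hs, mem_HitN.2 ⟨w, h3.2, ?_⟩⟩
      simp only [hs] at h4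
      exact forall_spots.1 h4

theorem isUP_N (A : Oracle) (f : ℕ → Option ℕ) (hf : Poly (fun x : List Bool => f x.length))
    (hfn : ∀ n s, f n = some s → s ≤ n) (hA : ∀ n s, f n = some s → A ∉ TwoN n s) :
    IsUP A {x | ∃ s, f x.length = some s ∧ ∃ i, A ∈ HitN i x.length s} := by
  have key : ∀ x w : List Bool, ver A
      (fun p => (f p.1.length).isSome && decide (p.2.length = p.1.length + 1))
      (fun p => match f p.1.length with
        | none => []
        | some s => (List.range (p.1.length + lvN s)).map
          (fun l => pos (p.2.head?.getD false).toNat (min l (p.1.length + lvN s)) p.2.tail))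
      (pairBits x w) = [true] ↔ ∃ s, f x.length = some s ∧ ∃ (i : Bool) (v : List Bool),
        w = i :: v ∧ v.length = x.length ∧ Hit (bitsN x.length s) (i.toNat, v) A := by
    intro x w
    rw [ver_iff]
    constructor
    · rintro ⟨h3, h4⟩
      simp only [Bool.and_eq_true, decide_eq_true_eq] at h3
      obtain ⟨s, hs⟩ := Option.isSome_iff_exists.1 h3.1
      refine ⟨s, hs, ?_⟩
      cases w with
      | nil => simp at h3
      | cons i v =>
        refine ⟨i, v, rfl, by simpa using h3.2, ?_⟩
        simp only [hs] at h4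
        exact forall_spots.1 h4
    · rintro ⟨s, hs, i, v, rfl, h1, h2⟩
      simp only [hs, h1, Option.isSome_some, List.length_cons, decide_true, Bool.and_self,
        true_and]
      exact forall_spots.2 h2
  refine ⟨ver A (fun p => (f p.1.length).isSome && decide (p.2.length = p.1.length + 1))
    (fun p => match f p.1.length with
      | none => []
      | some s => (List.range (p.1.length + lvN s)).map
          (fun l => pos (p.2.head?.getD false).toNat (min l (p.1.length + lvN s)) p.2.tail)),
    Polynomial.X + Polynomial.C 1, ver_isFP A ?_ ?_, fun x => ?_, ?_⟩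
  · have h1 : Poly (fun p : List Bool × List Bool => p.1) := Poly.fst Poly.id
    have h2 : Poly (fun p : List Bool × List Bool => p.2) := Poly.snd Poly.id
    exact Poly.and (Poly.isSome (hf.comp h1)) (Poly.decide_eq (Poly.length h2)
      (Poly.add (Poly.length h1) (NPC.Poly.const 1)))
  · have h1 : Poly (fun p : List Bool × List Bool => p.1) := Poly.fst Poly.id
    refine (Poly.optCases (o := fun p : List Bool × List Bool => f p.1.length)
      (g := fun _ => []) (h := fun p s => (List.range (p.1.length + lvN s)).map
          (fun l => pos (p.2.head?.getD false).toNat (min l (p.1.length + lvN s)) p.2.tail))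
      (hf.comp h1) (NPC.Poly.const []) ?_).congr fun p => by cases f p.1.length <;> rfl
    have h3 : Poly (fun p : (List Bool × List Bool) × ℕ => p.1.1) := Poly.fst (Poly.fst Poly.id)
    have h4 : Poly (fun p : (List Bool × List Bool) × ℕ => p.1.2) := Poly.snd (Poly.fst Poly.id)
    have h5 : UPoly (fun p : (List Bool × List Bool) × ℕ => (p.1.2.head?.getD false).toNat) := by
      refine Poly.congr (Poly.cond (Poly.head?_getD h4 false) (UPoly.const 1) (UPoly.const 0))
        fun p => ?_
      cases h : (p.1.2.head?.getD false) <;> simp [h]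
    exact p_spots h5 (UPoly.add (UPoly.length h3) (u_size (Poly.snd Poly.id))) (Poly.tail h4)
  · rw [Set.mem_ofPred_eq]
    constructor
    · rintro ⟨s, h1, i, h2⟩
      obtain ⟨v, h3, h4⟩ := mem_HitN.1 h2
      exact ⟨i :: v, by simp [h3], (key x _).2 ⟨s, h1, i, v, rfl, h3, h4⟩⟩
    · rintro ⟨w, h1, h2⟩
      obtain ⟨s, hs, i, v, -, h3, h4⟩ := (key x w).1 h2
      exact ⟨s, hs, i, mem_HitN.2 ⟨v, h3, h4⟩⟩
  · intro x w w' _ _ h h'
    obtain ⟨s, hs, i, v, rfl, h3, h4⟩ := (key x w).1 h
    obtain ⟨s', hs', i', v', rfl, h3', h4'⟩ := (key x w').1 h'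
    have hss : s' = s := by
      rw [hs] at hs'
      exact (Option.some.inj hs').symm
    subst hss
    have hi : ∀ i : Bool, ∀ v : List Bool, v.length = x.length →
        ((i.toNat, v) : Cand) ∈ halfN false x.length ∪ halfN true x.length := by
      intro i v hv
      rw [Finset.mem_union]
      cases i
      · exact Or.inl (mem_cands.2 ⟨Finset.mem_singleton_self _, hv⟩)
      · exact Or.inr (mem_cands.2 ⟨Finset.mem_singleton_self _, hv⟩)
    by_contra hne
    refine hA x.length s' hs ⟨(i.toNat, v), hi i v h3, (i'.toNat, v'), hi i' v' h3', ?_, h4, h4'⟩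
    intro he
    apply hne
    rw [Prod.mk.injEq] at he
    obtain ⟨he1, he2⟩ := he
    have : i = i' := by cases i <;> cases i' <;> simp_all
    rw [this, he2]

theorem isCoNP_C (A : Oracle) (f : ℕ → Option ℕ) (hf : Poly (fun x : List Bool => f x.length))
    (hfn : ∀ n s, f n = some s → s ≤ n) (i : Bool) :
    IsCoNP A {x | ∃ s, f x.length = some s ∧ A ∉ HitC i x.length s} := by
  have h1' : Poly (fun p : List Bool × List Bool => p.1) := Poly.fst Poly.id
  have h3 : Poly (fun p : (List Bool × List Bool) × ℕ => p.1.1) := Poly.fst (Poly.fst Poly.id)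
  have h4 : Poly (fun p : (List Bool × List Bool) × ℕ => (unpair p.1.2)) :=
    poly_unpair.comp (Poly.snd (Poly.fst Poly.id))
  have h5 : Poly (fun p : (List Bool × List Bool) × ℕ => p.2) := Poly.snd Poly.id
  refine ⟨ver A (fun p => match f p.1.length with
      | none => true
      | some s => (decide (i.toNat * lvC s ≤ (unpair p.2).1.length) &&
        decide ((unpair p.2).1.length < (i.toNat + 1) * lvC s)) &&
        decide ((unpair p.2).2.length = p.1.length))
    (fun p => match f p.1.length with
      | none => []
      | some _ => (List.range p.1.length).map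
          (fun l => pos (unpair p.2).1.length (min l p.1.length) (unpair p.2).2)),
    Polynomial.C 3 * Polynomial.X + Polynomial.C 3, ver_isFP A ?_ ?_, fun x => ?_⟩
  · refine (Poly.optCases (o := fun p : List Bool × List Bool => f p.1.length)
      (g := fun _ => true) (h := fun p s =>
        (decide (i.toNat * lvC s ≤ (unpair p.2).1.length) &&
        decide ((unpair p.2).1.length < (i.toNat + 1) * lvC s)) &&
        decide ((unpair p.2).2.length = p.1.length)) (hf.comp h1')
      (NPC.Poly.const true) ?_).congr fun p => by cases f p.1.length <;> rfl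
    exact Poly.and (Poly.and (Poly.decide_le (Poly.mul (NPC.Poly.const _) (u_lvC h5).toPoly)
        (Poly.length (Poly.fst h4)))
      (Poly.decide_lt (Poly.length (Poly.fst h4)) (Poly.mul (NPC.Poly.const _) (u_lvC h5).toPoly)))
      (Poly.decide_eq (Poly.length (Poly.snd h4)) (Poly.length h3))
  · refine (Poly.optCases (o := fun p : List Bool × List Bool => f p.1.length)
      (g := fun _ => []) (h := fun p _ => (List.range p.1.length).map
          (fun l => pos (unpair p.2).1.length (min l p.1.length) (unpair p.2).2)) (hf.comp h1')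
      (NPC.Poly.const []) ?_).congr fun p => by cases f p.1.length <;> rfl
    exact p_spots (UPoly.length (Poly.fst h4)) (UPoly.length h3) (Poly.snd h4)
  · rw [Set.mem_compl_iff, Set.mem_ofPred_eq]
    push Not
    constructor
    · intro h
      cases hx : f x.length with
      | none => exact ⟨[], by simp, ver_iff.2 (by simp [hx])⟩
      | some s =>
        obtain ⟨c, w, h6, h7, h8, h9⟩ := mem_HitC.1 (h s hx)
        refine ⟨pairBits (List.replicate c true) w, ?_, ?_⟩
        · rw [A2.length_pairBits, List.length_replicate, h8]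
          have h10 := hfn _ _ hx
          have h11 : s.size ≤ s := Nat.size_le.2 Nat.lt_two_pow_self
          have h12 : (i.toNat + 1) * lvC s ≤ 2 * lvC s :=
            Nat.mul_le_mul_right _ (by cases i <;> simp)
          have h13 : 2 * lvC s ≤ s.size + 1 := by
            unfold lvC
            omega
          simp only [Polynomial.eval_add, Polynomial.eval_mul, Polynomial.eval_C,
            Polynomial.eval_X]
          omega
        · rw [ver_iff]
          simp only [hx, unpair_pairBits, List.length_replicate]
          refine ⟨by simp [h6, h7, h8], forall_spots.2 h9⟩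
    · rintro ⟨w, h1, h2⟩ s hs
      rw [ver_iff] at h2
      simp only [hs, Bool.and_eq_true, decide_eq_true_eq] at h2
      exact mem_HitC.2 ⟨_, _, h2.1.1.1, h2.1.1.2, h2.1.2, forall_spots.1 h2.2⟩

end Pool.Agent.H628R3.RO
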