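import Pool.Agent.H628R3.RO.BaseE
import Pool.Agent.H628R3.RO.M4

/-!
Numbers for the two-sided versions.
-/

namespace Pool.Agent.H628R3.RO

open MeasureTheory

/-- `(1 - 1/N) ^ N ≥ 3/10` for `N = 2 ^ n ≥ 4` -/
theorem satC_ge {n : ℕ} (hn : 2 ≤ n) (j : ℕ) :
    (3 / 10 : ℝ) ^ j ≤ (1 - (1 / 2 : ℝ) ^ n) ^ (j * 2 ^ n) := by
  rw [mul_comm, pow_mul]
  apply pow_le_pow_left₀ (by norm_num)
  obtain ⟨m, rfl⟩ : ∃ m, n = m + 2 := ⟨n - 2, by omega⟩
  have h1 : (3 / 4 : ℝ) ≤ (1 - (1 / 2 : ℝ) ^ (m + 2)) ^ (2 ^ m) := by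
    have h2 := one_add_mul_le_pow (a := -(1 / 2 : ℝ) ^ (m + 2))
      (by have := half_pow_le_one (m + 2); linarith) (2 ^ m)
    have h3 : (1 : ℝ) + ((2 ^ m : ℕ) : ℝ) * -(1 / 2 : ℝ) ^ (m + 2) = 3 / 4 := by
      have := half_pow_mul m
      rw [pow_add]
      linarith
    rw [h3] at h2
    simpa [sub_eq_add_neg] using h2
  have h4 : (2 : ℕ) ^ (m + 2) = 2 ^ m * 4 := by rw [pow_add]; norm_num
  rw [h4, pow_mul]
  calc (3 / 10 : ℝ) ≤ (3 / 4) ^ 4 := by norm_num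
    _ ≤ _ := pow_le_pow_left₀ (by norm_num) h1 4

theorem satC_le (n j : ℕ) : (1 - (1 / 2 : ℝ) ^ n) ^ (j * 2 ^ n) ≤ (2 / 5) ^ j := by
  rw [mul_comm, pow_mul]
  apply pow_le_pow_left₀ (pow_nonneg (by linarith [half_pow_le_one n]) _)
  refine (sub_pow_le_exp _ (half_pow_le_one n) _).trans ?_
  rw [half_pow_mul, Real.exp_neg]
  have h1 : (5 / 2 : ℝ) ≤ Real.exp 1 := by
    have := Real.exp_one_gt_d9
    linarith
  calc (Real.exp 1)⁻¹ ≤ (5 / 2 : ℝ)⁻¹ := inv_anti₀ (by norm_num) h1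
    _ = 2 / 5 := by norm_num

theorem D5_lt (s : ℕ) : (s : ℝ) + 1 ≤ 2 ^ s.size := by
  have := Nat.lt_size_self s
  exact_mod_cast this

theorem D5_le (s : ℕ) : (2 : ℝ) ^ s.size ≤ 2 * ((s : ℝ) + 1) := by
  rcases Nat.eq_zero_or_pos s with rfl | hs
  · simp
  · have h1 : 0 < s.size := Nat.size_pos.2 hs
    obtain ⟨k, hk⟩ : ∃ k, s.size = k + 1 := ⟨s.size - 1, by omega⟩
    have h2 : 2 ^ k ≤ s := Nat.lt_size.1 (by omega)
    rw [hk, pow_succ]
    have h3 : (2 : ℝ) ^ k ≤ s := by exact_mod_cast h2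
    linarith

theorem summableN : Summable (fun s => (1 / 4 : ℝ) ^ (lvN s)) := by
  have h0 : Summable (fun s : ℕ => 1 / (s : ℝ) ^ 2) := Real.summable_one_div_nat_pow.2 one_lt_two
  have h1 : Summable (fun s : ℕ => 1 / ((s + 1 : ℕ) : ℝ) ^ 2) :=
    (summable_nat_add_iff (f := fun s : ℕ => 1 / (s : ℝ) ^ 2) 1).2 h0
  refine Summable.of_nonneg_of_le (fun s => by positivity) (fun s => ?_) h1
  have h2 := D5_lt s
  have h3 : (1 / 4 : ℝ) ^ (lvN s) = 1 / (2 ^ s.size) ^ 2 := by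
    rw [lvN, one_div, inv_pow, ← pow_mul, mul_comm, pow_mul]
    norm_num
  rw [h3]
  push_cast
  exact one_div_le_one_div_of_le (by positivity) (pow_le_pow_left₀ (by positivity) h2 2)

theorem not_summableN : ¬ Summable (fun s => (1 / 2 : ℝ) ^ (lvN s + 2)) := by
  intro h
  have h1 : Summable (fun s : ℕ => 1 / 8 * (1 / ((s + 1 : ℕ) : ℝ))) := by
    refine Summable.of_nonneg_of_le (fun s => by positivity) (fun s => ?_) h
    have h2 := D5_le s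
    have h5 : (1 / 2 : ℝ) ^ (lvN s + 2) = 1 / (4 * 2 ^ s.size) := by
      rw [lvN, pow_add, one_div_pow, one_div_pow, one_div_mul_one_div]
      congr 1
      ring
    have h6 : 1 / 8 * (1 / ((s + 1 : ℕ) : ℝ)) = 1 / (8 * ((s : ℝ) + 1)) := by
      push_cast
      rw [one_div_mul_one_div]
    rw [h5, h6]
    refine one_div_le_one_div_of_le (by positivity) ?_
    linarith
  have h2 : Summable (fun s : ℕ => 1 / ((s + 1 : ℕ) : ℝ)) := by
    have := h1.mul_left 8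
    refine this.congr fun s => ?_
    ring
  exact Real.not_summable_one_div_natCast
    ((summable_nat_add_iff (f := fun s : ℕ => 1 / (s : ℝ)) 1).1 h2)

theorem summableC : Summable (fun s => (4 / 25 : ℝ) ^ (lvC s)) := by
  have h0 : Summable (fun s : ℕ => 1 / (s : ℝ) ^ (5 / 4 : ℝ)) :=
    Real.summable_one_div_nat_rpow.2 (by norm_num)
  have h1 : Summable (fun s : ℕ => 1 / ((s + 1 : ℕ) : ℝ) ^ (5 / 4 : ℝ)) :=
    (summable_nat_add_iff (f := fun s : ℕ => 1 / (s : ℝ) ^ (5 / 4 : ℝ)) 1).2 h0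
  refine Summable.of_nonneg_of_le (fun s => by positivity) (fun s => ?_) h1
  have h2 := D5_lt s
  have h3 : (4 / 25 : ℝ) ^ (lvC s) ≤ (2 / 5) ^ s.size := by
    rw [show (4 / 25 : ℝ) = (2 / 5) ^ 2 by norm_num, ← pow_mul]
    refine pow_le_pow_of_le_one (by norm_num) (by norm_num) ?_
    rw [lvC]
    omega
  have h4 : (2 : ℝ) ^ (5 / 4 : ℝ) ≤ 5 / 2 := by
    have h5 : ((2 : ℝ) ^ (5 / 4 : ℝ)) ^ 4 ≤ (5 / 2) ^ 4 := by
      rw [← Real.rpow_natCast, ← Real.rpow_mul (by norm_num)]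
      norm_num
    exact le_of_pow_le_pow_left₀ (by norm_num) (by norm_num) h5
  have h5 : (2 / 5 : ℝ) ^ s.size ≤ 1 / (((s + 1 : ℕ) : ℝ)) ^ (5 / 4 : ℝ) := by
    have h6 : (((s + 1 : ℕ) : ℝ)) ^ (5 / 4 : ℝ) ≤ (5 / 2) ^ s.size := by
      calc (((s + 1 : ℕ) : ℝ)) ^ (5 / 4 : ℝ) ≤ ((2 : ℝ) ^ s.size) ^ (5 / 4 : ℝ) := by
            refine Real.rpow_le_rpow (by positivity) ?_ (by norm_num)
            push_cast
            exact h2
        _ = ((2 : ℝ) ^ (5 / 4 : ℝ)) ^ s.size := by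
            rw [← Real.rpow_natCast, ← Real.rpow_natCast, ← Real.rpow_mul (by norm_num),
              ← Real.rpow_mul (by norm_num), mul_comm]
        _ ≤ (5 / 2) ^ s.size := pow_le_pow_left₀ (by positivity) h4 _
    have h7 : (2 / 5 : ℝ) ^ s.size = 1 / (5 / 2) ^ s.size := by
      rw [one_div, ← inv_pow]
      norm_num
    rw [h7]
    exact one_div_le_one_div_of_le (by positivity) h6
  exact h3.trans h5

theorem not_summableC : ¬ Summable (fun s => (1 / 2 : ℝ) * (3 / 10) ^ (lvC s)) := by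
  intro h
  set S := ∑' s, (1 / 2 : ℝ) * (3 / 10) ^ (lvC s) with hS
  have h1 : ∀ j : ℕ, (3 / 10 : ℝ) * (6 / 5) ^ j ≤ S := by
    intro j
    have h2 := h.sum_le_tsum (Finset.Ico (2 ^ (2 * j + 1)) (2 ^ (2 * j + 2)))
      (fun s _ => by positivity)
    refine le_trans (le_of_eq ?_) h2
    have h3 : ∀ s ∈ Finset.Ico (2 ^ (2 * j + 1)) (2 ^ (2 * j + 2)),
        (1 / 2 : ℝ) * (3 / 10) ^ (lvC s) = (1 / 2) * (3 / 10) ^ (j + 1) := by
      intro s hs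
      rw [Finset.mem_Ico] at hs
      have h4 : 2 * j + 1 < s.size := Nat.lt_size.2 hs.1
      have h5 : s.size ≤ 2 * j + 2 := Nat.size_le.2 hs.2
      have h6 : lvC s = j + 1 := by
        rw [lvC]
        omega
      rw [h6]
    rw [Finset.sum_congr rfl h3, Finset.sum_const, Nat.card_Ico, nsmul_eq_mul]
    have h4 : 2 ^ (2 * j + 2) - 2 ^ (2 * j + 1) = 2 ^ (2 * j + 1) := by
      have : 2 ^ (2 * j + 2) = 2 ^ (2 * j + 1) * 2 := pow_succ 2 _
      omega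
    rw [h4]
    push_cast
    rw [pow_succ, pow_mul, pow_succ]
    rw [show (6 / 5 : ℝ) = 2 ^ 2 * (3 / 10) by norm_num, mul_pow]
    ring
  obtain ⟨j, hj⟩ := pow_unbounded_of_one_lt (S / (3 / 10)) (show (1 : ℝ) < 6 / 5 by norm_num)
  have h2 := h1 j
  rw [div_lt_iff₀ (by norm_num)] at hj
  linarith

theorem leN4 {s : ℕ} (hs : 4 ≤ s) : (1 / 4 : ℝ) ^ (lvN s) ≤ 1 / 16 := by
  have h1 : 2 < s.size := Nat.lt_size.2 (by norm_num; exact hs)
  calc (1 / 4 : ℝ) ^ (lvN s) ≤ (1 / 4) ^ 2 :=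
        pow_le_pow_of_le_one (by norm_num) (by norm_num) (by rw [lvN]; omega)
    _ = 1 / 16 := by norm_num

theorem leC4 {s : ℕ} (hs : 4 ≤ s) : (4 / 25 : ℝ) ^ (lvC s) ≤ 1 / 16 := by
  have h1 : 2 < s.size := Nat.lt_size.2 (by norm_num; exact hs)
  calc (4 / 25 : ℝ) ^ (lvC s) ≤ (4 / 25) ^ 2 :=
        pow_le_pow_of_le_one (by norm_num) (by norm_num) (by rw [lvC]; omega)
    _ ≤ 1 / 16 := by norm_num

end Pool.Agent.H628R3.RO
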