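import Pool.Agent.H628R3.RO.F0
import Pool.Agent.H628R3.RO.C2
import Pool.Agent.H628R3.RO.E2
import Pool.Agent.H628R3.RO.K4
import Pool.Agent.H628R3.RO.D5
import Pool.Agent.H628R3.RO.G2

/-!
# Disjoint `NP` pairs relative to a random oracle
-/

namespace Pool.Agent.H628R3.RO

open MeasureTheory Pool.Agent.NPC

theorem countable_poly2 : Countable (Polynomial ℕ) := by
  have : Function.Injective (fun p : Polynomial ℕ => (p.toFinsupp.coeff : ℕ →₀ ℕ)) := by
    intro p q h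
    ext n
    exact DFunLike.congr_fun h n
  exact this.countable

/-- the core, pairs of `NP` sets -/
theorem ae_N (V : Bool → Alg) (p : Bool → Polynomial ℕ) : ∃ b : Polynomial ℕ,
    Check BadN (fun n _ => ErrN V p n) b ∧
    ∀ᵐ A ∂randomOracle, (∀ n s, A ∉ BadN n s ∩ ErrN V p n) →
      ∃ (t : ℕ) (L : List (List Bool)),
      (∃ i0, ∀ i ≥ i0, A ∉ BadN (Tt b t i) (lev BadN (fun n _ => ErrN V p n) t L (Tt b t) i)) ∧
      ∀ (r : Alg) (i0 : ℕ), ∃ i ≥ i0,
        A ∉ GoodN V p r (Tt b t i) (lev BadN (fun n _ => ErrN V p n) t L (Tt b t) i) := by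
  obtain ⟨b, hc⟩ := check_N V p
  refine ⟨b, hc, ?_⟩
  exact core_two (R := Alg) BadN BadN (fun n _ => ErrN V p n) (GoodN V p) spotsN
    (fun n s => lt_length_spotsN) (fun n n' s s' h => disjoint_spotsN n n' s s' h)
    loc_BadN (fun n s => measurableSet_of_loc (spotsN n s).finite_toSet (loc_BadN n s))
    b hc.locErr hc.locBad (fun r => loc_GoodN V p r)
    (fun s => (1 / 4 : ℝ) ^ (lvN s)) (fun s => (1 / 2 : ℝ) ^ (lvN s + 2)) summableN
    (fun s hs => leN4 hs) prob_BadN_le 1 (fun n _ s => by rw [one_mul]) prob_BadN_ge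
    (fun s => by positivity) (fun s => pow_le_one₀ (by norm_num) (by norm_num))
    not_summableN (fun r => key_N V p r) hc.le_eval

/-- With probability one, there is no complete disjoint `NP` pair. -/
theorem pairN_main : ∀ᵐ A ∂randomOracle, ∀ K₀ K₁ : Set (List Bool), IsPair (IsNP A) K₀ K₁ →
    ∃ L₀ L₁ : Set (List Bool), IsPair (IsNP A) L₀ L₁ ∧ ¬ RedPair A L₀ L₁ K₀ K₁ := by
  have := countable_poly2
  choose b hc hcore using fun q : (Bool → Alg) × (Bool → Polynomial ℕ) => ae_N q.1 q.2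
  have hall : ∀ᵐ A ∂randomOracle, ∀ q : (Bool → Alg) × (Bool → Polynomial ℕ),
      (∀ n s, A ∉ BadN n s ∩ ErrN q.1 q.2 n) → ∃ (t : ℕ) (L : List (List Bool)),
      (∃ i0, ∀ i ≥ i0, A ∉ BadN (Tt (b q) t i)
        (lev BadN (fun n _ => ErrN q.1 q.2 n) t L (Tt (b q) t) i)) ∧
      ∀ (r : Alg) (i0 : ℕ), ∃ i ≥ i0, A ∉ GoodN q.1 q.2 r (Tt (b q) t i)
        (lev BadN (fun n _ => ErrN q.1 q.2 n) t L (Tt (b q) t) i) := ae_all_iff.2 hcore
  filter_upwards [hall] with A hA K₀ K₁ hK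
  obtain ⟨⟨V0, p0, ⟨M0, hM0⟩, hV0⟩, ⟨V1, p1, ⟨M1, hM1⟩, hV1⟩, hdis⟩ := hK
  set V : Bool → Alg := fun i => bif i then M1 else M0 with hV
  set p : Bool → Polynomial ℕ := fun i => bif i then p1 else p0 with hp
  have hw0 : ∀ x, Wit (V false) (p false) x A ↔ x ∈ K₀ := by
    intro x
    rw [hV0 x, Wit]
    refine exists_congr fun y => and_congr_right fun _ => ?_
    change M0.out A (pairBits x y) = some [true] ↔ _
    rw [hM0, Option.some.injEq]
  have hw1 : ∀ x, Wit (V true) (p true) x A ↔ x ∈ K₁ := by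
    intro x
    rw [hV1 x, Wit]
    refine exists_congr fun y => and_congr_right fun _ => ?_
    change M1.out A (pairBits x y) = some [true] ↔ _
    rw [hM1, Option.some.injEq]
  obtain ⟨t, S, ⟨i1, h1⟩, h2⟩ := hA (V, p) (by
    rintro n s ⟨_, x, _, h4⟩
    exact hdis x ⟨(hw0 x).1 (h4 false), (hw1 x).1 (h4 true)⟩)
  set f := schK BadN (fun n _ => ErrN V p n) (b (V, p)) t S (Tt (b (V, p)) t i1) with hf
  have hfn : ∀ n s, f n = some s → s ≤ n := fun n s h => schK_le h
  have hfA : ∀ n s, f n = some s → A ∉ BadN n s := by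
    intro n s h
    obtain ⟨h3, i, rfl, rfl⟩ := eq_of_schK h
    exact h1 i ((strictMono_Tt (b (V, p)) t).le_iff_le.1 h3)
  have hpf : Poly (fun x : List Bool => f x.length) := p_schK (hc (V, p)) t S _
  refine ⟨_, _, ⟨isNP_N A f hpf hfn false, isNP_N A f hpf hfn true, ?_⟩, ?_⟩
  · rintro x ⟨⟨s, h3, h4⟩, ⟨s', h3', h4'⟩⟩
    rw [h3, Option.some.injEq] at h3'
    subst h3'
    exact hfA _ _ h3 ⟨h4, h4'⟩
  · rintro ⟨F, ⟨r, hr⟩, hF0, hF1⟩
    obtain ⟨i, hi, h3⟩ := h2 r i1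
    set n := Tt (b (V, p)) t i with hn
    set s := lev BadN (fun n _ => ErrN V p n) t S (Tt (b (V, p)) t) i with hs
    have hfi : f n = some s := schK_Tt ((strictMono_Tt (b (V, p)) t).monotone hi)
    refine h3 ⟨_, hr _, fun j hj => ?_⟩
    cases j with
    | false =>
      rw [hw0]
      exact hF0 _ ⟨s, by rw [List.length_replicate]; exact hfi,
        by rw [List.length_replicate]; exact hj⟩
    | true =>
      rw [hw1]
      exact hF1 _ ⟨s, by rw [List.length_replicate]; exact hfi,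
        by rw [List.length_replicate]; exact hj⟩

end Pool.Agent.H628R3.RO
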