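import Pool.Agent.H628R3.RO.K4

/-!
# The key inequality for `UP` (task K5)
-/

namespace Pool.Agent.H628R3.RO

open MeasureTheory Pool.Agent.NPC

theorem key_U (V : Alg) (p : Polynomial ℕ) (r : Alg) : ∃ n0, ∀ n ≥ n0, ∀ s,
    4 ≤ s → s ≤ n → ∀ t < n, ∀ η : Set Oracle, Loc {x | x.length ≤ t} η →
    (1 / 2 : ℝ) ^ (lvN s + 2) * (7 / 8 * prob η -
      prob (η ∩ (BadN n s ∩ ErrU V p n)) / prob (BadN n s)) ≤
      prob (η ∩ (GoodU V p r n s)ᶜ) := by
  classical
  obtain ⟨bE, hbE⟩ := loc_ErrU V p
  obtain ⟨bG, hbG⟩ := loc_GoodU V p r
  obtain ⟨bl, hbl⟩ := r.out_length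
  obtain ⟨qr, hqr⟩ := r.out_local
  obtain ⟨qV, hqV⟩ := V.out_local
  obtain ⟨n1, hn1⟩ := poly_le_two_pow bl
  obtain ⟨n2, hn2⟩ := mul_poly_le_two_pow
    (r.p + 2 * V.p.comp (2 * bl + 1 + p.comp bl)) 64
  refine ⟨max n1 n2, fun n hn s hs hsn t ht η hη => ?_⟩
  have hn1' := hn1 n (le_trans (le_max_left _ _) hn)
  have hn2' := hn2 n (le_trans (le_max_right _ _) hn)
  simp only [Polynomial.eval_comp, Polynomial.eval_add, Polynomial.eval_mul,
    Polynomial.eval_ofNat, Polynomial.eval_one] at hn2'
  refine keyN_core hs hsn ht hη (b := bE.eval (2 ^ n) + bG.eval (2 ^ n) + (3 * n + 3))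
    (Z := GoodU V p r n s) (E := ErrU V p n) ?_ ?_ _ hn2' ?_
  · exact (hbG n s hsn).mono fun x hx => by
      simp only [Set.mem_ofPred_eq] at hx ⊢
      omega
  · exact (hbE n).mono fun x hx => by
      simp only [Set.mem_ofPred_eq] at hx ⊢
      omega
  · intro B hB
    set m := bitsN n s with hm
    set u : List Bool := List.replicate n true with hu
    have hulen : u.length = n := List.length_replicate
    let x : List Bool := (r.out B u).getD []
    have hxlen : x.length ≤ bl.eval n := by
      change ((r.out B u).getD []).length ≤ _
      cases h : r.out B u with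
      | none => simp
      | some z => simpa [hulen] using hbl B u z h
    let y : Oracle → List Bool := fun A => if h : Wit V p x A then h.choose else []
    have hylen : ∀ A, (y A).length ≤ p.eval x.length := by
      intro A
      by_cases h : Wit V p x A
      · simp only [y, dif_pos h]
        exact h.choose_spec.1
      · simp [y, dif_neg h]
    have hyout : ∀ A, Wit V p x A → V.out A (pairBits x (y A)) = some [true] := by
      intro A h
      simp only [y, dif_pos h]
      exact h.choose_spec.2
    obtain ⟨Q, hQ1, -, hQ2⟩ := hqr B u
    choose QV hQV1 _ hQV2 using fun (A : Oracle) (z : List Bool) => hqV A z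
    obtain ⟨T, hT1, hT2⟩ := touch (halfN false n ∪ halfN true n) m Q
    choose TT hTT1 hTT2 using fun Q' : Finset (List Bool) =>
      touch (halfN false n ∪ halfN true n) m Q'
    have hplen : ∀ A A' : Oracle, (QV A (pairBits x (y A'))).card ≤
        V.p.eval (2 * bl.eval n + 1 + p.eval (bl.eval n)) := by
      intro A A'
      refine (hQV1 _ _).trans (eval_mono _ ?_)
      rw [length_pairBits]
      have h1 := (hylen A').trans (eval_mono p hxlen)
      omega
    refine ⟨T, fun _ h => TT (QV (plant (allSpots m h) B)
      (pairBits x (y (plant (allSpots m h) B))) ∪ QV B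
      (pairBits x (y (plant (allSpots m h) B)))), ?_, ?_, ?_⟩
    · rw [hulen] at hQ1
      exact (hT1.trans hQ1).trans (Nat.le_add_right _ _)
    · intro _ h
      refine (hTT1 _).trans ((Finset.card_union_le _ _).trans ?_)
      have h1 := hplen (plant (allSpots m h) B) (plant (allSpots m h) B)
      have h2 := hplen B (plant (allSpots m h) B)
      omega
    · intro h hh hne hdT hdT' hBZ hZi
      have hsub : ∀ i, h i ⊆ halfN false n ∪ halfN true n := by
        intro i
        cases i
        · exact (hh false).trans Finset.subset_union_left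
        · exact (hh true).trans Finset.subset_union_right
      obtain ⟨x0, hx0, hiff0⟩ := hBZ
      have hxx0 : x = x0 := by
        change (r.out B u).getD [] = x0
        rw [hx0]
        rfl
      have hnotWit : ¬ Wit V p x B := by
        rw [hxx0, ← hiff0]
        rintro ⟨i, hi⟩
        apply hi
        intro κ hκ
        refine hB κ ?_
        cases i
        · exact Finset.mem_union_left _ hκ
        · exact Finset.mem_union_right _ hκ
      -- the two half worlds
      have hWit : ∀ i, Wit V p x (plant (allSpots m (h i)) B) := by
        intro i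
        obtain ⟨xi, hxi, hiffi⟩ := hZi i
        have e1 : r.out (plant (allSpots m (h i)) B) u = r.out B u :=
          hQ2 _ fun q hq => hT2 (h i) (hsub i) (hdT i) B q hq
        have e2 : xi = x := by
          rw [← hu, e1, hx0] at hxi
          rw [hxx0]
          exact (Option.some.inj hxi).symm
        rw [← e2, ← hiffi]
        refine ⟨i, ?_⟩
        obtain ⟨κ, hκ⟩ := hne i
        intro hno
        exact hno κ (hh i hκ) (M2.hit_plant_self hκ B)
      have hout : ∀ i, V.out (plant (allSpots m (h i)) B)
          (pairBits x (y (plant (allSpots m (h i)) B))) = some [true] :=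
        fun i => hyout _ (hWit i)
      have hboth : ∀ i, plant (allSpots m (h false ∪ h true)) B =
          plant (allSpots m (h (!i))) (plant (allSpots m (h i)) B) := by
        intro i
        cases i
        · exact plant_union m _ _ B
        · rw [Finset.union_comm]
          exact plant_union m _ _ B
      have hout2 : ∀ i, V.out (plant (allSpots m (h false ∪ h true)) B)
          (pairBits x (y (plant (allSpots m (h i)) B))) = some [true] := by
        intro i
        rw [← hout i]
        refine hQV2 _ _ _ fun q hq => ?_
        rw [hboth i]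
        exact hTT2 _ (h (!i)) (hsub _) (hdT' i) _ q (Finset.mem_union_left _ hq)
      refine ⟨x, hxlen.trans hn1', y (plant (allSpots m (h false)) B),
        y (plant (allSpots m (h true)) B), ?_, hylen _, hylen _, hout2 false, hout2 true⟩
      intro heq
      have e3 : V.out (plant (allSpots m (h true)) B)
          (pairBits x (y (plant (allSpots m (h false)) B))) =
          V.out B (pairBits x (y (plant (allSpots m (h false)) B))) := by
        refine hQV2 _ _ _ fun q hq => ?_
        exact hTT2 _ (h true) (hsub _) (hdT' false) _ q (Finset.mem_union_right _ hq)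
      apply hnotWit
      refine ⟨y (plant (allSpots m (h false)) B), hylen _, ?_⟩
      rw [← e3, heq]
      exact hout true

end Pool.Agent.H628R3.RO
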