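import Pool.Agent.H628R3.RO.F4
import Pool.Agent.H628R3.RO.K5

/-!
# `UP` relative to a random oracle
-/

namespace Pool.Agent.H628R3.RO

open MeasureTheory Pool.Agent.NPC

/-- the core, for `UP` -/
theorem ae_U (V : Alg) (p : Polynomial ℕ) : ∃ b : Polynomial ℕ,
    Check BadN (fun n _ => ErrU V p n) b ∧
    ∀ᵐ A ∂randomOracle, (∀ n s, A ∉ BadN n s ∩ ErrU V p n) →
      ∃ (t : ℕ) (L : List (List Bool)),
      (∃ i0, ∀ i ≥ i0, A ∉ TwoN (Tt b t i) (lev BadN (fun n _ => ErrU V p n) t L (Tt b t) i)) ∧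
      ∀ (r : Alg) (i0 : ℕ), ∃ i ≥ i0,
        A ∉ GoodU V p r (Tt b t i) (lev BadN (fun n _ => ErrU V p n) t L (Tt b t) i) := by
  obtain ⟨b, hc⟩ := check_U V p
  refine ⟨b, hc, ?_⟩
  exact core_two (R := Alg) BadN TwoN (fun n _ => ErrU V p n) (GoodU V p) spotsN
    (fun n s => lt_length_spotsN) (fun n n' s s' h => disjoint_spotsN n n' s s' h)
    loc_BadN (fun n s => measurableSet_of_loc (spotsN n s).finite_toSet (loc_TwoN n s))
    b hc.locErr hc.locBad (fun r => loc_GoodU V p r)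
    (fun s => (1 / 4 : ℝ) ^ (lvN s)) (fun s => (1 / 2 : ℝ) ^ (lvN s + 2)) summableN
    (fun s hs => leN4 hs) prob_BadN_le 16 (fun n _ s => prob_TwoN_le n s) prob_BadN_ge
    (fun s => by positivity) (fun s => pow_le_one₀ (by norm_num) (by norm_num))
    not_summableN (fun r => key_U V p r) hc.le_eval

/-- With probability one, `UP` has no complete set. -/
theorem up_main : ∀ᵐ A ∂randomOracle, ∀ K : Set (List Bool), IsUP A K →
    ∃ L : Set (List Bool), IsUP A L ∧ ¬ Red A L K := by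
  have := countable_poly2
  choose b hc hcore using fun q : Alg × Polynomial ℕ => ae_U q.1 q.2
  have hall : ∀ᵐ A ∂randomOracle, ∀ q : Alg × Polynomial ℕ,
      (∀ n s, A ∉ BadN n s ∩ ErrU q.1 q.2 n) → ∃ (t : ℕ) (L : List (List Bool)),
      (∃ i0, ∀ i ≥ i0, A ∉ TwoN (Tt (b q) t i)
        (lev BadN (fun n _ => ErrU q.1 q.2 n) t L (Tt (b q) t) i)) ∧
      ∀ (r : Alg) (i0 : ℕ), ∃ i ≥ i0, A ∉ GoodU q.1 q.2 r (Tt (b q) t i)
        (lev BadN (fun n _ => ErrU q.1 q.2 n) t L (Tt (b q) t) i) := ae_all_iff.2 hcore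
  filter_upwards [hall] with A hA K hK
  obtain ⟨V, p, ⟨M, hM⟩, hV, huniq⟩ := hK
  have hw : ∀ x, Wit M p x A ↔ x ∈ K := by
    intro x
    rw [hV x, Wit]
    refine exists_congr fun y => and_congr_right fun _ => ?_
    rw [hM, Option.some.injEq]
  obtain ⟨t, S, ⟨i1, h1⟩, h2⟩ := hA (M, p) (by
    rintro n s ⟨_, x, _, y, y', h3, h4, h5, h6, h7⟩
    rw [hM, Option.some.injEq] at h6 h7
    exact h3 (huniq x y y' h4 h5 h6 h7))
  set f := schK BadN (fun n _ => ErrU M p n) (b (M, p)) t S (Tt (b (M, p)) t i1) with hf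
  have hfn : ∀ n s, f n = some s → s ≤ n := fun n s h => schK_le h
  have hfA : ∀ n s, f n = some s → A ∉ TwoN n s := by
    intro n s h
    obtain ⟨h3, i, rfl, rfl⟩ := eq_of_schK h
    exact h1 i ((strictMono_Tt (b (M, p)) t).le_iff_le.1 h3)
  have hpf : Poly (fun x : List Bool => f x.length) := p_schK (hc (M, p)) t S _
  refine ⟨_, isUP_N A f hpf hfn hfA, ?_⟩
  rintro ⟨F, ⟨r, hr⟩, hF⟩
  obtain ⟨i, hi, h3⟩ := h2 r i1
  set n := Tt (b (M, p)) t i with hn
  set s := lev BadN (fun n _ => ErrU M p n) t S (Tt (b (M, p)) t) i with hs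
  have hfi : f n = some s := schK_Tt ((strictMono_Tt (b (M, p)) t).monotone hi)
  refine h3 ⟨_, hr _, ?_⟩
  have h4 : (List.replicate n true) ∈ {x : List Bool | ∃ s, f x.length = some s ∧
      ∃ i, A ∈ HitN i x.length s} ↔ ∃ i, A ∈ HitN i n s := by
    rw [Set.mem_ofPred_eq, List.length_replicate, hfi]
    constructor
    · rintro ⟨s', h5, h6⟩
      rw [Option.some.injEq] at h5
      subst h5
      exact h6
    · intro h6
      exact ⟨s, rfl, h6⟩
  rw [hw, ← hF, h4]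

end Pool.Agent.H628R3.RO
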