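import Pool.Agent.H628R3.RO.Base

/-! Every measurable set of positive probability has conditional probability almost one in some
cylinder. -/

namespace Pool.Agent.H628R3.RO

open MeasureTheory

theorem finite_short (t : ℕ) : {x : List Bool | x.length ≤ t}.Finite :=
  List.finite_length_le Bool t

/-- an event depending on finitely many coordinates is measurable -/
theorem measurableSet_of_loc_aux {K : Set (List Bool)} (hK : K.Finite) {S : Set Oracle}
    (h : Loc K S) : MeasurableSet S := by
  have : Finite K := hK.to_subtype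
  have hm : Measurable (fun (A : Oracle) (x : K) => A x.1) :=
    measurable_pi_lambda _ fun x => measurable_pi_apply x.1
  have hS : S = (fun (A : Oracle) (x : K) => A x.1) ⁻¹'
      ((fun (A : Oracle) (x : K) => A x.1) '' S) := by
    ext A
    constructor
    · intro hA
      exact ⟨A, hA, rfl⟩
    · rintro ⟨A', hA', he⟩
      refine (h A' A fun x hx => ?_).1 hA'
      exact congrFun he ⟨x, hx⟩
  rw [hS]
  exact hm (Set.toFinite _).measurableSet

/-- the events depending on finitely many coordinates -/
def LocSets : Set (Set Oracle) := {S | ∃ t : ℕ, Loc {x | x.length ≤ t} S}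

theorem Loc.monoM {K K' : Set (List Bool)} (hK : K ⊆ K') {S : Set Oracle} (h : Loc K S) :
    Loc K' S := fun A A' hA => h A A' fun x hx => hA x (hK hx)

theorem LocSets.pair {S S' : Set Oracle} (hS : S ∈ LocSets) (hS' : S' ∈ LocSets) :
    ∃ t : ℕ, Loc {x | x.length ≤ t} S ∧ Loc {x | x.length ≤ t} S' := by
  obtain ⟨t, ht⟩ := hS
  obtain ⟨t', ht'⟩ := hS'
  refine ⟨max t t', ht.monoM fun x hx => ?_, ht'.monoM fun x hx => ?_⟩
  · rw [Set.mem_ofPred_eq] at hx ⊢
    exact hx.trans (le_max_left t t')
  · rw [Set.mem_ofPred_eq] at hx ⊢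
    exact hx.trans (le_max_right t t')

theorem isSetRing_locSets : IsSetRing LocSets where
  empty_mem := ⟨0, fun A A' _ => Iff.rfl⟩
  union_mem := by
    intro S S' hS hS'
    obtain ⟨t, h, h'⟩ := LocSets.pair hS hS'
    exact ⟨t, fun A A' hA => or_congr (h A A' hA) (h' A A' hA)⟩
  sdiff_mem := by
    intro S S' hS hS'
    obtain ⟨t, h, h'⟩ := LocSets.pair hS hS'
    exact ⟨t, fun A A' hA => and_congr (h A A' hA) (not_congr (h' A A' hA))⟩

theorem generateFrom_locSets :
    (MeasurableSpace.pi : MeasurableSpace Oracle) = MeasurableSpace.generateFrom LocSets := by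
  apply le_antisymm
  · refine iSup_le fun x => ?_
    rintro _ ⟨s, -, rfl⟩
    apply MeasurableSpace.measurableSet_generateFrom
    refine ⟨x.length, fun A A' hA => ?_⟩
    simp only [Set.mem_preimage]
    rw [hA x (by simp)]
  · apply MeasurableSpace.generateFrom_le
    rintro S ⟨t, ht⟩
    exact measurableSet_of_loc_aux (finite_short t) ht

theorem loc_cyl_aux (t : ℕ) (L : List (List Bool)) : Loc {x | x.length ≤ t} (cyl t L) := by
  intro A A' hA
  unfold cyl
  constructor
  · intro h x hx
    rw [← hA x hx]; exact h x hx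
  · intro h x hx
    rw [hA x hx]; exact h x hx

theorem measurableSet_cyl (t : ℕ) (L : List (List Bool)) : MeasurableSet (cyl t L) :=
  measurableSet_of_loc_aux (finite_short t) (loc_cyl_aux t L)

theorem isProbabilityMeasure_randomOracle_aux : IsProbabilityMeasure randomOracle := by
  unfold randomOracle
  infer_instance

theorem exists_cyl {S : Set Oracle} (hS : MeasurableSet S) (h0 : 0 < prob S) {δ : ℝ}
    (hδ : 0 < δ) : ∃ (t : ℕ) (L : List (List Bool)), 0 < prob (cyl t L) ∧
      (1 - δ) * prob (cyl t L) ≤ prob (S ∩ cyl t L) := by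
  classical
  have := isProbabilityMeasure_randomOracle_aux
  set ε : ℝ := δ * prob S / (2 * (1 + δ)) with hε
  have hε0 : 0 < ε := by positivity
  have hε1 : ε * (1 + δ) = δ * prob S / 2 := by
    rw [hε]; field_simp
  obtain ⟨T, ⟨t, hT⟩, hTS⟩ := exists_measure_symmDiff_lt_of_generateFrom_isSetRing
    (μ := randomOracle) isSetRing_locSets
    ⟨{Set.univ}, Set.countable_singleton _, by
      rintro _ rfl
      exact ⟨0, fun A A' _ => Iff.rfl⟩, by simp⟩ generateFrom_locSets hS
    (ENNReal.ofReal_pos.2 hε0)
  have hTS' : prob (symmDiff T S) < ε := by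
    unfold prob
    exact ENNReal.toReal_lt_of_lt_ofReal hTS
  have hTm : MeasurableSet T := measurableSet_of_loc_aux (finite_short t) hT
  by_contra hcon
  push Not at hcon
  have hall : ∀ L : List (List Bool), prob (S ∩ cyl t L) ≤ (1 - δ) * prob (cyl t L) := by
    intro L
    by_cases h : 0 < prob (cyl t L)
    · exact (hcon t L h).le
    · have h1 : prob (cyl t L) = 0 := le_antisymm (not_lt.1 h) measureReal_nonneg
      have h2 : prob (S ∩ cyl t L) ≤ prob (cyl t L) := measureReal_mono Set.inter_subset_right
      rw [h1] at h2 ⊢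
      simpa using h2
  have : Fintype {x : List Bool | x.length ≤ t} := (finite_short t).fintype
  -- the list of the strings in the restriction
  let L : Set {x : List Bool | x.length ≤ t} → List (List Bool) := fun g =>
    ((Finset.univ.filter (fun x => x ∈ g)).image Subtype.val).toList
  have hL : ∀ (g : Set {x : List Bool | x.length ≤ t}) (x : List Bool) (hx : x.length ≤ t),
      ofL (L g) x = true ↔ (⟨x, hx⟩ : {x : List Bool | x.length ≤ t}) ∈ g := by
    intro g x hx
    unfold ofL
    rw [decide_eq_true_iff]
    simp only [L, Finset.mem_toList, Finset.mem_image, Finset.mem_filter, Finset.mem_univ,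
      true_and]
    constructor
    · rintro ⟨y, hy, rfl⟩
      exact hy
    · intro h
      exact ⟨_, h, rfl⟩
  let G : Finset (Set {x : List Bool | x.length ≤ t}) :=
    Finset.univ.filter (fun g => ofL (L g) ∈ T)
  have hdec : T = ⋃ g ∈ G, cyl t (L g) := by
    ext A
    simp only [Set.mem_iUnion, exists_prop]
    constructor
    · intro hA
      have hc : A ∈ cyl t (L {x | A x.1 = true}) := by
        intro x hx
        exact Bool.eq_iff_iff.2 (hL {x | A x.1 = true} x hx).symm
      refine ⟨{x | A x.1 = true}, ?_, hc⟩
      simp only [G, Finset.mem_filter, Finset.mem_univ, true_and]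
      exact (hT A _ fun x hx => hc x hx).1 hA
    · rintro ⟨g, hg, hA⟩
      simp only [G, Finset.mem_filter, Finset.mem_univ, true_and] at hg
      exact (hT A _ fun x hx => hA x hx).2 hg
  have hdisj : ∀ g g' : Set {x : List Bool | x.length ≤ t}, g ≠ g' →
      Disjoint (cyl t (L g)) (cyl t (L g')) := by
    intro g g' hne
    rw [Set.disjoint_left]
    intro A hA hA'
    apply hne
    ext ⟨x, hx⟩
    rw [← hL g x hx, ← hL g' x hx, ← hA x hx, ← hA' x hx]
  have hsum : prob T = ∑ g ∈ G, prob (cyl t (L g)) := by
    conv_lhs => rw [hdec]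
    unfold prob
    rw [measureReal_biUnion_finset]
    · intro g _ g' _ hne
      exact hdisj g g' hne
    · intro g _
      exact measurableSet_cyl _ _
  have hsum' : prob (S ∩ T) = ∑ g ∈ G, prob (S ∩ cyl t (L g)) := by
    have : S ∩ T = ⋃ g ∈ G, (S ∩ cyl t (L g)) := by
      conv_lhs => rw [hdec]
      rw [Set.inter_iUnion₂]
    rw [this]
    unfold prob
    rw [measureReal_biUnion_finset]
    · intro g _ g' _ hne
      exact (hdisj g g' hne).mono Set.inter_subset_right Set.inter_subset_right
    · intro g _
      exact hS.inter (measurableSet_cyl _ _)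
  have hle : prob (S ∩ T) ≤ (1 - δ) * prob T := by
    rw [hsum, hsum', Finset.mul_sum]
    exact Finset.sum_le_sum fun g _ => hall _
  have h1 : prob T = prob (T ∩ S) + prob (T \ S) := by
    unfold prob
    rw [measureReal_inter_add_sdiff hS]
  have h2 : prob S = prob (S ∩ T) + prob (S \ T) := by
    unfold prob
    rw [measureReal_inter_add_sdiff hTm]
  have h3 : prob (T \ S) ≤ prob (symmDiff T S) := measureReal_mono (by
    intro x hx; exact Or.inl hx)
  have h4 : prob (S \ T) ≤ prob (symmDiff T S) := measureReal_mono (by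
    intro x hx; exact Or.inr hx)
  rw [Set.inter_comm] at h1
  have h5 : δ * prob T ≤ prob (T \ S) := by nlinarith
  have h6 : prob S - ε < prob T := by
    have : prob (S ∩ T) ≤ prob T := measureReal_mono Set.inter_subset_right
    linarith
  have h7 : δ * (prob S - ε) < δ * prob T := mul_lt_mul_of_pos_left h6 hδ
  have h8 : 0 < δ * prob S := mul_pos hδ h0
  nlinarith

end Pool.Agent.H628R3.RO
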