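import Pool.Agent.H628R3.RO.A3
import Pool.Agent.H628R3.RO.D1
import Pool.Agent.H628R3.RO.E1

/-!
Task G1: the languages of the one-sided theorems are in `coNP` and `NP` relative to the oracle.
-/

namespace Pool.Agent.H628R3.RO

open Pool.Agent.NPC

/-- a language with witnesses checked by nonadaptive questions to the oracle is in `NP` -/
theorem isNP_of_tt (A : Oracle) (L : Set (List Bool))
    {Q : List Bool × List Bool → List (List Bool)}
    {T : (List Bool × List Bool) × List Bool → Bool} (hQ : Poly Q) (hT : Poly T)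
    (p : Polynomial ℕ)
    (h : ∀ x, x ∈ L ↔ ∃ w : List Bool, w.length ≤ p.eval x.length ∧
      T ((x, w), (Q (x, w)).map A) = true) : IsNP A L := by
  have h1 : IsFP A (fun y => (fun z : List Bool × List Bool => [T (unpair z.1, z.2)])
      (y, ((fun y => Q (unpair y)) y).map A)) := by
    refine IsFP.tt (Q := fun y => Q (unpair y)) (H := fun z => [T (unpair z.1, z.2)])
      (hQ.comp poly_unpair) ?_
    exact Poly.cons (hT.comp (Poly.pair (poly_unpair.comp (Poly.fst Poly.id))
      (Poly.snd Poly.id))) (NPC.Poly.const [])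
  refine ⟨_, p, h1, fun x => ?_⟩
  rw [h x]
  refine exists_congr fun w => and_congr_right fun _ => ?_
  simp only [unpair_pairBits, List.cons.injEq, and_true]

theorem foldr_takeWhile (l : List Bool) :
    l.foldr (fun b acc => if b = true then b :: acc else []) [] = l.takeWhile id := by
  induction l with
  | nil => rfl
  | cons b l ih =>
    rw [List.foldr_cons, ih, List.takeWhile_cons]
    cases b <;> rfl

theorem sz_takeWhile_le (l : List Bool) : sz (l.takeWhile id) ≤ sz l :=
  sz_le_of_sublist (List.takeWhile_sublist _)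

theorem p_takeWhile {α : Type} [TEnc α] {v : α → List Bool} (hv : Poly v) :
    Poly (fun a => (v a).takeWhile id) := by
  obtain ⟨r, hr⟩ := hv.sz_le
  refine (Poly.foldr (l := v) (s := fun _ => ([] : List Bool))
    (F := fun (_ : α) (b : Bool) (acc : List Bool) => if b = true then b :: acc else [])
    hv (NPC.Poly.const _) ?_ r ?_).congr fun a => foldr_takeWhile _
  · exact Poly.ite (p := fun p : α × Bool × List Bool => p.2.1 = true)
      (Poly.decide_eq (Poly.fst (Poly.snd Poly.id)) (NPC.Poly.const true))
      (Poly.cons (Poly.fst (Poly.snd Poly.id)) (Poly.snd (Poly.snd Poly.id)))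
      (NPC.Poly.const [])
  · intro a k _
    rw [foldr_takeWhile]
    exact (sz_takeWhile_le _).trans ((Poly.sz_drop_le _ _).trans (hr a))

theorem u_lvl {α : Type} [TEnc α] {v : α → List Bool} (hv : Poly v) :
    UPoly (fun a => lvl (v a)) := UPoly.length (p_takeWhile hv)

theorem lvl_le_length (x : List Bool) : lvl x ≤ x.length :=
  (List.takeWhile_sublist _).length_le

theorem u_siz {α : Type} [TEnc α] {v : α → List Bool} (hv : Poly v) :
    UPoly (fun a => siz (v a)) := by
  refine UPoly.of_le (Poly.sub (Poly.sub (Poly.length hv) (u_lvl hv).toPoly)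
    (NPC.Poly.const 1)) (UPoly.length hv) fun a => ?_
  exact (Nat.sub_le _ _).trans (Nat.sub_le _ _)

theorem p_lvl {α : Type} [TEnc α] {x : α → List Bool} (hx : Poly x) :
    UPoly (fun a => lvl (x a)) := u_lvl hx

theorem p_siz {α : Type} [TEnc α] {x : α → List Bool} (hx : Poly x) :
    UPoly (fun a => siz (x a)) := u_siz hx

theorem tail_iterate (l : List Bool) (k : ℕ) : List.tail^[k] l = l.drop k := by
  induction k with
  | zero => rfl
  | succ k ih => rw [Function.iterate_succ_apply', ih, List.tail_drop]

theorem p_drop {α : Type} [TEnc α] {v : α → List Bool} {n : α → ℕ} (hv : Poly v)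
    (hn : UPoly n) : Poly (fun a => (v a).drop (n a)) := by
  obtain ⟨r, hr⟩ := hv.sz_le
  refine (Poly.iterLen (l := fun a => List.replicate (n a) ()) (s := v)
    (F := fun (_ : α) (s : List Bool) => s.tail) hn hv (Poly.tail (Poly.snd Poly.id)) r
    ?_).congr fun a => ?_
  · intro a k _
    have e : (fun s : List Bool => s.tail)^[k] (v a) = (v a).drop k := tail_iterate _ _
    rw [e]
    exact (Poly.sz_drop_le _ _).trans (hr a)
  · rw [List.length_replicate]
    exact tail_iterate _ _

/-- the questions about the candidate `(c, w)` -/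
def asks (m c : ℕ) (w : List Bool) : List (List Bool) := (List.range m).map (fun i => pos c i w)

theorem p_asks {α : Type} [TEnc α] {m c : α → ℕ} {w : α → List Bool} (hm : UPoly m)
    (hc : UPoly c) (hw : Poly w) : Poly (fun a => asks (m a) (c a) (w a)) := by
  have h1 : Poly (fun p : α × ℕ => p.1) := Poly.fst Poly.id
  have h2 : Poly (fun p : α × ℕ => p.2) := Poly.snd Poly.id
  refine (NPC.Poly.map (F := fun (a : α) (i : ℕ) => pos (c a) (min i (m a)) (w a)) hm.range
    (p_pos (hc.comp h1) ?_ (hw.comp h1))).congr fun a => ?_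
  · exact UPoly.of_le (Poly.min h2 (hm.toPoly.comp h1)) (hm.comp h1)
      fun a => min_le_right _ _
  · rw [asks]
    apply List.map_congr_left
    intro i hi
    rw [List.mem_range] at hi
    rw [min_eq_left hi.le]

theorem asks_all (A : Oracle) (m c : ℕ) (w : List Bool) :
    ((asks m c w).map A).all id = true ↔ Hit m (c, w) A := by
  rw [List.all_eq_true]
  constructor
  · intro h i hi
    exact h _ (List.mem_map.2 ⟨_, List.mem_map.2 ⟨i, List.mem_range.2 hi, rfl⟩, rfl⟩)
  · intro h b hb
    obtain ⟨y, hy, rfl⟩ := List.mem_map.1 hb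
    obtain ⟨i, hi, rfl⟩ := List.mem_map.1 hy
    exact h i (List.mem_range.1 hi)

theorem not_mem_noHit {A : Oracle} {m : ℕ} {W : Finset Cand} :
    A ∉ NoHit m W ↔ ∃ κ ∈ W, Hit m κ A := by
  simp only [NoHit, Set.mem_ofPred_eq]
  push Not
  rfl

theorem p_all_id {α : Type} [TEnc α] {v : α → List Bool} (hv : Poly v) :
    Poly (fun a => (v a).all id) :=
  Poly.all (p := fun (_ : α) (b : Bool) => id b) hv (Poly.snd Poly.id)

theorem siz_add_lvl (x : List Bool) : siz x + lvl x ≤ x.length := by
  have h := lvl_le_length x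
  unfold siz
  omega

theorem lvl_nil : lvl [] = 0 := rfl

theorem siz_nil : siz [] = 0 := rfl

theorem isCoNP_LT (A : Oracle) : IsCoNP A {x | x = [] ∨ A ∉ BadT (siz x) (lvl x)} := by
  refine isNP_of_tt A _
    (Q := fun p => asks (siz p.1 + lvl p.1) 0 p.2)
    (T := fun p => !(decide (p.1.1 = [])) &&
      (decide (p.1.2.length = siz p.1.1) && p.2.all id)) ?_ ?_ Polynomial.X fun x => ?_
  · exact p_asks (UPoly.add (u_siz (Poly.fst Poly.id)) (u_lvl (Poly.fst Poly.id)))
      (UPoly.const 0) (Poly.snd Poly.id)
  · have h1 : Poly (fun p : (List Bool × List Bool) × List Bool => p.1.1) :=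
      Poly.fst (Poly.fst Poly.id)
    have h2 : Poly (fun p : (List Bool × List Bool) × List Bool => p.1.2) :=
      Poly.snd (Poly.fst Poly.id)
    exact Poly.and (Poly.not (Poly.decide_eq h1 (NPC.Poly.const [])))
      (Poly.and (Poly.decide_eq (Poly.length h2) (u_siz h1).toPoly) (p_all_id (Poly.snd Poly.id)))
  · simp only [Set.mem_compl_iff, Set.mem_ofPred_eq, not_or, not_not, Bool.and_eq_true,
      Bool.not_eq_true', decide_eq_false_iff_not, decide_eq_true_eq, asks_all,
      Polynomial.eval_X]
    constructor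
    · rintro ⟨hx, hA⟩
      unfold BadT blkT at hA
      rw [Set.mem_compl_iff, not_mem_noHit] at hA
      obtain ⟨κ, hκ, hh⟩ := hA
      rw [mem_cands, Finset.mem_singleton] at hκ
      obtain ⟨c, w⟩ := κ
      obtain ⟨rfl, hw⟩ := hκ
      have := siz_add_lvl x
      refine ⟨w, ?_, hx, hw, hh⟩
      simp only at hw
      omega
    · rintro ⟨w, -, hx, hw, hh⟩
      refine ⟨hx, ?_⟩
      unfold BadT blkT
      rw [Set.mem_compl_iff, not_mem_noHit]
      exact ⟨(0, w), mem_cands.2 ⟨Finset.mem_singleton_self _, hw⟩, hh⟩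

theorem lvl_candStr (c : ℕ) (w : List Bool) : lvl (candStr c w) = c := by
  unfold lvl candStr
  rw [takeWhile_repl, List.length_replicate]

theorem drop_candStr (c : ℕ) (w : List Bool) : (candStr c w).drop (c + 1) = w := by
  unfold candStr
  rw [List.drop_append, List.length_replicate, List.drop_replicate]
  simp

theorem length_candStr (c : ℕ) (w : List Bool) : (candStr c w).length = c + 1 + w.length := by
  unfold candStr
  simp only [List.length_append, List.length_replicate, List.length_cons]
  omega

theorem isNP_LS (A : Oracle) : IsNP A {x | x = [] ∨ A ∉ BadS (siz x) (lvl x)} := by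
  refine isNP_of_tt A _
    (Q := fun p => asks (siz p.1) (lvl p.2) (p.2.drop (lvl p.2 + 1)))
    (T := fun p => decide (p.1.1 = []) || (decide (lvl p.1.2 < lvl p.1.1) &&
      (decide ((p.1.2.drop (lvl p.1.2 + 1)).length = siz p.1.1) && p.2.all id)))
    ?_ ?_ (Polynomial.X + Polynomial.C 1) fun x => ?_
  · have h2 : Poly (fun p : List Bool × List Bool => p.2) := Poly.snd Poly.id
    exact p_asks (u_siz (Poly.fst Poly.id)) (u_lvl h2)
      (p_drop h2 (UPoly.add (u_lvl h2) (UPoly.const 1)))
  · have h1 : Poly (fun p : (List Bool × List Bool) × List Bool => p.1.1) :=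
      Poly.fst (Poly.fst Poly.id)
    have h2 : Poly (fun p : (List Bool × List Bool) × List Bool => p.1.2) :=
      Poly.snd (Poly.fst Poly.id)
    exact Poly.or (Poly.decide_eq h1 (NPC.Poly.const []))
      (Poly.and (Poly.decide_lt (u_lvl h2).toPoly (u_lvl h1).toPoly)
        (Poly.and (Poly.decide_eq (Poly.length (p_drop h2 (UPoly.add (u_lvl h2)
          (UPoly.const 1)))) (u_siz h1).toPoly) (p_all_id (Poly.snd Poly.id))))
  · simp only [Set.mem_ofPred_eq, Bool.and_eq_true, Bool.or_eq_true,
      decide_eq_true_eq, asks_all]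
    constructor
    · rintro (hx | hA)
      · exact ⟨[], by simp, Or.inl hx⟩
      · unfold BadS blkS at hA
        rw [not_mem_noHit] at hA
        obtain ⟨κ, hκ, hh⟩ := hA
        rw [mem_cands, Finset.mem_range] at hκ
        obtain ⟨c, w⟩ := κ
        obtain ⟨hc, hw⟩ := hκ
        simp only at hc hw
        have := siz_add_lvl x
        refine ⟨candStr c w, ?_, Or.inr ?_⟩
        · rw [length_candStr]
          simp only [Polynomial.eval_add, Polynomial.eval_X, Polynomial.eval_C]
          omega
        · rw [lvl_candStr, drop_candStr]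
          exact ⟨hc, hw, hh⟩
    · rintro ⟨v, -, hx | ⟨hc, hw, hh⟩⟩
      · exact Or.inl hx
      · right
        unfold BadS blkS
        rw [not_mem_noHit]
        exact ⟨(lvl v, v.drop (lvl v + 1)), mem_cands.2 ⟨Finset.mem_range.2 hc, hw⟩, hh⟩

end Pool.Agent.H628R3.RO
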