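import Pool.Agent.H628R3.RO.M1
import Pool.Agent.H628R3.RO.M3
import Pool.Agent.H628R3.RO.Lev

/-!
# Random oracles: the abstract core (trust budget)
-/

namespace Pool.Agent.H628R3.RO

open MeasureTheory Filter

namespace C1

theorem pr_nonneg (S : Set Oracle) : 0 ≤ prob S := measureReal_nonneg

theorem pr_mono {S S' : Set Oracle} (h : S ⊆ S') : prob S ≤ prob S' := measureReal_mono h

theorem pr_union_le (S S' : Set Oracle) : prob (S ∪ S') ≤ prob S + prob S' :=
  measureReal_union_le _ _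

theorem pr_disj {S S' : Set Oracle} (h : Disjoint S S') (hS' : MeasurableSet S') :
    prob (S ∪ S') = prob S + prob S' := measureReal_union h hS'

theorem pr_biUnion_le {ι : Type*} (h : Finset ι) (f : ι → Set Oracle) :
    prob (⋃ κ ∈ h, f κ) ≤ ∑ κ ∈ h, prob (f κ) := measureReal_biUnion_finset_le _ _

theorem pr_biUnion {ι : Type*} (h : Finset ι) (f : ι → Set Oracle)
    (hd : (h : Set ι).PairwiseDisjoint f) (hf : ∀ i ∈ h, MeasurableSet (f i)) :
    prob (⋃ κ ∈ h, f κ) = ∑ κ ∈ h, prob (f κ) := measureReal_biUnion_finset hd hf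

/-- the budget inequality -/
theorem budget {ι : Type*} [DecidableEq ι] (F : Finset ι) {τ : Set Oracle} (hτ : MeasurableSet τ)
    (B E : ι → Set Oracle) (hB : ∀ i, MeasurableSet (B i)) (hE : ∀ i, MeasurableSet (E i))
    (e : ι → ℝ) (he : ∀ i, 0 ≤ e i) {δ : ℝ} (hp : 0 < prob τ)
    (h2 : ∀ i ∈ F, ∀ l ∈ F, i ≠ l → prob (τ ∩ (B i ∩ B l)) = prob τ * (e i * e l))
    (h3 : ∀ i ∈ F, prob τ * e i ≤ 4 * prob (τ ∩ (B i ∩ E i)))
    (h4 : prob (τ ∩ ⋃ i ∈ F, (B i ∩ E i)) ≤ δ * prob τ) :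
    (∑ i ∈ F, e i) * (1 / 4 - ∑ i ∈ F, e i) ≤ δ := by
  set s := ∑ i ∈ F, e i with hs
  set D : ι → Set Oracle := fun i => (τ ∩ (B i ∩ E i)) \ ⋃ l ∈ F.erase i, B l with hD
  have hUm : ∀ i, MeasurableSet (⋃ l ∈ F.erase i, B l) := fun i =>
    Finset.measurableSet_biUnion _ fun l _ => hB l
  have hDm : ∀ i, MeasurableSet (D i) := fun i =>
    (hτ.inter ((hB i).inter (hE i))).diff (hUm i)
  have hdis : (F : Set ι).PairwiseDisjoint D := by
    intro i hi l hl hne
    rw [Function.onFun, Set.disjoint_left]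
    rintro A ⟨⟨_, h5, _⟩, _⟩ ⟨_, h6⟩
    apply h6
    simp only [Set.mem_iUnion]
    exact ⟨i, Finset.mem_erase.2 ⟨hne, hi⟩, h5⟩
  have hsum : ∑ i ∈ F, prob (D i) ≤ δ * prob τ := by
    rw [← pr_biUnion F D hdis fun i _ => hDm i]
    refine le_trans (pr_mono ?_) h4
    intro A hA
    simp only [Set.mem_iUnion] at hA
    obtain ⟨i, hi, ⟨h5, h6⟩, _⟩ := hA
    refine ⟨h5, ?_⟩
    simp only [Set.mem_iUnion]
    exact ⟨i, hi, h6⟩
  have hone : ∀ i ∈ F, prob τ * (e i * (1 / 4 - s)) ≤ prob (D i) := by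
    intro i hi
    have h5 : prob (τ ∩ (B i ∩ E i)) ≤ prob (D i) + ∑ l ∈ F.erase i, prob (τ ∩ (B i ∩ B l)) := by
      have h6 : τ ∩ (B i ∩ E i) ⊆ D i ∪ ⋃ l ∈ F.erase i, τ ∩ (B i ∩ B l) := by
        intro A hA
        by_cases h7 : A ∈ ⋃ l ∈ F.erase i, B l
        · right
          simp only [Set.mem_iUnion] at h7 ⊢
          obtain ⟨l, hl, h8⟩ := h7
          exact ⟨l, hl, hA.1, hA.2.1, h8⟩
        · left
          exact ⟨hA, h7⟩
      calc prob (τ ∩ (B i ∩ E i)) ≤ prob (D i ∪ ⋃ l ∈ F.erase i, τ ∩ (B i ∩ B l)) := pr_mono h6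
        _ ≤ prob (D i) + prob (⋃ l ∈ F.erase i, τ ∩ (B i ∩ B l)) := pr_union_le _ _
        _ ≤ _ := by
          have := pr_biUnion_le (F.erase i) (fun l => τ ∩ (B i ∩ B l))
          linarith
    have h6 : ∑ l ∈ F.erase i, prob (τ ∩ (B i ∩ B l)) = prob τ * (e i * ∑ l ∈ F.erase i, e l) := by
      rw [Finset.mul_sum, Finset.mul_sum]
      refine Finset.sum_congr rfl fun l hl => ?_
      rw [Finset.mem_erase] at hl
      exact h2 i hi l hl.2 (Ne.symm hl.1)
    have h7 : ∑ l ∈ F.erase i, e l ≤ s := by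
      rw [hs, ← Finset.add_sum_erase F e hi]
      have := he i
      linarith
    have h8 := h3 i hi
    have h9 : prob τ * (e i * ∑ l ∈ F.erase i, e l) ≤ prob τ * (e i * s) := by
      have := he i
      gcongr
    nlinarith
  have h10 : prob τ * (s * (1 / 4 - s)) ≤ δ * prob τ := by
    calc prob τ * (s * (1 / 4 - s)) = ∑ i ∈ F, prob τ * (e i * (1 / 4 - s)) := by
          rw [← Finset.mul_sum, ← Finset.sum_mul]
      _ ≤ ∑ i ∈ F, prob (D i) := Finset.sum_le_sum hone
      _ ≤ δ * prob τ := hsum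
  have h11 : s * (1 / 4 - s) * prob τ ≤ δ * prob τ := by linarith
  exact le_of_mul_le_mul_right h11 hp

theorem dir_bound {ι : Type*} [Countable ι] (U : ι → Set Oracle) (hd : Directed (· ⊆ ·) U)
    {c : ℝ} (hc : 0 ≤ c) (h : ∀ x, prob (U x) ≤ c) : prob (⋃ x, U x) ≤ c := by
  have h1 : randomOracle (⋃ x, U x) ≤ ENNReal.ofReal c := by
    rw [hd.measure_iUnion]
    apply iSup_le
    intro x
    rw [← ofReal_measureReal]
    exact ENNReal.ofReal_le_ofReal (h x)
  unfold prob Measure.real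
  exact ENNReal.toReal_le_of_le_ofReal hc h1

theorem borel_cantelli (B : ℕ → Set Oracle) {C : ℝ}
    (h : ∀ n, ∑ i ∈ Finset.range n, prob (B i) ≤ C) :
    randomOracle {A | ∃ᶠ i in atTop, A ∈ B i} = 0 := by
  apply measure_setOfPred_frequently_eq_zero
  have h1 : ∑' i, randomOracle {A | A ∈ B i} ≤ ENNReal.ofReal C := by
    rw [ENNReal.tsum_eq_iSup_nat]
    apply iSup_le
    intro n
    have h2 : ∑ i ∈ Finset.range n, randomOracle {A | A ∈ B i} =
        ENNReal.ofReal (∑ i ∈ Finset.range n, prob (B i)) := by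
      rw [ENNReal.ofReal_sum_of_nonneg fun i _ => pr_nonneg _]
      refine Finset.sum_congr rfl fun i _ => ?_
      unfold prob
      rw [ofReal_measureReal]
      rfl
    rw [h2]
    exact ENNReal.ofReal_le_ofReal (h n)
  exact ne_top_of_le_ne_top ENNReal.ofReal_ne_top h1

theorem finite_len (t : ℕ) : {x : List Bool | x.length ≤ t}.Finite := List.finite_length_le Bool t

theorem loc_cyl (t : ℕ) (L : List (List Bool)) :
    Loc {x | x.length ≤ t} (cyl t L) := by
  intro A A' h
  unfold cyl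
  constructor
  · intro hA x hx
    rw [← h x hx]
    exact hA x hx
  · intro hA x hx
    rw [h x hx]
    exact hA x hx

section

variable {Bad Err : ℕ → ℕ → Set Oracle} {t : ℕ} {L : List (List Bool)} {T : ℕ → ℕ}

theorem lev_succ (i : ℕ) : lev Bad Err t L T (i + 1) =
    lev Bad Err t L T i + (chk Bad Err t L (T i) (lev Bad Err t L T i)).toNat := rfl

theorem lev_ge (i : ℕ) : 4 ≤ lev Bad Err t L T i := by
  induction i with
  | zero => exact le_rfl
  | succ i ih => rw [lev_succ]; omega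

theorem lev_le (i : ℕ) : lev Bad Err t L T i ≤ 4 + i := by
  induction i with
  | zero => exact le_rfl
  | succ i ih =>
    rw [lev_succ]
    have := Bool.toNat_le (chk Bad Err t L (T i) (lev Bad Err t L T i))
    omega

theorem T_ge (hT : StrictMono T) (hT0 : t + 4 ≤ T 0) (i : ℕ) : t + 4 + i ≤ T i := by
  induction i with
  | zero => simpa using hT0
  | succ i ih =>
    have := hT (Nat.lt_succ_self i)
    rw [Nat.succ_eq_add_one] at this
    omega

theorem chk_true {n j : ℕ} (h : chk Bad Err t L n j = true) :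
    4 * prob (cyl t L ∩ (Bad n j ∩ Err n j)) < prob (cyl t L ∩ Bad n j) := by
  unfold chk at h
  exact of_decide_eq_true h

theorem chk_false {n j : ℕ} (h : chk Bad Err t L n j = false) :
    prob (cyl t L ∩ Bad n j) ≤ 4 * prob (cyl t L ∩ (Bad n j ∩ Err n j)) := by
  unfold chk at h
  exact not_lt.1 (of_decide_eq_false h)

/-- the sum over the successful stages -/
theorem sum_succ (h1 : ∀ n j, prob (Bad n j) ≤ (1 / 2) ^ j) (n : ℕ) :
    ∑ i ∈ Finset.range n, (if chk Bad Err t L (T i) (lev Bad Err t L T i) = true then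
      prob (Bad (T i) (lev Bad Err t L T i)) else 0) ≤
      1 / 8 - 2 * (1 / 2) ^ (lev Bad Err t L T n) := by
  induction n with
  | zero => norm_num [lev]
  | succ n ih =>
    rw [Finset.sum_range_succ, lev_succ]
    split_ifs with h
    · rw [h]
      have h2 := h1 (T n) (lev Bad Err t L T n)
      have e : (true).toNat = 1 := rfl
      rw [e, pow_succ]
      linarith
    · rw [Bool.not_eq_true] at h
      rw [h]
      have e : (false).toNat = 0 := rfl
      rw [e, add_zero, add_zero]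
      exact ih

end

/-- the core for one cylinder -/
theorem core_cyl {R : Type} [Countable R] (Bad Err : ℕ → ℕ → Set Oracle)
    (Good : R → ℕ → ℕ → Set Oracle) (K : ℕ → ℕ → Finset (List Bool))
    (hK : ∀ n j, ∀ x ∈ K n j, n < x.length)
    (hKd : ∀ n n' j j', n ≠ n' → Disjoint (K n j) (K n' j'))
    (hBad : ∀ n j, Loc (K n j) (Bad n j)) (hErr : ∀ n j, MeasurableSet (Err n j))
    (h1 : ∀ n j, prob (Bad n j) ≤ (1 / 2) ^ j)
    (h2 : ∀ j, ∃ c > 0, ∀ n ≥ 1, c ≤ prob (Bad n j)) (t : ℕ) (L : List (List Bool))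
    (key : ∀ R' : Finset R, ∃ n0, ∀ n ≥ n0, ∀ j, 4 ≤ j → j ≤ n → t < n →
      4 * prob (cyl t L ∩ (Bad n j ∩ Err n j)) < prob (cyl t L ∩ Bad n j) →
      prob (cyl t L ∩ {A | ∃ r ∈ R', A ∈ Good r n j}) ≤ (1 / 2) * prob (cyl t L))
    (T : ℕ → ℕ) (hT : StrictMono T) (hT0 : t + 4 ≤ T 0) (B : Set Oracle)
    (hBV : ∀ A ∈ B, ∀ n j, A ∉ Bad n j ∩ Err n j)
    (hBQ : ∀ A ∈ B, (∀ k, ∃ i ≥ k, A ∈ Bad (T i) (lev Bad Err t L T i)) ∨
      ∃ r k, ∀ i ≥ k, A ∈ Good r (T i) (lev Bad Err t L T i))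
    (hp : 0 < prob (cyl t L))
    (hd : (1 - 1 / 200) * prob (cyl t L) ≤ prob (B ∩ cyl t L)) : False := by
  classical
  set τ := cyl t L with hτd
  set lv := lev Bad Err t L T with hlv
  set Bi : ℕ → Set Oracle := fun i => Bad (T i) (lv i) with hBi
  set Ei : ℕ → Set Oracle := fun i => Err (T i) (lv i) with hEi
  have hTge := T_ge hT hT0
  have hBm : ∀ n j, MeasurableSet (Bad n j) := fun n j =>
    measurableSet_of_loc (K n j).finite_toSet (hBad n j)
  have hBim : ∀ i, MeasurableSet (Bi i) := fun i => hBm _ _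
  have hEim : ∀ i, MeasurableSet (Ei i) := fun i => hErr _ _
  have hτm : MeasurableSet τ := measurableSet_of_loc (finite_len t) (loc_cyl t L)
  have hdj : ∀ n j, t ≤ n → Disjoint {x : List Bool | x.length ≤ t} (K n j : Set (List Bool)) := by
    intro n j hn
    rw [Set.disjoint_left]
    intro x hx hx'
    have := hK n j x hx'
    have h5 : x.length ≤ t := hx
    omega
  -- independence
  have ind1 : ∀ i, prob (τ ∩ Bi i) = prob τ * prob (Bi i) := fun i =>
    prob_inter_of_disjoint (finite_len t) (K (T i) (lv i)).finite_toSet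
      (hdj _ _ (by have := hTge i; omega)) (loc_cyl t L) (hBad _ _)
  have ind2 : ∀ i l, i ≠ l → prob (τ ∩ (Bi i ∩ Bi l)) = prob τ * (prob (Bi i) * prob (Bi l)) := by
    intro i l hil
    have hTil : T i ≠ T l := fun h => hil (hT.injective h)
    have h5 : prob (Bi i ∩ Bi l) = prob (Bi i) * prob (Bi l) :=
      prob_inter_of_disjoint (K (T i) (lv i)).finite_toSet (K (T l) (lv l)).finite_toSet
        (by exact_mod_cast hKd _ _ _ _ hTil) (hBad _ _) (hBad _ _)
    have h6 : prob (τ ∩ (Bi i ∩ Bi l)) = prob τ * prob (Bi i ∩ Bi l) := by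
      apply prob_inter_of_disjoint (K := {x : List Bool | x.length ≤ t})
        (K' := (K (T i) (lv i) : Set (List Bool)) ∪ (K (T l) (lv l) : Set (List Bool)))
        (finite_len t) ((K (T i) (lv i)).finite_toSet.union (K (T l) (lv l)).finite_toSet)
      · rw [Set.disjoint_union_right]
        exact ⟨hdj _ _ (by have := hTge i; omega), hdj _ _ (by have := hTge l; omega)⟩
      · exact loc_cyl t L
      · intro A A' h
        exact and_congr (hBad _ _ A A' fun x hx => h x (Or.inl hx))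
          (hBad _ _ A A' fun x hx => h x (Or.inr hx))
    rw [h6, h5]
  -- the budget
  have hbud : ∀ F : Finset ℕ, (∀ i ∈ F, chk Bad Err t L (T i) (lv i) = false) →
      (∑ i ∈ F, prob (Bi i)) * (1 / 4 - ∑ i ∈ F, prob (Bi i)) ≤ 1 / 200 := by
    intro F hF
    apply budget F hτm Bi Ei hBim hEim (fun i => prob (Bi i)) (fun i => pr_nonneg _) hp
    · intro i _ l _ hil
      exact ind2 i l hil
    · intro i hi
      rw [← ind1]
      exact chk_false (hF i hi)
    · have h5 : prob ((B ∩ τ) ∪ (τ ∩ ⋃ i ∈ F, (Bi i ∩ Ei i))) ≤ prob τ := by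
        apply pr_mono
        rintro A (hA | hA)
        · exact hA.2
        · exact hA.1
      have h6 : Disjoint (B ∩ τ) (τ ∩ ⋃ i ∈ F, (Bi i ∩ Ei i)) := by
        rw [Set.disjoint_left]
        rintro A ⟨hA, _⟩ ⟨_, hA'⟩
        simp only [Set.mem_iUnion] at hA'
        obtain ⟨i, _, hi⟩ := hA'
        exact hBV A hA _ _ hi
      have h7 : MeasurableSet (τ ∩ ⋃ i ∈ F, (Bi i ∩ Ei i)) :=
        hτm.inter (Finset.measurableSet_biUnion _ fun i _ => (hBim i).inter (hEim i))
      rw [pr_disj h6 h7] at h5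
      linarith
  have heps : ∀ i, prob (Bi i) ≤ 1 / 16 := by
    intro i
    calc prob (Bi i) ≤ (1 / 2) ^ (lv i) := h1 _ _
      _ ≤ (1 / 2) ^ 4 := pow_le_pow_of_le_one (by norm_num) (by norm_num) (lev_ge i)
      _ = 1 / 16 := by norm_num
  have hsmall : ∀ F : Finset ℕ, (∀ i ∈ F, chk Bad Err t L (T i) (lv i) = false) →
      ∑ i ∈ F, prob (Bi i) < 1 / 16 := by
    intro F
    induction F using Finset.induction_on with
    | empty => intro _; norm_num
    | insert a F ha ih =>
      intro hF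
      have h5 := ih fun i hi => hF i (Finset.mem_insert_of_mem hi)
      have h6 := hbud (insert a F) hF
      have h7 : ∑ i ∈ insert a F, prob (Bi i) ≤ 1 / 8 := by
        rw [Finset.sum_insert ha]
        have := heps a
        linarith
      by_contra hcon
      push Not at hcon
      nlinarith
  -- infinitely many successes
  have hinf : ∀ k, ∃ i ≥ k, chk Bad Err t L (T i) (lv i) = true := by
    by_contra hcon
    push Not at hcon
    obtain ⟨k, hk⟩ := hcon
    have hk' : ∀ i ≥ k, chk Bad Err t L (T i) (lv i) = false := fun i hi => by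
      have := hk i hi
      simpa using this
    have hconst : ∀ d, lv (k + d) = lv k := by
      intro d
      induction d with
      | zero => rfl
      | succ d ih =>
        have e : lv (k + (d + 1)) =
            lv (k + d) + (chk Bad Err t L (T (k + d)) (lv (k + d))).toNat := rfl
        rw [e, hk' (k + d) (by omega), ih]
        rfl
    obtain ⟨c, hc, hcb⟩ := h2 (lv k)
    obtain ⟨N, hN⟩ := exists_nat_gt (1 / 16 / c)
    have h5 := hsmall ((Finset.range N).image (fun d => k + d)) (by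
      intro i hi
      obtain ⟨d, _, rfl⟩ := Finset.mem_image.1 hi
      exact hk' _ (by omega))
    rw [Finset.sum_image (fun a _ b _ h => by simpa using h)] at h5
    have h6 : ∑ d ∈ Finset.range N, c ≤ ∑ d ∈ Finset.range N, prob (Bi (k + d)) := by
      apply Finset.sum_le_sum
      intro d _
      have h7 : Bi (k + d) = Bad (T (k + d)) (lv k) := by
        simp only [hBi]
        rw [hconst d]
      rw [h7]
      exact hcb _ (by have := hTge (k + d); omega)
    rw [Finset.sum_const, Finset.card_range, nsmul_eq_mul] at h6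
    rw [div_lt_iff₀ hc] at hN
    linarith
  -- summability
  have hsum : ∀ n, ∑ i ∈ Finset.range n, prob (Bi i) ≤ 1 := by
    intro n
    have h5 := sum_succ (Bad := Bad) (Err := Err) (t := t) (L := L) (T := T) h1 n
    have h6 := hsmall ((Finset.range n).filter
      (fun i => ¬ chk Bad Err t L (T i) (lv i) = true)) (by
        intro i hi
        have := (Finset.mem_filter.1 hi).2
        simpa using this)
    have h7 : ∑ i ∈ Finset.range n, prob (Bi i) =
        ∑ i ∈ Finset.range n, (if chk Bad Err t L (T i) (lv i) = true then prob (Bi i) else 0) +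
        ∑ i ∈ (Finset.range n).filter (fun i => ¬ chk Bad Err t L (T i) (lv i) = true),
          prob (Bi i) := by
      rw [← Finset.sum_filter, Finset.sum_filter_add_sum_filter_not]
    rw [h7]
    have h8 : (0 : ℝ) ≤ 2 * (1 / 2) ^ (lev Bad Err t L T n) := by positivity
    linarith
  have hBC := borel_cantelli Bi hsum
  -- the good events
  set U : Finset R × ℕ → Set Oracle := fun x =>
    τ ∩ {A | ∃ r ∈ x.1, ∀ i ≥ x.2, A ∈ Good r (T i) (lv i)} with hU
  have hdir : Directed (· ⊆ ·) U := by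
    intro x y
    refine ⟨(x.1 ∪ y.1, max x.2 y.2), ?_, ?_⟩
    · rintro A ⟨hA, r, hr, hr'⟩
      exact ⟨hA, r, Finset.mem_union_left _ hr, fun i hi => hr' i (le_trans (le_max_left _ _) hi)⟩
    · rintro A ⟨hA, r, hr, hr'⟩
      exact ⟨hA, r, Finset.mem_union_right _ hr, fun i hi => hr' i (le_trans (le_max_right _ _) hi)⟩
  have hUle : ∀ x, prob (U x) ≤ 1 / 2 * prob τ := by
    rintro ⟨R', k⟩
    obtain ⟨n0, hn0⟩ := key R'
    obtain ⟨i, hi, hchk⟩ := hinf (max k n0)
    have hik : k ≤ i := le_trans (le_max_left _ _) hi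
    have hin : n0 ≤ i := le_trans (le_max_right _ _) hi
    have hTi := hTge i
    have h5 := hn0 (T i) (by omega) (lv i) (lev_ge i) (by
      have := lev_le (Bad := Bad) (Err := Err) (t := t) (L := L) (T := T) i
      have h6 : lv i ≤ 4 + i := this
      omega) (by omega) (chk_true hchk)
    refine le_trans (pr_mono ?_) h5
    rintro A ⟨hA, r, hr, hr'⟩
    exact ⟨hA, r, hr, hr' i hik⟩
  have hUn := dir_bound U hdir (c := 1 / 2 * prob τ) (by positivity) hUle
  have hcov : B ∩ τ ⊆ {A | ∃ᶠ i in atTop, A ∈ Bi i} ∪ ⋃ x, U x := by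
    rintro A ⟨hA, hAτ⟩
    rcases hBQ A hA with h5 | ⟨r, k, h5⟩
    · left
      rw [Set.mem_ofPred_eq, Filter.frequently_atTop]
      exact h5
    · right
      rw [Set.mem_iUnion]
      exact ⟨({r}, k), hAτ, r, Finset.mem_singleton_self r, h5⟩
  have h8 : prob (B ∩ τ) ≤ 1 / 2 * prob τ := by
    calc prob (B ∩ τ) ≤ prob ({A | ∃ᶠ i in atTop, A ∈ Bi i} ∪ ⋃ x, U x) := pr_mono hcov
      _ ≤ prob {A | ∃ᶠ i in atTop, A ∈ Bi i} + prob (⋃ x, U x) := pr_union_le _ _
      _ ≤ 0 + 1 / 2 * prob τ := by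
          have : prob {A | ∃ᶠ i in atTop, A ∈ Bi i} = 0 := by
            unfold prob Measure.real
            rw [hBC]
            rfl
          rw [this]
          linarith
      _ = 1 / 2 * prob τ := zero_add _
  linarith

end C1

open C1

theorem core_one {R : Type} [Countable R] (Bad Err : ℕ → ℕ → Set Oracle)
    (Good : R → ℕ → ℕ → Set Oracle) (K : ℕ → ℕ → Finset (List Bool))
    (hK : ∀ n j, ∀ x ∈ K n j, n < x.length)
    (hKd : ∀ n n' j j', n ≠ n' → Disjoint (K n j) (K n' j'))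
    (hBad : ∀ n j, Loc (K n j) (Bad n j)) (hErr : ∀ n j, MeasurableSet (Err n j))
    (hGood : ∀ r n j, MeasurableSet (Good r n j))
    (h1 : ∀ n j, prob (Bad n j) ≤ (1 / 2) ^ j)
    (h2 : ∀ j, ∃ c > 0, ∀ n ≥ 1, c ≤ prob (Bad n j))
    (key : ∀ R' : Finset R, ∃ n0, ∀ n ≥ n0, ∀ j, 4 ≤ j → j ≤ n → ∀ t < n,
      ∀ L : List (List Bool),
      4 * prob (cyl t L ∩ (Bad n j ∩ Err n j)) < prob (cyl t L ∩ Bad n j) →
      prob (cyl t L ∩ {A | ∃ r ∈ R', A ∈ Good r n j}) ≤ (1 / 2) * prob (cyl t L))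
    (T : ℕ → List (List Bool) → ℕ → ℕ) (hT : ∀ t L, StrictMono (T t L))
    (hT0 : ∀ t L, t + 4 ≤ T t L 0) :
    ∀ᵐ A ∂randomOracle, (∀ n j, A ∉ Bad n j ∩ Err n j) → ∃ (t : ℕ) (L : List (List Bool)),
      (∃ k, ∀ i ≥ k, A ∉ Bad (T t L i) (lev Bad Err t L (T t L) i)) ∧
      ∀ r k, ∃ i ≥ k, A ∉ Good r (T t L i) (lev Bad Err t L (T t L) i) := by
  classical
  have hBm : ∀ n j, MeasurableSet (Bad n j) := fun n j =>
    measurableSet_of_loc (K n j).finite_toSet (hBad n j)
  set V : Set Oracle := ⋂ n, ⋂ j, (Bad n j ∩ Err n j)ᶜ with hV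
  set Q : ℕ → List (List Bool) → Set Oracle := fun t L =>
    (⋂ k, ⋃ i, ⋃ (_ : i ≥ k), Bad (T t L i) (lev Bad Err t L (T t L) i)) ∪
    (⋃ r, ⋃ k, ⋂ i, ⋂ (_ : i ≥ k), Good r (T t L i) (lev Bad Err t L (T t L) i)) with hQ
  set B0 : Set Oracle := V ∩ ⋂ t, ⋂ L, Q t L with hB0
  have hVm : MeasurableSet V := MeasurableSet.iInter fun n => MeasurableSet.iInter fun j =>
    ((hBm n j).inter (hErr n j)).compl
  have hQm : ∀ t L, MeasurableSet (Q t L) := by
    intro t L
    apply MeasurableSet.union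
    · exact MeasurableSet.iInter fun k => MeasurableSet.iUnion fun i =>
        MeasurableSet.iUnion fun _ => hBm _ _
    · exact MeasurableSet.iUnion fun r => MeasurableSet.iUnion fun k =>
        MeasurableSet.iInter fun i => MeasurableSet.iInter fun _ => hGood _ _ _
  have hB0m : MeasurableSet B0 := hVm.inter (MeasurableSet.iInter fun t =>
    MeasurableSet.iInter fun L => hQm t L)
  have hmemV : ∀ A, A ∈ V ↔ ∀ n j, A ∉ Bad n j ∩ Err n j := by
    intro A
    simp only [hV, Set.mem_iInter, Set.mem_compl_iff]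
  have hmemQ : ∀ A t L, A ∈ Q t L ↔
      (∀ k, ∃ i ≥ k, A ∈ Bad (T t L i) (lev Bad Err t L (T t L) i)) ∨
      ∃ r k, ∀ i ≥ k, A ∈ Good r (T t L i) (lev Bad Err t L (T t L) i) := by
    intro A t L
    simp only [hQ, Set.mem_union, Set.mem_iInter, Set.mem_iUnion, exists_prop]
  have hzero : prob B0 = 0 := by
    by_contra hne
    have hpos : 0 < prob B0 := lt_of_le_of_ne (pr_nonneg _) (Ne.symm hne)
    obtain ⟨t, L, hp, hd⟩ := exists_cyl hB0m hpos (δ := 1 / 200) (by norm_num)
    refine core_cyl Bad Err Good K hK hKd hBad hErr h1 h2 t L ?_ (T t L) (hT t L) (hT0 t L) B0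
      ?_ ?_ hp hd
    · intro R'
      obtain ⟨n0, hn0⟩ := key R'
      exact ⟨n0, fun n hn j hj hjn ht => hn0 n hn j hj hjn t ht L⟩
    · intro A hA
      exact (hmemV A).1 hA.1
    · intro A hA
      have h5 := hA.2
      simp only [Set.mem_iInter] at h5
      exact (hmemQ A t L).1 (h5 t L)
  have hz : randomOracle B0 = 0 := by
    unfold prob at hzero
    rwa [measureReal_eq_zero_iff] at hzero
  rw [ae_iff]
  refine measure_mono_null ?_ hz
  intro A hA
  rw [Set.mem_ofPred_eq] at hA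
  push Not at hA
  obtain ⟨hA1, hA2⟩ := hA
  refine ⟨(hmemV A).2 hA1, ?_⟩
  simp only [Set.mem_iInter]
  intro t L
  rw [hmemQ]
  by_cases h5 : ∃ k, ∀ i ≥ k, A ∉ Bad (T t L i) (lev Bad Err t L (T t L) i)
  · right
    obtain ⟨r, k, h6⟩ := hA2 t L h5
    exact ⟨r, k, h6⟩
  · left
    push Not at h5
    exact h5

end Pool.Agent.H628R3.RO
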