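import Pool.Agent.H628R3.RO.C1
import Pool.Agent.H628R3.RO.P4
import Pool.Agent.H628R3.RO.D2
import Pool.Agent.H628R3.RO.A3

/-!
# Random oracles: the schedule from some point on, and the system that trusts it
-/

namespace Pool.Agent.H628R3.RO

open MeasureTheory Pool.Agent.NPC

/-- the schedule, from block `n0` on -/
noncomputable def schK (Bad Err : ℕ → ℕ → Set Oracle) (b : Polynomial ℕ) (t : ℕ)
    (L : List (List Bool)) (n0 n : ℕ) : Option ℕ :=
  if n0 ≤ n then sch Bad Err b t L n else none

section

variable {Bad Err : ℕ → ℕ → Set Oracle} {b : Polynomial ℕ} {t : ℕ} {L : List (List Bool)}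
  {n0 : ℕ}

theorem p_schK (hc : Check Bad Err b) (t : ℕ) (L : List (List Bool)) (n0 : ℕ) :
    Poly (fun x : List Bool => schK Bad Err b t L n0 x.length) := by
  refine Poly.ite (Poly.decide_le (NPC.Poly.const n0) (Poly.length Poly.id)) ?_
    (NPC.Poly.const none)
  exact p_sch t L hc (UPoly.length Poly.id)

theorem eq_of_schK {n j : ℕ} (h : schK Bad Err b t L n0 n = some j) :
    n0 ≤ n ∧ ∃ i, n = Tt b t i ∧ j = lev Bad Err t L (Tt b t) i := by
  rw [schK] at h
  split_ifs at h with h1
  exact ⟨h1, eq_of_sch h⟩

theorem schK_le {n j : ℕ} (h : schK Bad Err b t L n0 n = some j) : j ≤ n := by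
  obtain ⟨_, i, rfl, rfl⟩ := eq_of_schK h
  exact lev_le_Tt Bad Err b t L i

theorem schK_Tt {i : ℕ} (h : n0 ≤ Tt b t i) :
    schK Bad Err b t L n0 (Tt b t i) = some (lev Bad Err t L (Tt b t) i) := by
  rw [schK, if_pos h, sch_Tt]

end

/-- the system that trusts the schedule `f` -/
def pick (f : ℕ → Option ℕ) (u : List Bool) : List Bool :=
  match f u.length with
  | none => []
  | some j => code u.length (min j u.length)

theorem pick_none {f : ℕ → Option ℕ} {u : List Bool} (h : f u.length = none) : pick f u = [] := by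
  rw [pick, h]

theorem pick_some {f : ℕ → Option ℕ} {u : List Bool} {j : ℕ} (h : f u.length = some j)
    (hj : j ≤ u.length) : pick f u = code u.length j := by
  rw [pick, h]
  simp only [min_eq_left hj]

theorem poly_replicate {α : Type} [TEnc α] {n : α → ℕ} (hn : UPoly n) (c : Bool) :
    Poly (fun a => List.replicate (n a) c) :=
  (NPC.Poly.map (l := fun a => List.replicate (n a) ()) (F := fun _ _ => c) hn
    (NPC.Poly.const c)).congr fun a => by simp

theorem poly_pick {f : ℕ → Option ℕ} (hf : Poly (fun x : List Bool => f x.length)) :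
    Poly (pick f) := by
  refine (Poly.optCases (o := fun u : List Bool => f u.length) (g := fun _ => ([] : List Bool))
    (h := fun u j => code u.length (min j u.length)) hf (NPC.Poly.const _) ?_).congr fun u => ?_
  · have h1 : UPoly (fun p : List Bool × ℕ => p.1.length) := UPoly.length (Poly.fst Poly.id)
    have h2 : UPoly (fun p : List Bool × ℕ => min p.2 p.1.length) :=
      UPoly.of_le (Poly.min (Poly.snd Poly.id) h1.toPoly) h1 fun p => min_le_right _ _
    exact Poly.append (poly_replicate h2 true)
      (Poly.cons (NPC.Poly.const false) (poly_replicate h1 false))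
  · rw [pick]
    cases f u.length <;> rfl

/-- The new proof system: `P₀` together with the trusted statements. -/
def newSys (f : ℕ → Option ℕ) (P₀ : List Bool → List Bool) (w : List Bool) : List Bool :=
  if w.head? = some true then pick f w.tail else P₀ w.tail

theorem newSys_true (f : ℕ → Option ℕ) (P₀ : List Bool → List Bool) (u : List Bool) :
    newSys f P₀ (true :: u) = pick f u := by
  rw [newSys, if_pos (by simp), List.tail_cons]

theorem newSys_false (f : ℕ → Option ℕ) (P₀ : List Bool → List Bool) (u : List Bool) :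
    newSys f P₀ (false :: u) = P₀ u := by
  rw [newSys, if_neg (by simp), List.tail_cons]

theorem isFP_newSys {A : Oracle} {f : ℕ → Option ℕ}
    (hf : Poly (fun x : List Bool => f x.length)) {P₀ : List Bool → List Bool}
    (hP : IsFP A P₀) : IsFP A (newSys f P₀) := by
  have ht : Poly (fun w : List Bool => w.tail) := Poly.tail Poly.id
  refine IsFP.seq (φ := fun p => p.1.tail)
    (ψ := fun p => if p.1.head? = some true then p.2.1 else p.2.2)
    (IsFP.of_poly ((poly_pick hf).comp ht)) hP (Poly.tail (Poly.fst Poly.id)) ?_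
  refine Poly.ite (Poly.decide_eq (Poly.head? (Poly.fst Poly.id)) (NPC.Poly.const _)) ?_ ?_
  · exact Poly.fst (Poly.snd Poly.id)
  · exact Poly.snd (Poly.snd Poly.id)

theorem isProofSystem_newSys {A : Oracle} {f : ℕ → Option ℕ}
    (hf : Poly (fun x : List Bool => f x.length)) (hfn : ∀ n j, f n = some j → j ≤ n)
    {P₀ : List Bool → List Bool} {L₀ : Set (List Bool)} (hP : IsProofSystem A L₀ P₀)
    (h0 : [] ∈ L₀) (h1 : ∀ n j, f n = some j → code n j ∈ L₀) :
    IsProofSystem A L₀ (newSys f P₀) := by
  refine ⟨isFP_newSys hf hP.1, ?_⟩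
  ext x
  constructor
  · rintro ⟨w, rfl⟩
    rw [newSys]
    split_ifs with h
    · cases h2 : f w.tail.length with
      | none => rw [pick_none h2]; exact h0
      | some j =>
        rw [pick_some h2 (hfn _ _ h2)]
        exact h1 _ _ h2
    · rw [← hP.2]
      exact ⟨_, rfl⟩
  · intro hx
    rw [← hP.2] at hx
    obtain ⟨u, rfl⟩ := hx
    exact ⟨false :: u, newSys_false f P₀ u⟩

end Pool.Agent.H628R3.RO
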