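import Pool.Agent.H628R3.RO.BaseD
import Pool.Agent.H628R3.RO.M1
import Pool.Agent.H628R3.RO.M2
import Pool.Agent.H628R3.RO.M4
import Pool.Agent.H628R3.RO.A1
import Pool.Agent.H628R3.RO.D1
import Pool.Agent.H628R3.RO.D2

/-!
Key inequality, first kind: a candidate proof system that does not err has no short proofs.
-/

namespace Pool.Agent.H628R3.RO

open MeasureTheory Pool.Agent.NPC

theorem k1_loc_mono {K K' : Set (List Bool)} {S : Set Oracle} (h : Loc K S) (hK : K ⊆ K') :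
    Loc K' S := fun A A' hA => h A A' fun x hx => hA x (hK hx)

theorem k1_eval_le (p : Polynomial ℕ) (m : ℕ) :
    p.eval m ≤ p.eval 1 * (m ^ (p.natDegree + 1) + 1) := by
  rw [Polynomial.eval_eq_sum_range, Polynomial.eval_eq_sum_range, Finset.sum_mul]
  refine Finset.sum_le_sum fun i hi => ?_
  rw [one_pow, mul_one]
  refine Nat.mul_le_mul_left _ ?_
  rcases Nat.eq_zero_or_pos m with rfl | hm
  · rcases Nat.eq_zero_or_pos i with rfl | hi0
    · simp
    · rw [zero_pow hi0.ne']; exact Nat.zero_le _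
  · exact (Nat.pow_le_pow_right hm (by simp at hi; omega)).trans (Nat.le_succ _)

theorem k1_poly_gap (p : Polynomial ℕ) : ∃ k ≥ 1, ∃ n0, ∀ n ≥ n0, ∀ m : ℕ, m ^ k ≤ 2 ^ n →
    32 * p.eval m ≤ 2 ^ n := by
  set C := p.eval 1 with hC
  refine ⟨2 * (p.natDegree + 1), by omega, 32 * (C * (64 * C + 2)), fun n hn m hm => ?_⟩
  set y := m ^ (p.natDegree + 1) with hy
  have h1 : p.eval m ≤ C * (y + 1) := k1_eval_le p m
  have h2 : y * y ≤ 2 ^ n := by
    rw [hy, ← pow_add]
    refine le_trans (le_of_eq ?_) hm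
    congr 1; ring
  have h3 : n < 2 ^ n := Nat.lt_two_pow_self
  rcases Nat.lt_or_ge y (64 * C + 1) with h | h
  · have : C * (y + 1) ≤ C * (64 * C + 2) := Nat.mul_le_mul_left _ (by omega)
    omega
  · have h4 : 32 * (C * (y + 1)) ≤ 64 * C * y := by nlinarith
    have h5 : 64 * C * y ≤ y * y := Nat.mul_le_mul_right _ (by omega)
    omega

/-- exponential gap: a candidate that does not err has no short proofs -/
theorem key_T (M : Alg) : ∃ k ≥ 1, ∃ n0, ∀ n ≥ n0, ∀ j, 4 ≤ j → j ≤ n → ∀ t < n,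
    ∀ L : List (List Bool),
    4 * prob (cyl t L ∩ (BadT n j ∩ ErrP M n j)) < prob (cyl t L ∩ BadT n j) →
    prob (cyl t L ∩ GoodT M k n j) ≤ (1 / 2) * prob (cyl t L) := by
  classical
  obtain ⟨k, hk, n0, hkn⟩ := k1_poly_gap M.p
  refine ⟨k, hk, n0, fun n hn j hj4 hjn t ht L hyp => ?_⟩
  obtain ⟨bE, hE⟩ := loc_ErrP M
  obtain ⟨bZ, hZ⟩ := loc_GoodT M hk
  obtain ⟨qb, hqb⟩ := Alg.out_local M
  have hEn := hE n j
  have hZn := hZ n j
  set K : Set (List Bool) := {x | x.length ≤ bE.eval (2 ^ n) + bZ.eval (2 ^ n) + t + (3 * n + 2)}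
    with hKdef
  have hK : K.Finite := finite_length_le _
  have hZK : Loc K (GoodT M k n j) := k1_loc_mono hZn fun x hx => by
    simp only [Set.mem_ofPred_eq, hKdef] at hx ⊢; omega
  have hEK : Loc K (ErrP M n j) := k1_loc_mono hEn fun x hx => by
    simp only [Set.mem_ofPred_eq, hKdef] at hx ⊢; omega
  have hτK : Loc K (cyl t L) := k1_loc_mono (loc_cyl t L) fun x hx => by
    simp only [Set.mem_ofPred_eq, hKdef] at hx ⊢; omega
  have hW : ∀ κ ∈ blkT n, ∀ i < n + j, pos κ.1 i κ.2 ∈ K := by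
    intro κ hκ i hi
    have hx : pos κ.1 i κ.2 ∈ spotsT n j := mem_allSpots.2 ⟨κ, hκ, i, hi, rfl⟩
    have := length_le_spotsT hjn _ hx
    simp only [Set.mem_ofPred_eq, hKdef]; omega
  have hτ' : ∀ (B : Oracle) (h : Finset Cand), h ⊆ blkT n →
      (plant (allSpots (n + j) h) B ∈ cyl t L ↔ B ∈ cyl t L) := by
    intro B h hh
    refine loc_cyl t L _ _ fun x hx => ?_
    unfold plant
    rw [if_neg]
    intro hmem
    obtain ⟨κ, hκ, i, hi, rfl⟩ := mem_allSpots.1 hmem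
    have := lt_length_spotsT (n := n) (j := j) _ (mem_allSpots.2 ⟨κ, hh hκ, i, hi, rfl⟩)
    simp only [Set.mem_ofPred_eq] at hx
    omega
  have hkey : ∀ B ∈ NoHit (n + j) (blkT n), B ∈ GoodT M k n j →
      ∃ T : Finset Cand, T.card ≤ 2 ^ n / 32 ∧
      ∀ h ⊆ blkT n, h.Nonempty → Disjoint h T →
        plant (allSpots (n + j) h) B ∈ ErrP M n j := by
    intro B _ hB
    obtain ⟨u, hu, hout⟩ := hB
    obtain ⟨Q, hQc, -, hQ⟩ := hqb B u
    set T : Finset Cand := (blkT n).filter (fun κ => ∃ i, i < n + j ∧ pos κ.1 i κ.2 ∈ Q) with hT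
    refine ⟨T, ?_, ?_⟩
    · have hTQ : T.card ≤ Q.card := by
        have hch : ∀ κ : Cand, ∃ i, κ ∈ T → pos κ.1 i κ.2 ∈ Q := by
          intro κ
          by_cases hκ : κ ∈ T
          · obtain ⟨i, -, hi⟩ := (Finset.mem_filter.1 hκ).2
            exact ⟨i, fun _ => hi⟩
          · exact ⟨0, fun h => absurd h hκ⟩
        choose f hf using hch
        refine Finset.card_le_card_of_injOn (fun κ => pos κ.1 (f κ) κ.2)
          (fun κ hκ => hf κ hκ) ?_
        intro κ _ κ' _ heq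
        obtain ⟨h1, -, h2⟩ := pos_inj heq
        exact Prod.ext h1 h2
      have h32 := hkn n hn u.length hu
      rw [Nat.le_div_iff_mul_le (by norm_num)]
      have := hTQ.trans hQc
      omega
    · intro h hh _ hd
      refine ⟨u, (Nat.le_self_pow (by omega) _).trans hu, ?_⟩
      rw [← hout]
      refine hQ _ fun q hq => ?_
      unfold plant
      rw [if_neg]
      intro hmem
      obtain ⟨κ, hκ, i, hi, rfl⟩ := mem_allSpots.1 hmem
      exact Finset.disjoint_left.1 hd hκ (Finset.mem_filter.2 ⟨hh hκ, i, hi, hq⟩)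
  have main := key_taut hK hZK hEK hτK (blkT n) (m := n + j) (by omega) (2 ^ n / 32) hW hτ' hkey
  have hcard : (blkT n).card = 2 ^ n := by
    unfold blkT; rw [card_cands]; simp
  rw [hcard] at main
  set P0 : ℝ := (1 - (1 / 2 : ℝ) ^ (n + j)) ^ (2 ^ n) with hP0
  -- independence
  have hdisj : Disjoint {x : List Bool | x.length ≤ t} ((spotsT n j : Finset (List Bool)) :
      Set (List Bool)) := by
    rw [Set.disjoint_left]
    intro x hx hx'
    have := lt_length_spotsT _ (Finset.mem_coe.1 hx')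
    simp only [Set.mem_ofPred_eq] at hx
    omega
  have hind : prob (cyl t L ∩ BadT n j) = prob (cyl t L) * (1 - P0) := by
    rw [prob_inter_of_disjoint (finite_length_le t) (Finset.finite_toSet _) hdisj (loc_cyl t L)
      (loc_BadT n j), prob_BadT]
  have hle := taut_le n j
  have hge := taut_ge n j
  rw [← hP0] at hle hge
  have hPnn : 0 ≤ P0 := by
    refine pow_nonneg ?_ _
    have : (1 / 2 : ℝ) ^ (n + j) ≤ 1 := pow_le_one₀ (by norm_num) (by norm_num)
    linarith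
  have hP1 : P0 ≤ 1 := by
    refine pow_le_one₀ ?_ ?_
    · have : (1 / 2 : ℝ) ^ (n + j) ≤ 1 := pow_le_one₀ (by norm_num) (by norm_num)
      linarith
    · have : 0 ≤ (1 / 2 : ℝ) ^ (n + j) := by positivity
      linarith
  have hτnn : 0 ≤ prob (cyl t L) := measureReal_nonneg
  have hpos : 0 < 1 - P0 := lt_of_lt_of_le (by positivity) hge
  have hj16 : (1 / 2 : ℝ) ^ j ≤ 1 / 16 := by
    calc (1 / 2 : ℝ) ^ j ≤ (1 / 2) ^ 4 := pow_le_pow_of_le_one (by norm_num) (by norm_num) hj4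
      _ = 1 / 16 := by norm_num
  have hbadeq : (NoHit (n + j) (blkT n))ᶜ = BadT n j := rfl
  have hE1 : prob (ErrP M n j ∩ cyl t L ∩ (NoHit (n + j) (blkT n))ᶜ) =
      prob (cyl t L ∩ (BadT n j ∩ ErrP M n j)) := by
    rw [hbadeq]
    congr 1
    ext A
    simp only [Set.mem_inter_iff]
    tauto
  rw [hE1] at main
  rw [hind] at hyp
  have ht0 : ((2 ^ n / 32 : ℕ) : ℝ) * (1 / 2) ^ (n + j) ≤ 1 / 32 * (1 / 2) ^ j := by
    have h1 : ((2 ^ n / 32 : ℕ) : ℝ) ≤ 2 ^ n / 32 := by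
      refine (Nat.cast_div_le).trans (le_of_eq ?_)
      push_cast; ring
    calc ((2 ^ n / 32 : ℕ) : ℝ) * (1 / 2) ^ (n + j) ≤ (2 ^ n / 32) * (1 / 2) ^ (n + j) :=
          mul_le_mul_of_nonneg_right h1 (by positivity)
      _ = 1 / 32 * (1 / 2) ^ j := by
          rw [pow_add]
          have : (2 : ℝ) ^ n * (1 / 2) ^ n = 1 := by rw [← mul_pow]; norm_num
          linear_combination (1 / 32 * (1 / 2 : ℝ) ^ j) * this
  have hjP : (1 / 2 : ℝ) ^ j ≤ 2 * (1 - P0) := by
    have : (1 / 2 : ℝ) ^ (j + 1) = (1 / 2) ^ j / 2 := by rw [pow_succ]; ring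
    rw [this] at hge; linarith
  have hmain2 : prob (GoodT M k n j ∩ cyl t L ∩ NoHit (n + j) (blkT n)) * (1 - P0) ≤
      (5 / 16 * prob (cyl t L)) * (1 - P0) := by
    refine main.trans ?_
    have h1 : prob (cyl t L ∩ (BadT n j ∩ ErrP M n j)) +
        ((2 ^ n / 32 : ℕ) : ℝ) * (1 / 2) ^ (n + j) * prob (cyl t L) ≤
        (5 / 16 * prob (cyl t L)) * (1 - P0) := by
      have h2 : ((2 ^ n / 32 : ℕ) : ℝ) * (1 / 2) ^ (n + j) * prob (cyl t L) ≤
          (1 / 16 * (1 - P0)) * prob (cyl t L) :=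
        mul_le_mul_of_nonneg_right (by linarith) hτnn
      linarith
    have h3 : 0 ≤ prob (cyl t L ∩ (BadT n j ∩ ErrP M n j)) +
        ((2 ^ n / 32 : ℕ) : ℝ) * (1 / 2) ^ (n + j) * prob (cyl t L) := by
      have : 0 ≤ prob (cyl t L ∩ (BadT n j ∩ ErrP M n j)) := measureReal_nonneg
      positivity
    exact (mul_le_of_le_one_right h3 hP1).trans h1
  have hA := le_of_mul_le_mul_right hmain2 hpos
  have hsub : cyl t L ∩ GoodT M k n j ⊆
      (GoodT M k n j ∩ cyl t L ∩ NoHit (n + j) (blkT n)) ∪ (cyl t L ∩ BadT n j) := by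
    rintro A ⟨h1, h2⟩
    by_cases h : A ∈ NoHit (n + j) (blkT n)
    · exact Or.inl ⟨⟨h2, h1⟩, h⟩
    · exact Or.inr ⟨h1, h⟩
  have hprob : IsProbabilityMeasure randomOracle := by
    unfold randomOracle; infer_instance
  calc prob (cyl t L ∩ GoodT M k n j)
      ≤ prob ((GoodT M k n j ∩ cyl t L ∩ NoHit (n + j) (blkT n)) ∪ (cyl t L ∩ BadT n j)) :=
        measureReal_mono hsub
    _ ≤ prob (GoodT M k n j ∩ cyl t L ∩ NoHit (n + j) (blkT n)) +
        prob (cyl t L ∩ BadT n j) := measureReal_union_le _ _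
    _ ≤ 5 / 16 * prob (cyl t L) + prob (cyl t L) * (1 / 16) := by
        refine add_le_add hA ?_
        rw [hind]
        exact mul_le_mul_of_nonneg_left (hle.trans hj16) hτnn
    _ ≤ 1 / 2 * prob (cyl t L) := by linarith

end Pool.Agent.H628R3.RO
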