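import Pool.Agent.H628R3.RO.F0
import Pool.Agent.H628R3.RO.E1
import Pool.Agent.H628R3.RO.K1
import Pool.Agent.H628R3.RO.K2
import Pool.Agent.H628R3.RO.G1

/-!
# Proof systems for `coNP`-hard sets relative to a random oracle
-/

namespace Pool.Agent.H628R3.RO

open MeasureTheory Pool.Agent.NPC

theorem code_ne_nil (n j : ℕ) : code n j ≠ [] := by
  rw [code]; simp

theorem length_code (n j : ℕ) : (code n j).length = j + n + 1 := by
  rw [code]; simp; omega

/-- the core, for algorithms which are proof systems for the statements about the blocks -/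
theorem ae_T (M : Alg) : ∃ (b : Polynomial ℕ) (k : ℕ), Check BadT (ErrP M) b ∧
    ∀ᵐ A ∂randomOracle, (∀ n j, A ∉ BadT n j ∩ ErrP M n j) → ∃ (t : ℕ) (L : List (List Bool)),
      (∃ i0, ∀ i ≥ i0, A ∉ BadT (Tt b t i) (lev BadT (ErrP M) t L (Tt b t) i)) ∧
      ∀ i0, ∃ i ≥ i0, A ∉ GoodT M k (Tt b t i) (lev BadT (ErrP M) t L (Tt b t) i) := by
  obtain ⟨b, hc⟩ := check_T M
  obtain ⟨k, hk, n0, hkey⟩ := key_T M
  obtain ⟨b', hb'⟩ := loc_GoodT M hk
  refine ⟨b, k, hc, ?_⟩
  have h := core_one (R := Unit) BadT (ErrP M) (fun _ => GoodT M k) spotsT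
    (fun n j => lt_length_spotsT) (fun n n' j j' h => disjoint_spotsT n n' j j' h)
    loc_BadT (fun n j => measurableSet_of_loc (finite_length_le _) (hc.locErr n j))
    (fun _ n j => measurableSet_of_loc (finite_length_le _) (hb' n j))
    prob_BadT_le prob_BadT_ge
    (fun R' => ⟨n0, fun n hn j hj hjn t ht L hyp => by
      refine le_trans (measureReal_mono ?_) (hkey n hn j hj hjn t ht L hyp)
      rintro A ⟨h1, _, _, h2⟩
      exact ⟨h1, h2⟩⟩)
    (fun t _ => Tt b t) (fun t _ => strictMono_Tt b t) (fun t _ => le_rfl)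
  filter_upwards [h] with A hA hv
  obtain ⟨t, L, h1, h2⟩ := hA hv
  exact ⟨t, L, h1, fun i0 => h2 () i0⟩

/-- the numbers -/
theorem gap (k : ℕ) : ∃ n0, ∀ n ≥ n0, ∀ m l : ℕ, l ≤ 4 * n + 3 + m → 2 ^ n < l ^ k →
    2 ^ (n + 2) ≤ m ^ (2 * k + 2) := by
  obtain ⟨n0, h0⟩ := poly_le_two_pow ((Polynomial.C 8 * Polynomial.X + Polynomial.C 6) ^ k)
  refine ⟨n0, fun n hn m l hl h => ?_⟩
  have h1 := h0 n hn
  simp only [Polynomial.eval_pow, Polynomial.eval_add, Polynomial.eval_mul, Polynomial.eval_C,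
    Polynomial.eval_X] at h1
  have h2 : 4 * n + 3 < m := by
    by_contra hcon
    have h3 : l ^ k ≤ (8 * n + 6) ^ k := Nat.pow_le_pow_left (by omega) k
    omega
  have h3 : l ^ k ≤ (2 * m) ^ k := Nat.pow_le_pow_left (by omega) k
  have h4 : (2 * m) ^ k ≤ (m ^ 2) ^ k := Nat.pow_le_pow_left (by nlinarith) k
  have h5 : 2 ^ n ≤ m ^ (2 * k) := by
    rw [pow_mul]; omega
  calc 2 ^ (n + 2) = 2 ^ n * 2 ^ 2 := pow_add _ _ _
    _ ≤ m ^ (2 * k) * m ^ 2 := Nat.mul_le_mul h5 (Nat.pow_le_pow_left (by omega) 2)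
    _ = m ^ (2 * k + 2) := (pow_add _ _ _).symm

/-- With probability one, every proof system for a `coNP`-hard set is exponentially worse than
some other proof system for this set. -/
theorem optimal_main : ∀ᵐ A ∂randomOracle, ∀ L : Set (List Bool), CoNPHardRel A L →
    ∀ P, IsProofSystem A L P → ∃ Q, IsProofSystem A L Q ∧
      ∃ k : ℕ, ∀ N, ∃ w : List Bool, N ≤ w.length ∧ ∀ v, P v = Q w →
        2 ^ w.length ≤ v.length ^ k := by
  choose b k hc hcore using ae_T
  have hall : ∀ᵐ A ∂randomOracle, ∀ M : Alg, (∀ n j, A ∉ BadT n j ∩ ErrP M n j) →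
      ∃ (t : ℕ) (L : List (List Bool)),
      (∃ i0, ∀ i ≥ i0, A ∉ BadT (Tt (b M) t i) (lev BadT (ErrP M) t L (Tt (b M) t) i)) ∧
      ∀ i0, ∃ i ≥ i0, A ∉ GoodT M (k M) (Tt (b M) t i)
        (lev BadT (ErrP M) t L (Tt (b M) t) i) := ae_all_iff.2 hcore
  filter_upwards [hall] with A hA L hL P hP
  obtain ⟨F, hF, hr⟩ := hL _ (isCoNP_LT A)
  set L₀ : Set (List Bool) := {x | x = [] ∨ A ∉ BadT (siz x) (lvl x)} with hL₀
  have h0 : [] ∈ L₀ := Or.inl rfl
  have hP₀ : IsProofSystem A L₀ (backSys F P []) := backSys_isProofSystem hP hF hr h0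
  obtain ⟨M, hM⟩ := hP₀.1
  obtain ⟨t, S, ⟨i1, h1⟩, h2⟩ := hA M (by
    rintro n j ⟨h3, u, _, h4⟩
    rw [hM u, Option.some.injEq] at h4
    have h5 : code n j ∈ L₀ := by
      rw [← hP₀.2]
      exact ⟨u, h4⟩
    rcases h5 with h5 | h5
    · exact code_ne_nil n j h5
    · rw [siz_code, lvl_code] at h5
      exact h5 h3)
  set f := schK BadT (ErrP M) (b M) t S (Tt (b M) t i1) with hf
  have hfn : ∀ n j, f n = some j → j ≤ n := fun n j h => schK_le h
  have hfL : ∀ n j, f n = some j → code n j ∈ L₀ := by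
    intro n j h
    right
    rw [siz_code, lvl_code]
    obtain ⟨h3, i, rfl, rfl⟩ := eq_of_schK h
    exact h1 i ((strictMono_Tt (b M) t).le_iff_le.1 h3)
  have hpf : Poly (fun x : List Bool => f x.length) := p_schK (hc M) t S _
  have hQ₀ := isProofSystem_newSys hpf hfn hP₀ h0 hfL
  have hQ := addSys_isProofSystem hP hF hr hQ₀
  refine ⟨_, hQ, 2 * k M + 2, fun N => ?_⟩
  obtain ⟨n0, hn0⟩ := gap (k M)
  obtain ⟨i, hi, h3⟩ := h2 (max i1 (max N n0))
  set n := Tt (b M) t i with hn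
  set j := lev BadT (ErrP M) t S (Tt (b M) t) i with hj
  have hTi : t + 4 + i ≤ n := add_le_Tt (b M) t i
  have hi1 : i1 ≤ i := le_trans (le_max_left _ _) hi
  have hiN : N ≤ i := le_trans (le_trans (le_max_left _ _) (le_max_right _ _)) hi
  have hin : n0 ≤ i := le_trans (le_trans (le_max_right _ _) (le_max_right _ _)) hi
  have hfi : f n = some j := schK_Tt ((strictMono_Tt (b M) t).monotone hi1)
  have hjn : j ≤ n := hfn _ _ hfi
  refine ⟨true :: true :: List.replicate n true, ?_, fun v hv => ?_⟩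
  · simp only [List.length_cons, List.length_replicate]
    omega
  · have e1 : addSys F P (newSys f (backSys F P [])) (true :: true :: List.replicate n true) =
        F (code n j) := by
      rw [addSys_true, newSys_true, pick_some (j := j)]
      · rw [List.length_replicate]
      · rw [List.length_replicate]; exact hfi
      · rw [List.length_replicate]; exact hjn
    rw [e1] at hv
    have e2 := backSys_pair (x₀ := []) hv
    have h4 : ¬ (pairBits (code n j) v).length ^ (k M) ≤ 2 ^ n := fun h5 =>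
      h3 ⟨_, h5, by rw [hM, e2]⟩
    simp only [List.length_cons, List.length_replicate]
    refine hn0 n (by omega) v.length (pairBits (code n j) v).length ?_ (by omega)
    rw [length_pairBits_A3, length_code]
    omega

end Pool.Agent.H628R3.RO
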