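import Pool.Agent.H628R3.RO.F0
import Pool.Agent.H628R3.RO.E1
import Pool.Agent.H628R3.RO.K2
import Pool.Agent.H628R3.RO.G1

/-!
# `p`-optimal proof systems for `NP`-hard sets relative to a random oracle
-/

namespace Pool.Agent.H628R3.RO

open MeasureTheory Pool.Agent.NPC

/-- the core, for algorithms which are proof systems for the statements about the blocks -/
theorem ae_S (M : Alg) : ∃ b : Polynomial ℕ, Check BadS (ErrP M) b ∧
    ∀ᵐ A ∂randomOracle, (∀ n j, A ∉ BadS n j ∩ ErrP M n j) → ∃ (t : ℕ) (L : List (List Bool)),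
      (∃ i0, ∀ i ≥ i0, A ∉ BadS (Tt b t i) (lev BadS (ErrP M) t L (Tt b t) i)) ∧
      ∀ (r : Alg) (i0 : ℕ), ∃ i ≥ i0,
        A ∉ GoodS M r (Tt b t i) (lev BadS (ErrP M) t L (Tt b t) i) := by
  obtain ⟨b, hc⟩ := check_S M
  choose b' hb' using fun r : Alg => loc_GoodS M r
  refine ⟨b, hc, ?_⟩
  exact core_one (R := Alg) BadS (ErrP M) (GoodS M) spotsS
    (fun n j => lt_length_spotsS) (fun n n' j j' h => disjoint_spotsS n n' j j' h)
    loc_BadS (fun n j => measurableSet_of_loc (finite_length_le _) (hc.locErr n j))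
    (fun r n j => measurableSet_of_loc (finite_length_le _) (hb' r n j))
    prob_BadS_le prob_BadS_ge (key_S M)
    (fun t _ => Tt b t) (fun t _ => strictMono_Tt b t) (fun t _ => le_rfl)

/-- With probability one, no `NP`-hard set has a `p`-optimal proof system. -/
theorem poptimal_main : ∀ᵐ A ∂randomOracle, ∀ L : Set (List Bool), NPHardRel A L →
    ∀ P, ¬ IsPOptimal A L P := by
  choose b hc hcore using ae_S
  have hall : ∀ᵐ A ∂randomOracle, ∀ M : Alg, (∀ n j, A ∉ BadS n j ∩ ErrP M n j) →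
      ∃ (t : ℕ) (L : List (List Bool)),
      (∃ i0, ∀ i ≥ i0, A ∉ BadS (Tt (b M) t i) (lev BadS (ErrP M) t L (Tt (b M) t) i)) ∧
      ∀ (r : Alg) (i0 : ℕ), ∃ i ≥ i0, A ∉ GoodS M r (Tt (b M) t i)
        (lev BadS (ErrP M) t L (Tt (b M) t) i) := ae_all_iff.2 hcore
  filter_upwards [hall] with A hA L hL P hP
  set L₀ : Set (List Bool) := {x | x = [] ∨ A ∉ BadS (siz x) (lvl x)} with hL₀
  have h0 : [] ∈ L₀ := Or.inl rfl
  obtain ⟨P₀, hP₀⟩ := hP.transfer (hL _ (isNP_LS A)) ⟨[], h0⟩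
  have hrng : Set.range P₀ = L₀ := hP₀.1.2
  obtain ⟨M, hM⟩ := hP₀.1.1
  obtain ⟨t, S, ⟨i1, h1⟩, h2⟩ := hA M (by
    rintro n j ⟨h3, u, _, h4⟩
    rw [hM u, Option.some.injEq] at h4
    have h5 : code n j ∈ L₀ := by
      rw [← hrng]
      exact ⟨u, h4⟩
    rcases h5 with h5 | h5
    · rw [code] at h5; simp at h5
    · rw [siz_code, lvl_code] at h5
      exact h5 h3)
  set f := schK BadS (ErrP M) (b M) t S (Tt (b M) t i1) with hf
  have hfn : ∀ n j, f n = some j → j ≤ n := fun n j h => schK_le h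
  have hfL : ∀ n j, f n = some j → code n j ∈ L₀ := by
    intro n j h
    right
    rw [siz_code, lvl_code]
    obtain ⟨h3, i, rfl, rfl⟩ := eq_of_schK h
    exact h1 i ((strictMono_Tt (b M) t).le_iff_le.1 h3)
  have hpf : Poly (fun x : List Bool => f x.length) := p_schK (hc M) t S _
  have hQ₀ := isProofSystem_newSys hpf hfn hP₀.1 h0 hfL
  obtain ⟨g, ⟨r, hr⟩, hg⟩ := hP₀.2 _ hQ₀
  obtain ⟨i, hi, h3⟩ := h2 r i1
  set n := Tt (b M) t i with hn
  set j := lev BadS (ErrP M) t S (Tt (b M) t) i with hj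
  have hfi : f n = some j := schK_Tt ((strictMono_Tt (b M) t).monotone hi)
  have hjn : j ≤ n := hfn _ _ hfi
  refine h3 ⟨_, hr _, ?_⟩
  rw [hM, hg, newSys_true, pick_some (j := j)]
  · rw [List.length_replicate]
  · rw [List.length_replicate]; exact hfi
  · rw [List.length_replicate]; exact hjn

end Pool.Agent.H628R3.RO
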