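import Pool.Agent.H628R3.RO.K2

/-!
# The key inequality for total search problems (task K3)
-/

namespace Pool.Agent.H628R3.RO

open MeasureTheory Pool.Agent.NPC

theorem length_pairBits_K3 (x w : List Bool) :
    (pairBits x w).length = 2 * x.length + 1 + w.length := by
  unfold pairBits
  rw [List.length_append, List.length_flatMap]
  simp
  omega

theorem candStr_inj {c c' : ℕ} {w w' : List Bool} (h : candStr c w = candStr c' w') :
    c = c' ∧ w = w' := by
  induction c generalizing c' with
  | zero =>
    cases c' with
    | zero => simpa [candStr] using h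
    | succ c' => simp [candStr, List.replicate_succ] at h
  | succ c ih =>
    cases c' with
    | zero => simp [candStr, List.replicate_succ] at h
    | succ c' =>
      have h' : candStr c w = candStr c' w' := by
        simpa [candStr, List.replicate_succ] using h
      obtain ⟨h1, h2⟩ := ih h'
      exact ⟨by rw [h1], h2⟩

theorem key_F (V : Alg) (p : Polynomial ℕ) (R' : Finset (Alg × Alg)) : ∃ n0, ∀ n ≥ n0, ∀ j,
    4 ≤ j → j ≤ n → ∀ t < n, ∀ L : List (List Bool),
    4 * prob (cyl t L ∩ (BadS n j ∩ ErrF V p n)) < prob (cyl t L ∩ BadS n j) →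
    prob (cyl t L ∩ {A | ∃ r ∈ R', A ∈ GoodF V p r n j}) ≤ (1 / 2) * prob (cyl t L) := by
  classical
  obtain ⟨bE, hbE⟩ := loc_ErrF V p
  choose bG hbG using fun r : Alg × Alg => loc_GoodF V p r
  choose bl hbl using fun h : Alg => h.out_length
  obtain ⟨qV, hqV⟩ := V.out_local
  choose qh hqh using fun h : Alg => h.out_local
  -- bounds for the lengths and the numbers of questions
  let P1 : Alg × Alg → Polynomial ℕ := fun r =>
    r.1.p + V.p.comp (2 * bl r.1 + 1 + p.comp (bl r.1)) +
      r.2.p.comp (2 * Polynomial.X + 1 + p.comp (bl r.1)) + 1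
  obtain ⟨n1, hn1⟩ := poly_le_two_pow (∑ r ∈ R', bl r.1)
  obtain ⟨n2, hn2⟩ := mul_poly_le_two_pow (∑ r ∈ R', P1 r) 16
  refine ⟨max (max n1 n2) 1, fun n hn j _ hjn t ht L hs => ?_⟩
  have hn1' := hn1 n (le_trans (le_trans (le_max_left _ _) (le_max_left _ _)) hn)
  have hn2' := hn2 n (le_trans (le_trans (le_max_right _ _) (le_max_left _ _)) hn)
  have hn' : 1 ≤ n := le_trans (le_max_right _ _) hn
  rw [Polynomial.eval_finsetSum] at hn1' hn2'
  set b : ℕ := bE.eval (2 ^ n) + ∑ r ∈ R', (bG r).eval (n + j) + (3 * n + 2) with hb
  have hbE' : bE.eval (2 ^ n) ≤ b := by omega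
  have hbG' : ∀ r ∈ R', (bG r).eval (n + j) ≤ b := by
    intro r hr
    have : (bG r).eval (n + j) ≤ ∑ r ∈ R', (bG r).eval (n + j) :=
      Finset.single_le_sum (f := fun r => (bG r).eval (n + j)) (fun _ _ => Nat.zero_le _) hr
    omega
  refine keyS_core hn' ht L (finite_length_le b) (Z := {A | ∃ r ∈ R', A ∈ GoodF V p r n j})
    (E := ErrF V p n) ?_ ?_ ?_ (pos_mem_blkS hjn (by omega)) _ hn2' ?_ hs
  · intro A A' hA
    simp only [Set.mem_ofPred_eq]
    refine exists_congr fun r => and_congr_right fun hr => ?_
    exact hbG r n j A A' fun x hx => hA x (le_trans hx (hbG' r hr))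
  · exact (hbE n).mono fun x hx => le_trans hx hbE'
  · intro x hx
    simp only [Set.mem_ofPred_eq] at hx ⊢
    omega
  · intro B hB hBE
    choose Q hQ using fun (r : Alg) (u : List Bool) => hqh r B u
    let N : List Bool := List.replicate n true
    have hN : N.length = n := by simp [N]
    let x : Alg × Alg → List Bool := fun r => (r.1.out B N).getD []
    have hx : ∀ r, (x r).length ≤ (bl r.1).eval n := by
      intro r
      change ((r.1.out B N).getD []).length ≤ _
      cases h : r.1.out B N with
      | none => simp
      | some z => simpa [hN] using hbl r.1 B _ z h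
    have hx2 : ∀ r ∈ R', (x r).length ≤ 2 ^ n := by
      intro r hr
      refine (hx r).trans (le_trans ?_ hn1')
      exact Finset.single_le_sum (f := fun r : Alg × Alg => (bl r.1).eval n)
        (fun _ _ => Nat.zero_le _) hr
    have hy : ∀ r ∈ R', ∃ y : List Bool, y.length ≤ p.eval (x r).length ∧
        V.out B (pairBits (x r) y) = some [true] := by
      intro r hr
      by_contra hcon
      push Not at hcon
      exact hBE ⟨x r, hx2 r hr, hcon⟩
    choose! y hy1 hy2 using hy
    let Q3 : Alg × Alg → Finset (List Bool) := fun r =>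
      Q r.1 N ∪ Q V (pairBits (x r) (y r)) ∪ Q r.2 (pairBits N (y r))
    obtain ⟨T, hT, hT'⟩ := touch (blkS n j) n (R'.biUnion Q3)
    -- the candidate given by the second algorithm
    let C : Alg × Alg → Finset Cand := fun r =>
      if h : ∃ κ : Cand, r.2.out B (pairBits N (y r)) = some (candStr κ.1 κ.2) then {h.choose}
      else ∅
    refine ⟨T ∪ R'.biUnion C, ?_, ?_⟩
    · refine (Finset.card_union_le _ _).trans ?_
      refine (Nat.add_le_add (hT.trans Finset.card_biUnion_le) Finset.card_biUnion_le).trans ?_
      rw [← Finset.sum_add_distrib]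
      refine Finset.sum_le_sum fun r hr => ?_
      have hC : (C r).card ≤ 1 := by
        simp only [C]
        split_ifs <;> simp
      have hQ3 : (Q3 r).card ≤ (Q r.1 N).card + (Q V (pairBits (x r) (y r))).card +
          (Q r.2 (pairBits N (y r))).card :=
        (Finset.card_union_le _ _).trans (Nat.add_le_add_right (Finset.card_union_le _ _) _)
      have h1 := (hQ r.1 N).1
      have h2 := (hQ V (pairBits (x r) (y r))).1
      have h3 := (hQ r.2 (pairBits N (y r))).1
      rw [hN] at h1
      have hpy : (y r).length ≤ p.eval ((bl r.1).eval n) :=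
        (hy1 r hr).trans (eval_mono _ (hx r))
      have h2' : (pairBits (x r) (y r)).length ≤
          2 * (bl r.1).eval n + 1 + p.eval ((bl r.1).eval n) := by
        rw [length_pairBits_K3]
        have := hx r
        omega
      have h3' : (pairBits N (y r)).length ≤ 2 * n + 1 + p.eval ((bl r.1).eval n) := by
        rw [length_pairBits_K3, hN]
        omega
      have h2'' := h2.trans (eval_mono _ h2')
      have h3'' := h3.trans (eval_mono _ h3')
      have hP1 : (P1 r).eval n = r.1.p.eval n +
          V.p.eval (2 * (bl r.1).eval n + 1 + p.eval ((bl r.1).eval n)) +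
          r.2.p.eval (2 * n + 1 + p.eval ((bl r.1).eval n)) + 1 := by
        simp [P1]
      rw [hP1]
      omega
    · intro h hh hd hZ
      obtain ⟨r, hr, v, hv1, hv2⟩ := hZ
      have hd1 : Disjoint h T := hd.mono_right Finset.subset_union_left
      have hsame := hT' h hh hd1 B
      have hQ3 : ∀ q ∈ Q3 r, plant (allSpots n h) B q = B q := fun q hq =>
        hsame q (Finset.mem_biUnion.mpr ⟨r, hr, hq⟩)
      have e1 : r.1.out (plant (allSpots n h) B) N = r.1.out B N :=
        (hQ r.1 N).2.2 _ fun q hq => hQ3 q
          (Finset.mem_union_left _ (Finset.mem_union_left _ hq))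
      have e2 : V.out (plant (allSpots n h) B) (pairBits (x r) (y r)) =
          V.out B (pairBits (x r) (y r)) :=
        (hQ V _).2.2 _ fun q hq => hQ3 q
          (Finset.mem_union_left _ (Finset.mem_union_right _ hq))
      have e3 : r.2.out (plant (allSpots n h) B) (pairBits N (y r)) =
          r.2.out B (pairBits N (y r)) :=
        (hQ r.2 _).2.2 _ fun q hq => hQ3 q (Finset.mem_union_right _ hq)
      have hv1' : r.1.out B N = some v := by rw [← e1]; exact hv1
      have hxv : x r = v := by simp [x, hv1']
      obtain ⟨c, w, hc, hw, hout, hhit⟩ := hv2 (y r) (by rw [← hxv]; exact hy1 r hr)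
        (by rw [← hxv, e2]; exact hy2 r hr)
      have hout' : r.2.out B (pairBits N (y r)) = some (candStr c w) := by
        rw [← e3]; exact hout
      -- the candidate is in `C r`
      have hex : ∃ κ : Cand, r.2.out B (pairBits N (y r)) = some (candStr κ.1 κ.2) :=
        ⟨(c, w), hout'⟩
      have hch : hex.choose = (c, w) := by
        have h1 := hout'.symm.trans hex.choose_spec
        obtain ⟨h2, h3⟩ := candStr_inj (Option.some.inj h1)
        exact (Prod.ext h2 h3).symm
      have hmemC : (c, w) ∈ C r := by
        simp only [C, dif_pos hex, hch, Finset.mem_singleton]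
      have hnot : (c, w) ∉ h := by
        intro hmem
        exact Finset.disjoint_left.mp hd hmem
          (Finset.mem_union_right _ (Finset.mem_biUnion.mpr ⟨r, hr, hmemC⟩))
      have hW : (c, w) ∈ blkS n j := mem_cands.mpr ⟨Finset.mem_range.mpr hc, hw⟩
      refine hB (c, w) hW fun i hi => ?_
      have h1 := hhit i hi
      unfold plant at h1
      rw [if_neg] at h1
      · exact h1
      · intro hmem
        obtain ⟨κ, hκ, i', _, he⟩ := mem_allSpots.mp hmem
        obtain ⟨h2, -, h3⟩ := pos_inj he
        have : κ = (c, w) := Prod.ext h2.symm h3.symm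
        exact hnot (this ▸ hκ)

end Pool.Agent.H628R3.RO
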