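import Pool.Agent.H628R3.RO.F0
import Pool.Agent.H628R3.RO.E1
import Pool.Agent.H628R3.RO.K3
import Pool.Agent.H628R3.RO.G1

/-!
# Total `NP` search problems relative to a random oracle
-/

namespace Pool.Agent.H628R3.RO

open MeasureTheory Pool.Agent.NPC

/-- the search for a hit -/
def newRel (A : Oracle) (f : ℕ → Option ℕ) (x y : List Bool) : Prop :=
  match f x.length with
  | none => y = []
  | some j => ∃ (c : ℕ) (w : List Bool), c < j ∧ w.length = x.length ∧ y = candStr c w ∧
      Hit x.length (c, w) A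

/-- the questions of the verifier -/
def srcQ (z : List Bool) : List (List Bool) :=
  asks (unpair z).1.length (lvl (unpair z).2) ((unpair z).2.drop (lvl (unpair z).2 + 1))

/-- the test of the verifier, level `j` -/
def srcT (j : ℕ) (x y : List Bool) (a : List Bool) : Bool :=
  ((decide (y = candStr (lvl y) (y.drop (lvl y + 1))) && decide (lvl y < j)) &&
    decide ((y.drop (lvl y + 1)).length = x.length)) && a.all id

/-- the decision of the verifier -/
def srcH (f : ℕ → Option ℕ) (p : List Bool × List Bool) : List Bool :=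
  match f (unpair p.1).1.length with
  | none => if (unpair p.1).2 = [] then [true] else []
  | some j => [srcT j (unpair p.1).1 (unpair p.1).2 p.2]

theorem poly_srcQ : Poly srcQ := by
  have h2 : Poly (fun z : List Bool => (unpair z).2) := Poly.snd poly_unpair
  have h3 := u_lvl h2
  exact p_asks (UPoly.length (Poly.fst poly_unpair)) h3
    (p_drop h2 (UPoly.add h3 (UPoly.const 1)))

theorem poly_srcT {α : Type} [TEnc α] {j : α → ℕ} {x y a : α → List Bool} (hj : Poly j)
    (hx : Poly x) (hy : Poly y) (ha : Poly a) : Poly (fun b => srcT (j b) (x b) (y b) (a b)) := by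
  have h3 := u_lvl hy
  have h4 := p_drop hy (UPoly.add h3 (UPoly.const 1))
  have h5 : Poly (fun b => candStr (lvl (y b)) ((y b).drop (lvl (y b) + 1))) :=
    Poly.append (p_replicate h3 true) (Poly.cons (NPC.Poly.const false) h4)
  exact Poly.and (Poly.and (Poly.and (Poly.decide_eq hy h5) (Poly.decide_lt h3.toPoly hj))
    (Poly.decide_eq (Poly.length h4) (Poly.length hx))) (p_all_id ha)

theorem poly_srcH {f : ℕ → Option ℕ} (hf : Poly (fun x : List Bool => f x.length)) :
    Poly (srcH f) := by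
  have hu : Poly (fun p : List Bool × List Bool => unpair p.1) :=
    poly_unpair.comp (Poly.fst Poly.id)
  refine (Poly.optCases (o := fun p : List Bool × List Bool => f (unpair p.1).1.length)
    (g := fun p => if (unpair p.1).2 = [] then [true] else [])
    (h := fun p j => [srcT j (unpair p.1).1 (unpair p.1).2 p.2])
    (hf.comp (Poly.fst hu)) ?_ ?_).congr fun p => ?_
  · exact Poly.ite (Poly.decide_eq (Poly.snd hu) (NPC.Poly.const _)) (NPC.Poly.const _)
      (NPC.Poly.const _)
  · have h1 : Poly (fun q : (List Bool × List Bool) × ℕ => q.1) := Poly.fst Poly.id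
    exact Poly.cons (poly_srcT (Poly.snd Poly.id) ((Poly.fst hu).comp h1)
      ((Poly.snd hu).comp h1) (Poly.snd h1)) (NPC.Poly.const [])
  · rw [srcH]
    cases f (unpair p.1).1.length <;> rfl

theorem srcH_iff (A : Oracle) (f : ℕ → Option ℕ) (x y : List Bool) :
    srcH f (pairBits x y, (srcQ (pairBits x y)).map A) = [true] ↔ newRel A f x y := by
  rw [srcH, newRel, srcQ]
  simp only [unpair_pairBits]
  cases f x.length with
  | none =>
    simp only
    split_ifs with h
    · simp [h]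
    · simp [h]
  | some j =>
    simp only [List.cons.injEq, and_true]
    rw [srcT, Bool.and_eq_true, asks_all, Bool.and_eq_true, Bool.and_eq_true,
      decide_eq_true_eq, decide_eq_true_eq, decide_eq_true_eq]
    constructor
    · rintro ⟨⟨⟨h1, h2⟩, h3⟩, h4⟩
      exact ⟨_, _, h2, h3, h1, h4⟩
    · rintro ⟨c, w, h1, h2, rfl, h3⟩
      rw [lvl_candStr, drop_candStr]
      exact ⟨⟨⟨rfl, h1⟩, h2⟩, h3⟩

theorem isTFNP_newRel {A : Oracle} {f : ℕ → Option ℕ}
    (hf : Poly (fun x : List Bool => f x.length)) (hfn : ∀ n j, f n = some j → j ≤ n)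
    (hA : ∀ n j, f n = some j → A ∉ BadS n j) : IsTFNP A (newRel A f) := by
  refine ⟨⟨fun z => srcH f (z, (srcQ z).map A), Polynomial.C 2 * Polynomial.X + Polynomial.C 1,
    IsFP.tt poly_srcQ (poly_srcH hf), fun x y => ?_⟩, fun x => ?_⟩
  · rw [srcH_iff]
    refine ⟨fun h => ⟨?_, h⟩, fun h => h.2⟩
    simp only [Polynomial.eval_add, Polynomial.eval_mul, Polynomial.eval_C, Polynomial.eval_X]
    rw [newRel] at h
    cases hj : f x.length with
    | none =>
      rw [hj] at h
      simp only at h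
      rw [h]
      simp
    | some j =>
      rw [hj] at h
      obtain ⟨c, w, h1, h2, rfl, _⟩ := h
      have := hfn _ _ hj
      rw [length_candStr]
      omega
  · cases hj : f x.length with
    | none => exact ⟨[], by rw [newRel, hj]⟩
    | some j =>
      obtain ⟨κ, hκ, h2⟩ := not_mem_noHit.1 (hA _ _ hj)
      rw [blkS, mem_cands, Finset.mem_range] at hκ
      refine ⟨candStr κ.1 κ.2, ?_⟩
      rw [newRel, hj]
      exact ⟨κ.1, κ.2, hκ.1, hκ.2, rfl, h2⟩

/-- the core -/
theorem ae_F (V : Alg) (p : Polynomial ℕ) : ∃ b : Polynomial ℕ,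
    Check BadS (fun n _ => ErrF V p n) b ∧
    ∀ᵐ A ∂randomOracle, (∀ n j, A ∉ BadS n j ∩ ErrF V p n) →
      ∃ (t : ℕ) (L : List (List Bool)),
      (∃ i0, ∀ i ≥ i0, A ∉ BadS (Tt b t i) (lev BadS (fun n _ => ErrF V p n) t L (Tt b t) i)) ∧
      ∀ (r : Alg × Alg) (i0 : ℕ), ∃ i ≥ i0,
        A ∉ GoodF V p r (Tt b t i) (lev BadS (fun n _ => ErrF V p n) t L (Tt b t) i) := by
  obtain ⟨b, hc⟩ := check_F V p
  choose b' hb' using fun r : Alg × Alg => loc_GoodF V p r
  refine ⟨b, hc, ?_⟩
  exact core_one (R := Alg × Alg) BadS (fun n _ => ErrF V p n) (GoodF V p) spotsS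
    (fun n j => lt_length_spotsS) (fun n n' j j' h => disjoint_spotsS n n' j j' h)
    loc_BadS (fun n j => measurableSet_of_loc (finite_length_le _) (hc.locErr n j))
    (fun r n j => measurableSet_of_loc (finite_length_le _) (hb' r n j))
    prob_BadS_le prob_BadS_ge (key_F V p)
    (fun t _ => Tt b t) (fun t _ => strictMono_Tt b t) (fun t _ => le_rfl)

theorem countable_poly : Countable (Polynomial ℕ) := by
  have : Function.Injective (fun p : Polynomial ℕ => (p.toFinsupp.coeff : ℕ →₀ ℕ)) := by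
    intro p q h
    ext n
    exact DFunLike.congr_fun h n
  exact this.countable

/-- With probability one, there is no complete total `NP` search problem. -/
theorem tfnp_main : ∀ᵐ A ∂randomOracle, ∀ S, IsTFNP A S →
    ∃ R, IsTFNP A R ∧ ¬ RedSearch A R S := by
  have := countable_poly
  choose b hc hcore using fun q : Alg × Polynomial ℕ => ae_F q.1 q.2
  have hall : ∀ᵐ A ∂randomOracle, ∀ q : Alg × Polynomial ℕ,
      (∀ n j, A ∉ BadS n j ∩ ErrF q.1 q.2 n) → ∃ (t : ℕ) (L : List (List Bool)),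
      (∃ i0, ∀ i ≥ i0, A ∉ BadS (Tt (b q) t i)
        (lev BadS (fun n _ => ErrF q.1 q.2 n) t L (Tt (b q) t) i)) ∧
      ∀ (r : Alg × Alg) (i0 : ℕ), ∃ i ≥ i0, A ∉ GoodF q.1 q.2 r (Tt (b q) t i)
        (lev BadS (fun n _ => ErrF q.1 q.2 n) t L (Tt (b q) t) i) := ae_all_iff.2 hcore
  filter_upwards [hall] with A hA R hR
  obtain ⟨⟨V, p, ⟨M, hM⟩, hV⟩, htot⟩ := hR
  obtain ⟨t, S, ⟨i1, h1⟩, h2⟩ := hA (M, p) (by
    rintro n j ⟨_, x, _, h4⟩
    obtain ⟨y, hy⟩ := htot x
    obtain ⟨h5, h6⟩ := (hV x y).1 hy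
    exact h4 y h5 (by rw [hM, h6]))
  set f := schK BadS (fun n _ => ErrF M p n) (b (M, p)) t S (Tt (b (M, p)) t i1) with hf
  have hfn : ∀ n j, f n = some j → j ≤ n := fun n j h => schK_le h
  have hfA : ∀ n j, f n = some j → A ∉ BadS n j := by
    intro n j h
    obtain ⟨h3, i, rfl, rfl⟩ := eq_of_schK h
    exact h1 i ((strictMono_Tt (b (M, p)) t).le_iff_le.1 h3)
  have hpf : Poly (fun x : List Bool => f x.length) := p_schK (hc (M, p)) t S _
  refine ⟨newRel A f, isTFNP_newRel hpf hfn hfA, ?_⟩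
  rintro ⟨F, G, ⟨r1, hr1⟩, ⟨r2, hr2⟩, hred⟩
  obtain ⟨i, hi, h3⟩ := h2 (r1, r2) i1
  set n := Tt (b (M, p)) t i with hn
  set j := lev BadS (fun n _ => ErrF M p n) t S (Tt (b (M, p)) t) i with hj
  have hfi : f n = some j := schK_Tt ((strictMono_Tt (b (M, p)) t).monotone hi)
  refine h3 ⟨_, hr1 _, fun y hy hy' => ?_⟩
  rw [hM, Option.some.injEq] at hy'
  have h4 := hred (List.replicate n true) y ((hV _ _).2 ⟨hy, hy'⟩)
  rw [newRel, List.length_replicate, hfi] at h4
  obtain ⟨c, w, h5, h6, h7, h8⟩ := h4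
  exact ⟨c, w, h5, h6, by rw [hr2, h7], h8⟩

end Pool.Agent.H628R3.RO
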