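import Pool.Agent.H628R3.RO.BaseE
import Pool.Agent.H628R3.RO.D3
import Pool.Agent.H628R3.RO.D4
import Pool.Agent.H628R3.RO.D5
import Pool.Agent.H628R3.RO.M5
import Pool.Agent.H628R3.RO.K2

/-! Task K6: the key inequality for pairs of coNP sets. -/

namespace Pool.Agent.H628R3.RO

open MeasureTheory Pool.Agent.NPC

theorem lvC_ge {s : ℕ} (hs : 4 ≤ s) : 2 ≤ lvC s := by
  unfold lvC
  have h1 : Nat.size 4 ≤ Nat.size s := Nat.size_le_size hs
  have h2 : Nat.size 4 = 3 := by decide
  omega

theorem pos_mem_spotsC {n s : ℕ} {i : Bool} {κ : Cand} (hκ : κ ∈ halfC i n s) {l : ℕ}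
    (hl : l < n) : pos κ.1 l κ.2 ∈ spotsC n s := by
  unfold spotsC
  rw [mem_allSpots]
  refine ⟨κ, ?_, l, hl, rfl⟩
  cases i
  · exact Finset.mem_union_left _ hκ
  · exact Finset.mem_union_right _ hκ

/-- the numerical end of the argument -/
theorem keyC_num {ρ H X G τ lam : ℝ} (hρ0 : 0 < ρ) (hρ1 : ρ ≤ 1 / 2) (hτ : τ ≤ 1 / 16)
    (hlam0 : 0 ≤ lam) (hlam : lam ≤ ρ) (hH : 0 ≤ H) (hG : 0 ≤ G)
    (h : (1 - ρ) * (ρ ^ 2 * H - X) - τ * ρ ^ 2 * H ≤ ρ * G) :
    1 / 2 * lam * (7 / 8 * H - X / ρ ^ 2) ≤ G := by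
  rcases le_or_gt (7 / 8 * H - X / ρ ^ 2) 0 with hneg | hpos
  · exact le_trans (mul_nonpos_of_nonneg_of_nonpos (by positivity) hneg) hG
  · -- `Y = X / ρ²`
    set Y := X / ρ ^ 2 with hY
    have hX : X = ρ ^ 2 * Y := by rw [hY]; field_simp
    rw [hX] at h
    have h1 : ρ * ((1 - ρ) * ρ * (H - Y) - τ * ρ * H) ≤ ρ * G := by
      refine le_trans (le_of_eq ?_) h
      ring
    have h2 := le_of_mul_le_mul_left h1 hρ0
    have h3 : τ * ρ * H ≤ 1 / 16 * ρ * H := by
      have : τ * (ρ * H) ≤ 1 / 16 * (ρ * H) := mul_le_mul_of_nonneg_right hτ (by positivity)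
      nlinarith
    have h4 : 1 / 16 * ρ * H ≤ (1 - ρ) * ρ * (1 / 8 * H) := by
      have : 1 / 2 * (ρ * (1 / 8 * H)) ≤ (1 - ρ) * (ρ * (1 / 8 * H)) :=
        mul_le_mul_of_nonneg_right (by linarith) (by positivity)
      nlinarith
    have h5 : (1 - ρ) * ρ * (7 / 8 * H - Y) ≤ G := by nlinarith
    refine le_trans ?_ h5
    refine mul_le_mul_of_nonneg_right ?_ hpos.le
    have : 1 / 2 * ρ ≤ (1 - ρ) * ρ := mul_le_mul_of_nonneg_right (by linarith) hρ0.le
    linarith

theorem key_C (V : Bool → Alg) (p : Bool → Polynomial ℕ) (r : Alg) : ∃ n0, ∀ n ≥ n0, ∀ s,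
    4 ≤ s → s ≤ n → ∀ t < n, ∀ η : Set Oracle, Loc {x | x.length ≤ t} η →
    (1 / 2 : ℝ) * (3 / 10) ^ (lvC s) * (7 / 8 * prob η -
      prob (η ∩ (BadC n s ∩ ErrC V p n)) / prob (BadC n s)) ≤
      prob (η ∩ (GoodC V p r n s)ᶜ) := by
  classical
  obtain ⟨bE, hbE⟩ := loc_ErrC V p
  obtain ⟨bG, hbG⟩ := loc_GoodC V p r
  obtain ⟨bl, hbl⟩ := r.out_length
  obtain ⟨qr, hqr⟩ := r.out_local
  choose qV hqV using fun i => (V i).out_local
  let PV : Bool → Polynomial ℕ := fun i =>
    (V i).p.comp (2 * bl + 1 + (p i).comp bl)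
  obtain ⟨n1, hn1⟩ := poly_le_two_pow bl
  obtain ⟨n2, hn2⟩ := mul_poly_le_two_pow (r.p + PV false + PV true) 16
  refine ⟨max (max n1 n2) 2, fun n hn s hs4 hsn t ht η hη => ?_⟩
  have hn1' := hn1 n (le_trans (le_trans (le_max_left _ _) (le_max_left _ _)) hn)
  have hn2' := hn2 n (le_trans (le_trans (le_max_right _ _) (le_max_left _ _)) hn)
  have hnn : 2 ≤ n := le_trans (le_max_right _ _) hn
  set t0 : ℕ := (r.p + PV false + PV true).eval n with ht0
  set b : ℕ := bE.eval (2 ^ n) + bG.eval (2 ^ n) + (5 * n + 5) with hb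
  have hlong : ∀ x ∈ spotsC n s, ¬ x.length ≤ t := by
    intro x hx hxt
    have := lt_length_spotsC x hx
    omega
  have hkey := key_twoC (finite_length_le b) (Z := GoodC V p r n s) (E := ErrC V p n) (η := η)
    ((hbG n s hsn).mono fun x hx => by
      simp only [Set.mem_ofPred_eq] at hx ⊢; omega)
    ((hbE n).mono fun x hx => by
      simp only [Set.mem_ofPred_eq] at hx ⊢; omega)
    (hη.mono fun x hx => by
      simp only [Set.mem_ofPred_eq] at hx ⊢; omega)
    (fun i => halfC i n s) (disjoint_halfC n s) (m := n) (w := lvC s * 2 ^ n) (by omega)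
    (fun i => card_halfC i n s) t0
    (fun i κ hκ l hl => by
      have := length_le_spotsC hsn _ (pos_mem_spotsC hκ hl)
      simp only [Set.mem_ofPred_eq]; omega)
    (fun B h hh => by
      refine hη _ _ fun x hx => ?_
      unfold plant
      rw [if_neg]
      intro hmem
      obtain ⟨κ, hκ, l, hl, rfl⟩ := mem_allSpots.mp hmem
      refine hlong _ ?_ hx
      rcases Finset.mem_union.mp (hh hκ) with h1 | h1
      · exact pos_mem_spotsC h1 hl
      · exact pos_mem_spotsC h1 hl)
    (fun B hB hBE => by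
      set N : List Bool := List.replicate n true with hN
      have hNl : N.length = n := by simp [hN]
      obtain ⟨Q0, hQ0c, -, hQ0⟩ := hqr B N
      rw [hNl] at hQ0c
      cases hout : r.out B N with
      | none =>
        obtain ⟨T, hT, hT'⟩ := touch (halfC false n s ∪ halfC true n s) n Q0
        refine ⟨T, hT.trans (hQ0c.trans ?_), false, fun h hh _ hd hZ => ?_⟩
        · rw [ht0]
          simp only [Polynomial.eval_add]
          omega
        · obtain ⟨x, hx, -⟩ := hZ
          have e1 : r.out (plant (allSpots n h) B) N = r.out B N :=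
            hQ0 _ fun q hq => hT' h (hh.trans Finset.subset_union_left) hd B q hq
          rw [e1, hout] at hx
          exact absurd hx (by simp)
      | some x =>
        have hxl : x.length ≤ bl.eval n := by simpa [hNl] using hbl B N x hout
        have hw : ∃ i', Wit (V i') (p i') x B := by
          by_contra hcon
          push Not at hcon
          exact hBE ⟨x, hxl.trans hn1', hcon⟩
        obtain ⟨i', y, hy, hV⟩ := hw
        obtain ⟨Q1, hQ1c, -, hQ1⟩ := hqV i' B (pairBits x y)
        obtain ⟨T, hT, hT'⟩ := touch (halfC false n s ∪ halfC true n s) n (Q0 ∪ Q1)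
        refine ⟨T, (hT.trans (Finset.card_union_le _ _)).trans ?_, !i', fun h hh _ hd hZ => ?_⟩
        · have h1 : (pairBits x y).length ≤ 2 * bl.eval n + 1 + (p i').eval (bl.eval n) := by
            rw [length_pairBits]
            have := hy.trans (eval_mono (p i') hxl)
            omega
          have h2 : Q1.card ≤ (PV i').eval n := by
            refine hQ1c.trans ((eval_mono _ h1).trans (le_of_eq ?_))
            simp [PV]
          rw [ht0]
          simp only [Polynomial.eval_add]
          cases i' <;> omega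
        · have hhu : h ⊆ halfC false n s ∪ halfC true n s := by
            refine hh.trans ?_
            cases i'
            · exact Finset.subset_union_right
            · exact Finset.subset_union_left
          have hsame := hT' h hhu hd B
          obtain ⟨x', hx', hx2⟩ := hZ
          have e1 : r.out (plant (allSpots n h) B) N = r.out B N :=
            hQ0 _ fun q hq => hsame q (Finset.mem_union_left _ hq)
          rw [e1, hout] at hx'
          obtain rfl : x = x' := Option.some.inj hx'
          have e2 : (V i').out (plant (allSpots n h) B) (pairBits x y) =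
              (V i').out B (pairBits x y) :=
            hQ1 _ fun q hq => hsame q (Finset.mem_union_right _ hq)
          refine hx2 i' ?_ ⟨y, hy, by rw [e2, hV]⟩
          -- the half `i'` has still no hit
          intro hhit
          apply hhit
          intro κ hκ hκh
          have hκu : κ ∈ halfC false n s ∪ halfC true n s := by
            cases i'
            · exact Finset.mem_union_left _ hκ
            · exact Finset.mem_union_right _ hκ
          have hκn : κ ∉ h := by
            intro hκ2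
            have h3 := hh hκ2
            cases i'
            · exact Finset.disjoint_left.mp (disjoint_halfC n s) hκ h3
            · exact Finset.disjoint_left.mp (disjoint_halfC n s) h3 hκ
          refine hB κ hκu fun l hl => ?_
          have h4 := hκh l hl
          unfold plant at h4
          rw [if_neg] at h4
          · exact h4
          · intro hmem
            obtain ⟨κ2, hκ2, l2, _, he⟩ := mem_allSpots.mp hmem
            obtain ⟨h5, -, h6⟩ := pos_inj he
            have : κ2 = κ := Prod.ext h5.symm h6.symm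
            exact hκn (this ▸ hκ2))
  rw [← BadC_eq] at hkey
  have hρ1 : (1 - (1 / 2 : ℝ) ^ n) ^ (lvC s * 2 ^ n) ≤ 1 / 2 := by
    refine (satC_le n (lvC s)).trans ?_
    calc (2 / 5 : ℝ) ^ lvC s ≤ (2 / 5) ^ 2 :=
          pow_le_pow_of_le_one (by norm_num) (by norm_num) (lvC_ge hs4)
      _ ≤ 1 / 2 := by norm_num
  have hρ2 := satC_ge hnn (lvC s)
  have hρ0 : 0 < (1 - (1 / 2 : ℝ) ^ n) ^ (lvC s * 2 ^ n) :=
    lt_of_lt_of_le (by positivity) hρ2
  rw [prob_BadC]
  have hτ : (t0 : ℝ) * (1 / 2) ^ n ≤ 1 / 16 := by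
    have h3 : (16 * t0 : ℝ) ≤ 2 ^ n := by exact_mod_cast hn2'
    have h4 : (1 / 2 : ℝ) ^ n * 2 ^ n = 1 := by
      rw [← mul_pow]; norm_num
    have h5 : (0 : ℝ) ≤ (1 / 2) ^ n := by positivity
    nlinarith
  exact keyC_num hρ0 hρ1 hτ (by positivity) hρ2 measureReal_nonneg measureReal_nonneg hkey

end Pool.Agent.H628R3.RO
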