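import Pool.Agent.H628R3.RO.Base
import Pool.Agent.NPC.Dec
import Pool.Agent.H622R2.CoNP

/-! Stubs: the abstract core, oracle algorithms. Never import this file in a finished file. -/

namespace Pool.Agent.H628R3.RO

open MeasureTheory Pool.Agent.NPC

/-! ### Task C1: file `C1.lean` (the definitions `chk`, `lev` are in that file) -/

section

variable (Bad Err : ℕ → ℕ → Set Oracle) (t : ℕ) (L : List (List Bool))

open Classical in
/-- the check at stage `n` with level `j`: given the bad event, the candidate is wrong with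
probability less than `1 / 4` -/
noncomputable def chk (n j : ℕ) : Bool :=
  decide (4 * prob (cyl t L ∩ (Bad n j ∩ Err n j)) < prob (cyl t L ∩ Bad n j))

/-- the levels: go to the next level if the check was successful -/
noncomputable def lev (T : ℕ → ℕ) : ℕ → ℕ
  | 0 => 4
  | i + 1 => lev T i + (chk Bad Err t L (T i) (lev T i)).toNat

end

theorem core_one {R : Type} [Countable R] (Bad Err : ℕ → ℕ → Set Oracle)
    (Good : R → ℕ → ℕ → Set Oracle) (K : ℕ → ℕ → Finset (List Bool))
    (hK : ∀ n j, ∀ x ∈ K n j, n < x.length)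
    (hKd : ∀ n n' j j', n ≠ n' → Disjoint (K n j) (K n' j'))
    (hBad : ∀ n j, Loc (K n j) (Bad n j)) (hErr : ∀ n j, MeasurableSet (Err n j))
    (hGood : ∀ r n j, MeasurableSet (Good r n j))
    (h1 : ∀ n j, prob (Bad n j) ≤ (1 / 2) ^ j)
    (h2 : ∀ j, ∃ c > 0, ∀ n ≥ 1, c ≤ prob (Bad n j))
    (key : ∀ R' : Finset R, ∃ n0, ∀ n ≥ n0, ∀ j, 4 ≤ j → j ≤ n → ∀ t < n,
      ∀ L : List (List Bool),
      4 * prob (cyl t L ∩ (Bad n j ∩ Err n j)) < prob (cyl t L ∩ Bad n j) →
      prob (cyl t L ∩ {A | ∃ r ∈ R', A ∈ Good r n j}) ≤ (1 / 2) * prob (cyl t L))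
    (T : ℕ → List (List Bool) → ℕ → ℕ) (hT : ∀ t L, StrictMono (T t L))
    (hT0 : ∀ t L, t + 4 ≤ T t L 0) :
    ∀ᵐ A ∂randomOracle, (∀ n j, A ∉ Bad n j ∩ Err n j) → ∃ (t : ℕ) (L : List (List Bool)),
      (∃ k, ∀ i ≥ k, A ∉ Bad (T t L i) (lev Bad Err t L (T t L) i)) ∧
      ∀ r k, ∃ i ≥ k, A ∉ Good r (T t L i) (lev Bad Err t L (T t L) i) := by sorry

/-! ### Task A1: file `A1.lean`: locality of oracle algorithms, countability -/

theorem Alg.out_local (M : Alg) : ∃ qb : Polynomial ℕ, ∀ (A : Oracle) (x : List Bool),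
    ∃ Q : Finset (List Bool), Q.card ≤ M.p.eval x.length ∧
      (∀ q ∈ Q, q.length ≤ qb.eval x.length) ∧
      ∀ A' : Oracle, (∀ q ∈ Q, A' q = A q) → M.out A' x = M.out A x := by sorry

theorem Alg.out_length (M : Alg) : ∃ b : Polynomial ℕ, ∀ (A : Oracle) (x z : List Bool),
    M.out A x = some z → z.length ≤ b.eval x.length := by sorry

theorem countable_polyTime : {D : List Bool → List Bool | PolyTime D}.Countable := by sorry

instance Alg.countable : Countable Alg := by sorry

/-! ### Task A2: file `A2.lean`: closure properties of polynomial time relative to an oracle -/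

/-- nonadaptive algorithms -/
theorem IsFP.tt {A : Oracle} {Q : List Bool → List (List Bool)}
    {H : List Bool × List Bool → List Bool} (hQ : Poly Q) (hH : Poly H) :
    IsFP A (fun x => H (x, (Q x).map A)) := by sorry

/-- one algorithm after the other -/
theorem IsFP.seq {A : Oracle} {F G : List Bool → List Bool} (hF : IsFP A F) (hG : IsFP A G)
    {φ : List Bool × List Bool → List Bool} {ψ : List Bool × List Bool × List Bool → List Bool}
    (hφ : Poly φ) (hψ : Poly ψ) :
    IsFP A (fun x => ψ (x, F x, G (φ (x, F x)))) := by sorry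

/-! ### Task A3: file `A3.lean` (imports A2): corollaries and transfer along reductions -/

theorem IsFP.of_poly {A : Oracle} {F : List Bool → List Bool} (hF : Poly F) : IsFP A F := by
  sorry

theorem IsFP.comp {A : Oracle} {F G : List Bool → List Bool} (hG : IsFP A G) (hF : IsFP A F) :
    IsFP A (fun x => G (F x)) := by sorry

theorem IsFP.pair {A : Oracle} {F G : List Bool → List Bool} (hF : IsFP A F) (hG : IsFP A G) :
    IsFP A (fun x => pairBits (F x) (G x)) := by sorry

/-- a function computed in polynomial time has polynomially bounded values -/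
theorem IsFP.length_le {A : Oracle} {F : List Bool → List Bool} (hF : IsFP A F) :
    ∃ b : Polynomial ℕ, ∀ x, (F x).length ≤ b.eval x.length := by sorry

theorem IsOptimal.transfer {A : Oracle} {L L₀ : Set (List Bool)} {P : List Bool → List Bool}
    (h : IsOptimal A L P) (hr : Red A L₀ L) (hne : L₀.Nonempty) :
    ∃ P₀, IsOptimal A L₀ P₀ := by sorry

theorem IsPOptimal.transfer {A : Oracle} {L L₀ : Set (List Bool)} {P : List Bool → List Bool}
    (h : IsPOptimal A L P) (hr : Red A L₀ L) (hne : L₀.Nonempty) :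
    ∃ P₀, IsPOptimal A L₀ P₀ := by sorry

/-! ### Task N1: file `N1.lean`: counting -/

/-- all strings of length `n` -/
def strsEq : ℕ → List (List Bool)
  | 0 => [[]]
  | n + 1 => (strsEq n).flatMap (fun w => [false :: w, true :: w])

/-- all strings of length at most `n` -/
def strs : ℕ → List (List Bool)
  | 0 => [[]]
  | n + 1 => strs n ++ strsEq (n + 1)

theorem mem_strs {n : ℕ} {x : List Bool} : x ∈ strs n ↔ x.length ≤ n := by sorry

theorem length_strs (n : ℕ) : (strs n).length + 1 = 2 ^ (n + 1) := by sorry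

theorem nodup_strs (n : ℕ) : (strs n).Nodup := by sorry

open Classical in
theorem prob_eq_count {n : ℕ} {S : Set Oracle} (h : Loc {x | x.length ≤ n} S) :
    prob S * 2 ^ (strs n).length =
      ((strs n).sublists.filter (fun l => decide (ofL l ∈ S))).length := by sorry

end Pool.Agent.H628R3.RO
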