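import Pool.Agent.H628R3.RO.Base

/-! Stubs: measure theory and probability. Never import this file in a finished file. -/

namespace Pool.Agent.H628R3.RO

open MeasureTheory

/-! Task M1: file `M1.lean` -/

theorem measurableSet_of_loc {K : Set (List Bool)} (hK : K.Finite) {S : Set Oracle}
    (h : Loc K S) : MeasurableSet S := by sorry

theorem prob_plant {S : Set Oracle} (hS : MeasurableSet S) (J : Finset (List Bool)) :
    prob ({A | ∀ x ∈ J, A x = true} ∩ S) = (1 / 2) ^ J.card * prob (plant J ⁻¹' S) := by sorry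

theorem prob_inter_of_disjoint {K K' : Set (List Bool)} (hK : K.Finite) (hK' : K'.Finite)
    (hd : Disjoint K K') {S S' : Set Oracle} (h : Loc K S) (h' : Loc K' S') :
    prob (S ∩ S') = prob S * prob S' := by sorry

/-! Task M2: file `M2.lean` (imports M1) -/

theorem prob_hitSet {S : Set Oracle} (hS : MeasurableSet S) (m : ℕ) {W h : Finset Cand}
    (hh : h ⊆ W) :
    prob (S ∩ HitSet m W h) * (1 - (1 / 2) ^ m) ^ h.card =
      ((1 / 2) ^ m) ^ h.card * prob (plant (allSpots m h) ⁻¹' S ∩ NoHit m W) := by sorry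

theorem prob_noHit_inter {K : Set (List Bool)} (hK : K.Finite) {S : Set Oracle} (hS : Loc K S)
    (m : ℕ) (W : Finset Cand) (hW : ∀ κ ∈ W, ∀ i < m, pos κ.1 i κ.2 ∉ K) :
    prob (S ∩ NoHit m W) = prob S * (1 - (1 / 2) ^ m) ^ W.card := by sorry

/-- Typical oracles have hits, the bad ones have none. -/
theorem key_sat {K : Set (List Bool)} (hK : K.Finite) {Z E τ : Set Oracle} (hZ : Loc K Z)
    (hE : Loc K E) (hτ : Loc K τ) (W : Finset Cand) {m : ℕ} (hm : 1 ≤ m) (t : ℕ)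
    (hW : ∀ κ ∈ W, ∀ i < m, pos κ.1 i κ.2 ∈ K)
    (hτ' : ∀ (B : Oracle) (h : Finset Cand), h ⊆ W → (plant (allSpots m h) B ∈ τ ↔ B ∈ τ))
    (hkey : ∀ B ∈ NoHit m W, B ∉ E → ∃ T : Finset Cand, T.card ≤ t ∧
      ∀ h ⊆ W, Disjoint h T → plant (allSpots m h) B ∉ Z) :
    prob (Z ∩ τ) * (1 - (1 / 2) ^ m) ^ W.card ≤
      prob (E ∩ τ ∩ NoHit m W) + t * (1 / 2) ^ m * prob (τ ∩ NoHit m W) := by sorry

/-- Typical oracles have no hit, the bad ones have. -/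
theorem key_taut {K : Set (List Bool)} (hK : K.Finite) {Z E τ : Set Oracle} (hZ : Loc K Z)
    (hE : Loc K E) (hτ : Loc K τ) (W : Finset Cand) {m : ℕ} (hm : 1 ≤ m) (t : ℕ)
    (hW : ∀ κ ∈ W, ∀ i < m, pos κ.1 i κ.2 ∈ K)
    (hτ' : ∀ (B : Oracle) (h : Finset Cand), h ⊆ W → (plant (allSpots m h) B ∈ τ ↔ B ∈ τ))
    (hkey : ∀ B ∈ NoHit m W, B ∈ Z → ∃ T : Finset Cand, T.card ≤ t ∧
      ∀ h ⊆ W, h.Nonempty → Disjoint h T → plant (allSpots m h) B ∈ E) :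
    prob (Z ∩ τ ∩ NoHit m W) * (1 - (1 - (1 / 2) ^ m) ^ W.card) ≤
      (prob (E ∩ τ ∩ (NoHit m W)ᶜ) + t * (1 / 2) ^ m * prob τ) * (1 - (1 / 2) ^ m) ^ W.card := by
  sorry

/-! Task M3: file `M3.lean` -/

theorem exists_cyl {S : Set Oracle} (hS : MeasurableSet S) (h0 : 0 < prob S) {δ : ℝ}
    (hδ : 0 < δ) : ∃ (t : ℕ) (L : List (List Bool)),
      0 < prob (cyl t L) ∧ (1 - δ) * prob (cyl t L) ≤ prob (S ∩ cyl t L) := by sorry

/-! Task M4: file `M4.lean` -/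

theorem card_cands (C : Finset ℕ) (n : ℕ) : (cands C n).card = C.card * 2 ^ n := by sorry

/-- `j` copies with `n` bits for every candidate: no hit has probability between `4 ^ (-j)` and
`2 ^ (-j)`. -/
theorem sat_le (n j : ℕ) :
    (1 - (1 / 2 : ℝ) ^ n) ^ (j * 2 ^ n) ≤ (1 / 2) ^ j := by sorry

theorem sat_ge {n : ℕ} (hn : 1 ≤ n) (j : ℕ) :
    (1 / 4 : ℝ) ^ j ≤ (1 - (1 / 2 : ℝ) ^ n) ^ (j * 2 ^ n) := by sorry

/-- one copy with `n + j` bits for every candidate: a hit has probability between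
`2 ^ (-j-1)` and `2 ^ (-j)`. -/
theorem taut_le (n j : ℕ) :
    1 - (1 - (1 / 2 : ℝ) ^ (n + j)) ^ (2 ^ n) ≤ (1 / 2) ^ j := by sorry

theorem taut_ge (n j : ℕ) :
    (1 / 2 : ℝ) ^ (j + 1) ≤ 1 - (1 - (1 / 2 : ℝ) ^ (n + j)) ^ (2 ^ n) := by sorry

end Pool.Agent.H628R3.RO
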