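import Pool.Agent.H628R3.RO.BaseD
import Pool.Agent.H628R3.RO.StubsM
import Pool.Agent.H628R3.RO.StubsC

/-! Stubs, second part. Never import this file in a finished file. -/

namespace Pool.Agent.H628R3.RO

open MeasureTheory Pool.Agent.NPC

/-! ### Task D1: file `D1.lean` (imports BaseD, M1, M2, M4): facts about the blocks -/

theorem lvl_code (n j : ℕ) : lvl (code n j) = j := by sorry

theorem siz_code (n j : ℕ) : siz (code n j) = n := by sorry

theorem pos_inj {c c' i i' : ℕ} {w w' : List Bool} (h : pos c i w = pos c' i' w') :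
    c = c' ∧ i = i' ∧ w = w' := by sorry

theorem length_pos (c i : ℕ) (w : List Bool) : (pos c i w).length = c + i + w.length + 2 := by
  sorry

theorem mem_cands {C : Finset ℕ} {n : ℕ} {κ : Cand} :
    κ ∈ cands C n ↔ κ.1 ∈ C ∧ κ.2.length = n := by sorry

theorem mem_allSpots {m : ℕ} {h : Finset Cand} {x : List Bool} :
    x ∈ allSpots m h ↔ ∃ κ ∈ h, ∃ i < m, x = pos κ.1 i κ.2 := by sorry

theorem lt_length_spotsT {n j : ℕ} : ∀ x ∈ spotsT n j, n < x.length := by sorry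

theorem lt_length_spotsS {n j : ℕ} : ∀ x ∈ spotsS n j, n < x.length := by sorry

theorem length_le_spotsT {n j : ℕ} (hj : j ≤ n) : ∀ x ∈ spotsT n j, x.length ≤ 3 * n + 2 := by
  sorry

theorem length_le_spotsS {n j : ℕ} (hj : j ≤ n) : ∀ x ∈ spotsS n j, x.length ≤ 3 * n + 2 := by
  sorry

theorem disjoint_spotsT (n n' j j' : ℕ) (h : n ≠ n') : Disjoint (spotsT n j) (spotsT n' j') := by
  sorry

theorem disjoint_spotsS (n n' j j' : ℕ) (h : n ≠ n') : Disjoint (spotsS n j) (spotsS n' j') := by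
  sorry

theorem loc_BadT (n j : ℕ) : Loc (spotsT n j) (BadT n j) := by sorry

theorem loc_BadS (n j : ℕ) : Loc (spotsS n j) (BadS n j) := by sorry

theorem prob_BadT (n j : ℕ) :
    prob (BadT n j) = 1 - (1 - (1 / 2 : ℝ) ^ (n + j)) ^ (2 ^ n) := by sorry

theorem prob_BadS (n j : ℕ) :
    prob (BadS n j) = (1 - (1 / 2 : ℝ) ^ n) ^ (j * 2 ^ n) := by sorry

theorem prob_BadT_le (n j : ℕ) : prob (BadT n j) ≤ (1 / 2) ^ j := by sorry

theorem prob_BadS_le (n j : ℕ) : prob (BadS n j) ≤ (1 / 2) ^ j := by sorry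

theorem prob_BadT_ge (j : ℕ) : ∃ c > 0, ∀ n ≥ 1, c ≤ prob (BadT n j) := by sorry

theorem prob_BadS_ge (j : ℕ) : ∃ c > 0, ∀ n ≥ 1, c ≤ prob (BadS n j) := by sorry

theorem loc_cyl (t : ℕ) (L : List (List Bool)) : Loc {x | x.length ≤ t} (cyl t L) := by sorry

theorem finite_length_le (t : ℕ) : {x : List Bool | x.length ≤ t}.Finite := by sorry

/-! ### Task D2: file `D2.lean` (imports D1, A1, M1): the events are local -/

theorem loc_ErrP (M : Alg) : ∃ b : Polynomial ℕ, ∀ n j, Loc {x | x.length ≤ b.eval (2 ^ n)}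
    (ErrP M n j) := by sorry

theorem loc_ErrF (V : Alg) (p : Polynomial ℕ) : ∃ b : Polynomial ℕ, ∀ n,
    Loc {x | x.length ≤ b.eval (2 ^ n)} (ErrF V p n) := by sorry

theorem loc_GoodT (M : Alg) {k : ℕ} (hk : 1 ≤ k) : ∃ b : Polynomial ℕ, ∀ n j,
    Loc {x | x.length ≤ b.eval (2 ^ n)} (GoodT M k n j) := by sorry

theorem loc_GoodS (M h : Alg) : ∃ b : Polynomial ℕ, ∀ n j,
    Loc {x | x.length ≤ b.eval n} (GoodS M h n j) := by sorry

/-- (here `j` may be large) -/
theorem loc_GoodF (V : Alg) (p : Polynomial ℕ) (r : Alg × Alg) : ∃ b : Polynomial ℕ, ∀ n j,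
    Loc {x | x.length ≤ b.eval (n + j)} (GoodF V p r n j) := by sorry

/-! ### Task K1: file `K1.lean` (imports D1, D2, M2, A1) -/

/-- exponential gap: a candidate that does not err has no short proofs -/
theorem key_T (M : Alg) : ∃ k ≥ 1, ∃ n0, ∀ n ≥ n0, ∀ j, 4 ≤ j → j ≤ n → ∀ t < n,
    ∀ L : List (List Bool),
    4 * prob (cyl t L ∩ (BadT n j ∩ ErrP M n j)) < prob (cyl t L ∩ BadT n j) →
    prob (cyl t L ∩ GoodT M k n j) ≤ (1 / 2) * prob (cyl t L) := by sorry

/-! ### Task K2: file `K2.lean` (imports D1, D2, M2, A1) -/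

theorem key_S (M : Alg) (R' : Finset Alg) : ∃ n0, ∀ n ≥ n0, ∀ j, 4 ≤ j → j ≤ n → ∀ t < n,
    ∀ L : List (List Bool),
    4 * prob (cyl t L ∩ (BadS n j ∩ ErrP M n j)) < prob (cyl t L ∩ BadS n j) →
    prob (cyl t L ∩ {A | ∃ h ∈ R', A ∈ GoodS M h n j}) ≤ (1 / 2) * prob (cyl t L) := by sorry

/-! ### Task K3: file `K3.lean` (imports D1, D2, M2, A1) -/

theorem key_F (V : Alg) (p : Polynomial ℕ) (R' : Finset (Alg × Alg)) : ∃ n0, ∀ n ≥ n0, ∀ j,
    4 ≤ j → j ≤ n → ∀ t < n, ∀ L : List (List Bool),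
    4 * prob (cyl t L ∩ (BadS n j ∩ ErrF V p n)) < prob (cyl t L ∩ BadS n j) →
    prob (cyl t L ∩ {A | ∃ r ∈ R', A ∈ GoodF V p r n j}) ≤ (1 / 2) * prob (cyl t L) := by sorry

/-! ### Task P3, P4 (helper628): the schedule is computable in polynomial time -/

/-- The data of a check that can be carried out in a known time. -/
structure Check (Bad Err : ℕ → ℕ → Set Oracle) (b : Polynomial ℕ) : Prop where
  le_eval : ∀ m, m ≤ b.eval m
  locErr : ∀ n j, Loc {x | x.length ≤ b.eval (2 ^ n)} (Err n j)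
  locBad : ∀ n j, j ≤ n → Loc {x | x.length ≤ b.eval (2 ^ n)} (Bad n j)
  pErr : ∃ f : List (List Bool) → ℕ → ℕ → Bool, (∀ S n j, f S n j = true ↔ ofL S ∈ Err n j) ∧
    ∀ {α : Type} [TEnc α] {S : α → List (List Bool)} {n j N : α → ℕ}, Poly S → UPoly n →
      UPoly j → UPoly N → (∀ a, 2 ^ (b.eval (2 ^ (n a))) ≤ N a) →
      Poly (fun a => f (S a) (n a) (j a))
  pBad : ∃ f : List (List Bool) → ℕ → ℕ → Bool, (∀ S n j, f S n j = true ↔ ofL S ∈ Bad n j) ∧
    ∀ {α : Type} [TEnc α] {S : α → List (List Bool)} {n j N : α → ℕ}, Poly S → UPoly n →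
      UPoly j → UPoly N → (∀ a, 2 ^ (b.eval (2 ^ (n a))) ≤ N a) →
      Poly (fun a => f (S a) (n a) (j a))

open Classical in
/-- the schedule: the level of block `n`, if it is in use -/
noncomputable def sch (Bad Err : ℕ → ℕ → Set Oracle) (b : Polynomial ℕ) (t : ℕ)
    (L : List (List Bool)) (n : ℕ) : Option ℕ :=
  if h : ∃ i, Tt b t i = n then some (lev Bad Err t L (Tt b t) h.choose) else none

theorem sch_Tt (Bad Err : ℕ → ℕ → Set Oracle) (b : Polynomial ℕ) (t : ℕ)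
    (L : List (List Bool)) (i : ℕ) :
    sch Bad Err b t L (Tt b t i) = some (lev Bad Err t L (Tt b t) i) := by sorry

theorem eq_of_sch {Bad Err : ℕ → ℕ → Set Oracle} {b : Polynomial ℕ} {t : ℕ}
    {L : List (List Bool)} {n j : ℕ} (h : sch Bad Err b t L n = some j) :
    ∃ i, n = Tt b t i ∧ j = lev Bad Err t L (Tt b t) i := by sorry

theorem lev_le_Tt (Bad Err : ℕ → ℕ → Set Oracle) (b : Polynomial ℕ) (t : ℕ)
    (L : List (List Bool)) (i : ℕ) : lev Bad Err t L (Tt b t) i ≤ Tt b t i := by sorry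

theorem p_sch {Bad Err : ℕ → ℕ → Set Oracle} {b : Polynomial ℕ} (hc : Check Bad Err b) (t : ℕ)
    (L : List (List Bool)) {α : Type} [TEnc α] {n : α → ℕ} (hn : UPoly n) :
    Poly (fun a => sch Bad Err b t L (n a)) := by sorry

/-! ### Task E1: file `E1.lean` (imports BaseD, P1, P2, D1, D2): the concrete checks -/

theorem check_T (M : Alg) : ∃ b, Check BadT (ErrP M) b := by sorry

theorem check_S (M : Alg) : ∃ b, Check BadS (ErrP M) b := by sorry

theorem check_F (V : Alg) (p : Polynomial ℕ) : ∃ b, Check BadS (fun n _ => ErrF V p n) b := by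
  sorry

end Pool.Agent.H628R3.RO
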