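import Pool.Agent.H628R3.RO.BaseE
import Pool.Agent.H628R3.RO.C1
import Pool.Agent.H628R3.RO.D2
import Pool.Agent.H628R3.RO.P4

/-! Stubs: two-sided versions. Never import this file in a finished file. -/

namespace Pool.Agent.H628R3.RO

open MeasureTheory Pool.Agent.NPC

/-! ### Task C2: file `C2.lean` (imports C1): two-sided core -/

theorem core_two {R : Type} [Countable R] (Bad Inv Err : ℕ → ℕ → Set Oracle)
    (Good : R → ℕ → ℕ → Set Oracle) (K : ℕ → ℕ → Finset (List Bool))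
    (hK : ∀ n s, ∀ x ∈ K n s, n < x.length)
    (hKd : ∀ n n' s s', n ≠ n' → Disjoint (K n s) (K n' s'))
    (hBad : ∀ n s, Loc (K n s) (Bad n s)) (hInv : ∀ n s, MeasurableSet (Inv n s))
    (b : Polynomial ℕ) (hErr : ∀ n s, Loc {x | x.length ≤ b.eval (2 ^ n)} (Err n s))
    (hBad' : ∀ n s, s ≤ n → Loc {x | x.length ≤ b.eval (2 ^ n)} (Bad n s))
    (hGood : ∀ r, ∃ b' : Polynomial ℕ, ∀ n s, s ≤ n →
      Loc {x | x.length ≤ b'.eval (2 ^ n)} (Good r n s))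
    (e l : ℕ → ℝ) (he : Summable e) (he4 : ∀ s ≥ 4, e s ≤ 1 / 16)
    (h1 : ∀ n s, prob (Bad n s) ≤ e s) (C : ℝ) (hC : ∀ n ≥ 1, ∀ s, prob (Inv n s) ≤ C * prob (Bad n s))
    (h2 : ∀ s, ∃ c > 0, ∀ n ≥ 1, c ≤ prob (Bad n s))
    (hl0 : ∀ s, 0 ≤ l s) (hl1 : ∀ s, l s ≤ 1) (hl : ¬ Summable l)
    (key : ∀ r : R, ∃ n0, ∀ n ≥ n0, ∀ s, 4 ≤ s → s ≤ n → ∀ t < n, ∀ η : Set Oracle,
      Loc {x | x.length ≤ t} η →
      l s * (7 / 8 * prob η - prob (η ∩ (Bad n s ∩ Err n s)) / prob (Bad n s)) ≤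
        prob (η ∩ (Good r n s)ᶜ))
    (hb : ∀ m, m ≤ b.eval m) :
    ∀ᵐ A ∂randomOracle, (∀ n s, A ∉ Bad n s ∩ Err n s) → ∃ (t : ℕ) (L : List (List Bool)),
      (∃ k, ∀ i ≥ k, A ∉ Inv (Tt b t i) (lev Bad Err t L (Tt b t) i)) ∧
      ∀ r k, ∃ i ≥ k, A ∉ Good r (Tt b t i) (lev Bad Err t L (Tt b t) i) := by sorry

/-! ### Task M5: file `M5.lean` (imports M2) -/

/-- worlds with hits in one half only are typical, worlds with hits in both are bad -/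
theorem key_twoN {K : Set (List Bool)} (hK : K.Finite) {Z E η : Set Oracle} (hZ : Loc K Z)
    (hE : Loc K E) (hη : Loc K η) (W : Bool → Finset Cand) (hd : Disjoint (W false) (W true))
    {m w : ℕ} (hm : 1 ≤ m) (hw : ∀ i, (W i).card = w) (t : ℕ)
    (hW : ∀ i, ∀ κ ∈ W i, ∀ l < m, pos κ.1 l κ.2 ∈ K)
    (hη' : ∀ (B : Oracle) (h : Finset Cand), h ⊆ W false ∪ W true →
      (plant (allSpots m h) B ∈ η ↔ B ∈ η))
    (hS : 1 ≤ 2 * (1 - (1 / 2 : ℝ) ^ m) ^ w)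
    (hkey : ∀ B ∈ NoHit m (W false ∪ W true), ∃ (T : Finset Cand)
      (T' : Bool → Finset Cand → Finset Cand), T.card ≤ t ∧ (∀ i h, (T' i h).card ≤ t) ∧
      ∀ h : Bool → Finset Cand, (∀ i, h i ⊆ W i) → (∀ i, (h i).Nonempty) →
        (∀ i, Disjoint (h i) T) → (∀ i, Disjoint (h (!i)) (T' i (h i))) → B ∈ Z →
        (∀ i, plant (allSpots m (h i)) B ∈ Z) →
        plant (allSpots m (h false ∪ h true)) B ∈ E) :
    (1 - (1 / 2 : ℝ) ^ m) ^ w *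
      ((1 - (1 - (1 / 2 : ℝ) ^ m) ^ w) ^ 2 * prob η -
        4 * t * (1 / 2) ^ m * (1 - (1 - (1 / 2 : ℝ) ^ m) ^ w) * prob η -
        prob (η ∩ ((NoHit m (W false))ᶜ ∩ (NoHit m (W true))ᶜ ∩ E))) ≤
      (1 - (1 - (1 / 2 : ℝ) ^ m) ^ w) * prob (η ∩ Zᶜ) := by sorry

/-- worlds with hits in at least one half are typical, worlds without hits are bad -/
theorem key_twoC {K : Set (List Bool)} (hK : K.Finite) {Z E η : Set Oracle} (hZ : Loc K Z)
    (hE : Loc K E) (hη : Loc K η) (W : Bool → Finset Cand) (hd : Disjoint (W false) (W true))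
    {m w : ℕ} (hm : 1 ≤ m) (hw : ∀ i, (W i).card = w) (t : ℕ)
    (hW : ∀ i, ∀ κ ∈ W i, ∀ l < m, pos κ.1 l κ.2 ∈ K)
    (hη' : ∀ (B : Oracle) (h : Finset Cand), h ⊆ W false ∪ W true →
      (plant (allSpots m h) B ∈ η ↔ B ∈ η))
    (hkey : ∀ B ∈ NoHit m (W false ∪ W true), B ∉ E → ∃ T : Finset Cand, T.card ≤ t ∧
      ∃ i, ∀ h ⊆ W i, h.Nonempty → Disjoint h T → plant (allSpots m h) B ∉ Z) :
    (1 - (1 - (1 / 2 : ℝ) ^ m) ^ w) *
      (((1 - (1 / 2 : ℝ) ^ m) ^ w) ^ 2 * prob η - prob (η ∩ (NoHit m (W false ∪ W true) ∩ E))) -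
        t * (1 / 2) ^ m * ((1 - (1 / 2 : ℝ) ^ m) ^ w) ^ 2 * prob η ≤
      (1 - (1 / 2 : ℝ) ^ m) ^ w * prob (η ∩ Zᶜ) := by sorry

/-! ### Task D3: file `D3.lean` (imports BaseE, D1, M2, M4, D5): facts about the blocks -/

theorem card_halfN (i : Bool) (n : ℕ) : (halfN i n).card = 2 ^ n := by sorry

theorem card_halfC (i : Bool) (n s : ℕ) : (halfC i n s).card = lvC s * 2 ^ n := by sorry

theorem disjoint_halfN (n : ℕ) : Disjoint (halfN false n) (halfN true n) := by sorry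

theorem disjoint_halfC (n s : ℕ) : Disjoint (halfC false n s) (halfC true n s) := by sorry

theorem lt_length_spotsN {n s : ℕ} : ∀ x ∈ spotsN n s, n < x.length := by sorry

theorem lt_length_spotsC {n s : ℕ} : ∀ x ∈ spotsC n s, n < x.length := by sorry

theorem length_le_spotsN {n s : ℕ} (hs : s ≤ n) : ∀ x ∈ spotsN n s, x.length ≤ 4 * n + 4 := by
  sorry

theorem length_le_spotsC {n s : ℕ} (hs : s ≤ n) : ∀ x ∈ spotsC n s, x.length ≤ 5 * n + 5 := by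
  sorry

theorem disjoint_spotsN (n n' s s' : ℕ) (h : n ≠ n') : Disjoint (spotsN n s) (spotsN n' s') := by
  sorry

theorem disjoint_spotsC (n n' s s' : ℕ) (h : n ≠ n') : Disjoint (spotsC n s) (spotsC n' s') := by
  sorry

theorem loc_HitN (i : Bool) (n s : ℕ) : Loc (spotsN n s) (HitN i n s) := by sorry

theorem loc_HitC (i : Bool) (n s : ℕ) : Loc (spotsC n s) (HitC i n s) := by sorry

theorem loc_BadN (n s : ℕ) : Loc (spotsN n s) (BadN n s) := by sorry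

theorem loc_BadC (n s : ℕ) : Loc (spotsC n s) (BadC n s) := by sorry

theorem loc_TwoN (n s : ℕ) : Loc (spotsN n s) (TwoN n s) := by sorry

theorem BadC_eq (n s : ℕ) : BadC n s = NoHit n (halfC false n s ∪ halfC true n s) := by sorry

theorem prob_BadN (n s : ℕ) :
    prob (BadN n s) = (1 - (1 - (1 / 2 : ℝ) ^ (bitsN n s)) ^ (2 ^ n)) ^ 2 := by sorry

theorem prob_BadC (n s : ℕ) :
    prob (BadC n s) = ((1 - (1 / 2 : ℝ) ^ n) ^ (lvC s * 2 ^ n)) ^ 2 := by sorry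

theorem prob_BadN_le (n s : ℕ) : prob (BadN n s) ≤ (1 / 4) ^ (lvN s) := by sorry

theorem prob_BadC_le (n s : ℕ) : prob (BadC n s) ≤ (4 / 25) ^ (lvC s) := by sorry

theorem prob_BadN_ge (s : ℕ) : ∃ c > 0, ∀ n ≥ 1, c ≤ prob (BadN n s) := by sorry

theorem prob_BadC_ge (s : ℕ) : ∃ c > 0, ∀ n ≥ 1, c ≤ prob (BadC n s) := by sorry

theorem prob_TwoN_le (n s : ℕ) : prob (TwoN n s) ≤ 16 * prob (BadN n s) := by sorry

/-! ### Task D5: file `D5.lean` (imports BaseE, M4): numbers -/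

/-- `(1 - 1/N) ^ N ≥ 3/10` for `N = 2 ^ n ≥ 4` -/
theorem satC_ge {n : ℕ} (hn : 2 ≤ n) (j : ℕ) :
    (3 / 10 : ℝ) ^ j ≤ (1 - (1 / 2 : ℝ) ^ n) ^ (j * 2 ^ n) := by sorry

theorem satC_le (n j : ℕ) : (1 - (1 / 2 : ℝ) ^ n) ^ (j * 2 ^ n) ≤ (2 / 5) ^ j := by sorry

theorem summableN : Summable (fun s => (1 / 4 : ℝ) ^ (lvN s)) := by sorry

theorem summableC : Summable (fun s => (4 / 25 : ℝ) ^ (lvC s)) := by sorry

theorem not_summableN : ¬ Summable (fun s => (1 / 2 : ℝ) ^ (lvN s + 2)) := by sorry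

theorem not_summableC : ¬ Summable (fun s => (1 / 2 : ℝ) * (3 / 10) ^ (lvC s)) := by sorry

theorem leN4 {s : ℕ} (hs : 4 ≤ s) : (1 / 4 : ℝ) ^ (lvN s) ≤ 1 / 16 := by sorry

theorem leC4 {s : ℕ} (hs : 4 ≤ s) : (4 / 25 : ℝ) ^ (lvC s) ≤ 1 / 16 := by sorry

/-! ### Task D4: file `D4.lean` (imports D2, D3): the events are local -/

theorem loc_ErrN (V : Bool → Alg) (p : Bool → Polynomial ℕ) : ∃ b : Polynomial ℕ, ∀ n,
    Loc {x | x.length ≤ b.eval (2 ^ n)} (ErrN V p n) := by sorry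

theorem loc_ErrC (V : Bool → Alg) (p : Bool → Polynomial ℕ) : ∃ b : Polynomial ℕ, ∀ n,
    Loc {x | x.length ≤ b.eval (2 ^ n)} (ErrC V p n) := by sorry

theorem loc_ErrU (V : Alg) (p : Polynomial ℕ) : ∃ b : Polynomial ℕ, ∀ n,
    Loc {x | x.length ≤ b.eval (2 ^ n)} (ErrU V p n) := by sorry

theorem loc_GoodN (V : Bool → Alg) (p : Bool → Polynomial ℕ) (r : Alg) : ∃ b : Polynomial ℕ,
    ∀ n s, s ≤ n → Loc {x | x.length ≤ b.eval (2 ^ n)} (GoodN V p r n s) := by sorry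

theorem loc_GoodC (V : Bool → Alg) (p : Bool → Polynomial ℕ) (r : Alg) : ∃ b : Polynomial ℕ,
    ∀ n s, s ≤ n → Loc {x | x.length ≤ b.eval (2 ^ n)} (GoodC V p r n s) := by sorry

theorem loc_GoodU (V : Alg) (p : Polynomial ℕ) (r : Alg) : ∃ b : Polynomial ℕ,
    ∀ n s, s ≤ n → Loc {x | x.length ≤ b.eval (2 ^ n)} (GoodU V p r n s) := by sorry

/-! ### Tasks K4, K5, K6 (import D3, D4, M5, K2 for the touching lemma) -/

theorem key_N (V : Bool → Alg) (p : Bool → Polynomial ℕ) (r : Alg) : ∃ n0, ∀ n ≥ n0, ∀ s,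
    4 ≤ s → s ≤ n → ∀ t < n, ∀ η : Set Oracle, Loc {x | x.length ≤ t} η →
    (1 / 2 : ℝ) ^ (lvN s + 2) * (7 / 8 * prob η -
      prob (η ∩ (BadN n s ∩ ErrN V p n)) / prob (BadN n s)) ≤
      prob (η ∩ (GoodN V p r n s)ᶜ) := by sorry

theorem key_U (V : Alg) (p : Polynomial ℕ) (r : Alg) : ∃ n0, ∀ n ≥ n0, ∀ s,
    4 ≤ s → s ≤ n → ∀ t < n, ∀ η : Set Oracle, Loc {x | x.length ≤ t} η →
    (1 / 2 : ℝ) ^ (lvN s + 2) * (7 / 8 * prob η -
      prob (η ∩ (BadN n s ∩ ErrU V p n)) / prob (BadN n s)) ≤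
      prob (η ∩ (GoodU V p r n s)ᶜ) := by sorry

theorem key_C (V : Bool → Alg) (p : Bool → Polynomial ℕ) (r : Alg) : ∃ n0, ∀ n ≥ n0, ∀ s,
    4 ≤ s → s ≤ n → ∀ t < n, ∀ η : Set Oracle, Loc {x | x.length ≤ t} η →
    (1 / 2 : ℝ) * (3 / 10) ^ (lvC s) * (7 / 8 * prob η -
      prob (η ∩ (BadC n s ∩ ErrC V p n)) / prob (BadC n s)) ≤
      prob (η ∩ (GoodC V p r n s)ᶜ) := by sorry

/-! ### Task E2: file `E2.lean` (imports BaseE, P3, P1, P2, D3, D4, E1) -/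

theorem check_N (V : Bool → Alg) (p : Bool → Polynomial ℕ) :
    ∃ b, Check BadN (fun n _ => ErrN V p n) b := by sorry

theorem check_C (V : Bool → Alg) (p : Bool → Polynomial ℕ) :
    ∃ b, Check BadC (fun n _ => ErrC V p n) b := by sorry

theorem check_U (V : Alg) (p : Polynomial ℕ) :
    ∃ b, Check BadN (fun n _ => ErrU V p n) b := by sorry

/-! ### Task G1: file `G1.lean` (imports A3, D1, E1) -/

theorem isCoNP_LT (A : Oracle) : IsCoNP A {x | x = [] ∨ A ∉ BadT (siz x) (lvl x)} := by sorry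

theorem isNP_LS (A : Oracle) : IsNP A {x | x = [] ∨ A ∉ BadS (siz x) (lvl x)} := by sorry

/-! ### Task G2: file `G2.lean` (imports A3, D3, E1, P4) -/

theorem isNP_N (A : Oracle) (f : ℕ → Option ℕ) (hf : Poly (fun x : List Bool => f x.length))
    (hfn : ∀ n s, f n = some s → s ≤ n) (i : Bool) :
    IsNP A {x | ∃ s, f x.length = some s ∧ A ∈ HitN i x.length s} := by sorry

theorem isUP_N (A : Oracle) (f : ℕ → Option ℕ) (hf : Poly (fun x : List Bool => f x.length))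
    (hfn : ∀ n s, f n = some s → s ≤ n) (hA : ∀ n s, f n = some s → A ∉ TwoN n s) :
    IsUP A {x | ∃ s, f x.length = some s ∧ ∃ i, A ∈ HitN i x.length s} := by sorry

theorem isCoNP_C (A : Oracle) (f : ℕ → Option ℕ) (hf : Poly (fun x : List Bool => f x.length))
    (hfn : ∀ n s, f n = some s → s ≤ n) (i : Bool) :
    IsCoNP A {x | ∃ s, f x.length = some s ∧ A ∉ HitC i x.length s} := by sorry

end Pool.Agent.H628R3.RO
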